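import Pool.Agent.Lib_helper31.DLN.Ext

/-!
# The inequality for maps which are dominated by the constant terms at one place (project DLN)
-/

set_option autoImplicit false
set_option linter.unusedVariables false

open Finset MvPolynomial NumberField
open Pool.Agent.Lib_helper5.DLH (tot FS tot_log_eq_zero fs_log tot_add tot_le)

namespace Pool.Agent.DLN

section

variable {K : Type} [Field K] [NumberField K]

theorem inf_natCast (v : InfinitePlace K) (n : ℕ) : v (n : K) = n := by
  obtain ⟨L, _, _, w, φ, h1, h2⟩ := ext_inf v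
  have h3 : v (n : K) = v.val (n : K) := rfl
  rw [h3, ← h1, map_natCast, h2]

theorem fin_natCast_le (v : FinitePlace K) (n : ℕ) : v (n : K) ≤ 1 :=
  IsNonarchimedean.apply_natCast_le_one (f := v.val) (FinitePlace.add_le v)

theorem log_fin_natCast (v : FinitePlace K) {n : ℕ} (hn : 1 ≤ n) :
    -(Module.finrank ℚ K * Real.log n) ≤ Real.log (v (n : K)) := by
  have hn0 : (n : K) ≠ 0 := by
    rw [ne_eq, Nat.cast_eq_zero]
    omega
  have h1 := tot_log_eq_zero hn0
  unfold tot at h1
  have h2 : ∑ w : InfinitePlace K, (w.mult : ℝ) * Real.log (w (n : K)) =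
      Module.finrank ℚ K * Real.log n := by
    rw [sum_congr rfl fun w _ => by rw [inf_natCast], ← sum_mul, ← Nat.cast_sum,
      InfinitePlace.sum_mult_eq]
  rw [h2] at h1
  have h3 : ∑ᶠ w : FinitePlace K, -Real.log (w (n : K)) =
      -∑ᶠ w : FinitePlace K, Real.log (w (n : K)) := finsum_neg_distrib _
  have h4 : -Real.log (v (n : K)) ≤ ∑ᶠ w : FinitePlace K, -Real.log (w (n : K)) := by
    refine single_le_finsum (f := fun w : FinitePlace K => -Real.log (w (n : K))) v ?_
      fun w => ?_
    · have h5 := fs_log hn0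
      refine h5.subset fun w hw => ?_
      rw [Function.mem_support] at hw ⊢
      intro h0
      exact hw (by rw [h0, neg_zero])
    · have h6 := Real.log_nonpos (by positivity : (0 : ℝ) ≤ w (n : K)) (fin_natCast_le w n)
      linarith
  rw [h3] at h4
  linarith

end

section

variable {N : ℕ} {K : Type} [Field K] [NumberField K] {d : ℕ} {f : Fin N → MvPolynomial (Fin N) K}

/-- the bound for the height above which the dominated place is split -/
noncomputable def BB (N d : ℕ) (κ ε : ℝ) : ℝ :=
  2 * κ / ε * Real.log (2 * (cc N (d - 1) * GG N d ^ d)) +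
    32 * κ / dlt N d * (1 + 2 * N * Real.log d) + 1

theorem BB_pos {κ ε : ℝ} (hN : 1 ≤ N) (hd : 2 ≤ d) (hκ : 1 ≤ κ) (hε : 0 < ε) :
    0 < BB N d κ ε := by
  have h1 := dlt_pos N hd
  have hG1 := one_le_GG N d
  have hc1 : (1 : ℝ) ≤ cc N (d - 1) := by exact_mod_cast one_le_cc N (d - 1)
  have hd1 : (1 : ℝ) ≤ d := by exact_mod_cast (by omega : 1 ≤ d)
  have h2 : 0 ≤ Real.log (2 * (cc N (d - 1) * GG N d ^ d)) := by
    apply Real.log_nonneg
    have := one_le_pow₀ hG1 (n := d)
    nlinarith
  have h3 := Real.log_nonneg hd1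
  unfold BB
  positivity

theorem dom_aux {κ ε : ℝ} (hN : 1 ≤ N) (hd : 2 ≤ d) (hκ : 1 ≤ κ) (hε : 0 < ε) {n R q : ℝ}
    (hn : 1 ≤ n) (hR : 0 < R) (hq : 0 < q) (hqd : -(n * Real.log d) ≤ Real.log q)
    (h : n * BB N d κ ε ≤ 2 * κ * Real.log R) :
    1 < R ∧ 2 * (cc N (d - 1) * GG N d ^ d) ≤ R ^ ε ∧
      2 * ((d : ℝ) / q) ^ N ≤ R ^ (dlt N d / 16) := by
  have hdl := dlt_pos N hd
  have hG1 := one_le_GG N d
  have hc1 : (1 : ℝ) ≤ cc N (d - 1) := by exact_mod_cast one_le_cc N (d - 1)
  have hd1 : (1 : ℝ) ≤ d := by exact_mod_cast (by omega : 1 ≤ d)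
  have hd0 : (0 : ℝ) < d := by linarith
  have hκ0 : 0 < κ := by linarith
  have hX0 : (0 : ℝ) < 2 * (cc N (d - 1) * GG N d ^ d) := by positivity
  have hlX : 0 ≤ Real.log (2 * (cc N (d - 1) * GG N d ^ d)) := by
    apply Real.log_nonneg
    have := one_le_pow₀ hG1 (n := d)
    nlinarith
  have hld := Real.log_nonneg hd1
  set lX := Real.log (2 * (cc N (d - 1) * GG N d ^ d)) with hlXd
  set ld := Real.log (d : ℝ) with hldd
  have hN0 : (0 : ℝ) ≤ N := Nat.cast_nonneg N
  have hB : BB N d κ ε = 2 * κ / ε * lX + 32 * κ / dlt N d * (1 + 2 * N * ld) + 1 := rfl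
  have hp1 : 0 ≤ 2 * κ / ε * lX := by positivity
  have hp2 : 0 ≤ 32 * κ / dlt N d * (1 + 2 * N * ld) := by positivity
  have h1 : 2 * κ / ε * lX ≤ 2 * κ * Real.log R := by
    have : BB N d κ ε ≤ n * BB N d κ ε := le_mul_of_one_le_left (by rw [hB]; linarith) hn
    rw [hB] at this h
    linarith
  have h2 : n * (32 * κ / dlt N d * (1 + 2 * N * ld)) ≤ 2 * κ * Real.log R := by
    rw [hB] at h
    nlinarith
  have h3 : 0 < Real.log R := by
    have : 0 < n * BB N d κ ε := mul_pos (by linarith) (BB_pos hN hd hκ hε)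
    have h4 : 0 < 2 * κ * Real.log R := this.trans_le h
    by_contra hc
    rw [not_lt] at hc
    have := mul_nonpos_of_nonneg_of_nonpos (show 0 ≤ 2 * κ by linarith) hc
    linarith
  refine ⟨(Real.log_pos_iff hR.le).mp h3, ?_, ?_⟩
  · rw [Real.rpow_def_of_pos hR, ← Real.log_le_iff_le_exp hX0]
    have h5 : 2 * κ / ε * lX = 2 * κ * (lX / ε) := by ring
    rw [h5] at h1
    have h6 := le_of_mul_le_mul_left h1 (show 0 < 2 * κ by linarith)
    rw [div_le_iff₀ hε] at h6
    exact h6
  · have hY0 : (0 : ℝ) < 2 * ((d : ℝ) / q) ^ N := by positivity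
    rw [Real.rpow_def_of_pos hR, ← Real.log_le_iff_le_exp hY0]
    rw [Real.log_mul (by norm_num) (by positivity), Real.log_pow,
      Real.log_div hd0.ne' hq.ne']
    have h5 : n * (32 * κ / dlt N d * (1 + 2 * N * ld)) =
        2 * κ * (n * (1 + 2 * N * ld) / (dlt N d / 16)) := by
      field_simp
      ring
    rw [h5] at h2
    have h6 := le_of_mul_le_mul_left h2 (show 0 < 2 * κ by linarith)
    rw [div_le_iff₀ (by positivity)] at h6
    have h7 : Real.log 2 ≤ n := by
      have := Real.log_two_lt_d9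
      linarith
    have h8 : (N : ℝ) * (ld - Real.log q) ≤ N * (ld + n * ld) :=
      mul_le_mul_of_nonneg_left (by linarith) hN0
    have h9 : (N : ℝ) * (ld + n * ld) ≤ n * (2 * N * ld) := by
      have : 0 ≤ N * ld * (n - 1) := mul_nonneg (by positivity) (by linarith)
      nlinarith
    linarith

theorem split_inf {ε : ℝ} (hN : 1 ≤ N) (hd : 2 ≤ d) (hε : 0 < ε) (hε1 : ε ≤ 1)
    (hf : Mon d f) (hc : Cen d f) (v : InfinitePlace K) (hdom : ConstDom ε v.val d f)
    (hB : Module.finrank ℚ K * BB N d 1 ε ≤ 2 * Real.log (radius v.val d f)) :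
    Split v.val d f := by
  obtain ⟨L, _, _, w, φ, h1, h2⟩ := ext_inf v
  have hn : (1 : ℝ) ≤ Module.finrank ℚ K := by exact_mod_cast Module.finrank_pos
  have hR1 := one_le_radius v.val d f
  have hd0 : (0 : ℝ) < d := by exact_mod_cast (by omega : 0 < d)
  have hd1 : (1 : ℝ) ≤ d := by exact_mod_cast (by omega : 1 ≤ d)
  obtain ⟨h4, h5, h6⟩ := dom_aux (R := radius v.val d f) (q := w d) (κ := 1) hN hd le_rfl hε hn
    (by linarith)
    (by rw [h2]; exact hd0) (by
      rw [h2]
      have := Real.log_nonneg hd1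
      nlinarith) (by linarith)
  exact split_of_const hN hd hf hc h1 hε hε1 h4 hdom (by rw [h2]; exact hd0) h5 h6

theorem split_fin {ε : ℝ} (hN : 1 ≤ N) (hd : 2 ≤ d) (hε : 0 < ε) (hε1 : ε ≤ 1)
    (hf : Mon d f) (hc : Cen d f) (v : FinitePlace K) (hdom : ConstDom ε v.val d f)
    (hB : Module.finrank ℚ K * BB N d 1 ε ≤ 2 * Real.log (radius v.val d f)) :
    Split v.val d f := by
  have hn : (1 : ℝ) ≤ Module.finrank ℚ K := by exact_mod_cast Module.finrank_pos
  have hR1 := one_le_radius v.val d f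
  have hdK : (d : K) ≠ 0 := by
    rw [ne_eq, Nat.cast_eq_zero]
    omega
  have hv0 : 0 < v.val (d : K) := v.val.pos hdK
  obtain ⟨h4, h5, h6⟩ := dom_aux (R := radius v.val d f) (q := v.val d) (κ := 1) hN hd le_rfl hε
    hn (by linarith) hv0 (log_fin_natCast v (by omega)) (by linarith)
  obtain ⟨j, hj⟩ := const_attained hN hd hε hε1 h4 hdom
  obtain ⟨L, _, _, w, φ, h1⟩ := ext_na (FinitePlace.add_le v)
    ⟨coeff 0 (f j), lt_of_lt_of_le (one_lt_pow₀ h4 (by omega)) hj⟩
  have hwd : w (d : L) = v.val (d : K) := by rw [← h1 (d : K), map_natCast φ]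
  exact split_of_const hN hd hf hc h1 hε hε1 h4 hdom (by rw [hwd]; exact hv0) h5
    (by rw [hwd]; exact h6)

/-- the condition on the places in `V` -/
def Fine (ε : ℝ) (v : AbsoluteValue K ℝ) (d : ℕ) (f : Fin N → MvPolynomial (Fin N) K) : Prop :=
  Split v d f ∨ (Cen d f ∧ ConstDom ε v d f)

/-- reduction to split places -/
theorem reduce {ε κ : ℝ} (hN : 1 ≤ N) (hd : 2 ≤ d) (hε : 0 < ε) (hε1 : ε ≤ 1) (hκ : 1 ≤ κ)
    (hf : Mon d f) {s : ℕ} {V : Finset (AbsoluteValue K ℝ)} (hVs : V.card ≤ s)
    (hV : ∀ v ∈ V, Fine ε v d f) (hH : hrad d f ≤ κ * share V d f)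
    (hB : Module.finrank ℚ K * (4 * κ * s * BB N d 1 ε) ≤ hrad d f) :
    ∃ V' : Finset (AbsoluteValue K ℝ), V'.card ≤ s ∧ (∀ v ∈ V', Split v d f) ∧
      hrad d f ≤ 2 * κ * share V' d f := by
  classical
  set V' := V.filter fun v => Split v d f with hV'
  refine ⟨V', (card_le_card (filter_subset _ _)).trans hVs, fun v hv => (mem_filter.mp hv).2, ?_⟩
  have hn : (1 : ℝ) ≤ Module.finrank ℚ K := by exact_mod_cast Module.finrank_pos
  have hb0 := BB_pos (N := N) (d := d) hN hd (le_refl (1 : ℝ)) hε
  set n : ℝ := (Module.finrank ℚ K : ℝ) with hnd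
  set b : ℝ := n * BB N d 1 ε with hb
  have hb1 : 0 < b := by positivity
  have hs : (V.card : ℝ) ≤ s := by exact_mod_cast hVs
  -- the places which are dropped
  set SI : Finset (InfinitePlace K) := univ.filter fun v => v.val ∈ V with hSI
  set SF : Finset (FinitePlace K) := V.preimage (fun v : FinitePlace K => v.val)
    (fun v _ w _ h => Subtype.ext h) with hSF
  have hSIc : (SI.card : ℝ) ≤ V.card := by
    have : SI.card ≤ V.card := card_le_card_of_injOn (fun v => v.val)
      (fun v hv => mem_coe.mpr (mem_filter.mp (mem_coe.mp hv)).2) fun v _ w _ h => Subtype.ext h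
    exact_mod_cast this
  have hSFc : (SF.card : ℝ) ≤ V.card := by
    have : SF.card ≤ V.card := card_le_card_of_injOn (fun v => v.val)
      (fun v hv => mem_coe.mpr (mem_preimage.mp (mem_coe.mp hv))) fun v _ w _ h => Subtype.ext h
    exact_mod_cast this
  have hI : ∀ v : InfinitePlace K, (if v.val ∈ V ∨ Thin v.val d f then
      Real.log (radius v.val d f) else 0) ≤ (if v.val ∈ V' ∨ Thin v.val d f then
      Real.log (radius v.val d f) else 0) + (if v ∈ SI then b / 2 else 0) := by
    intro v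
    have hl := log_radius_nonneg' v.val d f
    by_cases h1 : v.val ∈ V' ∨ Thin v.val d f
    · have h2 : v.val ∈ V ∨ Thin v.val d f := h1.imp_left fun h => (mem_filter.mp h).1
      rw [if_pos h1, if_pos h2]
      split_ifs <;> linarith
    · rw [if_neg h1]
      rw [not_or] at h1
      by_cases h2 : v.val ∈ V
      · have h3 : v ∈ SI := mem_filter.mpr ⟨mem_univ _, h2⟩
        rw [if_pos (Or.inl h2), if_pos h3, zero_add]
        by_contra hc
        rw [not_le] at hc
        have h4 : ¬ Split v.val d f := fun h => h1.1 (mem_filter.mpr ⟨h2, h⟩)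
        rcases hV _ h2 with h5 | ⟨h5, h6⟩
        · exact h4 h5
        · exact h4 (split_inf hN hd hε hε1 hf h5 v h6 (by linarith))
      · rw [if_neg (not_or.mpr ⟨h2, h1.2⟩)]
        split_ifs <;> linarith
  have hF : ∀ v : FinitePlace K, (if v.val ∈ V ∨ Thin v.val d f then
      Real.log (radius v.val d f) else 0) ≤ (if v.val ∈ V' ∨ Thin v.val d f then
      Real.log (radius v.val d f) else 0) + (if v ∈ SF then b / 2 else 0) := by
    intro v
    have hl := log_radius_nonneg' v.val d f
    by_cases h1 : v.val ∈ V' ∨ Thin v.val d f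
    · have h2 : v.val ∈ V ∨ Thin v.val d f := h1.imp_left fun h => (mem_filter.mp h).1
      rw [if_pos h1, if_pos h2]
      split_ifs <;> linarith
    · rw [if_neg h1]
      rw [not_or] at h1
      by_cases h2 : v.val ∈ V
      · have h3 : v ∈ SF := mem_preimage.mpr h2
        rw [if_pos (Or.inl h2), if_pos h3, zero_add]
        by_contra hc
        rw [not_le] at hc
        have h4 : ¬ Split v.val d f := fun h => h1.1 (mem_filter.mpr ⟨h2, h⟩)
        rcases hV _ h2 with h5 | ⟨h5, h6⟩
        · exact h4 h5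
        · exact h4 (split_fin hN hd hε hε1 hf h5 v h6 (by linarith))
      · rw [if_neg (not_or.mpr ⟨h2, h1.2⟩)]
        split_ifs <;> linarith
  have hfs : ∀ U : Finset (AbsoluteValue K ℝ), FS fun v : FinitePlace K =>
      (if v.val ∈ U ∨ Thin v.val d f then Real.log (radius v.val d f) else 0) := by
    intro U
    refine (fs_radius d f).subset fun w hw => ?_
    rw [Function.mem_support] at hw ⊢
    intro h0
    apply hw
    simp only [h0, ite_self]
  have hfs2 : FS fun v : FinitePlace K => (if v ∈ SF then b / 2 else 0) := by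
    refine SF.finite_toSet.subset fun w hw => ?_
    rw [Function.mem_support] at hw
    by_contra hn
    exact hw (if_neg (by exact_mod_cast hn))
  have h1 : share V d f ≤ share V' d f +
      tot (fun v : InfinitePlace K => if v ∈ SI then b / 2 else 0)
        (fun v : FinitePlace K => if v ∈ SF then b / 2 else 0) := by
    unfold share
    rw [← tot_add (hfs V') hfs2]
    exact tot_le (hfs V) ((hfs V').add hfs2) hI hF
  have h2 : tot (fun v : InfinitePlace K => if v ∈ SI then b / 2 else 0)
        (fun v : FinitePlace K => if v ∈ SF then b / 2 else 0) ≤ 2 * (s * b) := by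
    unfold tot
    have h3 : ∑ v : InfinitePlace K, (v.mult : ℝ) * (if v ∈ SI then b / 2 else 0) ≤
        SI.card * b := by
      have h4 : ∑ v : InfinitePlace K, (v.mult : ℝ) * (if v ∈ SI then b / 2 else 0) ≤
          ∑ v : InfinitePlace K, (if v ∈ SI then b else 0) := by
        refine sum_le_sum fun v _ => ?_
        have hm : (v.mult : ℝ) ≤ 2 := by
          have : v.mult ≤ 2 := by
            unfold InfinitePlace.mult
            split_ifs <;> norm_num
          exact_mod_cast this
        split_ifs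
        · nlinarith
        · linarith
      refine h4.trans (le_of_eq ?_)
      rw [sum_ite_mem, univ_inter, sum_const, nsmul_eq_mul]
    have h5 : ∑ᶠ v : FinitePlace K, (if v ∈ SF then b / 2 else 0) ≤ SF.card * b := by
      rw [finsum_eq_sum_of_support_subset (s := SF)]
      · rw [sum_congr rfl fun v hv => if_pos hv, sum_const, nsmul_eq_mul]
        have : (0 : ℝ) ≤ SF.card := Nat.cast_nonneg _
        nlinarith
      · intro w hw
        rw [Function.mem_support] at hw
        by_contra hn
        exact hw (if_neg (by exact_mod_cast hn))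
    have h6 : (SI.card : ℝ) * b ≤ s * b := mul_le_mul_of_nonneg_right (hSIc.trans hs) hb1.le
    have h7 : (SF.card : ℝ) * b ≤ s * b := mul_le_mul_of_nonneg_right (hSFc.trans hs) hb1.le
    linarith
  have h3 : κ * share V d f ≤ κ * (share V' d f + 2 * (s * b)) :=
    mul_le_mul_of_nonneg_left (by linarith) (by linarith)
  have h4 : n * (4 * κ * s * BB N d 1 ε) = 2 * (κ * (2 * (s * b))) := by
    rw [hb]
    ring
  rw [h4] at hB
  linarith

end

end Pool.Agent.DLN
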