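import Pool.Agent.Lib_helper31.DLN.Num2

/-!
# The product formula for the determinant (project DLN)
-/

set_option autoImplicit false
set_option linter.unusedVariables false

open Finset MvPolynomial NumberField
open Pool.Agent.Lib_helper5.DLH (tot FS tot_add tot_mul tot_le tot_sum tot_nonneg tot_const
  tot_log_eq_zero fs_log)

namespace Pool.Agent.DLN

/-! ### points in general position -/

section points

variable {N : ℕ} {F : Type*} [Field F]

/-- the matrix of the digit functions at the points `P b` -/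
noncomputable def dmat (d : ℕ) (f : Fin N → MvPolynomial (Fin N) F) (T m : ℕ) (P : Gam N m → Fin N → F) :
    Matrix (Gam N m) (Gam N m) F :=
  Matrix.of fun (b : Gam N m) (γ : Gam N m) => eval (P b) (dig d f T γ)

theorem exists_points {d : ℕ} (hd : 1 ≤ d) {f : Fin N → MvPolynomial (Fin N) F} (hf : Mon d f)
    {T m : ℕ} (hT : m < d ^ T) {S : Set (Fin N → F)}
    (hS : ∀ H : MvPolynomial (Fin N) F, DG m H → (∀ x ∈ S, eval x H = 0) → H = 0) :
    ∃ P : Gam N m → Fin N → F, (∀ b, P b ∈ S) ∧ (dmat d f T m P).det ≠ 0 := by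
  classical
  have hlt : ∀ γ ∈ Gam N m, ∀ i, γ i < d ^ T := by
    intro γ hγ i
    have h1 := (Finsupp.le_degree i γ).trans (mem_Gam.mp hγ)
    omega
  have hLM : ∀ γ ∈ Gam N m, LM γ (dig d f T γ) := fun γ hγ => LM.dig hd hf T γ (hlt γ hγ)
  let e : (Fin N → F) → (Gam N m → F) := fun x γ => eval x (dig d f T γ)
  have hspan : Submodule.span F (e '' S) = ⊤ := by
    by_contra hcon
    obtain ⟨φ, hφ0, hφ⟩ := Submodule.exists_le_ker_of_lt_top _ (lt_top_iff_ne_top.mpr hcon)
    let c : (Fin N →₀ ℕ) → F := fun γ => if h : γ ∈ Gam N m then φ (Pi.single ⟨γ, h⟩ 1) else 0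
    have hc : ∀ γ : Gam N m, c γ = φ (Pi.single γ 1) := fun γ => by
      show (if h : (γ : Fin N →₀ ℕ) ∈ Gam N m then φ (Pi.single ⟨γ, h⟩ 1) else 0) = _
      rw [dif_pos γ.2]
    set H : MvPolynomial (Fin N) F := ∑ γ ∈ Gam N m, C (c γ) * dig d f T γ with hH
    have hev : ∀ x, eval x H = φ (e x) := by
      intro x
      rw [hH, map_sum, ← sum_coe_sort (Gam N m)]
      have h1 : e x = ∑ γ : Gam N m, e x γ • (Pi.single γ (1 : F) : Gam N m → F) := by
        funext δ
        rw [Finset.sum_apply, Finset.sum_eq_single δ]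
        · simp
        · intro γ _ hγ
          simp [Pi.single_apply, Ne.symm hγ]
        · intro h
          exact absurd (mem_univ δ) h
      rw [h1, map_sum]
      refine sum_congr rfl fun γ _ => ?_
      rw [map_smul, smul_eq_mul, map_mul, eval_C, hc γ, mul_comm]
    have hH0 : H = 0 := by
      refine hS H ?_ fun x hx => ?_
      · refine DG.sum _ _ fun γ hγ => ?_
        exact (((hLM γ hγ).dg).mono (mem_Gam.mp hγ)).C_mul _
      · rw [hev]
        have h1 : e x ∈ LinearMap.ker φ := hφ (Submodule.subset_span ⟨x, hx, rfl⟩)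
        exact h1
    have hc0 := LM.indep hLM c (hH ▸ hH0)
    apply hφ0
    refine LinearMap.pi_ext' fun γ => LinearMap.ext_ring ?_
    rw [LinearMap.comp_apply, LinearMap.comp_apply, LinearMap.single_apply, LinearMap.zero_apply,
      ← hc γ]
    exact hc0 γ γ.2
  obtain ⟨b, hbS, hb1, hb2⟩ := exists_linearIndependent F (e '' S)
  rw [hspan] at hb1
  let B : Module.Basis b F (Gam N m → F) := Module.Basis.mk hb2 (by rw [Subtype.range_coe, hb1])
  have : Finite b := Module.Finite.finite_basis B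
  letI : Fintype b := Fintype.ofFinite b
  have hcard : Fintype.card (Gam N m) = Fintype.card b := by
    rw [← Module.finrank_eq_card_basis B, Module.finrank_fintype_fun_eq_card]
  let σ : Gam N m ≃ b := Fintype.equivOfCardEq hcard
  have hex : ∀ γ : Gam N m, ∃ x ∈ S, e x = (σ γ : Gam N m → F) := fun γ => by
    obtain ⟨x, hx, hxe⟩ := hbS (σ γ).2
    exact ⟨x, hx, hxe⟩
  choose P hPS hPe using hex
  refine ⟨P, hPS, ?_⟩
  have h1 : LinearIndependent F (fun γ => (dmat d f T m P).row γ) := by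
    have h2 : (fun γ => (dmat d f T m P).row γ) = (fun y : b => (y : Gam N m → F)) ∘ σ := by
      funext γ
      show (fun δ : Gam N m => eval (P γ) (dig d f T δ)) = (σ γ : Gam N m → F)
      exact hPe γ
    rw [h2]
    exact hb2.comp σ σ.injective
  have h2 := Matrix.linearIndependent_rows_iff_isUnit.mp h1
  exact ((Matrix.isUnit_iff_isUnit_det _).mp h2).ne_zero

end points

/-! ### change of fields -/

section map

variable {N : ℕ} {F L : Type*} [Field F] [Field L] (φ : F →+* L)

/-- the map over the larger field -/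
noncomputable def fL (f : Fin N → MvPolynomial (Fin N) F) : Fin N → MvPolynomial (Fin N) L :=
  fun i => MvPolynomial.map φ (f i)

theorem eval_fL (f : Fin N → MvPolynomial (Fin N) F) (x : Fin N → F) (i : Fin N) :
    eval (fun j => φ (x j)) (fL φ f i) = φ (eval x (f i)) := by
  unfold fL
  rw [eval_map]
  exact (MvPolynomial.eval₂_comp_left φ (RingHom.id F) x (f i)).symm

theorem pm_fL (f : Fin N → MvPolynomial (Fin N) F) (x : Fin N → F) :
    pm (fL φ f) (fun j => φ (x j)) = fun j => φ (pm f x j) := by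
  funext i
  exact eval_fL φ f x i

theorem iter_fL (f : Fin N → MvPolynomial (Fin N) F) (n : ℕ) (x : Fin N → F) :
    (pm (fL φ f))^[n] (fun j => φ (x j)) = fun j => φ ((pm f)^[n] x j) := by
  induction n generalizing x with
  | zero => rfl
  | succ n ih =>
    rw [Function.iterate_succ_apply, Function.iterate_succ_apply, pm_fL, ih]

theorem eval_dig_fL (d : ℕ) (f : Fin N → MvPolynomial (Fin N) F) (T : ℕ) :
    ∀ (γ : Fin N →₀ ℕ) (x : Fin N → F), eval (fun j => φ (x j)) (dig d (fL φ f) T γ) =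
      φ (eval x (dig d f T γ)) := by
  induction T with
  | zero =>
    intro γ x
    rw [dig_zero, dig_zero, map_one, map_one, map_one]
  | succ T ih =>
    intro γ x
    rw [eval_dig_succ, eval_dig_succ, map_mul, map_prod, pm_fL, ih]
    congr 1
    exact prod_congr rfl fun i _ => (map_pow φ _ _).symm

theorem det_fL (d : ℕ) (f : Fin N → MvPolynomial (Fin N) F) (T m : ℕ)
    (P : Gam N m → Fin N → F) :
    (dmat d (fL φ f) T m (fun b j => φ (P b j))).det = φ (dmat d f T m P).det := by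
  rw [RingHom.map_det]
  congr 1
  ext b γ
  exact eval_dig_fL φ d f T γ (P b)

theorem Mon.fL {d : ℕ} {f : Fin N → MvPolynomial (Fin N) F} (hf : Mon d f) :
    Mon d (DLN.fL φ f) := by
  intro i α hα
  have h1 : DLN.fL φ f i - monomial (Finsupp.single i d) 1 =
      MvPolynomial.map φ (f i - monomial (Finsupp.single i d) 1) := by
    unfold DLN.fL
    rw [map_sub, map_monomial, φ.map_one]
  rw [h1, coeff_map] at hα
  refine hf i α fun h => hα ?_
  rw [h, map_zero]

theorem RadLe.fL {v : AbsoluteValue F ℝ} {w : AbsoluteValue L ℝ} (hw : ∀ a, w (φ a) = v a) {d : ℕ}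
    {f : Fin N → MvPolynomial (Fin N) F} {R : ℝ} (h : RadLe v d f R) :
    RadLe w d (DLN.fL φ f) R := by
  refine ⟨h.1, fun i α hα => ?_⟩
  have h1 : coeff α (DLN.fL φ f i) = φ (coeff α (f i)) := coeff_map φ (f i) α
  rw [h1, hw]
  exact h.2 i α hα

theorem Esc.fL {v : AbsoluteValue F ℝ} {w : AbsoluteValue L ℝ} (hw : ∀ a, w (φ a) = v a) {d : ℕ}
    {f : Fin N → MvPolynomial (Fin N) F} {J : ℕ} {B g : ℝ} {x : Fin N → F}
    (h : Esc v d f J B g x) : Esc w d (DLN.fL φ f) J B g (fun j => φ (x j)) := by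
  intro j hj i
  rw [iter_fL, hw]
  exact h j hj i

end map

/-! ### light places -/

section light

variable {N : ℕ} {F : Type*} [Field F] {v : AbsoluteValue F ℝ} {d : ℕ}
  {f : Fin N → MvPolynomial (Fin N) F} {B : ℝ} {T m n : ℕ} {P : Gam N m → Fin N → F}

/-- the common part of the bounds -/
noncomputable def lb (v : AbsoluteValue F ℝ) (d : ℕ) (f : Fin N → MvPolynomial (Fin N) F) (B : ℝ)
    (T m n : ℕ) (P : Gam N m → Fin N → F) : ℝ :=
  (cc N m * (N * (d - 1 : ℕ) * T) : ℝ) * Real.log B +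
    n * ∑ b, exs v B ((pm f)^[T] (P b)) / (d : ℝ) ^ T

theorem entry_le (hL : Loc v d f B) (hd : 1 ≤ d) (hmn : m ≤ n) (b γ : Gam N m) :
    v (dmat d f T m P b γ) ≤
      Real.exp (n * (exs v B ((pm f)^[T] (P b)) / (d : ℝ) ^ T)) * B ^ (N * (d - 1) * T) := by
  have hg0 : 0 ≤ exs v B ((pm f)^[T] (P b)) / (d : ℝ) ^ T :=
    div_nonneg (exs_nonneg _ _ _) (by positivity)
  have h1 := abs_dig_le (w := v) hd hL.one_le T γ (P b) _ hg0 (hL.esc hd (P b) T)
  refine h1.trans ?_
  rw [mul_comm]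
  refine mul_le_mul_of_nonneg_right (Real.exp_le_exp.mpr ?_) (pow_nonneg hL.pos.le _)
  refine mul_le_mul_of_nonneg_right ?_ hg0
  exact_mod_cast (mem_Gam.mp γ.2).trans hmn

theorem light_ar (hL : Loc v d f B) (hd : 1 ≤ d) (hmn : m ≤ n) (hD : (dmat d f T m P).det ≠ 0) :
    Real.log (v (dmat d f T m P).det) ≤ lb v d f B T m n P + cc N m * Real.log (cc N m) := by
  have h := det_le_fac (w := v) (dmat d f T m P)
    (fun b => Real.exp (n * (exs v B ((pm f)^[T] (P b)) / (d : ℝ) ^ T)))
    (fun _ => B ^ (N * (d - 1) * T)) (fun b γ => entry_le hL hd hmn b γ)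
  rw [← Real.exp_sum, prod_const, card_univ, Fintype.card_coe, card_Gam, ← mul_sum] at h
  have hB := hL.pos
  have hv : 0 < v (dmat d f T m P).det := v.pos hD
  have hfac : (0 : ℝ) < ((cc N m).factorial : ℝ) := by exact_mod_cast (cc N m).factorial_pos
  have h2 := Real.log_le_log hv h
  rw [Real.log_mul hfac.ne' (by positivity), Real.log_mul (Real.exp_pos _).ne' (by positivity),
    Real.log_exp, Real.log_pow, Real.log_pow] at h2
  have h3 := log_factorial_le (cc N m)
  unfold lb
  push_cast at h2 ⊢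
  linarith

theorem light_na (hv : IsNonarchimedean v) (hL : Loc v d f B) (hd : 1 ≤ d) (hmn : m ≤ n)
    (hD : (dmat d f T m P).det ≠ 0) :
    Real.log (v (dmat d f T m P).det) ≤ lb v d f B T m n P := by
  have hB := hL.pos
  have h := na_det_le hv (dmat d f T m P)
    (fun b => Real.exp (n * (exs v B ((pm f)^[T] (P b)) / (d : ℝ) ^ T)))
    (fun _ => B ^ (N * (d - 1) * T)) (fun _ => (Real.exp_pos _).le) (fun _ => by positivity)
    (fun b γ => entry_le hL hd hmn b γ)
  rw [← Real.exp_sum, prod_const, card_univ, Fintype.card_coe, card_Gam, ← mul_sum] at h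
  have hv : 0 < v (dmat d f T m P).det := v.pos hD
  have h2 := Real.log_le_log hv h
  rw [Real.log_mul (Real.exp_pos _).ne' (by positivity),
    Real.log_exp, Real.log_pow, Real.log_pow] at h2
  unfold lb
  push_cast at h2 ⊢
  linarith

end light

/-! ### the product formula -/

variable {N : ℕ} {K : Type*} [Field K] [NumberField K]

theorem core {d : ℕ} {f : Fin N → MvPolynomial (Fin N) K} (G : Glob d f) {T m n : ℕ}
    {P : Gam N m → Fin N → K} (hD : (dmat d f T m P).det ≠ 0) (GI : InfinitePlace K → ℝ)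
    (GF : FinitePlace K → ℝ) (hGF : FS GF)
    (hI : ∀ w, Real.log (w.val (dmat d f T m P).det) ≤ lb w.val d f (G.BI w) T m n P + GI w)
    (hF : ∀ w, Real.log (w.val (dmat d f T m P).det) ≤ lb w.val d f (G.BF w) T m n P + GF w) :
    0 ≤ (cc N m * (N * (d - 1 : ℕ) * T) : ℝ) * G.hB + n * ∑ b, hat f d (P b) + tot GI GF := by
  have hd0 := G.d_pos
  have hfs1 : FS fun w => ((cc N m * (N * (d - 1 : ℕ) * T) : ℝ)) * Real.log (G.BF w) := G.fs.mul _
  have hfs2 : ∀ b, FS fun w => exs w.val (G.BF w) ((pm f)^[T] (P b)) := fun b => G.fsX _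
  have hfs3 : FS fun w => ∑ b, ((d : ℝ) ^ T)⁻¹ * exs w.val (G.BF w) ((pm f)^[T] (P b)) :=
    FS.sum _ fun b _ => (hfs2 b).mul _
  have hfs4 : FS fun w => (n : ℝ) * ∑ b, ((d : ℝ) ^ T)⁻¹ *
      exs w.val (G.BF w) ((pm f)^[T] (P b)) := hfs3.mul _
  have e : ∀ (v : AbsoluteValue K ℝ) (B : ℝ), lb v d f B T m n P =
      (cc N m * (N * (d - 1 : ℕ) * T) : ℝ) * Real.log B +
        n * ∑ b, ((d : ℝ) ^ T)⁻¹ * exs v B ((pm f)^[T] (P b)) := by
    intro v B
    unfold lb
    congr 2
    exact sum_congr rfl fun b _ => by rw [div_eq_inv_mul]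
  have h0 := tot_log_eq_zero hD
  have h1 : tot (fun w : InfinitePlace K => Real.log (w (dmat d f T m P).det))
      (fun w : FinitePlace K => Real.log (w (dmat d f T m P).det)) ≤
      tot (fun w => ((cc N m * (N * (d - 1 : ℕ) * T) : ℝ) * Real.log (G.BI w) +
        n * ∑ b, ((d : ℝ) ^ T)⁻¹ * exs w.val (G.BI w) ((pm f)^[T] (P b))) + GI w)
        (fun w => ((cc N m * (N * (d - 1 : ℕ) * T) : ℝ) * Real.log (G.BF w) +
        n * ∑ b, ((d : ℝ) ^ T)⁻¹ * exs w.val (G.BF w) ((pm f)^[T] (P b))) + GF w) := by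
    refine tot_le (fs_log hD) ((hfs1.add hfs4).add hGF) (fun w => ?_) fun w => ?_
    · rw [← e]
      exact hI w
    · rw [← e]
      exact hF w
  rw [h0, tot_add (hfs1.add hfs4) hGF, tot_add hfs1 hfs4, tot_mul, tot_mul,
    tot_sum _ _ _ (fun b _ => (hfs2 b).mul _)] at h1
  have h2 : ∑ b, tot (fun w => ((d : ℝ) ^ T)⁻¹ * exs w.val (G.BI w) ((pm f)^[T] (P b)))
      (fun w => ((d : ℝ) ^ T)⁻¹ * exs w.val (G.BF w) ((pm f)^[T] (P b))) ≤
      ∑ b, hat f d (P b) := by
    refine sum_le_sum fun b _ => ?_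
    rw [tot_mul]
    have h3 := G.xx_le_hat ((pm f)^[T] (P b))
    rw [G.hat_iter] at h3
    have h4 : 0 < (d : ℝ) ^ T := by positivity
    rw [inv_mul_le_iff₀ h4]
    exact h3
  have h3 := mul_le_mul_of_nonneg_left h2 (Nat.cast_nonneg (α := ℝ) n)
  have h4 : tot (fun w => Real.log (G.BI w)) (fun w => Real.log (G.BF w)) = G.hB := rfl
  rw [h4] at h1
  linarith

end Pool.Agent.DLN
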