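import Pool.Agent.Lib_helper31.DLN.Num3

/-!
# Small points lie on a hypersurface (project DLN)
-/

set_option autoImplicit false
set_option linter.unusedVariables false

open Finset MvPolynomial NumberField
open Pool.Agent.Lib_helper5.DLH (tot FS)

namespace Pool.Agent.DLN

universe u

theorem na_ext {F L : Type*} [Field F] [Field L] {v : AbsoluteValue F ℝ} {w : AbsoluteValue L ℝ}
    (φ : F →+* L) (hw : ∀ a, w (φ a) = v a) (hv : IsNonarchimedean v) : IsNonarchimedean w := by
  letI : NormedField L := w.toNormedField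
  have h : ∀ n : ℕ, ‖(n : L)‖ ≤ 1 := by
    intro n
    show w (n : L) ≤ 1
    rw [← map_natCast φ, hw]
    exact hv.apply_natCast_le_one
  have h2 : IsUltrametricDist L :=
    IsUltrametricDist.isUltrametricDist_of_forall_norm_natCast_le_one h
  exact IsUltrametricDist.isNonarchimedean_norm

section far

variable {N : ℕ} {K : Type u} [Field K]

/-- the points of `X` are far, in a fixed coordinate, from an auxiliary point with small image -/
def Far (v : AbsoluteValue K ℝ) (d : ℕ) (f : Fin N → MvPolynomial (Fin N) K) (t : ℝ)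
    (X : Set (Fin N → K)) : Prop :=
  ∃ (L : Type u) (_ : Field L) (w : AbsoluteValue L ℝ) (φ : K →+* L) (z : Fin N → L) (i : Fin N),
    (∀ a, w (φ a) = v a) ∧
    (∀ j, w (eval z (fL φ f j)) ≤ Real.exp ((1 + t) * Real.log (radius v d f))) ∧
    ∀ x ∈ X, Real.exp ((1 - t) * Real.log (radius v d f)) ≤ w (φ (x i) - z i)

theorem Far.mono {v : AbsoluteValue K ℝ} {d : ℕ} {f : Fin N → MvPolynomial (Fin N) K} {t : ℝ}
    {X Y : Set (Fin N → K)} (h : Far v d f t X) (hYX : Y ⊆ X) : Far v d f t Y := by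
  obtain ⟨L, hL, w, φ, z, i, h1, h2, h3⟩ := h
  exact ⟨L, hL, w, φ, z, i, h1, h2, fun x hx => h3 x (hYX hx)⟩

variable {v : AbsoluteValue K ℝ} {d k T : ℕ} {f : Fin N → MvPolynomial (Fin N) K} {t : ℝ}
  {X : Set (Fin N → K)} {P : Gam N (d * k) → Fin N → K}

theorem exp_log_radius (v : AbsoluteValue K ℝ) (d : ℕ) (f : Fin N → MvPolynomial (Fin N) K) :
    Real.exp (Real.log (radius v d f)) = radius v d f :=
  Real.exp_log (zero_lt_one.trans_le (one_le_radius v d f))

theorem far_na (hv : IsNonarchimedean v) (hp : Par N d k T) (hf : Mon d f) (ht : 0 ≤ t)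
    (htδ : t ≤ dlt N d / 8) (hF : Far v d f t X) (hPX : ∀ b, P b ∈ X)
    (hD : (dmat d f T (d * k) P).det ≠ 0) :
    Real.log (v (dmat d f T (d * k) P).det) ≤
      -(dlt N d / 4 * (Real.log (radius v d f) * k * cc N (d * k))) + ((d * k + k : ℕ) : ℝ) *
        ∑ b, exs v (radius v d f) ((pm f)^[T] (P b)) / (d : ℝ) ^ T := by
  obtain ⟨L, hL, w, φ, z, i, h1, h2, h3⟩ := hF
  have hd1 : 1 ≤ d := by have := hp.hd; omega
  have hdR : (0 : ℝ) < d := by exact_mod_cast hd1
  have hR := radius_spec v d f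
  have hloc := Loc.na hv hd1 hf hR
  have hdet : (dmat d (fL φ f) T (d * k) (fun b j => φ (P b j))).det ≠ 0 := by
    rw [det_fL]
    exact (map_ne_zero φ).mpr hD
  have h4 := gain_na (na_ext φ h1 hv) hp (Mon.fL φ hf)
    (L := Real.log (radius v d f)) (Real.log_nonneg (one_le_radius v d f)) ht htδ
    (by rw [exp_log_radius]; exact RadLe.fL φ h1 hR) h2 i (fun b j => φ (P b j))
    (fun b => exs v (radius v d f) ((pm f)^[T] (P b)) / (d : ℝ) ^ T)
    (fun b => div_nonneg (exs_nonneg _ _ _) (by positivity))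
    (fun b => by
      rw [exp_log_radius]
      exact Esc.fL φ h1 (hloc.esc hd1 (P b) T))
    (fun b => h3 (P b) (hPX b)) hdet
  rw [det_fL, h1] at h4
  exact h4

theorem far_ar (hp : Par N d k T) (hf : Mon d f) (ht : 0 ≤ t)
    (htδ : t ≤ dlt N d / 8) (hlg : 16 * lg N d k ≤ dlt N d * Real.log (radius v d f))
    (hF : Far v d f t X) (hPX : ∀ b, P b ∈ X) (hD : (dmat d f T (d * k) P).det ≠ 0) :
    Real.log (v (dmat d f T (d * k) P).det) ≤
      -(dlt N d / 4 * (Real.log (radius v d f) * k * cc N (d * k))) + ((d * k + k : ℕ) : ℝ) *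
        ∑ b, exs v (GG N d * radius v d f) ((pm f)^[T] (P b)) / (d : ℝ) ^ T := by
  obtain ⟨L, hL, w, φ, z, i, h1, h2, h3⟩ := hF
  have hd1 : 1 ≤ d := by have := hp.hd; omega
  have hdR : (0 : ℝ) < d := by exact_mod_cast hd1
  have hR := radius_spec v d f
  have hloc : Loc v d f (GG N d * radius v d f) := Loc.ar hp.hd hf hR
  have hdet : (dmat d (fL φ f) T (d * k) (fun b j => φ (P b j))).det ≠ 0 := by
    rw [det_fL]
    exact (map_ne_zero φ).mpr hD
  have h4 := gain_ar (w := w) hp (Mon.fL φ hf)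
    (L := Real.log (radius v d f)) (Real.log_nonneg (one_le_radius v d f)) ht htδ hlg
    (by rw [exp_log_radius]; exact RadLe.fL φ h1 hR) h2 i (fun b j => φ (P b j))
    (fun b => exs v (GG N d * radius v d f) ((pm f)^[T] (P b)) / (d : ℝ) ^ T)
    (fun b => div_nonneg (exs_nonneg _ _ _) (by positivity))
    (fun b => by
      rw [exp_log_radius]
      exact Esc.fL φ h1 (hloc.esc hd1 (P b) T))
    (fun b => h3 (P b) (hPX b)) hdet
  rw [det_fL, h1] at h4
  exact h4

theorem le_lb {B : ℝ} (hB : 1 ≤ B) (n : ℕ) :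
    (n : ℝ) * ∑ b, exs v B ((pm f)^[T] (P b)) / (d : ℝ) ^ T ≤ lb v d f B T (d * k) n P := by
  unfold lb
  have h1 : 0 ≤ Real.log B := Real.log_nonneg hB
  have h2 : 0 ≤ (cc N (d * k) * (N * (d - 1 : ℕ) * T) : ℝ) * Real.log B := by positivity
  linarith

end far

variable {N : ℕ} {K : Type u} [Field K] [NumberField K]

theorem core2 {d k T : ℕ} {f : Fin N → MvPolynomial (Fin N) K} {t : ℝ}
    {X : Set (Fin N → K)} {P : Gam N (d * k) → Fin N → K} (hp : Par N d k T) (hf : Mon d f)
    (ht : 0 ≤ t) (htδ : t ≤ dlt N d / 8) (SI : Finset (InfinitePlace K))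
    (SF : Finset (FinitePlace K))
    (hSI : ∀ v ∈ SI, 16 * lg N d k ≤ dlt N d * Real.log (radius v.val d f) → Far v.val d f t X)
    (hSF : ∀ v ∈ SF, Far v.val d f t X) (hPX : ∀ b, P b ∈ X)
    (hD : (dmat d f T (d * k) P).det ≠ 0) :
    0 ≤ (cc N (d * k) * (N * (d - 1 : ℕ) * T) : ℝ) *
        (hrad d f + Module.finrank ℚ K * Real.log (GG N d)) +
      ((d * k + k : ℕ) : ℝ) * ∑ b, hat f d (P b) +
      (Module.finrank ℚ K * (cc N (d * k) * Real.log (cc N (d * k))) -
        dlt N d / 4 * (k * cc N (d * k)) *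
          (∑ v ∈ SI, (v.mult : ℝ) * (Real.log (radius v.val d f) - 16 * lg N d k / dlt N d) +
            ∑ v ∈ SF, Real.log (radius v.val d f))) := by
  classical
  have hdl := dlt_pos N hp.hd
  have hk1 := hp.K_one
  have hlg1 : 1 ≤ lg N d k := one_le_lg hk1
  set c : ℝ := (cc N (d * k) : ℝ) with hc
  have hc1 : 1 ≤ c := by
    rw [hc]
    exact_mod_cast one_le_cc N (d * k)
  have hcl : 0 ≤ c * Real.log c := mul_nonneg (by linarith) (Real.log_nonneg hc1)
  set e : ℝ := dlt N d / 4 * (k * c) with he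
  have he0 : 0 ≤ e := by positivity
  set GI : InfinitePlace K → ℝ := fun v => c * Real.log c -
    (if v ∈ SI then e * (Real.log (radius v.val d f) - 16 * lg N d k / dlt N d) else 0) with hGI
  set GF : FinitePlace K → ℝ := fun v =>
    -(if v ∈ SF then e * Real.log (radius v.val d f) else 0) with hGF
  have hsup : Function.support GF ⊆ SF := by
    intro v hv
    rw [Function.mem_support] at hv
    by_contra hn
    apply hv
    rw [hGF]
    simp only [if_neg (by exact_mod_cast hn : v ∉ SF), neg_zero]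
  have hfs : FS GF := SF.finite_toSet.subset hsup
  have hmn : d * k ≤ d * k + k := by omega
  have hd1 : 1 ≤ d := by have := hp.hd; omega
  have h := core (glob hp.hd hf) (n := d * k + k) hD GI GF hfs
    (fun v => by
      have hloc := (glob hp.hd hf).hI v
      have h1 := light_ar hloc hd1 hmn hD
      rw [← hc] at h1
      by_cases hv : v ∈ SI
      · rw [hGI]
        simp only [if_pos hv]
        rcases lt_or_ge (dlt N d * Real.log (radius v.val d f)) (16 * lg N d k) with h2 | h2
        · have h3 : Real.log (radius v.val d f) - 16 * lg N d k / dlt N d ≤ 0 := by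
            rw [sub_nonpos, le_div_iff₀ hdl]
            linarith
          have h4 := mul_nonpos_of_nonneg_of_nonpos he0 h3
          linarith
        · have h3 := far_ar hp hf ht htδ h2 (hSI v hv h2) hPX hD
          have h4 : ((d * k + k : ℕ) : ℝ) *
              ∑ b, exs v.val (GG N d * radius v.val d f) ((pm f)^[T] (P b)) / (d : ℝ) ^ T ≤
              lb v.val d f ((glob hp.hd hf).BI v) T (d * k) (d * k + k) P :=
            le_lb hloc.one_le _
          have h5 : 0 ≤ e * (16 * lg N d k / dlt N d) := by positivity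
          have h6 : dlt N d / 4 * (Real.log (radius v.val d f) * k * c) =
              e * Real.log (radius v.val d f) := by
            rw [he]
            ring
          rw [← hc, h6] at h3
          rw [mul_sub]
          linarith
      · rw [hGI]
        simp only [if_neg hv, sub_zero]
        exact h1)
    (fun v => by
      have hloc := (glob hp.hd hf).hF v
      by_cases hv : v ∈ SF
      · rw [hGF]
        simp only [if_pos hv]
        have h3 := far_na (FinitePlace.add_le v) hp hf ht htδ (hSF v hv) hPX hD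
        have h4 : ((d * k + k : ℕ) : ℝ) *
            ∑ b, exs v.val (radius v.val d f) ((pm f)^[T] (P b)) / (d : ℝ) ^ T ≤
            lb v.val d f ((glob hp.hd hf).BF v) T (d * k) (d * k + k) P :=
          le_lb hloc.one_le _
        have h6 : dlt N d / 4 * (Real.log (radius v.val d f) * k * c) =
            e * Real.log (radius v.val d f) := by
          rw [he]
          ring
        rw [← hc, h6] at h3
        linarith
      · rw [hGF]
        simp only [if_neg hv, neg_zero, add_zero]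
        exact light_na (FinitePlace.add_le v) hloc hd1 hmn hD)
  rw [hB_glob] at h
  have htot : tot GI GF = Module.finrank ℚ K * (c * Real.log c) - e *
      (∑ v ∈ SI, (v.mult : ℝ) * (Real.log (radius v.val d f) - 16 * lg N d k / dlt N d) +
        ∑ v ∈ SF, Real.log (radius v.val d f)) := by
    unfold tot
    rw [finsum_eq_sum_of_support_subset _ hsup]
    have e1 : ∑ v, (v.mult : ℝ) * GI v = Module.finrank ℚ K * (c * Real.log c) -
        ∑ v ∈ SI, (v.mult : ℝ) *
          (e * (Real.log (radius v.val d f) - 16 * lg N d k / dlt N d)) := by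
      rw [hGI]
      simp only [mul_sub, mul_ite, mul_zero, sum_sub_distrib, sum_ite_mem, univ_inter]
      rw [← sum_mul, ← Nat.cast_sum, InfinitePlace.sum_mult_eq]
    have e2 : ∑ v ∈ SF, GF v = -∑ v ∈ SF, e * Real.log (radius v.val d f) := by
      rw [hGF, ← sum_neg_distrib]
      exact sum_congr rfl fun v hv => by simp only [if_pos hv]
    rw [e1, e2, mul_add, mul_sum, mul_sum]
    have e3 : ∑ v ∈ SI, (v.mult : ℝ) *
          (e * (Real.log (radius v.val d f) - 16 * lg N d k / dlt N d)) =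
        ∑ v ∈ SI, e * ((v.mult : ℝ) *
          (Real.log (radius v.val d f) - 16 * lg N d k / dlt N d)) :=
      sum_congr rfl fun v _ => by ring
    rw [e3]
    ring
  rw [htot] at h
  exact h

theorem final_real {M A H n δ k l G E S κ dd N' U lM lG : ℝ} (hM : 1 ≤ M) (hA0 : 0 ≤ A)
    (hAk : 16 * A ≤ δ * k) (hAκ : 8 * κ * A ≤ δ * k) (hκ : 1 ≤ κ) (hH : 0 ≤ H) (hn : 0 < n)
    (hδ : 0 < δ) (hδ1 : δ ≤ 1) (hk : 1 ≤ k) (hl : 1 ≤ l) (hlG : lG ≤ l) (hlM : lM ≤ N' * l)
    (hNk : N' ≤ k) (hd : 2 ≤ dd) (hS : H / κ - n * (16 * l / δ) ≤ S)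
    (hE : G < M * (δ / (8 * (dd + 1) * κ) * H - n * (2 * l)))
    (h : 0 ≤ M * A * (H + n * lG) + (dd + 1) * k * G +
      (n * (M * lM) - δ / 4 * (k * M) * S)) : False := by
  have hκ0 : 0 < κ := by linarith
  have hk0 : 0 < k := by linarith
  have h1 : (dd + 1) * k * G < (dd + 1) * k * (M * (δ / (8 * (dd + 1) * κ) * H - n * (2 * l))) :=
    mul_lt_mul_of_pos_left hE (by positivity)
  have e1 : (dd + 1) * k * (M * (δ / (8 * (dd + 1) * κ) * H - n * (2 * l))) =
      M * (δ / 8 * k * (H / κ) - 2 * (dd + 1) * k * n * l) := by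
    field_simp
  have h2 : δ / 4 * (k * M) * (H / κ - n * (16 * l / δ)) ≤ δ / 4 * (k * M) * S :=
    mul_le_mul_of_nonneg_left hS (by positivity)
  have e2 : δ / 4 * (k * M) * (H / κ - n * (16 * l / δ)) =
      M * (δ / 4 * k * (H / κ) - 4 * k * n * l) := by
    field_simp
    ring
  have h3 : A * H ≤ δ / 8 * k * (H / κ) := by
    have e3 : δ / 8 * k * (H / κ) = (δ * k) * H / (8 * κ) := by
      field_simp
    rw [e3, le_div_iff₀ (by positivity)]
    calc A * H * (8 * κ) = (8 * κ * A) * H := by ring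
      _ ≤ δ * k * H := mul_le_mul_of_nonneg_right hAκ hH
  have h4 : A * (n * lG) ≤ k / 16 * (n * l) := by
    have h5 : 16 * A ≤ k := hAk.trans (mul_le_of_le_one_left hk0.le hδ1)
    calc A * (n * lG) ≤ A * (n * l) := by gcongr
      _ ≤ k / 16 * (n * l) := mul_le_mul_of_nonneg_right (by linarith) (by positivity)
  have h5 : n * lM ≤ n * (k * l) := by
    refine mul_le_mul_of_nonneg_left (hlM.trans ?_) hn.le
    exact mul_le_mul_of_nonneg_right hNk (by linarith)
  have h6 : 6 * (k * n * l) ≤ 2 * (dd + 1) * k * n * l := by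
    have : 0 ≤ (k * n * l) * (dd - 2) := by
      have : 0 ≤ dd - 2 := by linarith
      positivity
    nlinarith
  have h7 : 0 < k * n * l := by positivity
  have h8 : A * (H + n * lG) + (δ / 8 * k * (H / κ) - 2 * (dd + 1) * k * n * l) + n * lM -
      (δ / 4 * k * (H / κ) - 4 * k * n * l) < 0 := by
    have e4 : A * (H + n * lG) = A * H + A * (n * lG) := by ring
    rw [e4]
    nlinarith
  have h9 : M * (A * (H + n * lG) + (δ / 8 * k * (H / κ) - 2 * (dd + 1) * k * n * l) + n * lM -
      (δ / 4 * k * (H / κ) - 4 * k * n * l)) < 0 := mul_neg_of_pos_of_neg (by linarith) h8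
  rw [e1] at h1
  rw [e2] at h2
  nlinarith

/-- **Hypersurface theorem**, with parameters. -/
theorem hyper_par {d k T : ℕ} {f : Fin N → MvPolynomial (Fin N) K} {t κ : ℝ}
    {X : Set (Fin N → K)} (hp : Par N d k T) (hf : Mon d f)
    (ht : 0 ≤ t) (htδ : t ≤ dlt N d / 8) (hκ : 1 ≤ κ)
    (hκk : 8 * κ * (N * (d - 1) * T) ≤ dlt N d * k) (SI : Finset (InfinitePlace K))
    (SF : Finset (FinitePlace K))
    (hSI : ∀ v ∈ SI, 16 * lg N d k ≤ dlt N d * Real.log (radius v.val d f) → Far v.val d f t X)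
    (hSF : ∀ v ∈ SF, Far v.val d f t X)
    (hH : hrad d f ≤ κ * (∑ v ∈ SI, (v.mult : ℝ) * Real.log (radius v.val d f) +
      ∑ v ∈ SF, Real.log (radius v.val d f)))
    (hX : ∀ x ∈ X, hat f d x < dlt N d / (8 * (d + 1) * κ) * hrad d f -
      Module.finrank ℚ K * (2 * lg N d k)) :
    ∃ H : MvPolynomial (Fin N) K, H ≠ 0 ∧ DG (d * k) H ∧ ∀ x ∈ X, eval x H = 0 := by
  classical
  by_contra hcon
  have hS : ∀ H : MvPolynomial (Fin N) K, DG (d * k) H → (∀ x ∈ X, eval x H = 0) → H = 0 := by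
    intro H h1 h2
    by_contra h3
    exact hcon ⟨H, h3, h1, h2⟩
  have hd1 : 1 ≤ d := by have := hp.hd; omega
  have hd2 : (2 : ℝ) ≤ d := by exact_mod_cast hp.hd
  have hk1 := hp.K_one
  have hkR : (1 : ℝ) ≤ k := by exact_mod_cast hk1
  obtain ⟨P, hPX, hD⟩ := exists_points hd1 hf (T := T) (m := d * k)
    (by have := hp.hT; omega) hS
  have h := core2 hp hf ht htδ SI SF hSI hSF hPX hD
  have hdl := dlt_pos N hp.hd
  have hl1 : 1 ≤ lg N d k := one_le_lg hk1
  have hM1 : (1 : ℝ) ≤ cc N (d * k) := by exact_mod_cast one_le_cc N (d * k)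
  have hn : (0 : ℝ) < Module.finrank ℚ K := by
    exact_mod_cast Module.finrank_pos
  have hGl : Real.log (GG N d) ≤ lg N d k := by
    unfold lg
    have h1 := one_le_GG N d
    refine Real.log_le_log (by linarith) ?_
    have h2 : (1 : ℝ) ≤ ((d * k + k : ℕ) : ℝ) := by
      have : 1 ≤ d * k + k := by omega
      exact_mod_cast this
    nlinarith
  have hcast : ((d - 1 : ℕ) : ℝ) = (d : ℝ) - 1 := by rw [Nat.cast_sub hd1, Nat.cast_one]
  have hA0 : (0 : ℝ) ≤ N * (d - 1) * T := by
    have : (0 : ℝ) ≤ (d : ℝ) - 1 := by linarith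
    positivity
  have hSsum : hrad d f / κ - Module.finrank ℚ K * (16 * lg N d k / dlt N d) ≤
      ∑ v ∈ SI, (v.mult : ℝ) * (Real.log (radius v.val d f) - 16 * lg N d k / dlt N d) +
            ∑ v ∈ SF, Real.log (radius v.val d f) := by
    have h1 : hrad d f / κ ≤ ∑ v ∈ SI, (v.mult : ℝ) * Real.log (radius v.val d f) +
        ∑ v ∈ SF, Real.log (radius v.val d f) := by
      rw [div_le_iff₀ (by linarith), mul_comm]
      exact hH
    have h2 : ∑ v ∈ SI, (v.mult : ℝ) * (16 * lg N d k / dlt N d) ≤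
        Module.finrank ℚ K * (16 * lg N d k / dlt N d) := by
      have h3 : 0 ≤ 16 * lg N d k / dlt N d := by positivity
      rw [← sum_mul]
      refine mul_le_mul_of_nonneg_right ?_ h3
      have h4 : ∑ v ∈ SI, (v.mult : ℝ) ≤ ∑ v : InfinitePlace K, (v.mult : ℝ) :=
        sum_le_sum_of_subset_of_nonneg (subset_univ _) fun v _ _ => Nat.cast_nonneg _
      have h5 : ∑ v : InfinitePlace K, (v.mult : ℝ) = Module.finrank ℚ K := by
        exact_mod_cast InfinitePlace.sum_mult_eq (K := K)
      rw [← h5]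
      exact h4
    simp only [mul_sub, sum_sub_distrib]
    linarith
  refine final_real (M := cc N (d * k)) (A := N * (d - 1) * T) (H := hrad d f)
    (n := Module.finrank ℚ K) (δ := dlt N d) (k := k) (l := lg N d k)
    (G := ∑ b, hat f d (P b)) (κ := κ) (dd := d) (N' := N) (lM := Real.log (cc N (d * k)))
    (lG := Real.log (GG N d)) (E := 0) (U := 0)
    (S := ∑ v ∈ SI, (v.mult : ℝ) * (Real.log (radius v.val d f) - 16 * lg N d k / dlt N d) +
            ∑ v ∈ SF, Real.log (radius v.val d f))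
    hM1 hA0 ?_ hκk hκ (hrad_nonneg d f) hn hdl (dlt_le_one N hp.hN hp.hd) hkR hl1 hGl
    (log_cc_le hk1) (by exact_mod_cast hp.N_le) hd2 hSsum ?_ ?_
  · have h1 := hp.hK
    have h2 : (0 : ℝ) ≤ 2 ^ (N + 1) * d := by positivity
    linarith
  · have h1 : ∑ b, hat f d (P b) < ∑ _b : Gam N (d * k), (dlt N d / (8 * (d + 1) * κ) *
        hrad d f - Module.finrank ℚ K * (2 * lg N d k)) := by
      have hne : (univ : Finset (Gam N (d * k))).Nonempty := by
        rw [← card_pos, card_univ, Fintype.card_coe, card_Gam]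
        exact one_le_cc N (d * k)
      exact sum_lt_sum_of_nonempty hne fun b _ => hX (P b) (hPX b)
    rw [sum_const, card_univ, Fintype.card_coe, card_Gam, nsmul_eq_mul] at h1
    exact h1
  · rw [hcast] at h
    have e1 : (((d * k + k : ℕ) : ℕ) : ℝ) = ((d : ℝ) + 1) * k := by
      push_cast
      ring
    rw [e1] at h
    exact h

/-! ### pieces -/

theorem pieces {ι : Type*} [DecidableEq ι] (FarP : ι → Set (Fin N → K) → Prop)
    (hmono : ∀ v X Y, FarP v X → Y ⊆ X → FarP v Y) (S : Set ι) (m : ℕ) (X0 : Set (Fin N → K))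
    (hbase : ∀ X ⊆ X0, (∀ v ∈ S, FarP v X) → ∃ H : MvPolynomial (Fin N) K, H ≠ 0 ∧ DG m H ∧
      ∀ x ∈ X, eval x H = 0) (V : Finset ι)
    (hsplit : ∀ v ∈ V, ∃ X1 X2 : Set (Fin N → K), X1 ∪ X2 = Set.univ ∧ FarP v X1 ∧ FarP v X2) :
    ∀ X ⊆ X0, (∀ v ∈ S, v ∉ V → FarP v X) → ∃ H : MvPolynomial (Fin N) K, H ≠ 0 ∧
      DG (2 ^ V.card * m) H ∧ ∀ x ∈ X, eval x H = 0 := by
  induction V using Finset.induction_on with
  | empty =>
    intro X hX h
    rw [card_empty, pow_zero, one_mul]
    exact hbase X hX fun v hv => h v hv (notMem_empty v)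
  | insert v V hv ih =>
    intro X hX h
    have ih' := ih fun v' hv' => hsplit v' (mem_insert_of_mem hv')
    obtain ⟨X1, X2, hu, h1, h2⟩ := hsplit v (mem_insert_self v V)
    have key : ∀ Y, FarP v Y → ∀ v' ∈ S, v' ∉ V → FarP v' (X ∩ Y) := by
      intro Y hY v' hv' hn
      by_cases he : v' = v
      · rw [he]
        exact hmono _ _ _ hY Set.inter_subset_right
      · refine hmono _ _ _ (h v' hv' ?_) Set.inter_subset_left
        rw [mem_insert, not_or]
        exact ⟨he, hn⟩
    obtain ⟨H1, h11, h12, h13⟩ := ih' (X ∩ X1) (Set.inter_subset_left.trans hX) (key X1 h1)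
    obtain ⟨H2, h21, h22, h23⟩ := ih' (X ∩ X2) (Set.inter_subset_left.trans hX) (key X2 h2)
    refine ⟨H1 * H2, mul_ne_zero h11 h21, ?_, ?_⟩
    · rw [card_insert_of_notMem hv, pow_succ]
      have h3 := h12.mul h22
      refine h3.mono (le_of_eq ?_)
      ring
    · intro x hx
      rw [map_mul]
      have hx12 : x ∈ X1 ∪ X2 := by
        rw [hu]
        trivial
      rcases hx12 with h4 | h4
      · rw [h13 x ⟨hx, h4⟩, zero_mul]
      · rw [h23 x ⟨hx, h4⟩, mul_zero]

end Pool.Agent.DLN
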