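import Mathlib

/-!
# Determinants over a field with an absolute value (project DLN)
-/

set_option autoImplicit false

open Finset Matrix

namespace Pool.Agent.DLN

variable {F : Type*} [Field F] {w : AbsoluteValue F ℝ}

theorem na_sum_le (hw : IsNonarchimedean w) {ι : Type*} (s : Finset ι) (a : ι → F) {X : ℝ}
    (hX : 0 ≤ X) (h : ∀ i ∈ s, w (a i) ≤ X) : w (∑ i ∈ s, a i) ≤ X := by
  classical
  induction s using Finset.induction_on with
  | empty => simpa using hX
  | insert i s hi ih =>
    rw [sum_insert hi]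
    refine (hw _ _).trans (max_le (h i (mem_insert_self i s)) ?_)
    exact ih fun j hj => h j (mem_insert_of_mem hj)

theorem abs_sign {ι : Type*} [Fintype ι] [DecidableEq ι] (σ : Equiv.Perm ι) :
    w (((Equiv.Perm.sign σ : ℤ) : F)) = 1 := by
  rcases Int.units_eq_one_or (Equiv.Perm.sign σ) with h | h
  · rw [h]; simp
  · rw [h]; simp

section

variable {ι : Type*} [Fintype ι] [DecidableEq ι]

theorem term_le (A : Matrix ι ι F) (r c : ι → ℝ) (h : ∀ i j, w (A i j) ≤ r i * c j)
    (σ : Equiv.Perm ι) : w (((Equiv.Perm.sign σ : ℤ) : F) * ∏ i, A (σ i) i) ≤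
      (∏ i, r i) * ∏ i, c i := by
  rw [map_mul, abs_sign, one_mul, map_prod]
  calc ∏ i, w (A (σ i) i) ≤ ∏ i, (r (σ i) * c i) :=
        prod_le_prod (fun i _ => apply_nonneg w _) fun i _ => h _ _
    _ = (∏ i, r i) * ∏ i, c i := by
      rw [prod_mul_distrib]
      congr 1
      exact Equiv.prod_comp σ r

theorem na_det_le (hw : IsNonarchimedean w) (A : Matrix ι ι F) (r c : ι → ℝ) (hr : ∀ i, 0 ≤ r i)
    (hc : ∀ i, 0 ≤ c i) (h : ∀ i j, w (A i j) ≤ r i * c j) :
    w A.det ≤ (∏ i, r i) * ∏ i, c i := by
  rw [det_apply']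
  refine na_sum_le hw _ _ ?_ fun σ _ => term_le A r c h σ
  exact mul_nonneg (prod_nonneg fun i _ => hr i) (prod_nonneg fun i _ => hc i)

theorem det_le_fac (A : Matrix ι ι F) (r c : ι → ℝ) (h : ∀ i j, w (A i j) ≤ r i * c j) :
    w A.det ≤ ((Fintype.card ι).factorial : ℝ) * ((∏ i, r i) * ∏ i, c i) := by
  rw [det_apply']
  refine (w.sum_le _ _).trans ?_
  refine (sum_le_card_nsmul _ _ _ fun σ _ => term_le A r c h σ).trans (le_of_eq ?_)
  rw [card_univ, Fintype.card_perm, nsmul_eq_mul]

variable {T : Type*}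

/-- the expansion of the determinant of a product -/
theorem det_mul_expand [Fintype T] (A : Matrix ι T F) (B : Matrix T ι F) :
    (A * B).det = ∑ τ : ι → T, (∏ i, B (τ i) i) * (A.submatrix id τ).det := by
  rw [← det_transpose]
  have h1 : (A * B)ᵀ = Matrix.of (fun i => ∑ t, B t i • (fun e => A e t)) := by
    ext i e
    simp [Matrix.mul_apply, mul_comm]
  rw [h1]
  have h2 := (Matrix.detRowAlternating (R := F) (n := ι)).toMultilinearMap.map_sum
    (fun (i : ι) (t : T) => B t i • (fun e => A e t))
  change (Matrix.detRowAlternating (R := F) (n := ι)) (fun i => ∑ t, B t i • (fun e => A e t)) = _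
  refine h2.trans ?_
  refine Finset.sum_congr rfl fun τ _ => ?_
  have h3 := (Matrix.detRowAlternating (R := F) (n := ι)).toMultilinearMap.map_smul_univ
    (fun i => B (τ i) i) (fun i => (fun e => A e (τ i)))
  rw [h3, smul_eq_mul, ← det_transpose (A.submatrix id τ)]
  rfl

theorem det_submatrix_eq_zero (A : Matrix ι T F) {τ : ι → T} (h : ¬ Function.Injective τ) :
    (A.submatrix id τ).det = 0 := by
  unfold Function.Injective at h
  push Not at h
  obtain ⟨i, j, h1, h2⟩ := h
  refine det_zero_of_column_eq h2 fun k => ?_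
  rw [submatrix_apply, submatrix_apply, h1]

/-- the Cauchy-Binet formula as an inequality -/
theorem na_cb [Fintype T] (hw : IsNonarchimedean w) (A : Matrix ι T F) (B : Matrix T ι F) {X : ℝ} (hX : 0 ≤ X)
    (h : ∀ τ : ι → T, Function.Injective τ →
      w (A.submatrix id τ).det * w (B.submatrix τ id).det ≤ X) : w (A * B).det ≤ X := by
  classical
  rw [det_mul_expand]
  rw [← Finset.sum_fiberwise (univ : Finset (ι → T)) (fun τ => univ.image τ)]
  refine na_sum_le hw _ _ hX fun S _ => ?_
  by_cases hS : ∃ τ : ι → T, Function.Injective τ ∧ univ.image τ = S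
  swap
  · push Not at hS
    rw [sum_eq_zero]
    · simpa using hX
    · intro τ hτ
      rw [mem_filter] at hτ
      have h1 : ¬ Function.Injective τ := fun h1 => hS τ h1 hτ.2
      rw [det_submatrix_eq_zero A h1, mul_zero]
  obtain ⟨τ, hτ, hτS⟩ := hS
  have h1 : ∑ ρ ∈ univ.filter (fun ρ : ι → T => univ.image ρ = S),
      (∏ i, B (ρ i) i) * (A.submatrix id ρ).det =
      ∑ σ : Equiv.Perm ι, (∏ i, B (τ (σ i)) i) * (A.submatrix id (τ ∘ σ)).det := by
    symm
    refine Finset.sum_bij_ne_zero (fun σ _ _ => τ ∘ σ) ?_ ?_ ?_ ?_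
    · intro σ _ _
      rw [mem_filter]
      refine ⟨mem_univ _, ?_⟩
      rw [← hτS, ← Finset.image_image]
      congr 1
      exact Finset.image_univ_of_surjective σ.surjective
    · intro σ _ _ ρ _ _ he
      ext i
      have := congrFun he i
      exact hτ this
    · intro ρ hρ hρ0
      rw [mem_filter] at hρ
      have hi : Function.Injective ρ := by
        by_contra hc
        rw [det_submatrix_eq_zero A hc, mul_zero] at hρ0
        exact hρ0 rfl
      have hex : ∀ i, ∃ j, τ j = ρ i := by
        intro i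
        have h2 : ρ i ∈ univ.image τ := by
          rw [hτS, ← hρ.2]
          exact mem_image_of_mem _ (mem_univ i)
        obtain ⟨j, _, hj⟩ := mem_image.mp h2
        exact ⟨j, hj⟩
      choose g hg using hex
      have hgi : Function.Injective g := by
        intro i j hij
        apply hi
        rw [← hg i, ← hg j, hij]
      have hgb : Function.Bijective g := (Finite.injective_iff_bijective).mp hgi
      have he : τ ∘ (Equiv.ofBijective g hgb) = ρ := funext hg
      have e3 : (∏ i, B (τ ((Equiv.ofBijective g hgb) i)) i) = ∏ i, B (ρ i) i :=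
        prod_congr rfl fun i _ => by
          rw [show τ ((Equiv.ofBijective g hgb) i) = ρ i from hg i]
      exact ⟨Equiv.ofBijective g hgb, mem_univ _, by rw [he, e3]; exact hρ0, he⟩
    · intro σ _ _
      rfl
  rw [h1]
  have h2 : ∑ σ : Equiv.Perm ι, (∏ i, B (τ (σ i)) i) * (A.submatrix id (τ ∘ σ)).det =
      (B.submatrix τ id).det * (A.submatrix id τ).det := by
    rw [det_apply' (B.submatrix τ id), sum_mul]
    refine sum_congr rfl fun σ _ => ?_
    have h3 : (A.submatrix id (τ ∘ σ)).det =
        ((Equiv.Perm.sign σ : ℤ) : F) * (A.submatrix id τ).det := by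
      have := Matrix.det_permute' σ (A.submatrix id τ)
      rw [← this]
      rfl
    rw [h3]
    simp only [submatrix_apply, id_eq]
    ring
  rw [h2, map_mul, mul_comm]
  exact h τ hτ

end

end Pool.Agent.DLN
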