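import Pool.Agent.Lib_helper31.DLN.Pol

/-!
# Digit functions and expansions (project DLN)
-/

set_option autoImplicit false

open Finset MvPolynomial

namespace Pool.Agent.DLN

variable {N : ℕ} {F : Type*} [Field F]

/-- the map given by the polynomials `f i` -/
noncomputable def pm (f : Fin N → MvPolynomial (Fin N) F) (x : Fin N → F) : Fin N → F :=
  fun i => eval x (f i)

/-- the digit function: the product over `j < J` of the monomials of the `j`-th digits of `γ` in
the coordinates of the `j`-th iterate of `f` -/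
noncomputable def dig (d : ℕ) (f : Fin N → MvPolynomial (Fin N) F) :
    ℕ → (Fin N →₀ ℕ) → MvPolynomial (Fin N) F
  | 0, _ => 1
  | J + 1, γ => monomial (dm d γ) 1 * bind₁ f (dig d f J (dv d γ))

theorem dig_zero (d : ℕ) (f : Fin N → MvPolynomial (Fin N) F) (γ : Fin N →₀ ℕ) :
    dig d f 0 γ = 1 := rfl

theorem dig_succ (d : ℕ) (f : Fin N → MvPolynomial (Fin N) F) (J : ℕ) (γ : Fin N →₀ ℕ) :
    dig d f (J + 1) γ = monomial (dm d γ) 1 * bind₁ f (dig d f J (dv d γ)) := rfl

theorem dv_lt {d J : ℕ} {γ : Fin N →₀ ℕ} (h : ∀ i, γ i < d ^ (J + 1)) (i : Fin N) :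
    dv d γ i < d ^ J := by
  rw [dv_apply]
  have h1 := h i
  rw [pow_succ] at h1
  exact Nat.div_lt_of_lt_mul (by rw [mul_comm]; exact h1)

theorem LM.dig {d : ℕ} (hd : 1 ≤ d) {f : Fin N → MvPolynomial (Fin N) F} (hf : Mon d f) (J : ℕ) :
    ∀ γ : Fin N →₀ ℕ, (∀ i, γ i < d ^ J) → LM γ (dig d f J γ) := by
  induction J with
  | zero =>
    intro γ h
    have h0 : γ = 0 := by
      ext i
      have := h i
      rw [pow_zero] at this
      exact Nat.lt_one_iff.mp this
    rw [h0]
    exact LM.one'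
  | succ J ih =>
    intro γ h
    rw [dig_succ]
    have h1 := (LM.self (F := F) (dm d γ)).mul (hf.bind hd (ih (dv d γ) fun i => dv_lt h i))
    rwa [dm_add_dv] at h1

theorem GB.dig {w : AbsoluteValue F ℝ} {R : ℝ} (hw : IsNonarchimedean w) (hR : 1 ≤ R) {d : ℕ}
    (hd : 1 ≤ d) {f : Fin N → MvPolynomial (Fin N) F} (hf : Mon d f)
    (hg : ∀ i, GB w R (R ^ d) (f i)) (J : ℕ) :
    ∀ γ : Fin N →₀ ℕ, (∀ i, γ i < d ^ J) → GB w R (R ^ γ.degree) (dig d f J γ) := by
  have hR0 : 0 ≤ R := by linarith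
  induction J with
  | zero =>
    intro γ _
    rw [dig_zero]
    exact (GB.one' hR0).mono (one_le_pow₀ hR)
  | succ J ih =>
    intro γ h
    rw [dig_succ]
    have h0 := fun i => dv_lt h i
    have h1 := GB.bind hw hR hd hg (ih (dv d γ) h0) (LM.dig hd hf J (dv d γ) h0).dg
    have h2 := (GB.monomial' (w := w) (dm d γ) (1 : F) hR0).mul hw hR0
      (mul_nonneg (apply_nonneg w _) (by positivity)) (by positivity) h1
    refine h2.mono (le_of_eq ?_)
    rw [map_one, one_mul, ← pow_add]
    congr 1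
    exact (degree_split d γ).symm

/-- evaluation of the digit functions -/
theorem eval_dig_succ (d : ℕ) (f : Fin N → MvPolynomial (Fin N) F) (J : ℕ) (γ : Fin N →₀ ℕ)
    (x : Fin N → F) : eval x (dig d f (J + 1) γ) =
      (∏ i, x i ^ dm d γ i) * eval (pm f x) (dig d f J (dv d γ)) := by
  rw [dig_succ, map_mul, eval_monomial, one_mul]
  congr 1
  · rw [Finsupp.prod_fintype]
    intro i
    exact pow_zero _
  · exact MvPolynomial.eval₂Hom_bind₁ (RingHom.id F) x f (dig d f J (dv d γ))

/-- the point `x` and its images are bounded by `B exp (d ^ j g)` -/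
def Esc (w : AbsoluteValue F ℝ) (d : ℕ) (f : Fin N → MvPolynomial (Fin N) F) (J : ℕ) (B g : ℝ)
    (x : Fin N → F) : Prop :=
  ∀ j < J, ∀ i, w ((pm f)^[j] x i) ≤ B * Real.exp ((d : ℝ) ^ j * g)

theorem Esc.next {w : AbsoluteValue F ℝ} {d : ℕ} {f : Fin N → MvPolynomial (Fin N) F} {J : ℕ}
    {B g : ℝ} {x : Fin N → F} (h : Esc w d f (J + 1) B g x) : Esc w d f J B (d * g) (pm f x) := by
  intro j hj i
  have h1 := h (j + 1) (by omega) i
  rw [Function.iterate_succ_apply, pow_succ, mul_assoc] at h1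
  exact h1

theorem abs_dig_le {w : AbsoluteValue F ℝ} {d : ℕ} (hd : 1 ≤ d)
    {f : Fin N → MvPolynomial (Fin N) F} {B : ℝ} (hB : 1 ≤ B) (J : ℕ) :
    ∀ (γ : Fin N →₀ ℕ) (x : Fin N → F) (g : ℝ), 0 ≤ g → Esc w d f J B g x →
      w (eval x (dig d f J γ)) ≤ B ^ (N * (d - 1) * J) * Real.exp (γ.degree * g) := by
  induction J with
  | zero =>
    intro γ x g hg _
    rw [dig_zero, map_one, map_one, mul_zero, pow_zero, one_mul]
    exact Real.one_le_exp (by positivity)
  | succ J ih =>
    intro γ x g hg hx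
    have hd0 : 0 < d := hd
    rw [eval_dig_succ, map_mul, map_prod]
    have h1 : ∏ i, w (x i ^ dm d γ i) ≤
        B ^ (N * (d - 1)) * Real.exp ((dm d γ).degree * g) := by
      have h2 : ∏ i, w (x i ^ dm d γ i) ≤ ∏ i, (B * Real.exp g) ^ dm d γ i := by
        refine prod_le_prod (fun i _ => apply_nonneg w _) fun i _ => ?_
        rw [map_pow]
        have h3 := hx 0 (Nat.succ_pos J) i
        rw [pow_zero, one_mul] at h3
        exact pow_le_pow_left₀ (apply_nonneg w _) h3 _
      refine h2.trans ?_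
      rw [Finset.prod_pow_eq_pow_sum, ← Finsupp.degree_eq_sum, mul_pow, ← Real.exp_nat_mul]
      refine mul_le_mul_of_nonneg_right ?_ (Real.exp_pos _).le
      refine pow_le_pow_right₀ hB ?_
      rw [Finsupp.degree_eq_sum]
      refine (sum_le_card_nsmul univ _ (d - 1) fun i _ => ?_).trans (le_of_eq ?_)
      · have := dm_lt hd0 γ i
        omega
      · simp
    have h2 := ih (dv d γ) (pm f x) (d * g) (by positivity) hx.next
    calc (∏ i, w (x i ^ dm d γ i)) * w (eval (pm f x) (dig d f J (dv d γ)))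
        ≤ (B ^ (N * (d - 1)) * Real.exp ((dm d γ).degree * g)) *
          (B ^ (N * (d - 1) * J) * Real.exp ((dv d γ).degree * (d * g))) :=
          mul_le_mul h1 h2 (apply_nonneg w _) (by positivity)
      _ = B ^ (N * (d - 1) * (J + 1)) * Real.exp (γ.degree * g) := by
          have e : (γ.degree : ℝ) * g = (dm d γ).degree * g + (dv d γ).degree * (d * g) := by
            have := degree_split d γ
            rw [this]
            push_cast
            ring
          rw [e, Real.exp_add, Nat.mul_succ, pow_add]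
          ring

/-! ### expansions -/

/-- expansion of a polynomial in a system with leading monomials, with control of Gauss norms -/
theorem expand {w : AbsoluteValue F ℝ} {R : ℝ} (hw : IsNonarchimedean w) (hR : 0 < R) {m : ℕ}
    {ψ : (Fin N →₀ ℕ) → MvPolynomial (Fin N) F} (hL : ∀ γ ∈ Gam N m, LM γ (ψ γ))
    (hG : ∀ γ ∈ Gam N m, GB w R (R ^ γ.degree) (ψ γ)) (n : ℕ) :
    n ≤ m + 1 → ∀ (p : MvPolynomial (Fin N) F) (A : ℝ), 0 ≤ A → DL n p → GB w R A p →
      ∃ c : (Fin N →₀ ℕ) → F, p = ∑ γ ∈ Gam N m, C (c γ) * ψ γ ∧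
        (∀ γ, w (c γ) * R ^ γ.degree ≤ A) ∧ ∀ γ, n ≤ γ.degree → c γ = 0 := by
  classical
  induction n with
  | zero =>
    intro _ p A hA hp _
    refine ⟨fun _ => 0, ?_, fun γ => ?_, fun _ _ => rfl⟩
    · rw [hp.zero_eq]
      simp
    · rw [map_zero, zero_mul]
      exact hA
  | succ n ih =>
    intro hn p A hA hp hpA
    set T : Finset (Fin N →₀ ℕ) := (univ : Finset (Fin N)).finsuppAntidiag n with hT
    have hTm : ∀ γ ∈ T, γ ∈ Gam N m := by
      intro γ hγ
      rw [mem_Gam, mem_antidiag.mp hγ]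
      omega
    set q := p - ∑ γ ∈ T, C (coeff γ p) * ψ γ with hq
    have hq1 : DL n q := by
      intro α hα
      by_contra hc
      rw [not_lt] at hc
      apply hα
      rw [hq, coeff_sub, coeff_sum, sub_eq_zero]
      rcases Nat.lt_or_ge n α.degree with h1 | h1
      · have h2 : coeff α p = 0 := by
          by_contra h3
          have := hp α h3
          omega
        rw [h2]
        symm
        refine sum_eq_zero fun γ hγ => ?_
        have h3 : γ.degree = n := mem_antidiag.mp hγ
        rw [coeff_C_mul, (hL γ (hTm γ hγ)).coeff_eq (by omega), if_neg, mul_zero]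
        rintro rfl
        omega
      · have h2 : α.degree = n := by omega
        have hαT : α ∈ T := mem_antidiag.mpr h2
        rw [sum_eq_single_of_mem α hαT]
        · rw [coeff_C_mul, (hL α (hTm α hαT)).coeff_eq le_rfl, if_pos rfl, mul_one]
        · intro γ hγ hne
          have h3 : γ.degree = n := mem_antidiag.mp hγ
          rw [coeff_C_mul, (hL γ (hTm γ hγ)).coeff_eq (by omega), if_neg (Ne.symm hne), mul_zero]
    have hq2 : GB w R A q := by
      refine hpA.sub hw hR.le (GB.sum hw hR.le hA _ _ fun γ hγ => ?_)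
      have h1 := (GB.C' (w := w) (N := N) (coeff γ p) hR.le).mul hw hR.le (apply_nonneg w _)
        (by positivity) (hG γ (hTm γ hγ))
      exact h1.mono (hpA γ)
    obtain ⟨c, hc1, hc2, hc3⟩ := ih (by omega) q A hA hq1 hq2
    refine ⟨fun γ => if γ.degree = n then coeff γ p else c γ, ?_, fun γ => ?_, fun γ hγ => ?_⟩
    · have e1 : p = q + ∑ γ ∈ T, C (coeff γ p) * ψ γ := by rw [hq]; ring
      conv_lhs => rw [e1, hc1]
      have hsub : T ⊆ Gam N m := hTm
      have e2 : ∑ γ ∈ T, C (coeff γ p) * ψ γ =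
          ∑ γ ∈ Gam N m, (if γ.degree = n then C (coeff γ p) * ψ γ else 0) := by
        rw [← sum_filter]
        refine sum_congr ?_ fun _ _ => rfl
        ext γ
        rw [mem_filter]
        constructor
        · intro h
          exact ⟨hTm γ h, mem_antidiag.mp h⟩
        · intro h
          exact mem_antidiag.mpr h.2
      rw [e2, ← sum_add_distrib]
      refine sum_congr rfl fun γ _ => ?_
      show _ = C (if γ.degree = n then coeff γ p else c γ) * ψ γ
      by_cases h : γ.degree = n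
      · rw [if_pos h, if_pos h, hc3 γ (by omega), C_0, zero_mul, zero_add]
      · rw [if_neg h, if_neg h, add_zero]
    · by_cases h : γ.degree = n
      · simp only [if_pos h]
        exact hpA γ
      · simp only [if_neg h]
        exact hc2 γ
    · have h1 : γ.degree ≠ n := by omega
      simp only [if_neg h1]
      exact hc3 γ (by omega)

/-- linear independence of a system with leading monomials -/
theorem LM.indep {m : ℕ} {ψ : (Fin N →₀ ℕ) → MvPolynomial (Fin N) F}
    (hL : ∀ γ ∈ Gam N m, LM γ (ψ γ)) (c : (Fin N →₀ ℕ) → F)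
    (h : ∑ γ ∈ Gam N m, C (c γ) * ψ γ = 0) : ∀ γ ∈ Gam N m, c γ = 0 := by
  classical
  by_contra hcon
  push Not at hcon
  obtain ⟨γ0, hγ0, hne0⟩ := hcon
  obtain ⟨γ, hγ, hmax⟩ := exists_max_image ((Gam N m).filter fun γ => c γ ≠ 0)
    (fun γ => γ.degree) ⟨γ0, mem_filter.mpr ⟨hγ0, hne0⟩⟩
  rw [mem_filter] at hγ
  have h1 := congrArg (coeff γ) h
  rw [coeff_sum, coeff_zero, sum_eq_single_of_mem γ hγ.1] at h1
  · rw [coeff_C_mul, (hL γ hγ.1).coeff_eq le_rfl, if_pos rfl, mul_one] at h1
    exact hγ.2 h1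
  · intro δ hδ hne
    by_cases hc : c δ = 0
    · rw [hc, C_0, zero_mul, coeff_zero]
    · have h2 := hmax δ (mem_filter.mpr ⟨hδ, hc⟩)
      rw [coeff_C_mul, (hL δ hδ).coeff_eq h2, if_neg (Ne.symm hne), mul_zero]

end Pool.Agent.DLN
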