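import Pool.Agent.Lib_helper31.DLN.Trace

/-!
# Maps which are dominated by the constant terms (project DLN)
-/

set_option autoImplicit false
set_option linter.unusedVariables false

open Finset MvPolynomial NumberField

namespace Pool.Agent.DLN

/-- algebraically closed extensions of nonarchimedean absolute values -/
theorem ext_na {K : Type} [Field K] {v : AbsoluteValue K ℝ} (hv : IsNonarchimedean v)
    (hnt : ∃ x, 1 < v x) : ∃ (L : Type) (_ : Field L) (_ : IsAlgClosed L)
    (w : AbsoluteValue L ℝ) (φ : K →+* L), ∀ a, w (φ a) = v a := by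
  let E := v.Completion
  let ι : K →+* E := (algebraMap (WithAbs v) E).comp (WithAbs.equiv v).symm.toRingHom
  have hι : ∀ a, ‖ι a‖ = v a := by
    intro a
    show ‖((((WithAbs.equiv v).symm a : WithAbs v)) : UniformSpace.Completion (WithAbs v))‖ = v a
    rw [UniformSpace.Completion.norm_coe]
    rfl
  let _ : NontriviallyNormedField E :=
    { (inferInstance : NormedField E) with
      non_trivial := by
        obtain ⟨x, hx⟩ := hnt
        exact ⟨ι x, by rw [hι]; exact hx⟩ }
  have hnat : ∀ n : ℕ, ‖(n : E)‖ ≤ 1 := by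
    intro n
    rw [← map_natCast ι, hι]
    exact hv.apply_natCast_le_one
  have : IsUltrametricDist E :=
    IsUltrametricDist.isUltrametricDist_of_forall_norm_natCast_le_one hnat
  let L := AlgebraicClosure E
  let _ : NormedField L := spectralNorm.normedField E L
  refine ⟨L, inferInstance, inferInstance, NormedField.toAbsoluteValue L,
    (algebraMap E L).comp ι, fun a => ?_⟩
  show spectralNorm E L (algebraMap E L (ι a)) = v a
  rw [spectralNorm_extends, hι]

/-- algebraically closed extensions of archimedean places -/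
theorem ext_inf {K : Type} [Field K] (v : InfinitePlace K) :
    ∃ (L : Type) (_ : Field L) (_ : IsAlgClosed L)
    (w : AbsoluteValue L ℝ) (φ : K →+* L), (∀ a, w (φ a) = v.val a) ∧ ∀ n : ℕ, w n = n := by
  refine ⟨ℂ, inferInstance, inferInstance, NormedField.toAbsoluteValue ℂ, v.embedding,
    fun a => ?_, fun n => ?_⟩
  · show ‖v.embedding a‖ = v.val a
    rw [← InfinitePlace.apply, InfinitePlace.mk_embedding]
    rfl
  · show ‖(n : ℂ)‖ = n
    exact Complex.norm_natCast n

section split

variable {N : ℕ} {K : Type} [Field K] {v : AbsoluteValue K ℝ} {d : ℕ}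
  {f : Fin N → MvPolynomial (Fin N) K}

/-- centred maps -/
def Cen (d : ℕ) (f : Fin N → MvPolynomial (Fin N) K) : Prop :=
  ∀ i, coeff (Finsupp.single i (d - 1)) (f i) = 0

theorem split_of_point (hd : 2 ≤ d) (hf : Mon d f) (hc : Cen d f) {L : Type} [Field L]
    [IsAlgClosed L] {w : AbsoluteValue L ℝ} {φ : K →+* L} (hw : ∀ a, w (φ a) = v a)
    {z : Fin N → L} (i : Fin N)
    (hz : ∀ j, w (eval z (fL φ f j)) ≤
      Real.exp ((1 + dlt N d / 16) * Real.log (radius v d f)))
    (hzi : Real.exp ((1 - dlt N d / 16) * Real.log (radius v d f)) ≤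
      (w d / d) ^ N * w (z i)) : Split v d f := by
  classical
  set c : Fin N → L := fun j => eval z (fL φ f j) with hcd
  have hh : Mon d (fun j => fL φ f j - C (c j)) := (Mon.fL φ hf).sub_C (by omega) c
  obtain ⟨z', h1, h2⟩ := far_fibre hh hd i (by
      rw [coeff_sub, coeff_C, if_neg, sub_zero]
      · show coeff _ (MvPolynomial.map φ (f i)) = 0
        rw [coeff_map, hc i, map_zero]
      · intro h0
        have h1 := congrFun (congrArg DFunLike.coe h0) i
        rw [Finsupp.single_eq_same] at h1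
        have h2 : (0 : ℕ) = d - 1 := h1
        omega) w (z := z) (fun j => by rw [map_sub, eval_C, sub_self])
  refine ⟨L, inferInstance, w, φ, z, z', i, hw, hz, fun j => ?_, hzi.trans h2⟩
  have h3 := h1 j
  rw [map_sub, eval_C, sub_eq_zero] at h3
  rw [h3]
  exact hz j

theorem exists_zero {F : Type*} [Field F] [IsAlgClosed F] {h : Fin N → MvPolynomial (Fin N) F}
    (hN : 1 ≤ N) (hd : 1 ≤ d) (hh : Mon d h) : ∃ z : Fin N → F, ∀ j, eval z (h j) = 0 := by
  classical
  have hdeg : (Mx hh ⟨0, hN⟩).charpoly.degree ≠ 0 := by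
    rw [Matrix.charpoly_degree_eq_dim, Fintype.card_fun, Fintype.card_fin, Fintype.card_fin]
    exact_mod_cast (pow_pos hd N).ne'
  obtain ⟨l, hl⟩ := IsAlgClosed.exists_root _ hdeg
  obtain ⟨z, hz, -⟩ := zero_of_root hh hd ⟨0, hN⟩ hl
  exact ⟨z, hz⟩

/-- the constant terms dominate -/
def ConstDom (ε : ℝ) (v : AbsoluteValue K ℝ) (d : ℕ) (f : Fin N → MvPolynomial (Fin N) K) : Prop :=
  ∀ j, ∀ α : Fin N →₀ ℕ, 0 < α.degree → α.degree < d →
    v (coeff α (f j)) ≤ (radius v d f) ^ ((1 - ε) * ((d : ℝ) - α.degree))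

theorem const_attained (hN : 1 ≤ N) (hd : 2 ≤ d) {ε : ℝ} (hε0 : 0 < ε) (hε1 : ε ≤ 1)
    (hR : 1 < radius v d f) (hdom : ConstDom ε v d f) :
    ∃ j, radius v d f ^ d ≤ v (coeff 0 (f j)) := by
  classical
  have hdR : (0 : ℝ) < d := by exact_mod_cast (by omega : 0 < d)
  obtain ⟨j0, -, hj0⟩ := exists_max_image (univ : Finset (Fin N)) (fun j => v (coeff 0 (f j)))
    ⟨⟨0, hN⟩, mem_univ _⟩
  refine ⟨j0, ?_⟩
  by_contra hcon
  rw [not_le] at hcon
  set R := radius v d f with hRd
  have hR0 : 0 < R := by linarith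
  set R' : ℝ := max (R ^ (1 - ε)) (v (coeff 0 (f j0)) ^ (1 / (d : ℝ))) with hR'
  have h1 : R ^ (1 - ε) < R := by
    conv_rhs => rw [← Real.rpow_one R]
    exact Real.rpow_lt_rpow_of_exponent_lt hR (by linarith)
  have h2 : v (coeff 0 (f j0)) ^ (1 / (d : ℝ)) < R := by
    have h3 : R = (R ^ d) ^ (1 / (d : ℝ)) := by
      rw [← Real.rpow_natCast, ← Real.rpow_mul hR0.le]
      rw [mul_one_div, div_self hdR.ne', Real.rpow_one]
    rw [h3]
    exact Real.rpow_lt_rpow (v.nonneg _) hcon (by positivity)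
  have h3 : 1 ≤ R ^ (1 - ε) := Real.one_le_rpow hR.le (by linarith)
  have h4 : RadLe v d f R' := by
    refine ⟨h3.trans (le_max_left _ _), fun j α hα => ?_⟩
    rcases Nat.eq_zero_or_pos α.degree with h0 | h0
    · have hα0 : α = 0 := (Finsupp.degree_eq_zero_iff α).mp h0
      rw [hα0, map_zero, Nat.sub_zero]
      calc v (coeff 0 (f j)) ≤ v (coeff 0 (f j0)) := hj0 j (mem_univ j)
        _ = (v (coeff 0 (f j0)) ^ (1 / (d : ℝ))) ^ d := by
            rw [← Real.rpow_natCast, ← Real.rpow_mul (v.nonneg _), one_div,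
              inv_mul_cancel₀ hdR.ne', Real.rpow_one]
        _ ≤ R' ^ d := pow_le_pow_left₀ (Real.rpow_nonneg (v.nonneg _) _) (le_max_right _ _) d
    · have e1 : (R ^ (1 - ε)) ^ (d - α.degree) = R ^ ((1 - ε) * ((d : ℝ) - α.degree)) := by
        rw [← Real.rpow_natCast, ← Real.rpow_mul hR0.le, Nat.cast_sub hα.le]
      refine (hdom j α h0 hα).trans ?_
      rw [← hRd, ← e1]
      exact pow_le_pow_left₀ (by positivity) (le_max_left _ _) _
  have h5 := radius_le h4
  rw [← hRd] at h5
  have h6 : R' < R := max_lt h1 h2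
  linarith

theorem split_of_const (hN : 1 ≤ N) (hd : 2 ≤ d) (hf : Mon d f) (hc : Cen d f) {L : Type}
    [Field L] [IsAlgClosed L] {w : AbsoluteValue L ℝ} {φ : K →+* L} (hw : ∀ a, w (φ a) = v a)
    {ε : ℝ} (hε0 : 0 < ε) (hε1 : ε ≤ 1) (hR : 1 < radius v d f) (hdom : ConstDom ε v d f)
    (hwd : 0 < w d) (h1 : 2 * (cc N (d - 1) * GG N d ^ d) ≤ radius v d f ^ ε)
    (h2 : 2 * ((d : ℝ) / w d) ^ N ≤ radius v d f ^ (dlt N d / 16)) : Split v d f := by
  classical
  have hdR : (0 : ℝ) < d := by exact_mod_cast (by omega : 0 < d)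
  have hdl := dlt_pos N hd
  obtain ⟨j0, hj0⟩ := const_attained hN hd hε0 hε1 hR hdom
  have hfL : Mon d (fL φ f) := Mon.fL φ hf
  obtain ⟨z, hz⟩ := exists_zero hN (by omega) hfL
  have hRad : RadLe w d (fL φ f) (radius v d f) := RadLe.fL φ hw (radius_spec v d f)
  set R := radius v d f with hRd
  have hR0 : 0 < R := by linarith
  have hG1 := one_le_GG N d
  have hzs : ∀ j, w (z j) ≤ GG N d * R := fun j =>
    small_of_image hd hfL hRad le_rfl (fun i => by rw [hz i, map_zero]; exact hR0.le) j
  -- the lower order terms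
  have hlow : w (eval z (low d (fL φ f) j0) - φ (coeff 0 (f j0))) ≤ R ^ d / 2 := by
    rw [eval_low_eq]
    have e1 : ∑ α ∈ (low d (fL φ f) j0).support, coeff α (low d (fL φ f) j0) * ∏ j, z j ^ α j -
        φ (coeff 0 (f j0)) = ∑ α ∈ (low d (fL φ f) j0).support.erase 0,
          coeff α (low d (fL φ f) j0) * ∏ j, z j ^ α j := by
      have h0 : coeff 0 (low d (fL φ f) j0) = φ (coeff 0 (f j0)) := by
        rw [coeff_low _ _ (by rw [map_zero]; omega)]
        exact coeff_map φ _ _
      by_cases hm : (0 : Fin N →₀ ℕ) ∈ (low d (fL φ f) j0).support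
      · rw [← add_sum_erase _ _ hm, h0]
        simp
      · rw [erase_eq_of_notMem hm]
        rw [notMem_support_iff, h0] at hm
        rw [hm, sub_zero]
    rw [e1]
    have hterm : ∀ α ∈ (low d (fL φ f) j0).support.erase 0,
        w (coeff α (low d (fL φ f) j0) * ∏ j, z j ^ α j) ≤ GG N d ^ d * R ^ ((d : ℝ) - ε) := by
      intro α hα
      rw [mem_erase, mem_support_iff] at hα
      have hαd : α.degree < d := hfL.low j0 α hα.2
      have hα0 : 0 < α.degree := by
        rw [Nat.pos_iff_ne_zero, ne_eq, Finsupp.degree_eq_zero_iff]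
        exact hα.1
      have e2 : coeff α (low d (fL φ f) j0) = φ (coeff α (f j0)) := by
        rw [coeff_low _ _ hαd]
        exact coeff_map φ _ _
      rw [e2, map_mul, hw, map_prod]
      have e3 : ∏ j, w (z j ^ α j) ≤ (GG N d * R) ^ α.degree := by
        rw [Finsupp.degree_eq_sum, ← Finset.prod_pow_eq_pow_sum]
        refine prod_le_prod (fun j _ => apply_nonneg w _) fun j _ => ?_
        rw [map_pow]
        exact pow_le_pow_left₀ (apply_nonneg w _) (hzs j) _
      have e4 := hdom j0 α hα0 hαd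
      rw [← hRd] at e4
      have hαR : (α.degree : ℝ) + 1 ≤ d := by exact_mod_cast hαd
      calc v (coeff α (f j0)) * ∏ j, w (z j ^ α j) ≤
            R ^ ((1 - ε) * ((d : ℝ) - α.degree)) * (GG N d * R) ^ α.degree :=
            mul_le_mul e4 e3 (prod_nonneg fun j _ => apply_nonneg w _) (by positivity)
        _ = GG N d ^ α.degree * R ^ ((1 - ε) * ((d : ℝ) - α.degree) + α.degree) := by
            rw [mul_pow, Real.rpow_add hR0, Real.rpow_natCast]
            ring
        _ ≤ GG N d ^ d * R ^ ((d : ℝ) - ε) := by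
            refine mul_le_mul (pow_le_pow_right₀ hG1 hαd.le) ?_ (by positivity) (by positivity)
            refine Real.rpow_le_rpow_of_exponent_le hR.le ?_
            nlinarith
    refine (w.sum_le _ _).trans ?_
    refine (sum_le_card_nsmul _ _ _ hterm).trans ?_
    rw [nsmul_eq_mul]
    have hcard : (((low d (fL φ f) j0).support.erase 0).card : ℝ) ≤ cc N (d - 1) := by
      exact_mod_cast (card_le_card (erase_subset _ _)).trans (card_low (by omega) hfL j0)
    have e5 : R ^ ((d : ℝ) - ε) * R ^ ε = R ^ d := by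
      rw [← Real.rpow_add hR0, sub_add_cancel, Real.rpow_natCast]
    have e6 : 0 < R ^ ((d : ℝ) - ε) := by positivity
    have e7 : R ^ ((d : ℝ) - ε) * (2 * (cc N (d - 1) * GG N d ^ d)) ≤ R ^ d := by
      rw [← e5]
      exact mul_le_mul_of_nonneg_left h1 e6.le
    have e8 : (((low d (fL φ f) j0).support.erase 0).card : ℝ) *
        (GG N d ^ d * R ^ ((d : ℝ) - ε)) ≤ cc N (d - 1) * (GG N d ^ d * R ^ ((d : ℝ) - ε)) :=
      mul_le_mul_of_nonneg_right hcard (by positivity)
    linarith
  have hbig : R / 2 ≤ w (z j0) := by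
    by_contra hcon
    rw [not_le] at hcon
    have e1 : z j0 ^ d = -(eval z (low d (fL φ f) j0)) := by
      have e2 := eval_low (d := d) (fL φ f) z j0
      rw [hz j0] at e2
      exact eq_neg_of_add_eq_zero_left e2.symm
    have e2 : w (φ (coeff 0 (f j0))) ≤ w (z j0 ^ d) +
        w (eval z (low d (fL φ f) j0) - φ (coeff 0 (f j0))) := by
      have e3 : φ (coeff 0 (f j0)) =
          -(z j0 ^ d) - (eval z (low d (fL φ f) j0) - φ (coeff 0 (f j0))) := by
        rw [e1]
        ring
      conv_lhs => rw [e3]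
      rw [sub_eq_add_neg]
      refine (w.add_le _ _).trans ?_
      rw [w.map_neg, w.map_neg]
    rw [hw, map_pow] at e2
    have e4 : w (z j0) ^ d < R ^ d / 2 := by
      have e5 : w (z j0) ^ d < (R / 2) ^ d := pow_lt_pow_left₀ hcon (apply_nonneg w _) (by omega)
      refine e5.trans_le ?_
      rw [div_pow]
      refine div_le_div_of_nonneg_left (by positivity) (by norm_num) ?_
      calc (2 : ℝ) = 2 ^ 1 := by norm_num
        _ ≤ 2 ^ d := pow_le_pow_right₀ (by norm_num) (by omega)
    linarith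
  refine split_of_point hd hf hc hw (z := z) j0 (fun j => ?_) ?_
  · rw [hz j, map_zero]
    exact (Real.exp_pos _).le
  · rw [← hRd]
    have e1 : Real.exp ((1 - dlt N d / 16) * Real.log R) * R ^ (dlt N d / 16) = R := by
      rw [Real.rpow_def_of_pos hR0, ← Real.exp_add]
      have : (1 - dlt N d / 16) * Real.log R + Real.log R * (dlt N d / 16) = Real.log R := by ring
      rw [this, Real.exp_log hR0]
    have e2 : Real.exp ((1 - dlt N d / 16) * Real.log R) * (2 * ((d : ℝ) / w d) ^ N) ≤ R := by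
      calc _ ≤ Real.exp ((1 - dlt N d / 16) * Real.log R) * R ^ (dlt N d / 16) :=
            mul_le_mul_of_nonneg_left h2 (Real.exp_pos _).le
        _ = R := e1
    have e3 : (w d / d) ^ N * ((d : ℝ) / w d) ^ N = 1 := by
      rw [← mul_pow]
      have : w d / d * ((d : ℝ) / w d) = 1 := by field_simp
      rw [this, one_pow]
    have e4 : 0 < (w d / d) ^ N := by positivity
    calc Real.exp ((1 - dlt N d / 16) * Real.log R) =
          (w d / d) ^ N * (Real.exp ((1 - dlt N d / 16) * Real.log R) *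
            (2 * ((d : ℝ) / w d) ^ N)) / 2 := by
          have : (w d / d) ^ N * (Real.exp ((1 - dlt N d / 16) * Real.log R) *
            (2 * ((d : ℝ) / w d) ^ N)) / 2 = Real.exp ((1 - dlt N d / 16) * Real.log R) *
            ((w d / d) ^ N * ((d : ℝ) / w d) ^ N) := by ring
          rw [this, e3, mul_one]
      _ ≤ (w d / d) ^ N * R / 2 := by
          refine div_le_div_of_nonneg_right ?_ (by norm_num)
          exact mul_le_mul_of_nonneg_left e2 e4.le
      _ = (w d / d) ^ N * (R / 2) := by ring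
      _ ≤ _ := mul_le_mul_of_nonneg_left hbig e4.le

end split

end Pool.Agent.DLN
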