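import Pool.Agent.Lib_helper31.DLN.ConstThm

/-!
# The main theorem, relative heights (project DLN)
-/

set_option autoImplicit false
set_option linter.unusedVariables false

open Finset MvPolynomial NumberField

namespace Pool.Agent.DLN

theorem log_two_mul {κ : ℝ} (hκ : 1 ≤ κ) : Real.log (2 * κ + 1) ≤ 2 * Real.log (κ + 1) := by
  have h1 : 2 * Real.log (κ + 1) = Real.log ((κ + 1) ^ 2) := by
    rw [Real.log_pow]
    norm_num
  rw [h1]
  refine Real.log_le_log (by linarith) ?_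
  nlinarith

theorem main (N d : ℕ) (hN : 1 ≤ N) (hd : 2 ≤ d) : ∃ A c : ℝ, 0 < A ∧ 0 < c ∧
    ∀ ε : ℝ, 0 < ε → ε ≤ 1 → ∃ C : ℝ, 0 < C ∧ ∀ (κ : ℝ) (s : ℕ), 1 ≤ κ →
    ∃ c₁ C₁ : ℝ, 0 < c₁ ∧ 0 < C₁ ∧ ∀ D : ℕ, ∃ c₂ : ℝ, 0 < c₂ ∧
    ∀ (K : Type) [Field K] [NumberField K] (f : Fin N → MvPolynomial (Fin N) K)
      (V : Finset (AbsoluteValue K ℝ)), Mon d f → V.card ≤ s → (∀ v ∈ V, Fine ε v d f) →
      hrad d f ≤ κ * share V d f →
      (∃ (H : MvPolynomial (Fin N) K) (m : ℕ), H ≠ 0 ∧ DG m H ∧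
        (m : ℝ) ≤ A * 2 ^ s * (κ * Real.log (κ + 1)) ∧
        ∀ x, hat f d x < c / κ * hrad d f - Module.finrank ℚ K * (C * (Real.log (κ + 1) + s)) →
          eval x H = 0) ∧
      ∀ x, Dense f x → c₁ * hrad d f - Module.finrank ℚ K * C₁ ≤ hat f d x ∧
        (Module.finrank ℚ K ≤ D → c₂ * (hrad d f + Module.finrank ℚ K) ≤ hat f d x) := by
  classical
  obtain ⟨A, c, C, hA, hc, hC, hyp⟩ := hyper.{0} N d hN hd
  refine ⟨4 * A, c / 2, by positivity, by positivity, ?_⟩
  intro ε hε hε1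
  have hb0 := BB_pos (N := N) (d := d) hN hd (le_refl (1 : ℝ)) hε
  set b := BB N d 1 ε with hb
  refine ⟨2 * C + 2 * c * b, by positivity, ?_⟩
  intro κ s hκ
  have hκ0 : 0 < κ := by linarith
  have hl := half_le_log hκ
  have h2κ : 1 ≤ 2 * κ := by linarith
  have hs0 : (0 : ℝ) ≤ s := Nat.cast_nonneg s
  set B : ℝ := 4 * κ * s * b with hB
  have hB0 : 0 ≤ B := by positivity
  obtain ⟨m, hm, hmK⟩ := hyp (2 * κ) h2κ
  obtain ⟨c₁, C₁, hc₁, hC₁, hall⟩ := dense_all.{0} N d s hN hd (2 * κ) h2κ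
  refine ⟨c₁, C₁ + c₁ * B, hc₁, by positivity, ?_⟩
  intro D
  obtain ⟨c₂, hc₂, hdeg⟩ := dense_deg.{0} N d s D hN hd (2 * κ) h2κ
  obtain ⟨q, hq⟩ := north.{0} N d D hN hd (D * B)
  have hdR : (0 : ℝ) < d := by exact_mod_cast (by omega : 0 < d)
  have hq0 : (0 : ℝ) < 1 / (d : ℝ) ^ q := by positivity
  refine ⟨min c₂ (1 / (d : ℝ) ^ q / (D * B + D + 1)), by positivity, ?_⟩
  intro K _ _ f V hf hVs hV hH
  have hn : (1 : ℝ) ≤ Module.finrank ℚ K := by exact_mod_cast Module.finrank_pos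
  have hr := hrad_nonneg d f
  set n : ℝ := (Module.finrank ℚ K : ℝ) with hnd
  have hhat : ∀ x, 0 ≤ hat f d x := fun x => (glob hd hf).hat_nonneg x
  have hm2 : (2 ^ s * m : ℝ) ≤ 4 * A * 2 ^ s * (κ * Real.log (κ + 1)) := by
    have h1 : A * (2 * κ * Real.log (2 * κ + 1)) ≤ A * (2 * κ * (2 * Real.log (κ + 1))) := by
      have := log_two_mul hκ
      gcongr
    have h2 : (m : ℝ) ≤ 4 * A * (κ * Real.log (κ + 1)) := by linarith
    have h3 : (0 : ℝ) < 2 ^ s := by positivity
    nlinarith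
  rcases le_or_gt (n * B) (hrad d f) with hbig | hsmall
  · obtain ⟨V', hV's, hV', hH'⟩ := reduce hN hd hε hε1 hκ hf hVs hV hH hbig
    refine ⟨?_, fun x hx => ⟨?_, fun hD => ?_⟩⟩
    · obtain ⟨H, h1, h2, h3⟩ := hmK K f hf V' hV' hH'
      refine ⟨H, 2 ^ s * m, h1, h2.mono (Nat.mul_le_mul_right m
        (Nat.pow_le_pow_right (by omega) hV's)), ?_, fun x hx => h3 x (hx.trans_le ?_)⟩
      · push_cast
        exact hm2
      · have e1 : c / 2 / κ = c / (2 * κ) := by rw [div_div]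
        rw [e1]
        have h4 : C * Real.log (2 * κ + 1) ≤ (2 * C + 2 * c * b) * (Real.log (κ + 1) + s) := by
          have h5 := mul_le_mul_of_nonneg_left (log_two_mul hκ) hC.le
          have h6 : 0 ≤ 2 * C * s := by positivity
          have h7 : 0 ≤ 2 * c * b * (Real.log (κ + 1) + s) := by positivity
          nlinarith
        have h5 := mul_le_mul_of_nonneg_left h4 (by linarith : 0 ≤ n)
        linarith
    · have h1 := hall K f hf V' hV's hV' hH' x hx
      have h2 : 0 ≤ n * (c₁ * B) := by positivity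
      have h3 : n * (C₁ + c₁ * B) = n * C₁ + n * (c₁ * B) := by ring
      rw [h3]
      linarith
    · have h1 := hdeg K f hD hf V' hV's hV' hH' x hx
      refine le_trans ?_ h1
      exact mul_le_mul_of_nonneg_right (min_le_left _ _) (by linarith)
  · refine ⟨⟨1, 2 ^ s * m, one_ne_zero, ?_, ?_, fun x hx => ?_⟩, fun x hx => ⟨?_, fun hD => ?_⟩⟩
    · exact DG.one'.mono (Nat.zero_le _)
    · push_cast
      exact hm2
    · exfalso
      have h1 := hhat x
      have h2 : c / 2 / κ * hrad d f ≤ c / 2 / κ * (n * B) :=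
        mul_le_mul_of_nonneg_left hsmall.le (by positivity)
      have h3 : c / 2 / κ * (n * B) = n * (2 * c * b * s) := by
        rw [hB]
        field_simp
        ring
      have h4 : 2 * c * b * s ≤ (2 * C + 2 * c * b) * (Real.log (κ + 1) + s) := by
        have h6 : 0 ≤ 2 * C * (Real.log (κ + 1) + s) := by positivity
        have h7 : 0 ≤ 2 * c * b * Real.log (κ + 1) := by positivity
        nlinarith
      have h5 := mul_le_mul_of_nonneg_left h4 (by linarith : 0 ≤ n)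
      linarith
    · have h1 := hhat x
      have h2 : c₁ * hrad d f ≤ c₁ * (n * B) := mul_le_mul_of_nonneg_left hsmall.le hc₁.le
      have h3 : 0 ≤ n * C₁ := by positivity
      have h4 : n * (C₁ + c₁ * B) = n * C₁ + c₁ * (n * B) := by ring
      rw [h4]
      linarith
    · have hnD : n ≤ D := by
        rw [hnd]
        exact_mod_cast hD
      have h0 : n * B ≤ D * B := mul_le_mul_of_nonneg_right hnD hB0
      have h1 := hq K f hf hD (by linarith) x hx
      refine le_trans ?_ h1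
      have hDn : (0 : ℝ) ≤ D := Nat.cast_nonneg D
      have hDB : (0 : ℝ) ≤ D * B := by positivity
      have h2 : hrad d f + n ≤ D * B + D + 1 := by linarith
      calc min c₂ (1 / (d : ℝ) ^ q / (D * B + D + 1)) * (hrad d f + n) ≤
            1 / (d : ℝ) ^ q / (D * B + D + 1) * (D * B + D + 1) := by
            refine mul_le_mul (min_le_right _ _) h2 (by linarith) (by positivity)
        _ = 1 / (d : ℝ) ^ q := by
            rw [div_mul_cancel₀]
            positivity

end Pool.Agent.DLN
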