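import Pool.Agent.Lib_helper31.DLN.Loc
import Pool.Agent.Lib_helper5.DLH.Tot

/-!
# Heights and the canonical height (project DLN)
-/

set_option autoImplicit false
set_option linter.unusedSectionVars false
set_option linter.unusedVariables false

open Finset MvPolynomial NumberField Filter Topology
open Pool.Agent.Lib_helper5.DLH (tot FS tot_add tot_mul tot_le tot_sum tot_nonneg tot_const
  tot_log_eq_zero fs_log fs_posLog)

namespace Pool.Agent.DLN

/-! ### the radius -/

section radius

variable {N : ℕ} {F : Type*} [Field F]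

/-- the smallest number `R ≥ 1` such that `|a| ≤ R ^ (d - |α|)` for the coefficients `a` of the
monomials `x ^ α` of degree less than `d` -/
noncomputable def radius (v : AbsoluteValue F ℝ) (d : ℕ) (f : Fin N → MvPolynomial (Fin N) F) : ℝ :=
  sInf {R : ℝ | RadLe v d f R}

theorem radLe_sum (v : AbsoluteValue F ℝ) (d : ℕ) (f : Fin N → MvPolynomial (Fin N) F) :
    RadLe v d f (1 + ∑ i, ∑ α ∈ (f i).support, v (coeff α (f i))) := by
  have h0 : ∀ i, 0 ≤ ∑ α ∈ (f i).support, v (coeff α (f i)) := fun i =>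
    sum_nonneg fun α _ => apply_nonneg v _
  have h1 : 0 ≤ ∑ i, ∑ α ∈ (f i).support, v (coeff α (f i)) := sum_nonneg fun i _ => h0 i
  refine ⟨by linarith, fun i α hα => ?_⟩
  have h2 : v (coeff α (f i)) ≤ ∑ i, ∑ α ∈ (f i).support, v (coeff α (f i)) := by
    by_cases hc : coeff α (f i) = 0
    · rw [hc, map_zero]
      exact h1
    · refine le_trans ?_ (single_le_sum (fun i _ => h0 i) (mem_univ i))
      exact single_le_sum (f := fun α => v (coeff α (f i))) (fun α _ => apply_nonneg v _)
        (mem_support_iff.mpr hc)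
  have h3 : 1 ≤ 1 + ∑ i, ∑ α ∈ (f i).support, v (coeff α (f i)) := by linarith
  calc v (coeff α (f i)) ≤ 1 + ∑ i, ∑ α ∈ (f i).support, v (coeff α (f i)) := by linarith
    _ ≤ _ := le_self_pow₀ h3 (by omega)

theorem radius_spec (v : AbsoluteValue F ℝ) (d : ℕ) (f : Fin N → MvPolynomial (Fin N) F) :
    RadLe v d f (radius v d f) := by
  have hcl : IsClosed {R : ℝ | RadLe v d f R} := by
    have e : {R : ℝ | RadLe v d f R} = {R : ℝ | 1 ≤ R} ∩ ⋂ i : Fin N, ⋂ α : Fin N →₀ ℕ,
        ⋂ _ : α.degree < d, {R : ℝ | v (coeff α (f i)) ≤ R ^ (d - α.degree)} := by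
      ext R
      simp only [RadLe, Set.mem_ofPred_eq, Set.mem_inter_iff, Set.mem_iInter]
    rw [e]
    refine (isClosed_le continuous_const continuous_id).inter ?_
    refine isClosed_iInter fun i => isClosed_iInter fun α => isClosed_iInter fun _ => ?_
    exact isClosed_le continuous_const (continuous_pow _)
  exact hcl.csInf_mem ⟨_, radLe_sum v d f⟩ ⟨1, fun R hR => hR.1⟩

theorem radius_le {v : AbsoluteValue F ℝ} {d : ℕ} {f : Fin N → MvPolynomial (Fin N) F} {R : ℝ}
    (h : RadLe v d f R) : radius v d f ≤ R :=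
  csInf_le ⟨1, fun _ hR => hR.1⟩ h

theorem one_le_radius (v : AbsoluteValue F ℝ) (d : ℕ) (f : Fin N → MvPolynomial (Fin N) F) :
    1 ≤ radius v d f := (radius_spec v d f).1

end radius

variable {N : ℕ} {K : Type*} [Field K] [NumberField K]

theorem fs_of_le {ψ ψ' : FinitePlace K → ℝ} (h0 : ∀ w, 0 ≤ ψ w) (h : ∀ w, ψ w ≤ ψ' w)
    (h' : FS ψ') : FS ψ := by
  refine h'.subset fun w hw => ?_
  simp only [Function.mem_support] at hw ⊢
  intro h1
  exact hw (le_antisymm ((h w).trans h1.le) (h0 w))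

theorem fs_radius (d : ℕ) (f : Fin N → MvPolynomial (Fin N) K) :
    FS fun w : FinitePlace K => Real.log (radius w.val d f) := by
  have h1 : FS fun w : FinitePlace K => ∑ i, ∑ α ∈ (f i).support,
      Real.posLog (w (coeff α (f i))) :=
    FS.sum _ fun i _ => FS.sum _ fun α _ => fs_posLog _
  refine h1.subset fun w hw => ?_
  simp only [Function.mem_support] at hw ⊢
  intro h2
  apply hw
  have h3 : RadLe w.val d f 1 := by
    refine ⟨le_rfl, fun i α _ => ?_⟩
    rw [one_pow]
    by_cases hc : coeff α (f i) = 0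
    · rw [hc, map_zero]
      exact zero_le_one
    · rw [sum_eq_zero_iff_of_nonneg (fun i _ => sum_nonneg fun α _ => Real.posLog_nonneg)] at h2
      have h4 := h2 i (mem_univ i)
      rw [sum_eq_zero_iff_of_nonneg (fun α _ => Real.posLog_nonneg)] at h4
      have h5 := h4 α (mem_support_iff.mpr hc)
      rw [Real.posLog_eq_zero_iff] at h5
      have h6 : |w (coeff α (f i))| ≤ 1 := h5
      exact (le_abs_self _).trans h6
  have h4 : radius w.val d f = 1 := le_antisymm (radius_le h3) (one_le_radius _ _ _)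
  rw [h4, Real.log_one]

/-! ### heights -/

/-- the height of `[1 : x]`, relative to `K` -/
noncomputable def ht (x : Fin N → K) : ℝ :=
  Height.logHeight (Fin.cons 1 x : Fin (N + 1) → K)

theorem log_nrm_nonneg (v : AbsoluteValue K ℝ) (x : Fin N → K) : 0 ≤ Real.log (nrm v x) :=
  Real.log_nonneg (one_le_nrm v x)

theorem fs_nrm (x : Fin N → K) : FS fun w : FinitePlace K => Real.log (nrm w.val x) := by
  have h1 : FS fun w : FinitePlace K => ∑ i, Real.posLog (w (x i)) :=
    FS.sum _ fun i _ => fs_posLog _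
  refine fs_of_le (fun w => log_nrm_nonneg _ x) (fun w => ?_) h1
  have h0 : 0 ≤ ∑ i, Real.posLog (w (x i)) := sum_nonneg fun i _ => Real.posLog_nonneg
  rw [Real.log_le_iff_le_exp (zero_lt_one.trans_le (one_le_nrm _ x))]
  refine nrm_le (Real.one_le_exp h0) fun i => ?_
  have h2 : Real.posLog (w (x i)) ≤ ∑ i, Real.posLog (w (x i)) :=
    single_le_sum (f := fun i => Real.posLog (w (x i))) (fun i _ => Real.posLog_nonneg)
      (mem_univ i)
  rcases eq_or_ne (w.val (x i)) 0 with h3 | h3
  · rw [h3]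
    exact (Real.exp_pos _).le
  · have h4 : 0 < w.val (x i) := lt_of_le_of_ne (w.val.nonneg _) (Ne.symm h3)
    rw [← Real.log_le_iff_le_exp h4]
    exact (le_max_right 0 (Real.log (w.val (x i)))).trans h2

theorem ht_eq_tot (x : Fin N → K) :
    ht x = tot (fun w => Real.log (nrm w.val x)) (fun w => Real.log (nrm w.val x)) := by
  have hx : (Fin.cons 1 x : Fin (N + 1) → K) ≠ 0 := by
    intro h
    have h1 := congrFun h 0
    rw [Fin.cons_zero] at h1
    exact one_ne_zero h1
  unfold ht
  rw [Height.logHeight_eq_log_mulHeight, NumberField.mulHeight_eq hx]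
  have h1 : ∀ w : InfinitePlace K, 0 < nrm w.val x := fun w =>
    zero_lt_one.trans_le (one_le_nrm _ x)
  have h2 : ∀ w : FinitePlace K, 0 < nrm w.val x := fun w =>
    zero_lt_one.trans_le (one_le_nrm _ x)
  have h3 : (∏ w : InfinitePlace K, (⨆ i, w ((Fin.cons 1 x : Fin (N + 1) → K) i)) ^ w.mult) =
      ∏ w : InfinitePlace K, nrm w.val x ^ w.mult := rfl
  have h4 : (∏ᶠ w : FinitePlace K, ⨆ i, w ((Fin.cons 1 x : Fin (N + 1) → K) i)) =
      ∏ᶠ w : FinitePlace K, nrm w.val x := rfl
  rw [h3, h4]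
  have h5 : ∏ w : InfinitePlace K, nrm w.val x ^ w.mult ≠ 0 :=
    Finset.prod_ne_zero_iff.2 fun w _ => pow_ne_zero _ (h1 w).ne'
  have h6 : ∏ᶠ w : FinitePlace K, nrm w.val x ≠ 0 := by
    have h7 : (1 : ℝ) ≤ ∏ᶠ w : FinitePlace K, nrm w.val x := one_le_finprod fun w => one_le_nrm _ x
    linarith
  rw [Real.log_mul h5 h6, Real.log_prod (fun w _ => pow_ne_zero _ (h1 w).ne'),
    Real.log_finprod h2]
  unfold tot
  congr 1
  exact Finset.sum_congr rfl fun w _ => by rw [Real.log_pow]

theorem ht_nonneg (x : Fin N → K) : 0 ≤ ht x := by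
  rw [ht_eq_tot]
  exact tot_nonneg (fun w => log_nrm_nonneg _ x) fun w => log_nrm_nonneg _ x

/-- the local data at all places -/
structure Glob (d : ℕ) (f : Fin N → MvPolynomial (Fin N) K) where
  BI : InfinitePlace K → ℝ
  BF : FinitePlace K → ℝ
  hI : ∀ w, Loc w.val d f (BI w)
  hF : ∀ w, Loc w.val d f (BF w)
  fs : FS fun w => Real.log (BF w)
  d2 : 2 ≤ d

/-- the terms of the sequence defining the canonical height (relative to `K`) -/
noncomputable def useq (f : Fin N → MvPolynomial (Fin N) K) (d : ℕ) (x : Fin N → K) (n : ℕ) : ℝ :=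
  ht ((pm f)^[n] x) / (d : ℝ) ^ n

/-- the canonical height relative to `K` -/
noncomputable def hat (f : Fin N → MvPolynomial (Fin N) K) (d : ℕ) (x : Fin N → K) : ℝ :=
  limUnder atTop (useq f d x)

namespace Glob

variable {d : ℕ} {f : Fin N → MvPolynomial (Fin N) K} (P : Glob d f)

include P in
theorem d1 : 1 ≤ d := by
  have := P.d2
  omega

include P in
theorem dR : (2 : ℝ) ≤ d := by exact_mod_cast P.d2

include P in
theorem d_pos : (0 : ℝ) < d := by linarith [P.dR]

/-- total excess -/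
noncomputable def xx (x : Fin N → K) : ℝ :=
  tot (fun w => exs w.val (P.BI w) x) (fun w => exs w.val (P.BF w) x)

theorem fsX (x : Fin N → K) : FS fun w => exs w.val (P.BF w) x :=
  fs_of_le (fun w => exs_nonneg _ _ _) (fun w => exs_le_log (P.hF w).one_le x) (fs_nrm x)

theorem xx_nonneg (x : Fin N → K) : 0 ≤ P.xx x :=
  tot_nonneg (fun w => exs_nonneg _ _ _) fun w => exs_nonneg _ _ _

theorem xx_le (x : Fin N → K) : P.xx x ≤ ht x := by
  rw [ht_eq_tot]
  exact tot_le (P.fsX x) (fs_nrm x) (fun w => exs_le_log (P.hI w).one_le x)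
    fun w => exs_le_log (P.hF w).one_le x

theorem xx_step (x : Fin N → K) : d * P.xx x ≤ P.xx (pm f x) := by
  unfold xx
  rw [← tot_mul]
  exact tot_le ((P.fsX x).mul d) (P.fsX _) (fun w => (P.hI w).step P.d1 x)
    fun w => (P.hF w).step P.d1 x

theorem xx_iter (x : Fin N → K) (n : ℕ) : (d : ℝ) ^ n * P.xx x ≤ P.xx ((pm f)^[n] x) := by
  induction n with
  | zero => simp
  | succ n ih =>
    rw [Function.iterate_succ_apply']
    refine le_trans ?_ (P.xx_step _)
    rw [pow_succ]
    have h := P.d_pos.le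
    calc (d : ℝ) ^ n * d * P.xx x = d * (d ^ n * P.xx x) := by ring
      _ ≤ d * P.xx ((pm f)^[n] x) := mul_le_mul_of_nonneg_left ih h

/-- the height of the radii -/
noncomputable def hB : ℝ := tot (fun w => Real.log (P.BI w)) (fun w => Real.log (P.BF w))

theorem hB_nonneg : 0 ≤ P.hB := tot_nonneg (fun w => (P.hI w).logB) fun w => (P.hF w).logB

theorem height_up (x : Fin N → K) : ht (pm f x) ≤ d * ht x + d * P.hB := by
  rw [ht_eq_tot, ht_eq_tot]
  unfold hB
  rw [← tot_mul, ← tot_mul, ← tot_add ((fs_nrm x).mul d) (P.fs.mul d)]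
  exact tot_le (fs_nrm _) (((fs_nrm x).mul d).add (P.fs.mul d)) (fun w => (P.hI w).log_up x)
    fun w => (P.hF w).log_up x

theorem height_lo (x : Fin N → K) : d * ht x ≤ ht (pm f x) + d * P.hB := by
  rw [ht_eq_tot, ht_eq_tot]
  unfold hB
  rw [← tot_mul, ← tot_mul, ← tot_add (fs_nrm _) (P.fs.mul d)]
  exact tot_le ((fs_nrm x).mul d) ((fs_nrm _).add (P.fs.mul d)) (fun w => (P.hI w).log_down P.d1 x)
    fun w => (P.hF w).log_down P.d1 x

theorem useq_step (x : Fin N → K) (n : ℕ) :
    dist (useq f d x n) (useq f d x (n + 1)) ≤ P.hB * (1 / (d : ℝ)) ^ n := by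
  have hd := P.d_pos
  unfold useq
  rw [Function.iterate_succ_apply']
  set y := (pm f)^[n] x with hy
  have h1 := P.height_up y
  have h2 := P.height_lo y
  rw [Real.dist_eq]
  have h3 : ht y / (d : ℝ) ^ n - ht (pm f y) / (d : ℝ) ^ (n + 1) =
      (d * ht y - ht (pm f y)) / (d : ℝ) ^ (n + 1) := by
    rw [pow_succ]
    field_simp
  rw [h3, abs_div, abs_of_pos (pow_pos hd _ : (0 : ℝ) < d ^ (n + 1))]
  have h4 : P.hB * (1 / (d : ℝ)) ^ n = d * P.hB / (d : ℝ) ^ (n + 1) := by
    rw [div_pow, one_pow, pow_succ]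
    field_simp
  rw [h4]
  refine div_le_div_of_nonneg_right ?_ (by positivity)
  rw [abs_le]
  constructor <;> linarith

include P in
theorem r_lt_one : 1 / (d : ℝ) < 1 := by
  rw [div_lt_one P.d_pos]
  linarith [P.dR]

include P in
theorem tendsto_hat (x : Fin N → K) : Tendsto (useq f d x) atTop (𝓝 (hat f d x)) := by
  have h := cauchySeq_of_le_geometric _ _ P.r_lt_one (P.useq_step x)
  obtain ⟨a, ha⟩ := cauchySeq_tendsto_of_complete h
  exact tendsto_nhds_limUnder ⟨a, ha⟩

theorem xx_le_hat (x : Fin N → K) : P.xx x ≤ hat f d x := by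
  refine ge_of_tendsto' (P.tendsto_hat x) fun n => ?_
  unfold useq
  rw [le_div_iff₀ (pow_pos P.d_pos n)]
  calc P.xx x * (d : ℝ) ^ n = (d : ℝ) ^ n * P.xx x := mul_comm _ _
    _ ≤ P.xx ((pm f)^[n] x) := P.xx_iter x n
    _ ≤ _ := P.xx_le _

include P in
theorem hat_eval (x : Fin N → K) : hat f d (pm f x) = d * hat f d x := by
  refine tendsto_nhds_unique (P.tendsto_hat (pm f x)) ?_
  have h1 : Tendsto (fun n => useq f d x (n + 1)) atTop (𝓝 (hat f d x)) :=
    (tendsto_add_atTop_iff_nat 1).2 (P.tendsto_hat x)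
  have h2 := h1.const_mul (d : ℝ)
  refine h2.congr fun n => ?_
  unfold useq
  rw [Function.iterate_succ_apply, pow_succ]
  have := P.d_pos
  field_simp

include P in
theorem hat_iter (x : Fin N → K) (k : ℕ) : hat f d ((pm f)^[k] x) = (d : ℝ) ^ k * hat f d x := by
  induction k with
  | zero => simp
  | succ k ih =>
    rw [Function.iterate_succ_apply', P.hat_eval, ih, pow_succ]
    ring

theorem height_le_hat (x : Fin N → K) : ht x ≤ hat f d x + 2 * P.hB := by
  have h := dist_le_of_le_geometric_of_tendsto₀ _ _ P.r_lt_one (P.useq_step x) (P.tendsto_hat x)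
  have h0 : useq f d x 0 = ht x := by simp [useq]
  rw [h0, Real.dist_eq] at h
  have hd := P.dR
  have h1 : P.hB / (1 - 1 / (d : ℝ)) ≤ 2 * P.hB := by
    have h2 : (1 : ℝ) / 2 ≤ 1 - 1 / (d : ℝ) := by
      have h3 : 1 / (d : ℝ) ≤ 1 / 2 := by
        apply one_div_le_one_div_of_le <;> linarith
      linarith
    rw [div_le_iff₀ (by linarith)]
    nlinarith [P.hB_nonneg]
  have := (abs_le.1 (h.trans h1)).2
  linarith

include P in
theorem hat_nonneg (x : Fin N → K) : 0 ≤ hat f d x := (P.xx_nonneg x).trans (P.xx_le_hat x)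

end Glob

/-- the number of the monomials of degree less than `d`, doubled -/
noncomputable def GG (N d : ℕ) : ℝ := 2 * cc N (d - 1)

theorem one_le_GG (N d : ℕ) : 1 ≤ GG N d := by
  unfold GG
  have : (1 : ℝ) ≤ cc N (d - 1) := by exact_mod_cast one_le_cc N (d - 1)
  linarith

/-- the local data given by the radii -/
noncomputable def glob {d : ℕ} (hd : 2 ≤ d) {f : Fin N → MvPolynomial (Fin N) K} (hf : Mon d f) :
    Glob d f where
  BI := fun w => GG N d * radius w.val d f
  BF := fun w => radius w.val d f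
  hI := fun w => Loc.ar hd hf (radius_spec _ _ _)
  hF := fun w => Loc.na (FinitePlace.add_le w) (by omega) hf (radius_spec _ _ _)
  fs := fs_radius d f
  d2 := hd

/-- the height of `f`, relative to `K` -/
noncomputable def hrad (d : ℕ) (f : Fin N → MvPolynomial (Fin N) K) : ℝ :=
  tot (fun w => Real.log (radius w.val d f)) (fun w => Real.log (radius w.val d f))

theorem log_radius_nonneg (v : AbsoluteValue K ℝ) (d : ℕ) (f : Fin N → MvPolynomial (Fin N) K) :
    0 ≤ Real.log (radius v d f) := Real.log_nonneg (one_le_radius v d f)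

theorem hrad_nonneg (d : ℕ) (f : Fin N → MvPolynomial (Fin N) K) : 0 ≤ hrad d f :=
  tot_nonneg (fun w => log_radius_nonneg _ _ _) fun w => log_radius_nonneg _ _ _

theorem hB_glob {d : ℕ} (hd : 2 ≤ d) {f : Fin N → MvPolynomial (Fin N) K} (hf : Mon d f) :
    (glob hd hf).hB = hrad d f + Module.finrank ℚ K * Real.log (GG N d) := by
  have h1 := one_le_GG N d
  have e1 : (fun w : InfinitePlace K => Real.log ((glob hd hf).BI w)) =
      fun w => Real.log (radius w.val d f) + Real.log (GG N d) := by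
    funext w
    show Real.log (GG N d * radius w.val d f) = _
    rw [Real.log_mul (by linarith) (by linarith [one_le_radius w.val d f]), add_comm]
  have e2 : (fun w : FinitePlace K => Real.log ((glob hd hf).BF w)) =
      fun w => Real.log (radius w.val d f) + 0 := by
    funext w
    rw [add_zero]
    rfl
  unfold Glob.hB
  rw [e1, e2, tot_add (fs_radius d f) (by simp [FS]), tot_const]
  rfl

end Pool.Agent.DLN
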