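import Pool.Agent.Lib_helper31.DLN.Idx

/-!
# The exponent of the determinant at the heavy place (project DLN)
-/

set_option autoImplicit false

open Finset

namespace Pool.Agent.DLN

theorem one_add_pow_le {x : ℝ} (h0 : 0 ≤ x) (h1 : x ≤ 1) (n : ℕ) :
    (1 + x) ^ n ≤ 1 + (2 ^ n - 1) * x := by
  induction n with
  | zero => simp
  | succ n ih =>
    have h2 : (1 : ℝ) ≤ 2 ^ n := one_le_pow₀ (by norm_num)
    have h3 : (1 + x) ^ (n + 1) ≤ (1 + (2 ^ n - 1) * x) * (1 + x) := by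
      rw [pow_succ]
      exact mul_le_mul_of_nonneg_right ih (by linarith)
    refine h3.trans ?_
    rw [pow_succ]
    nlinarith [mul_nonneg (sub_nonneg.mpr h2) h0, mul_nonneg h0 (sub_nonneg.mpr h1),
      mul_nonneg (mul_nonneg (sub_nonneg.mpr h2) h0) (sub_nonneg.mpr h1)]

/-- product form of the binomial coefficient -/
theorem choose_prod (n N : ℕ) : ((N + 1).factorial : ℝ) * ((n + N).choose (N + 1) : ℝ) =
    ∏ i ∈ range (N + 1), ((n : ℝ) + i) := by
  cases n with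
  | zero =>
    rw [Nat.zero_add, Nat.choose_eq_zero_of_lt (Nat.lt_succ_self N)]
    rw [prod_eq_zero (mem_range.mpr (Nat.succ_pos N))]
    · simp
    · simp
  | succ n =>
    have h := Nat.ascFactorial_eq_factorial_mul_choose n (N + 1)
    rw [Nat.ascFactorial_eq_prod_range] at h
    have e : n + 1 + N = n + (N + 1) := by omega
    rw [e]
    have h2 : ((∏ i ∈ range (N + 1), (n + 1 + i) : ℕ) : ℝ) =
        (((N + 1).factorial * (n + (N + 1)).choose (N + 1) : ℕ) : ℝ) := by rw [h]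
    push_cast at h2
    push_cast
    exact h2.symm

theorem Q_le (N d K : ℕ) (hd : 1 ≤ d) :
    ((d * K + N).choose (N + 1) : ℝ) ≤ (d : ℝ) ^ (N + 1) * ((K + N).choose (N + 1) : ℝ) := by
  have hf : (0 : ℝ) < ((N + 1).factorial : ℝ) := by exact_mod_cast Nat.factorial_pos _
  refine le_of_mul_le_mul_left ?_ hf
  rw [choose_prod, mul_left_comm, choose_prod]
  have h1 : (d : ℝ) ^ (N + 1) * ∏ i ∈ range (N + 1), ((K : ℝ) + i) =
      ∏ i ∈ range (N + 1), ((d : ℝ) * ((K : ℝ) + i)) := by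
    rw [prod_mul_distrib, prod_const, card_range]
  rw [h1]
  refine prod_le_prod (fun i _ => by positivity) fun i _ => ?_
  have h2 : (1 : ℝ) ≤ d := by exact_mod_cast hd
  have h3 : (0 : ℝ) ≤ i := Nat.cast_nonneg i
  push_cast
  nlinarith

theorem P_le (N d K : ℕ) :
    (d : ℝ) ^ (N + 1) * ((K + N).choose (N + 1) : ℝ) * (K : ℝ) ^ (N + 1) ≤
      ((d * K + N).choose (N + 1) : ℝ) * ((K : ℝ) + N) ^ (N + 1) := by
  have hf : (0 : ℝ) < ((N + 1).factorial : ℝ) := by exact_mod_cast Nat.factorial_pos _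
  refine le_of_mul_le_mul_left ?_ hf
  have e1 : ((N + 1).factorial : ℝ) * ((d : ℝ) ^ (N + 1) * ((K + N).choose (N + 1) : ℝ) *
      (K : ℝ) ^ (N + 1)) = ∏ i ∈ range (N + 1), ((d : ℝ) * ((K : ℝ) + i) * K) := by
    rw [prod_mul_distrib, prod_mul_distrib, prod_const, prod_const, card_range, ← choose_prod]
    ring
  have e2 : ((N + 1).factorial : ℝ) * (((d * K + N).choose (N + 1) : ℝ) *
      ((K : ℝ) + N) ^ (N + 1)) = ∏ i ∈ range (N + 1), ((((d * K : ℕ) : ℝ) + i) * (K + N)) := by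
    rw [prod_mul_distrib, prod_const, card_range, ← choose_prod]
    ring
  rw [e1, e2]
  refine prod_le_prod (fun i _ => by positivity) fun i hi => ?_
  have h2 : (i : ℝ) ≤ N := by exact_mod_cast Nat.lt_succ_iff.mp (mem_range.mp hi)
  have h3 : (0 : ℝ) ≤ i := Nat.cast_nonneg i
  have h4 : (0 : ℝ) ≤ K := Nat.cast_nonneg K
  have h5 : (0 : ℝ) ≤ d := Nat.cast_nonneg d
  have h6 : (0 : ℝ) ≤ N := Nat.cast_nonneg N
  push_cast
  nlinarith [mul_nonneg (mul_nonneg h5 h4) (sub_nonneg.mpr h2), mul_nonneg h3 h4,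
    mul_nonneg h3 h6]

/-- the exponent at the heavy place -/
noncomputable def EE (N d K : ℕ) : ℝ :=
  ((d * K : ℕ) : ℝ) * cc N (d * K) - ((d * K + N).choose (N + 1) : ℝ) -
    ((d : ℝ) - 1) * (K * cc N (d * K) - ((d : ℝ) ^ N - 1) * ((K + N).choose (N + 1) : ℝ)) -
    (K * cc N (d * K) - (d : ℝ) ^ N * ((K + N).choose (N + 1) : ℝ))

theorem EE_le {N d K : ℕ} (hd : 2 ≤ d) (hK : 1 ≤ K) (hNK : N ≤ K) :
    EE N d K ≤ 2 ^ (N + 1) * d * cc N (d * K) -
      ((d : ℝ) - 1) / ((N + 1) * (d : ℝ) ^ N) * (K * cc N (d * K)) := by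
  set M : ℝ := (cc N (d * K) : ℝ) with hM
  set Q : ℝ := ((d * K + N).choose (N + 1) : ℝ) with hQ
  set P : ℝ := ((K + N).choose (N + 1) : ℝ) with hP
  have hd2 : (2 : ℝ) ≤ d := by exact_mod_cast hd
  have hK1 : (1 : ℝ) ≤ K := by exact_mod_cast hK
  have hNK' : (N : ℝ) ≤ K := by exact_mod_cast hNK
  have hN0 : (0 : ℝ) ≤ N := Nat.cast_nonneg N
  have hM0 : 0 ≤ M := Nat.cast_nonneg _
  have hQ0 : 0 ≤ Q := Nat.cast_nonneg _
  have hP0 : 0 ≤ P := Nat.cast_nonneg _
  have e1 : EE N d K = -Q + ((d : ℝ) ^ (N + 1) - (d - 1)) * P := by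
    unfold EE
    rw [← hM, ← hQ, ← hP, pow_succ]
    push_cast
    ring
  -- `Q (N + 1) = d K M`
  have e2 : Q * (N + 1) = d * K * M := by
    have h := Nat.choose_succ_right_eq (d * K + N) N
    rw [Nat.add_sub_cancel] at h
    have h2 : (((d * K + N).choose (N + 1) * (N + 1) : ℕ) : ℝ) =
        (((d * K + N).choose N * (d * K) : ℕ) : ℝ) := by rw [h]
    push_cast at h2
    rw [hQ, hM]
    unfold cc
    rw [h2]
    ring
  -- upper bound for `d ^ (N + 1) P`
  have h1 : (d : ℝ) ^ (N + 1) * P ≤ Q * (1 + N / K) ^ (N + 1) := by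
    have h := P_le N d K
    rw [← hP, ← hQ] at h
    have hKp : (0 : ℝ) < (K : ℝ) ^ (N + 1) := by positivity
    have e3 : (1 + (N : ℝ) / K) ^ (N + 1) = ((K : ℝ) + N) ^ (N + 1) / (K : ℝ) ^ (N + 1) := by
      rw [← div_pow]
      congr 1
      field_simp
    rw [e3, ← mul_div_assoc, le_div_iff₀ hKp]
    exact h
  have h2 : (1 + (N : ℝ) / K) ^ (N + 1) ≤ 1 + 2 ^ (N + 1) * (N / K) := by
    have h3 : 0 ≤ (N : ℝ) / K := by positivity
    refine (one_add_pow_le h3 ((div_le_one (by linarith)).mpr hNK') (N + 1)).trans ?_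
    nlinarith
  have h3 : (d : ℝ) ^ (N + 1) * P - Q ≤ 2 ^ (N + 1) * d * M := by
    have h4 := h1.trans (mul_le_mul_of_nonneg_left h2 hQ0)
    have h5 : Q * (1 + 2 ^ (N + 1) * (N / K)) - Q = 2 ^ (N + 1) * (N / (N + 1)) * d * M := by
      have hN1 : (N : ℝ) + 1 ≠ 0 := by positivity
      have hK0 : (K : ℝ) ≠ 0 := by positivity
      have e4 : Q = d * K * M / (N + 1) := by
        field_simp
        linarith
      rw [e4]
      field_simp
      ring
    have h6 : (N : ℝ) / (N + 1) ≤ 1 := (div_le_one (by linarith)).mpr (by linarith)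
    have h7 : 2 ^ (N + 1) * ((N : ℝ) / (N + 1)) * d * M ≤ 2 ^ (N + 1) * d * M := by
      have h8 : (0 : ℝ) ≤ 2 ^ (N + 1) * d * M := by positivity
      calc 2 ^ (N + 1) * ((N : ℝ) / (N + 1)) * d * M
          = (N : ℝ) / (N + 1) * (2 ^ (N + 1) * d * M) := by ring
        _ ≤ 1 * (2 ^ (N + 1) * d * M) := mul_le_mul_of_nonneg_right h6 h8
        _ = _ := one_mul _
    linarith
  have h4 : ((d : ℝ) - 1) / ((N + 1) * (d : ℝ) ^ N) * (K * M) ≤ (d - 1) * P := by
    have h5 := Q_le N d K (by omega)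
    rw [← hP, ← hQ] at h5
    have hN1 : (0 : ℝ) < (N : ℝ) + 1 := by positivity
    have hdN : (0 : ℝ) < (d : ℝ) ^ N := by positivity
    have h6 : K * M / ((N + 1) * (d : ℝ) ^ N) ≤ P := by
      rw [div_le_iff₀ (by positivity)]
      have h7 : d * (K * M) ≤ d * (P * ((N + 1) * (d : ℝ) ^ N)) := by
        calc d * (K * M) = Q * (N + 1) := by rw [e2]; ring
          _ ≤ ((d : ℝ) ^ (N + 1) * P) * (N + 1) := mul_le_mul_of_nonneg_right h5 hN1.le
          _ = _ := by rw [pow_succ]; ring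
      exact le_of_mul_le_mul_left h7 (by linarith)
    calc ((d : ℝ) - 1) / ((N + 1) * (d : ℝ) ^ N) * (K * M)
        = (d - 1) * (K * M / ((N + 1) * (d : ℝ) ^ N)) := by ring
      _ ≤ (d - 1) * P := mul_le_mul_of_nonneg_left h6 (by linarith)
  rw [e1]
  linarith

end Pool.Agent.DLN
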