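import Pool.Agent.Lib_helper31.DLN.Rank
import Pool.Agent.Lib_helper31.DLN.Num

/-!
# The determinant at the heavy place (project DLN)
-/

set_option autoImplicit false

open Finset MvPolynomial

namespace Pool.Agent.DLN

variable {N : ℕ} {F : Type*} [Field F]

theorem LM.psi {d : ℕ} {h : Fin N → MvPolynomial (Fin N) F} (hh : Mon d h) (s : Fin N →₀ ℕ) :
    LM s (psi d h s) := by
  have h1 := (LM.self (F := F) (dm d s)).mul (hh.fpow (dv d s))
  rwa [dm_add_dv] at h1

theorem GB.psi {w : AbsoluteValue F ℝ} {R : ℝ} (hw : IsNonarchimedean w) (hR : 0 ≤ R) {d : ℕ}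
    {h : Fin N → MvPolynomial (Fin N) F} (hg : ∀ i, GB w R (R ^ d) (h i)) (s : Fin N →₀ ℕ) :
    GB w R (R ^ s.degree) (psi d h s) := by
  have h2 := (GB.monomial' (w := w) (dm d s) (1 : F) hR).mul hw hR
    (mul_nonneg (apply_nonneg w _) (by positivity)) (by positivity) (GB.fpow hw hR hg (dv d s))
  refine h2.mono (le_of_eq ?_)
  rw [map_one, one_mul, ← pow_add]
  congr 1
  exact (degree_split d s).symm

/-- every polynomial has some Gauss norm -/
theorem exists_GB (w : AbsoluteValue F ℝ) {R : ℝ} (hR : 0 ≤ R) (p : MvPolynomial (Fin N) F) :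
    ∃ A, 0 ≤ A ∧ GB w R A p := by
  refine ⟨∑ α ∈ p.support, w (coeff α p) * R ^ α.degree,
    sum_nonneg fun α _ => mul_nonneg (apply_nonneg w _) (pow_nonneg hR _), fun α => ?_⟩
  by_cases hα : α ∈ p.support
  · exact single_le_sum (f := fun α => w (coeff α p) * R ^ α.degree)
      (fun α _ => mul_nonneg (apply_nonneg w _) (pow_nonneg hR _)) hα
  · rw [notMem_support_iff.mp hα, map_zero, zero_mul]
    exact sum_nonneg fun α _ => mul_nonneg (apply_nonneg w _) (pow_nonneg hR _)

theorem Mon.sub_C {d : ℕ} (hd : 1 ≤ d) {f : Fin N → MvPolynomial (Fin N) F} (hf : Mon d f)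
    (c : Fin N → F) : Mon d (fun i => f i - C (c i)) := by
  intro i
  have h := hf i
  unfold LM at h ⊢
  have e : f i - C (c i) - monomial (Finsupp.single i d) 1 =
      (f i - monomial (Finsupp.single i d) 1) + C (- c i) := by
    rw [C_neg]
    ring
  rw [e]
  refine h.add ((DG.C' _).dl.mono ?_)
  rw [Finsupp.degree_single]
  exact hd

theorem mon_X : Mon 1 (fun i => (X i : MvPolynomial (Fin N) F)) := by
  intro i
  exact LM.self _

theorem fp_bind (f : Fin N → MvPolynomial (Fin N) F) (c : Fin N → F) (κ : Fin N →₀ ℕ) :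
    bind₁ f (fp (fun i => X i - C (c i)) κ) = fp (fun i => f i - C (c i)) κ := by
  unfold fp
  rw [map_prod]
  refine prod_congr rfl fun i _ => ?_
  rw [map_pow, map_sub, bind₁_X_right, bind₁_C_right]

/-- expansion of the adapted system in digit functions -/
theorem psi_expand {w : AbsoluteValue F ℝ} {R : ℝ} (hw : IsNonarchimedean w) (hR : 1 ≤ R) {d : ℕ}
    (hd : 2 ≤ d) {f : Fin N → MvPolynomial (Fin N) F} (hf : Mon d f)
    (hg : ∀ i, GB w R (R ^ d) (f i)) {c : Fin N → F} (hc : ∀ i, w (c i) ≤ R) {J n : ℕ}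
    (hJ : n < d ^ (J + 1)) {s : Fin N →₀ ℕ} (hs : s ∈ Gam N n) :
    ∃ a : (Fin N →₀ ℕ) → F,
      psi d (fun i => f i - C (c i)) s = ∑ δ ∈ Gam N n, C (a δ) * dig d f (J + 1) δ ∧
      ∀ δ, w (a δ) * R ^ (dv d δ).degree ≤ R ^ (dv d s).degree := by
  classical
  have hR0 : 0 < R := by linarith
  have hd1 : 1 ≤ d := by omega
  -- the low digit functions
  have hlt : ∀ κ ∈ Gam N (dv d s).degree, ∀ i, κ i < d ^ J := by
    intro κ hκ i
    have h1 := (Finsupp.le_degree i κ).trans (mem_Gam.mp hκ)
    have h2 := dv_degree_mul_le d s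
    have h3 := mem_Gam.mp hs
    rw [pow_succ] at hJ
    by_contra hcon
    rw [not_lt] at hcon
    have h4 : d ^ J ≤ (dv d s).degree := hcon.trans h1
    have h5 : d * d ^ J ≤ d * (dv d s).degree := Nat.mul_le_mul_left d h4
    have h6 : d ^ J * d = d * d ^ J := mul_comm _ _
    omega
  have hX : ∀ i, GB w R R (X i - C (c i) : MvPolynomial (Fin N) F) := by
    intro i
    have h1 := GB.monomial' (w := w) (Finsupp.single i 1) (1 : F) hR0.le
    rw [map_one, one_mul, Finsupp.degree_single, pow_one] at h1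
    exact GB.sub hw hR0.le h1 ((GB.C' (c i) hR0.le).mono (hc i))
  have hGp : GB w R (R ^ (dv d s).degree) (fp (fun i => X i - C (c i)) (dv d s)) := by
    have h1 := GB.fpow (d := 1) hw hR0.le (f := fun i => X i - C (c i))
      (fun i => by rw [pow_one]; exact hX i) (dv d s)
    rwa [one_mul] at h1
  have hDp : DL ((dv d s).degree + 1) (fp (fun i => X i - C (c i)) (dv d s) :
      MvPolynomial (Fin N) F) := by
    have h1 := ((mon_X (N := N) (F := F)).sub_C le_rfl c).fpow (dv d s)
    rw [one_smul] at h1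
    exact h1.dg.dl
  obtain ⟨a, ha1, ha2, ha3⟩ := expand hw hR0 (m := (dv d s).degree) (ψ := dig d f J)
    (fun γ hγ => LM.dig hd1 hf J γ (hlt γ hγ)) (fun γ hγ => GB.dig hw hR hd1 hf hg J γ (hlt γ hγ))
    ((dv d s).degree + 1) le_rfl _ _ (by positivity) hDp hGp
  refine ⟨fun δ => if dm d δ = dm d s then a (dv d δ) else 0, ?_, fun δ => ?_⟩
  · have e1 : psi d (fun i => f i - C (c i)) s =
        ∑ κ ∈ Gam N (dv d s).degree, C (a κ) * dig d f (J + 1) (mk d (dm d s) κ) := by
      unfold psi
      rw [← fp_bind, ha1, map_sum, mul_sum]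
      refine sum_congr rfl fun κ _ => ?_
      rw [map_mul, bind₁_C_right, dig_succ, dm_mk (dm_lt (by omega) s), dv_mk (dm_lt (by omega) s)]
      ring
    rw [e1]
    have e2 : ∑ δ ∈ Gam N n, C (if dm d δ = dm d s then a (dv d δ) else 0) * dig d f (J + 1) δ =
        ∑ δ ∈ (Gam N (dv d s).degree).image (mk d (dm d s)),
          C (a (dv d δ)) * dig d f (J + 1) δ := by
      symm
      have hsub : (Gam N (dv d s).degree).image (mk d (dm d s)) ⊆ Gam N n := by
        intro δ hδ
        obtain ⟨κ, hκ, rfl⟩ := mem_image.mp hδ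
        rw [mem_Gam] at hκ ⊢
        have h1 := mem_Gam.mp hs
        rw [degree_split d s] at h1
        unfold mk
        rw [map_add, map_nsmul, smul_eq_mul]
        have h2 : d * κ.degree ≤ d * (dv d s).degree := Nat.mul_le_mul_left d hκ
        omega
      rw [← Finset.sum_subset hsub]
      · refine sum_congr rfl fun δ hδ => ?_
        obtain ⟨κ, _, rfl⟩ := mem_image.mp hδ
        rw [if_pos (dm_mk (dm_lt (by omega) s))]
      · intro δ _ hδ
        split_ifs with h
        · have h1 : (dv d s).degree + 1 ≤ (dv d δ).degree := by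
            by_contra h2
            apply hδ
            refine mem_image.mpr ⟨dv d δ, mem_Gam.mpr (by omega), ?_⟩
            rw [← h]
            exact mk_dm_dv d δ
          rw [ha3 _ h1, C_0, zero_mul]
        · rw [C_0, zero_mul]
    rw [e2, sum_image]
    · refine sum_congr rfl fun κ _ => ?_
      rw [dv_mk (dm_lt (by omega) s)]
    · intro κ _ κ' _ hk
      have h1 := congrArg (dv d) hk
      rwa [dv_mk (dm_lt (by omega) s), dv_mk (dm_lt (by omega) s)] at h1
  · show w (if dm d δ = dm d s then a (dv d δ) else 0) * _ ≤ _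
    split_ifs with h
    · exact ha2 _
    · rw [map_zero, zero_mul]
      positivity

end Pool.Agent.DLN
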