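import Pool.Agent.Lib_helper31.DLN.Dig

/-!
# The rank constraint at a point of the fibre (project DLN)
-/

set_option autoImplicit false

open Finset MvPolynomial

namespace Pool.Agent.DLN

variable {N : ℕ} {F : Type*} [Field F]

/-- all monomials have degree at least `k` -/
def OR (k : ℕ) (p : MvPolynomial (Fin N) F) : Prop := ∀ α, coeff α p ≠ 0 → k ≤ α.degree

theorem OR.mul {k l : ℕ} {p q : MvPolynomial (Fin N) F} (hp : OR k p) (hq : OR l q) :
    OR (k + l) (p * q) := by
  intro α hα
  obtain ⟨β, γ, rfl, h1, h2⟩ := coeff_mul_ne hα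
  rw [map_add]
  exact add_le_add (hp β h1) (hq γ h2)

theorem OR.zero_le (p : MvPolynomial (Fin N) F) : OR 0 p := fun _ _ => Nat.zero_le _

theorem OR.pow {k : ℕ} {p : MvPolynomial (Fin N) F} (hp : OR k p) (n : ℕ) : OR (n * k) (p ^ n) := by
  induction n with
  | zero => rw [zero_mul]; exact OR.zero_le _
  | succ n ih =>
    rw [pow_succ, Nat.succ_mul]
    exact ih.mul hp

theorem OR.prod (s : Finset (Fin N)) (k : Fin N → ℕ) (p : Fin N → MvPolynomial (Fin N) F)
    (h : ∀ i ∈ s, OR (k i) (p i)) : OR (∑ i ∈ s, k i) (∏ i ∈ s, p i) := by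
  classical
  induction s using Finset.induction_on with
  | empty => rw [sum_empty]; exact OR.zero_le _
  | insert i s hi ih =>
    rw [sum_insert hi, prod_insert hi]
    exact (h i (mem_insert_self i s)).mul (ih fun j hj => h j (mem_insert_of_mem hj))

/-- the substitution `x ↦ x + z` -/
noncomputable def sh (z : Fin N → F) : MvPolynomial (Fin N) F →ₐ[F] MvPolynomial (Fin N) F :=
  bind₁ fun i => X i + C (z i)

theorem sh_X (z : Fin N → F) (i : Fin N) : sh z (X i) = X i + C (z i) := bind₁_X_right _ _

theorem sh_C (z : Fin N → F) (c : F) : sh z (C c) = C c := bind₁_C_right _ _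

/-- a polynomial that vanishes at `z` has no constant term after the substitution -/
theorem OR.sh_one {z : Fin N → F} {p : MvPolynomial (Fin N) F} (h : eval z p = 0) :
    OR 1 (sh z p) := by
  intro α hα
  by_contra hc
  have h0 : α.degree = 0 := by omega
  rw [Finsupp.degree_eq_zero_iff] at h0
  apply hα
  rw [h0]
  have h1 : constantCoeff (sh z p) = eval (fun _ => 0) (sh z p) :=
    (MvPolynomial.eval_zero' (R := F) (σ := Fin N) ▸ rfl)
  have h2 : eval (fun _ => 0) (sh z p) = eval z p := by
    have h3 := MvPolynomial.eval₂Hom_bind₁ (RingHom.id F) (fun _ : Fin N => (0 : F))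
      (fun i => X i + C (z i)) p
    refine h3.trans ?_
    have h4 : (fun i => eval₂Hom (RingHom.id F) (fun _ : Fin N => (0 : F)) (X i + C (z i))) = z := by
      funext i
      simp
    rw [h4]
    rfl
  show constantCoeff (sh z p) = 0
  rw [h1, h2, h]

theorem OR.sh_fp {z : Fin N → F} {h : Fin N → MvPolynomial (Fin N) F}
    (hz : ∀ i, eval z (h i) = 0) (κ : Fin N →₀ ℕ) : OR κ.degree (sh z (fp h κ)) := by
  unfold fp
  rw [map_prod, Finsupp.degree_eq_sum]
  refine OR.prod univ _ _ fun i _ => ?_
  rw [map_pow]
  have h1 := (OR.sh_one (hz i)).pow (κ i)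
  rwa [mul_one] at h1

/-- the function used at the heavy place -/
noncomputable def UU (z : Fin N → F) (i : Fin N) (K : ℕ) : MvPolynomial (Fin N) F :=
  (X i - C (z i)) ^ K

theorem OR.sh_UU (z : Fin N → F) (i : Fin N) (K : ℕ) : OR K (sh z (UU z i K)) := by
  unfold UU
  rw [map_pow]
  have h1 : OR 1 (sh z (X i - C (z i))) := OR.sh_one (by simp)
  have h2 := h1.pow K
  rwa [mul_one] at h2

/-- the monomials in `x - z` -/
noncomputable def tb (z : Fin N → F) (β : Fin N →₀ ℕ) : MvPolynomial (Fin N) F :=
  fp (fun i => X i - C (z i)) β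

theorem sh_tb (z : Fin N → F) (β : Fin N →₀ ℕ) : sh z (tb z β) = monomial β 1 := by
  unfold tb fp
  rw [map_prod, monomial_eq, C_1, one_mul, Finsupp.prod_fintype]
  · refine prod_congr rfl fun i _ => ?_
    rw [map_pow, map_sub, sh_X, sh_C, add_sub_cancel_right]
  · intro i
    exact pow_zero _

theorem DG.tb (z : Fin N → F) (β : Fin N →₀ ℕ) : DG β.degree (tb z β) := by
  have h : Mon 1 (fun i => (X i - C (z i) : MvPolynomial (Fin N) F)) := by
    intro i
    unfold LM
    have e : (X i - C (z i) : MvPolynomial (Fin N) F) - monomial (Finsupp.single i 1) 1 =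
        C (- z i) := by
      have : (monomial (Finsupp.single i 1) 1 : MvPolynomial (Fin N) F) = X i := rfl
      rw [this, C_neg]
      ring
    rw [e, Finsupp.degree_single]
    exact (DG.C' _).dl
  have h1 := (h.fpow β).dg
  rwa [one_smul] at h1

/-- the system adapted to the fibre -/
noncomputable def psi (d : ℕ) (h : Fin N → MvPolynomial (Fin N) F) (s : Fin N →₀ ℕ) :
    MvPolynomial (Fin N) F := monomial (dm d s) 1 * fp h (dv d s)

theorem OR.sh_psi {d : ℕ} {z : Fin N → F} {h : Fin N → MvPolynomial (Fin N) F}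
    (hz : ∀ i, eval z (h i) = 0) (s : Fin N →₀ ℕ) : OR (dv d s).degree (sh z (psi d h s)) := by
  unfold psi
  rw [map_mul]
  have h1 := (OR.zero_le (sh z (monomial (dm d s) (1 : F)))).mul (OR.sh_fp hz (dv d s))
  rwa [zero_add] at h1

open Classical in
/-- **The rank constraint.** The rows `W γ` vanish to order `K` at `z`, and a zero of `h` is `z`.
If the minor with columns `τ` of the matrix of coefficients is not zero, then not too many of
these columns have upper digits of degree at most `k`. -/
theorem rank_constraint {ι : Type*} [Fintype ι] [DecidableEq ι] {d n K k : ℕ} {z : Fin N → F}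
    {h : Fin N → MvPolynomial (Fin N) F} (hz : ∀ i, eval z (h i) = 0)
    (hspan : ∀ p : MvPolynomial (Fin N) F, DG n p →
      ∃ c : (Fin N →₀ ℕ) → F, p = ∑ s ∈ Gam N n, C (c s) * psi d h s)
    (hkK : k < K) (hkn : k ≤ n) (W : ι → MvPolynomial (Fin N) F) (hW : ∀ γ, OR K (sh z (W γ)))
    (c : ι → (Fin N →₀ ℕ) → F) (hc : ∀ γ, W γ = ∑ s ∈ Gam N n, C (c γ s) * psi d h s)
    (τ : ι → (Fin N →₀ ℕ)) (hτn : ∀ γ, τ γ ∈ Gam N n)
    (hdet : (Matrix.of fun s γ => c γ (τ s)).det ≠ 0) :
    (univ.filter fun γ => (dv d (τ γ)).degree < k + 1).card + cc N k ≤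
      ((Gam N n).filter fun s => (dv d s).degree < k + 1).card := by
  set All := (Gam N n).filter fun s => (dv d s).degree < k + 1 with hAll
  set T := univ.filter fun γ => (dv d (τ γ)).degree < k + 1 with hT
  -- the coefficient map on vectors supported in `All`
  let Φ : (All → F) →ₗ[F] (ι → F) :=
    { toFun := fun a γ => ∑ s : All, a s * c γ s
      map_add' := fun a b => by
        funext γ
        simp only [Pi.add_apply, add_mul, sum_add_distrib]
      map_smul' := fun r a => by
        funext γ
        simp only [Pi.smul_apply, smul_eq_mul, RingHom.id_apply, mul_sum, mul_assoc] }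
  -- the Taylor coefficients
  let Λ : (Gam N k → F) →ₗ[F] (All → F) :=
    { toFun := fun b s => ∑ α : Gam N k, b α * coeff (α : Fin N →₀ ℕ) (sh z (psi d h s))
      map_add' := fun a b => by
        funext γ
        simp only [Pi.add_apply, add_mul, sum_add_distrib]
      map_smul' := fun r a => by
        funext γ
        simp only [Pi.smul_apply, smul_eq_mul, RingHom.id_apply, mul_sum, mul_assoc] }
  -- for a polynomial with an expansion, low Taylor coefficients only see `All`
  have key : ∀ (p : MvPolynomial (Fin N) F) (a : (Fin N →₀ ℕ) → F),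
      p = ∑ s ∈ Gam N n, C (a s) * psi d h s → ∀ b : Gam N k → F,
      ∑ s : All, a s * Λ b s = ∑ α : Gam N k, b α * coeff (α : Fin N →₀ ℕ) (sh z p) := by
    intro p a hp b
    have h1 : ∀ α : Gam N k, coeff (α : Fin N →₀ ℕ) (sh z p) =
        ∑ s : All, a s * coeff (α : Fin N →₀ ℕ) (sh z (psi d h s)) := by
      intro α
      rw [hp, map_sum, coeff_sum]
      have h2 : ∀ s ∈ Gam N n, s ∉ All →
          coeff (α : Fin N →₀ ℕ) (sh z (C (a s) * psi d h s)) = 0 := by
        intro s hs hsA
        have h3 : k + 1 ≤ (dv d s).degree := by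
          by_contra h4
          exact hsA (mem_filter.mpr ⟨hs, by omega⟩)
        rw [map_mul, sh_C, coeff_C_mul]
        have h4 : coeff (α : Fin N →₀ ℕ) (sh z (psi d h s)) = 0 := by
          by_contra h5
          have h6 := OR.sh_psi (d := d) hz s _ h5
          have h7 := mem_Gam.mp α.2
          omega
        rw [h4, mul_zero]
      rw [← Finset.sum_subset (filter_subset _ (Gam N n)) h2, ← sum_coe_sort All]
      refine sum_congr rfl fun s _ => ?_
      rw [map_mul, sh_C, coeff_C_mul]
    have h2 : ∀ s : All, a s * Λ b s =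
        ∑ α : Gam N k, b α * (a s * coeff (α : Fin N →₀ ℕ) (sh z (psi d h s))) := by
      intro s
      show a s * ∑ α : Gam N k, b α * coeff (α : Fin N →₀ ℕ) (sh z (psi d h s)) = _
      rw [mul_sum]
      refine sum_congr rfl fun α _ => ?_
      ring
    rw [sum_congr rfl fun s _ => h2 s, sum_comm]
    refine sum_congr rfl fun α _ => ?_
    rw [h1, mul_sum]
  -- `Λ` is injective
  have hΛ : Function.Injective Λ := by
    rw [← LinearMap.ker_eq_bot, LinearMap.ker_eq_bot']
    intro b hb
    funext β
    have hβ := mem_Gam.mp β.2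
    obtain ⟨a, ha⟩ := hspan (tb z β) ((DG.tb z β).mono (hβ.trans hkn))
    have h1 := key _ a ha b
    rw [hb] at h1
    simp only [Pi.zero_apply, mul_zero, sum_const_zero] at h1
    rw [sh_tb] at h1
    simp only [coeff_monomial] at h1
    rw [sum_eq_single β] at h1
    · rw [if_pos rfl, mul_one] at h1
      exact h1.symm
    · intro α _ hαβ
      rw [if_neg (fun he => hαβ (Subtype.ext he.symm)), mul_zero]
    · intro h2
      exact absurd (mem_univ β) h2
  -- the range of `Λ` is killed by `Φ`
  have hker : LinearMap.range Λ ≤ LinearMap.ker Φ := by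
    rintro _ ⟨b, rfl⟩
    rw [LinearMap.mem_ker]
    funext γ
    show ∑ s : All, Λ b s * c γ s = 0
    have h1 := key (W γ) (c γ) (hc γ) b
    have h2 : ∑ s : All, Λ b s * c γ s = ∑ s : All, c γ s * Λ b s :=
      sum_congr rfl fun s _ => mul_comm _ _
    rw [h2, h1]
    refine sum_eq_zero fun α _ => ?_
    have h3 : coeff (α : Fin N →₀ ℕ) (sh z (W γ)) = 0 := by
      by_contra h4
      have h5 := hW γ _ h4
      have h6 := mem_Gam.mp α.2
      omega
    rw [h3, mul_zero]
  have hk1 : cc N k ≤ Module.finrank F (LinearMap.ker Φ) := by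
    have h1 := LinearMap.finrank_range_of_inj hΛ
    have h2 := Submodule.finrank_mono hker
    rw [h1, Module.finrank_fintype_fun_eq_card, Fintype.card_coe, card_Gam] at h2
    exact h2
  -- the columns `τ` are independent
  let E : (T → F) →ₗ[F] (All → F) :=
    { toFun := fun b s => ∑ γ : T, if τ γ = s then b γ else 0
      map_add' := fun a b => by
        funext s
        simp only [Pi.add_apply]
        rw [← sum_add_distrib]
        refine sum_congr rfl fun γ _ => ?_
        split_ifs <;> simp
      map_smul' := fun r a => by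
        funext s
        simp only [Pi.smul_apply, smul_eq_mul, RingHom.id_apply, mul_sum, mul_ite, mul_zero] }
  have hE : Function.Injective (Φ ∘ₗ E) := by
    rw [← LinearMap.ker_eq_bot, LinearMap.ker_eq_bot']
    intro b hb
    let b' : ι → F := fun γ => if hγ : γ ∈ T then b ⟨γ, hγ⟩ else 0
    have h1 : (Matrix.of fun s γ => c γ (τ s)).transpose.mulVec b' = 0 := by
      funext γ
      have h2 := congrFun hb γ
      have h3 : (Φ ∘ₗ E) b γ = ∑ s : All, (∑ γ' : T, if τ γ' = s then b γ' else 0) * c γ s := rfl
      rw [h3] at h2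
      show ∑ γ', c γ (τ γ') * b' γ' = 0
      refine Eq.trans ?_ h2
      have h4 : ∑ γ', c γ (τ γ') * b' γ' = ∑ γ' : T, c γ (τ γ') * b γ' := by
        rw [← Finset.sum_subset (subset_univ T)]
        · rw [← sum_coe_sort T]
          refine sum_congr rfl fun γ' _ => ?_
          show c γ (τ γ') * (if hγ : (γ' : ι) ∈ T then b ⟨γ', hγ⟩ else 0) = _
          rw [dif_pos γ'.2]
        · intro γ' _ hγ'
          show c γ (τ γ') * (if hγ : (γ' : ι) ∈ T then b ⟨γ', hγ⟩ else 0) = 0
          rw [dif_neg hγ', mul_zero]
      rw [h4]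
      have h5 : ∀ s : All, (∑ γ' : T, if τ γ' = s then b γ' else 0) * c γ s =
          ∑ γ' : T, if τ γ' = s then c γ (τ γ') * b γ' else 0 := by
        intro s
        rw [sum_mul]
        refine sum_congr rfl fun γ' _ => ?_
        split_ifs with h6
        · rw [← h6, mul_comm]
        · rw [zero_mul]
      rw [sum_congr rfl fun s _ => h5 s, sum_comm]
      refine sum_congr rfl fun γ' _ => ?_
      have hs : τ γ' ∈ All := mem_filter.mpr ⟨hτn γ', (mem_filter.mp γ'.2).2⟩
      rw [sum_eq_single ⟨τ γ', hs⟩]
      · rw [if_pos rfl]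
      · intro s _ hne
        rw [if_neg]
        intro he
        exact hne (Subtype.ext he.symm)
      · intro h6
        exact absurd (mem_univ _) h6
    have h2 : b' = 0 := by
      have hdet' : (Matrix.of fun s γ => c γ (τ s)).transpose.det ≠ 0 := by
        rw [Matrix.det_transpose]
        exact hdet
      exact Matrix.eq_zero_of_mulVec_eq_zero hdet' h1
    funext γ
    have h3 := congrFun h2 γ
    have h4 : b' γ = b γ := by
      show (if hγ : (γ : ι) ∈ T then b ⟨γ, hγ⟩ else 0) = b γ
      rw [dif_pos γ.2]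
    rw [h4] at h3
    exact h3
  have hr : T.card ≤ Module.finrank F (LinearMap.range Φ) := by
    have h1 := LinearMap.finrank_range_of_inj hE
    have h2 : LinearMap.range (Φ ∘ₗ E) ≤ LinearMap.range Φ := LinearMap.range_comp_le_range _ _
    have h3 := Submodule.finrank_mono h2
    rw [h1, Module.finrank_fintype_fun_eq_card, Fintype.card_coe] at h3
    exact h3
  have hrn := LinearMap.finrank_range_add_finrank_ker Φ
  rw [Module.finrank_fintype_fun_eq_card, Fintype.card_coe] at hrn
  omega

end Pool.Agent.DLN
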