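import Pool.Agent.Lib_helper31.DLN.Loc
import Pool.Agent.Lib_helper31.DLN.Rank

/-!
# The norm given by the sum of the absolute values of the coefficients (project DLN)
-/

set_option autoImplicit false

open Finset MvPolynomial

namespace Pool.Agent.DLN

variable {N : ℕ} {F : Type*} [Field F]

/-- the sum of the absolute values of the terms of `p` at the radius `r` -/
noncomputable def N1 (w : AbsoluteValue F ℝ) (r : ℝ) (p : MvPolynomial (Fin N) F) : ℝ :=
  ∑ α ∈ p.support, w (coeff α p) * r ^ α.degree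

variable {w : AbsoluteValue F ℝ} {r : ℝ}

theorem N1_term_nonneg (w : AbsoluteValue F ℝ) (hr : 0 ≤ r) (p : MvPolynomial (Fin N) F)
    (α : Fin N →₀ ℕ) : 0 ≤ w (coeff α p) * r ^ α.degree :=
  mul_nonneg (apply_nonneg w _) (pow_nonneg hr _)

theorem N1_nonneg (w : AbsoluteValue F ℝ) (hr : 0 ≤ r) (p : MvPolynomial (Fin N) F) :
    0 ≤ N1 w r p := sum_nonneg fun α _ => N1_term_nonneg w hr p α

theorem N1_eq_sum (w : AbsoluteValue F ℝ) (r : ℝ) {p : MvPolynomial (Fin N) F}
    {s : Finset (Fin N →₀ ℕ)} (hs : p.support ⊆ s) :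
    N1 w r p = ∑ α ∈ s, w (coeff α p) * r ^ α.degree := by
  unfold N1
  refine sum_subset hs fun α _ hα => ?_
  rw [notMem_support_iff.mp hα, map_zero, zero_mul]

theorem coeff_le_N1 (hr : 0 ≤ r) (p : MvPolynomial (Fin N) F) (α : Fin N →₀ ℕ) :
    w (coeff α p) * r ^ α.degree ≤ N1 w r p := by
  by_cases hα : α ∈ p.support
  · exact single_le_sum (f := fun α => w (coeff α p) * r ^ α.degree)
      (fun α _ => N1_term_nonneg w hr p α) hα
  · rw [notMem_support_iff.mp hα, map_zero, zero_mul]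
    exact N1_nonneg w hr p

theorem N1_add_le (hr : 0 ≤ r) (p q : MvPolynomial (Fin N) F) :
    N1 w r (p + q) ≤ N1 w r p + N1 w r q := by
  classical
  have h1 : (p + q).support ⊆ p.support ∪ q.support := support_add
  rw [N1_eq_sum w r h1, N1_eq_sum w r (subset_union_left (s₁ := p.support) (s₂ := q.support)),
    N1_eq_sum w r (subset_union_right (s₁ := p.support) (s₂ := q.support)), ← sum_add_distrib]
  refine sum_le_sum fun α _ => ?_
  rw [coeff_add, ← add_mul]
  exact mul_le_mul_of_nonneg_right (w.add_le _ _) (pow_nonneg hr _)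

theorem N1_zero (w : AbsoluteValue F ℝ) (r : ℝ) : N1 w r (0 : MvPolynomial (Fin N) F) = 0 := by
  simp [N1]

theorem N1_sum_le (hr : 0 ≤ r) {ι : Type*} (s : Finset ι) (p : ι → MvPolynomial (Fin N) F) :
    N1 w r (∑ i ∈ s, p i) ≤ ∑ i ∈ s, N1 w r (p i) := by
  classical
  induction s using Finset.induction_on with
  | empty => rw [sum_empty, sum_empty, N1_zero]
  | insert i s hi ih =>
    rw [sum_insert hi, sum_insert hi]
    exact (N1_add_le hr _ _).trans (by linarith)

theorem N1_neg (w : AbsoluteValue F ℝ) (r : ℝ) (p : MvPolynomial (Fin N) F) :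
    N1 w r (-p) = N1 w r p := by
  unfold N1
  rw [support_neg]
  refine sum_congr rfl fun α _ => ?_
  rw [coeff_neg, w.map_neg]

theorem N1_sub_le (hr : 0 ≤ r) (p q : MvPolynomial (Fin N) F) :
    N1 w r (p - q) ≤ N1 w r p + N1 w r q := by
  rw [sub_eq_add_neg, ← N1_neg w r q]
  exact N1_add_le hr _ _

theorem N1_monomial (w : AbsoluteValue F ℝ) (r : ℝ) (γ : Fin N →₀ ℕ) (c : F) :
    N1 w r (monomial γ c) = w c * r ^ γ.degree := by
  classical
  have h1 : (monomial γ c : MvPolynomial (Fin N) F).support ⊆ {γ} := support_monomial_subset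
  rw [N1_eq_sum w r h1, sum_singleton, coeff_monomial, if_pos rfl]

theorem N1_C (w : AbsoluteValue F ℝ) (r : ℝ) (c : F) :
    N1 w r (C c : MvPolynomial (Fin N) F) = w c := by
  have h := N1_monomial (N := N) w r 0 c
  rwa [map_zero, pow_zero, mul_one] at h

theorem N1_one (w : AbsoluteValue F ℝ) (r : ℝ) : N1 w r (1 : MvPolynomial (Fin N) F) = 1 := by
  rw [← C_1, N1_C, map_one]

theorem N1_X (w : AbsoluteValue F ℝ) (r : ℝ) (i : Fin N) :
    N1 w r (X i : MvPolynomial (Fin N) F) = r := by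
  have h := N1_monomial (N := N) w r (Finsupp.single i 1) (1 : F)
  rw [w.map_one, one_mul, Finsupp.degree_single, pow_one] at h
  exact h

theorem N1_monomial_mul_le (hr : 0 ≤ r) (α : Fin N →₀ ℕ) (a : F) (q : MvPolynomial (Fin N) F) :
    N1 w r (monomial α a * q) ≤ w a * r ^ α.degree * N1 w r q := by
  have e : monomial α a * q = ∑ β ∈ q.support, monomial (α + β) (a * coeff β q) := by
    conv_lhs => rw [q.as_sum, mul_sum]
    refine sum_congr rfl fun β _ => ?_
    rw [monomial_mul]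
  rw [e]
  refine (N1_sum_le hr _ _).trans (le_of_eq ?_)
  unfold N1
  rw [mul_sum]
  refine sum_congr rfl fun β _ => ?_
  have h := N1_monomial (N := N) w r (α + β) (a * coeff β q)
  unfold N1 at h
  rw [h, map_mul, map_add, pow_add]
  ring

theorem N1_mul_le (hr : 0 ≤ r) (p q : MvPolynomial (Fin N) F) :
    N1 w r (p * q) ≤ N1 w r p * N1 w r q := by
  have e : p * q = ∑ α ∈ p.support, monomial α (coeff α p) * q := by
    conv_lhs => rw [p.as_sum, sum_mul]
  rw [e]
  refine (N1_sum_le hr _ _).trans ?_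
  have h1 : N1 w r p = ∑ α ∈ p.support, w (coeff α p) * r ^ α.degree := rfl
  rw [h1, sum_mul]
  exact sum_le_sum fun α _ => N1_monomial_mul_le hr α _ q

theorem N1_pow_le (hr : 0 ≤ r) (p : MvPolynomial (Fin N) F) {A : ℝ} (hA : N1 w r p ≤ A) (k : ℕ) :
    N1 w r (p ^ k) ≤ A ^ k := by
  have hA0 : 0 ≤ A := (N1_nonneg w hr p).trans hA
  induction k with
  | zero => rw [pow_zero, pow_zero, N1_one]
  | succ k ih =>
    rw [pow_succ, pow_succ]
    exact (N1_mul_le hr _ _).trans (mul_le_mul ih hA (N1_nonneg w hr _) (pow_nonneg hA0 _))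

theorem N1_prod_le (hr : 0 ≤ r) {ι : Type*} (s : Finset ι) (p : ι → MvPolynomial (Fin N) F)
    (A : ι → ℝ) (hA : ∀ i ∈ s, N1 w r (p i) ≤ A i) : N1 w r (∏ i ∈ s, p i) ≤ ∏ i ∈ s, A i := by
  classical
  induction s using Finset.induction_on with
  | empty => rw [prod_empty, prod_empty, N1_one]
  | insert i s hi ih =>
    rw [prod_insert hi, prod_insert hi]
    have h1 := hA i (mem_insert_self i s)
    exact (N1_mul_le hr _ _).trans (mul_le_mul h1 (ih fun j hj => hA j (mem_insert_of_mem hj))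
      (N1_nonneg w hr _) ((N1_nonneg w hr _).trans h1))

theorem N1_fp_le (hr : 0 ≤ r) {f : Fin N → MvPolynomial (Fin N) F} {A : ℝ}
    (hA : ∀ i, N1 w r (f i) ≤ A) (κ : Fin N →₀ ℕ) : N1 w r (fp f κ) ≤ A ^ κ.degree := by
  have h := N1_prod_le hr univ (fun i => f i ^ κ i) (fun i => A ^ κ i)
    (fun i _ => N1_pow_le hr (f i) (hA i) (κ i))
  rw [Finset.prod_pow_eq_pow_sum, ← Finsupp.degree_eq_sum] at h
  exact h

theorem N1_bind_le (hr : 0 ≤ r) {f : Fin N → MvPolynomial (Fin N) F} {A : ℝ}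
    (hA : ∀ i, N1 w r (f i) ≤ A) (p : MvPolynomial (Fin N) F) :
    N1 w r (bind₁ f p) ≤ N1 w A p := by
  rw [bind_eq]
  refine (N1_sum_le hr _ _).trans (sum_le_sum fun α _ => ?_)
  refine (N1_mul_le hr _ _).trans ?_
  rw [N1_C]
  exact mul_le_mul_of_nonneg_left (N1_fp_le hr hA α) (apply_nonneg w _)

theorem N1_mono (hr : 0 ≤ r) {r' : ℝ} (h : r ≤ r') (p : MvPolynomial (Fin N) F) :
    N1 w r p ≤ N1 w r' p :=
  sum_le_sum fun α _ => mul_le_mul_of_nonneg_left (pow_le_pow_left₀ hr h _) (apply_nonneg w _)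

theorem N1_LM (hr : 0 ≤ r) {γ : Fin N →₀ ℕ} {p : MvPolynomial (Fin N) F} (h : LM γ p) :
    N1 w r (p - monomial γ 1) + r ^ γ.degree ≤ N1 w r p := by
  classical
  have hγ : coeff γ p = 1 := by
    rw [h.coeff_eq le_rfl, if_pos rfl]
  have hγs : γ ∈ p.support := by
    rw [mem_support_iff, hγ]
    exact one_ne_zero
  have h1 : (p - monomial γ 1).support ⊆ p.support.erase γ := by
    intro α hα
    rw [mem_erase, mem_support_iff]
    rw [mem_support_iff] at hα
    have h2 : α.degree < γ.degree := h α hα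
    have h3 : α ≠ γ := by
      rintro rfl
      exact lt_irrefl _ h2
    refine ⟨h3, ?_⟩
    rw [coeff_sub, coeff_monomial, if_neg (Ne.symm h3), sub_zero] at hα
    exact hα
  rw [N1_eq_sum w r h1]
  have h2 : N1 w r p = ∑ α ∈ p.support, w (coeff α p) * r ^ α.degree := rfl
  rw [h2, ← sum_erase_add _ _ hγs, hγ, w.map_one, one_mul]
  have h3 : ∑ α ∈ p.support.erase γ, w (coeff α (p - monomial γ 1)) * r ^ α.degree =
      ∑ α ∈ p.support.erase γ, w (coeff α p) * r ^ α.degree := by
    refine sum_congr rfl fun α hα => ?_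
    rw [coeff_sub, coeff_monomial, if_neg (Ne.symm (mem_erase.mp hα).1), sub_zero]
  rw [h3]

/-- the expansion in a triangular system -/
theorem LM.expand {m : ℕ} {ψ : (Fin N →₀ ℕ) → MvPolynomial (Fin N) F}
    (hL : ∀ γ ∈ Gam N m, LM γ (ψ γ)) (n : ℕ) (hn : n ≤ m + 1) (p : MvPolynomial (Fin N) F)
    (hp : DL n p) : ∃ c : (Fin N →₀ ℕ) → F, p = ∑ γ ∈ Gam N m, C (c γ) * ψ γ ∧
      ∀ γ, n ≤ γ.degree → c γ = 0 := by
  classical
  let v : AbsoluteValue F ℝ := AbsoluteValue.trivial
  have hv1 : ∀ x : F, v x ≤ 1 := by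
    intro x
    by_cases hx : x = 0
    · rw [hx, map_zero]
      exact zero_le_one
    · exact (AbsoluteValue.trivial_apply hx).le
  have hna : IsNonarchimedean v := by
    intro x y
    by_cases hxy : x + y = 0
    · rw [hxy, map_zero]
      exact (apply_nonneg v x).trans (le_max_left _ _)
    · by_cases hx : x = 0
      · rw [hx, zero_add]
        exact le_max_right _ _
      · refine (hv1 _).trans ((AbsoluteValue.trivial_apply hx).ge.trans (le_max_left _ _))
  have hG : ∀ p : MvPolynomial (Fin N) F, GB v 1 1 p := by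
    intro p α
    rw [one_pow, mul_one]
    exact hv1 _
  obtain ⟨c, h1, _, h3⟩ := DLN.expand hna one_pos hL (fun γ _ => by rw [one_pow]; exact hG _)
    n hn p 1 zero_le_one hp (hG p)
  exact ⟨c, h1, h3⟩

/-- a priori bound for the coefficients of the expansion -/
theorem N1_coef_le (hr : 0 ≤ r) {m : ℕ} {ψ : (Fin N →₀ ℕ) → MvPolynomial (Fin N) F}
    (hL : ∀ γ ∈ Gam N m, LM γ (ψ γ))
    (hG : ∀ γ ∈ Gam N m, N1 w r (ψ γ) ≤ 3 / 2 * r ^ γ.degree) (c : (Fin N →₀ ℕ) → F)
    {p : MvPolynomial (Fin N) F} (hp : p = ∑ γ ∈ Gam N m, C (c γ) * ψ γ) :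
    ∑ γ ∈ Gam N m, w (c γ) * r ^ γ.degree ≤ 2 * N1 w r p := by
  classical
  set q : MvPolynomial (Fin N) F := ∑ γ ∈ Gam N m, monomial γ (c γ) with hq
  have h1 : N1 w r q = ∑ γ ∈ Gam N m, w (c γ) * r ^ γ.degree := by
    have hs : q.support ⊆ Gam N m := by
      intro α hα
      rw [mem_support_iff] at hα
      by_contra hcon
      apply hα
      rw [hq, coeff_sum]
      refine sum_eq_zero fun γ hγ => ?_
      rw [coeff_monomial, if_neg]
      rintro rfl
      exact hcon hγ
    rw [N1_eq_sum w r hs]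
    refine sum_congr rfl fun α hα => ?_
    congr 2
    rw [hq, coeff_sum, sum_eq_single α]
    · rw [coeff_monomial, if_pos rfl]
    · intro γ _ hγ
      rw [coeff_monomial, if_neg hγ]
    · intro h
      exact absurd hα h
  have h2 : q = p - ∑ γ ∈ Gam N m, C (c γ) * (ψ γ - monomial γ 1) := by
    rw [hp, hq, ← sum_sub_distrib]
    refine sum_congr rfl fun γ _ => ?_
    have h3 : (monomial γ (c γ) : MvPolynomial (Fin N) F) = C (c γ) * monomial γ 1 := by
      rw [C_mul_monomial, mul_one]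
    rw [h3]
    ring
  have h3 : N1 w r q ≤ N1 w r p + ∑ γ ∈ Gam N m, w (c γ) * (r ^ γ.degree / 2) := by
    rw [h2]
    refine (N1_sub_le hr _ _).trans (add_le_add le_rfl ?_)
    refine (N1_sum_le hr _ _).trans (sum_le_sum fun γ hγ => ?_)
    refine (N1_mul_le hr _ _).trans ?_
    rw [N1_C]
    refine mul_le_mul_of_nonneg_left ?_ (apply_nonneg w _)
    have h4 := N1_LM (w := w) hr (hL γ hγ)
    have h5 := hG γ hγ
    linarith
  have h4 : ∑ γ ∈ Gam N m, w (c γ) * (r ^ γ.degree / 2) =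
      (∑ γ ∈ Gam N m, w (c γ) * r ^ γ.degree) / 2 := by
    rw [sum_div]
    exact sum_congr rfl fun γ _ => by ring
  rw [h1, h4] at h3
  linarith

/-! ### digit functions -/

theorem N1_dig {d : ℕ} (hd : 2 ≤ d) {f : Fin N → MvPolynomial (Fin N) F} {r₀ q : ℝ}
    (hr₀ : 1 ≤ r₀) (hq : 1 ≤ q) (hf : ∀ r, r₀ ≤ r → ∀ i, N1 w r (f i) ≤ q * r ^ d) (J : ℕ) :
    ∀ (γ : Fin N →₀ ℕ) (r : ℝ), r₀ ≤ r → N1 w r (dig d f J γ) ≤ (q * r) ^ γ.degree := by
  induction J with
  | zero =>
    intro γ r hr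
    rw [dig_zero, N1_one]
    exact one_le_pow₀ (by nlinarith)
  | succ J ih =>
    intro γ r hr
    have hr1 : 1 ≤ r := hr₀.trans hr
    have hr0 : 0 ≤ r := by linarith
    rw [dig_succ]
    refine (N1_monomial_mul_le hr0 _ _ _).trans ?_
    rw [map_one, one_mul]
    have h1 : r₀ ≤ q * r ^ d := by
      have h2 : r ≤ r ^ d := le_self_pow₀ hr1 (by omega)
      nlinarith
    have h2 := (N1_bind_le hr0 (hf r hr) (dig d f J (dv d γ))).trans (ih (dv d γ) _ h1)
    have h3 : r ^ (dm d γ).degree * N1 w r (bind₁ f (dig d f J (dv d γ))) ≤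
        r ^ (dm d γ).degree * (q * (q * r ^ d)) ^ (dv d γ).degree :=
      mul_le_mul_of_nonneg_left h2 (by positivity)
    refine h3.trans ?_
    have e1 : r ^ (dm d γ).degree * (q * (q * r ^ d)) ^ (dv d γ).degree =
        q ^ (2 * (dv d γ).degree) * r ^ γ.degree := by
      have e2 : (q * (q * r ^ d)) ^ (dv d γ).degree =
          q ^ (2 * (dv d γ).degree) * r ^ (d * (dv d γ).degree) := by
        rw [← mul_assoc, mul_pow, ← sq, ← pow_mul, ← pow_mul]
      rw [e2, degree_split d γ, pow_add]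
      ring
    rw [e1, mul_pow]
    refine mul_le_mul_of_nonneg_right (pow_le_pow_right₀ hq ?_) (by positivity)
    refine le_trans ?_ (dv_degree_mul_le d γ)
    exact Nat.mul_le_mul_right _ hd

theorem N1_psi {d : ℕ} {h : Fin N → MvPolynomial (Fin N) F} {q : ℝ} (hd : 1 ≤ d)
    (hr : 1 ≤ r) (hq : 1 ≤ q) (hh : ∀ i, N1 w r (h i) ≤ q * r ^ d) (s : Fin N →₀ ℕ) :
    N1 w r (psi d h s) ≤ (q * r) ^ s.degree := by
  have hr0 : 0 ≤ r := by linarith
  unfold psi
  refine (N1_monomial_mul_le hr0 _ _ _).trans ?_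
  rw [map_one, one_mul]
  have h1 := N1_fp_le hr0 hh (dv d s)
  have h2 : r ^ (dm d s).degree * N1 w r (fp h (dv d s)) ≤
      r ^ (dm d s).degree * (q * r ^ d) ^ (dv d s).degree :=
    mul_le_mul_of_nonneg_left h1 (by positivity)
  refine h2.trans ?_
  have e1 : r ^ (dm d s).degree * (q * r ^ d) ^ (dv d s).degree =
      q ^ (dv d s).degree * r ^ s.degree := by
    rw [mul_pow, degree_split d s, pow_add, ← pow_mul]
    ring
  rw [e1, mul_pow]
  refine mul_le_mul_of_nonneg_right (pow_le_pow_right₀ hq ?_) (by positivity)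
  have h3 := dv_degree_mul_le d s
  nlinarith

/-- the size of `f` at a radius which is at least `R` -/
theorem N1_le_of_rad {d : ℕ} (hd : 1 ≤ d) {f : Fin N → MvPolynomial (Fin N) F} {R : ℝ}
    (hf : Mon d f) (hR : RadLe w d f R) (hr : R ≤ r) (i : Fin N) :
    N1 w r (f i) ≤ r ^ d + cc N (d - 1) * (R * r ^ (d - 1)) := by
  have hR0 : 0 ≤ R := zero_le_one.trans hR.1
  have hr0 : 0 ≤ r := hR0.trans hr
  have e : f i = monomial (Finsupp.single i d) 1 + low d f i := by
    unfold low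
    ring
  rw [e]
  refine (N1_add_le hr0 _ _).trans (add_le_add (le_of_eq ?_) ?_)
  · rw [N1_monomial, w.map_one, one_mul, Finsupp.degree_single]
  · unfold N1
    have h1 : ∀ α ∈ (low d f i).support, w (coeff α (low d f i)) * r ^ α.degree ≤
        R * r ^ (d - 1) := by
      intro α hα
      have h2 : α.degree < d := hf.low i α (mem_support_iff.mp hα)
      rw [coeff_low f i h2]
      calc w (coeff α (f i)) * r ^ α.degree ≤ R ^ (d - α.degree) * r ^ α.degree :=
            mul_le_mul_of_nonneg_right (hR.2 i α h2) (by positivity)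
        _ = R * (R ^ (d - α.degree - 1) * r ^ α.degree) := by
            rw [← mul_assoc, ← pow_succ']
            congr 2
            omega
        _ ≤ R * (r ^ (d - α.degree - 1) * r ^ α.degree) := by
            gcongr
        _ = R * r ^ (d - 1) := by
            rw [← pow_add]
            congr 2
            omega
    refine (sum_le_card_nsmul _ _ _ h1).trans ?_
    rw [nsmul_eq_mul]
    exact mul_le_mul_of_nonneg_right (by exact_mod_cast card_low hd hf i) (by positivity)

end Pool.Agent.DLN
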