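import Pool.Agent.Lib_helper31.DLN.Heavy2
import Pool.Agent.Lib_helper31.DLN.Pol1

/-!
# The determinant at the heavy place, general absolute values (project DLN)
-/

set_option autoImplicit false

open Finset MvPolynomial

namespace Pool.Agent.DLN

section cb

open Matrix

variable {F : Type*} [Field F] {w : AbsoluteValue F ℝ} {ι : Type*} [Fintype ι] [DecidableEq ι]
  {T : Type*}

/-- a bound for the determinant of a product -/
theorem cb1 [Fintype T] (A : Matrix ι T F) (B : Matrix T ι F) {X : ℝ} (hX : 0 ≤ X)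
    (h : ∀ τ : ι → T, Function.Injective τ →
      w (A.submatrix id τ).det * w (B.submatrix τ id).det ≤ X) :
    w (A * B).det ≤ 2 ^ Fintype.card T * X := by
  classical
  rw [det_mul_expand]
  rw [← Finset.sum_fiberwise (univ : Finset (ι → T)) (fun τ => univ.image τ)]
  refine (w.sum_le _ _).trans ?_
  refine (sum_le_card_nsmul _ _ X fun S _ => ?_).trans (le_of_eq ?_)
  swap
  · rw [card_univ, Fintype.card_finset, nsmul_eq_mul]
    push_cast
    rfl
  by_cases hS : ∃ τ : ι → T, Function.Injective τ ∧ univ.image τ = S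
  swap
  · push Not at hS
    rw [sum_eq_zero]
    · simpa using hX
    · intro τ hτ
      rw [mem_filter] at hτ
      have h1 : ¬ Function.Injective τ := fun h1 => hS τ h1 hτ.2
      rw [det_submatrix_eq_zero A h1, mul_zero]
  obtain ⟨τ, hτ, hτS⟩ := hS
  have h1 : ∑ ρ ∈ univ.filter (fun ρ : ι → T => univ.image ρ = S),
      (∏ i, B (ρ i) i) * (A.submatrix id ρ).det =
      ∑ σ : Equiv.Perm ι, (∏ i, B (τ (σ i)) i) * (A.submatrix id (τ ∘ σ)).det := by
    symm
    refine Finset.sum_bij_ne_zero (fun σ _ _ => τ ∘ σ) ?_ ?_ ?_ ?_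
    · intro σ _ _
      rw [mem_filter]
      refine ⟨mem_univ _, ?_⟩
      rw [← hτS, ← Finset.image_image]
      congr 1
      exact Finset.image_univ_of_surjective σ.surjective
    · intro σ _ _ ρ _ _ he
      ext i
      have := congrFun he i
      exact hτ this
    · intro ρ hρ hρ0
      rw [mem_filter] at hρ
      have hi : Function.Injective ρ := by
        by_contra hc
        rw [det_submatrix_eq_zero A hc, mul_zero] at hρ0
        exact hρ0 rfl
      have hex : ∀ i, ∃ j, τ j = ρ i := by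
        intro i
        have h2 : ρ i ∈ univ.image τ := by
          rw [hτS, ← hρ.2]
          exact mem_image_of_mem _ (mem_univ i)
        obtain ⟨j, _, hj⟩ := mem_image.mp h2
        exact ⟨j, hj⟩
      choose g hg using hex
      have hgi : Function.Injective g := by
        intro i j hij
        apply hi
        rw [← hg i, ← hg j, hij]
      have hgb : Function.Bijective g := (Finite.injective_iff_bijective).mp hgi
      have he : τ ∘ (Equiv.ofBijective g hgb) = ρ := funext hg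
      have e3 : (∏ i, B (τ ((Equiv.ofBijective g hgb) i)) i) = ∏ i, B (ρ i) i :=
        prod_congr rfl fun i _ => by
          rw [show τ ((Equiv.ofBijective g hgb) i) = ρ i from hg i]
      exact ⟨Equiv.ofBijective g hgb, mem_univ _, by rw [he, e3]; exact hρ0, he⟩
    · intro σ _ _
      rfl
  rw [h1]
  have h2 : ∑ σ : Equiv.Perm ι, (∏ i, B (τ (σ i)) i) * (A.submatrix id (τ ∘ σ)).det =
      (B.submatrix τ id).det * (A.submatrix id τ).det := by
    rw [det_apply' (B.submatrix τ id), sum_mul]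
    refine sum_congr rfl fun σ _ => ?_
    have h3 : (A.submatrix id (τ ∘ σ)).det =
        ((Equiv.Perm.sign σ : ℤ) : F) * (A.submatrix id τ).det := by
      have := Matrix.det_permute' σ (A.submatrix id τ)
      rw [← this]
      rfl
    rw [h3]
    simp only [submatrix_apply, id_eq]
    ring
  rw [h2, map_mul, mul_comm]
  exact h τ hτ

end cb

variable {N : ℕ} {F : Type*} [Field F]

/-- the size of `f`, `f - c`, `c` at the radius `r`, with a constant `q` such that `q ^ n ≤ 3 / 2` -/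
structure Siz (w : AbsoluteValue F ℝ) (r q : ℝ) (n d : ℕ) (f : Fin N → MvPolynomial (Fin N) F)
    (c : Fin N → F) : Prop where
  hr : 1 ≤ r
  hq : 1 ≤ q
  hqn : q ^ n ≤ 3 / 2
  hf : ∀ r', r ≤ r' → ∀ i, N1 w r' (f i) ≤ q * r' ^ d
  hfc : ∀ i, N1 w r (f i - C (c i)) ≤ q * r ^ d
  hc : ∀ i, w (c i) ≤ (q - 1) * r

section

variable {w : AbsoluteValue F ℝ} {r q : ℝ} {n d : ℕ} {f : Fin N → MvPolynomial (Fin N) F}
  {c : Fin N → F}

theorem Siz.pow_le (hS : Siz w r q n d f c) {k : ℕ} (hk : k ≤ n) :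
    (q * r) ^ k ≤ 3 / 2 * r ^ k := by
  rw [mul_pow]
  have hr := hS.hr
  refine mul_le_mul_of_nonneg_right ?_ (by positivity)
  exact (pow_le_pow_right₀ hS.hq hk).trans hS.hqn

/-- expansion of the adapted system in digit functions -/
theorem psi_expand1 (hd : 2 ≤ d) (hf : Mon d f) (hS : Siz w r q n d f c) {J : ℕ}
    (hJ : n < d ^ (J + 1)) {s : Fin N →₀ ℕ} (hs : s ∈ Gam N n) :
    ∃ a : (Fin N →₀ ℕ) → F,
      psi d (fun i => f i - C (c i)) s = ∑ δ ∈ Gam N n, C (a δ) * dig d f (J + 1) δ ∧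
      ∀ δ, w (a δ) * r ^ (dv d δ).degree ≤ 3 * r ^ (dv d s).degree := by
  classical
  have hr1 := hS.hr
  have hr0 : 0 < r := by linarith
  have hd1 : 1 ≤ d := by omega
  have hdvn : (dv d s).degree ≤ n := by
    have h2 := dv_degree_mul_le d s
    have h3 := mem_Gam.mp hs
    have h4 : 1 * (dv d s).degree ≤ d * (dv d s).degree := Nat.mul_le_mul_right _ hd1
    omega
  -- the low digit functions
  have hlt : ∀ κ ∈ Gam N (dv d s).degree, ∀ i, κ i < d ^ J := by
    intro κ hκ i
    have h1 := (Finsupp.le_degree i κ).trans (mem_Gam.mp hκ)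
    have h2 := dv_degree_mul_le d s
    have h3 := mem_Gam.mp hs
    rw [pow_succ] at hJ
    by_contra hcon
    rw [not_lt] at hcon
    have h4 : d ^ J ≤ (dv d s).degree := hcon.trans h1
    have h5 : d * d ^ J ≤ d * (dv d s).degree := Nat.mul_le_mul_left d h4
    have h6 : d ^ J * d = d * d ^ J := mul_comm _ _
    omega
  have hX : ∀ i, N1 w r (X i - C (c i) : MvPolynomial (Fin N) F) ≤ q * r := by
    intro i
    refine (N1_sub_le hr0.le _ _).trans ?_
    rw [N1_X, N1_C]
    linarith [hS.hc i]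
  have hNp : N1 w r (fp (fun i => X i - C (c i)) (dv d s) : MvPolynomial (Fin N) F) ≤
      3 / 2 * r ^ (dv d s).degree :=
    (N1_fp_le hr0.le hX (dv d s)).trans (hS.pow_le hdvn)
  have hDp : DL ((dv d s).degree + 1) (fp (fun i => X i - C (c i)) (dv d s) :
      MvPolynomial (Fin N) F) := by
    have h1 := ((mon_X (N := N) (F := F)).sub_C le_rfl c).fpow (dv d s)
    rw [one_smul] at h1
    exact h1.dg.dl
  have hLd : ∀ γ ∈ Gam N (dv d s).degree, LM γ (dig d f J γ) := fun γ hγ =>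
    LM.dig hd1 hf J γ (hlt γ hγ)
  obtain ⟨a, ha1, ha3⟩ := LM.expand hLd ((dv d s).degree + 1) le_rfl _ hDp
  have ha2 : ∀ γ, w (a γ) * r ^ γ.degree ≤ 3 * r ^ (dv d s).degree := by
    have h1 := N1_coef_le (w := w) hr0.le hLd (fun γ hγ => ?_) a ha1
    swap
    · exact (N1_dig hd hr1 hS.hq hS.hf J γ r le_rfl).trans
        (hS.pow_le ((mem_Gam.mp hγ).trans hdvn))
    intro γ
    by_cases hγ : γ ∈ Gam N (dv d s).degree
    · have h2 := single_le_sum (f := fun γ => w (a γ) * r ^ γ.degree)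
        (fun γ _ => mul_nonneg (apply_nonneg w _) (pow_nonneg hr0.le _)) hγ
      linarith
    · rw [mem_Gam] at hγ
      rw [ha3 γ (by omega), map_zero, zero_mul]
      positivity
  refine ⟨fun δ => if dm d δ = dm d s then a (dv d δ) else 0, ?_, fun δ => ?_⟩
  · have e1 : psi d (fun i => f i - C (c i)) s =
        ∑ κ ∈ Gam N (dv d s).degree, C (a κ) * dig d f (J + 1) (mk d (dm d s) κ) := by
      unfold psi
      rw [← fp_bind, ha1, map_sum, mul_sum]
      refine sum_congr rfl fun κ _ => ?_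
      rw [map_mul, bind₁_C_right, dig_succ, dm_mk (dm_lt (by omega) s), dv_mk (dm_lt (by omega) s)]
      ring
    rw [e1]
    have e2 : ∑ δ ∈ Gam N n, C (if dm d δ = dm d s then a (dv d δ) else 0) * dig d f (J + 1) δ =
        ∑ δ ∈ (Gam N (dv d s).degree).image (mk d (dm d s)),
          C (a (dv d δ)) * dig d f (J + 1) δ := by
      symm
      have hsub : (Gam N (dv d s).degree).image (mk d (dm d s)) ⊆ Gam N n := by
        intro δ hδ
        obtain ⟨κ, hκ, rfl⟩ := mem_image.mp hδ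
        rw [mem_Gam] at hκ ⊢
        have h1 := mem_Gam.mp hs
        rw [degree_split d s] at h1
        unfold mk
        rw [map_add, map_nsmul, smul_eq_mul]
        have h2 : d * κ.degree ≤ d * (dv d s).degree := Nat.mul_le_mul_left d hκ
        omega
      rw [← Finset.sum_subset hsub]
      · refine sum_congr rfl fun δ hδ => ?_
        obtain ⟨κ, _, rfl⟩ := mem_image.mp hδ
        rw [if_pos (dm_mk (dm_lt (by omega) s))]
      · intro δ _ hδ
        split_ifs with h
        · have h1 : (dv d s).degree + 1 ≤ (dv d δ).degree := by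
            by_contra h2
            apply hδ
            refine mem_image.mpr ⟨dv d δ, mem_Gam.mpr (by omega), ?_⟩
            rw [← h]
            exact mk_dm_dv d δ
          rw [ha3 _ h1, C_0, zero_mul]
        · rw [C_0, zero_mul]
    rw [e2, sum_image]
    · refine sum_congr rfl fun κ _ => ?_
      rw [dv_mk (dm_lt (by omega) s)]
    · intro κ _ κ' _ hk
      have h1 := congrArg (dv d) hk
      rwa [dv_mk (dm_lt (by omega) s), dv_mk (dm_lt (by omega) s)] at h1
  · show w (if dm d δ = dm d s then a (dv d δ) else 0) * _ ≤ _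
    split_ifs with h
    · exact ha2 _
    · rw [map_zero, zero_mul]
      positivity

end

section

variable {w : AbsoluteValue F ℝ} {L : ℝ} (hL : 0 ≤ L) {d : ℕ}
  (hd : 2 ≤ d) {f : Fin N → MvPolynomial (Fin N) F} {ι : Type*} [Fintype ι] [DecidableEq ι]
  {J n : ℕ} (P : ι → Fin N → F) (g : ι → ℝ) (hg0 : ∀ b, 0 ≤ g b)
  (hE : ∀ b, Esc w d f (J + 1) (Real.exp L) (g b) (P b))

include hL hd hg0 hE

/-- determinants of digit functions -/
theorem det_dig_le1 (ρ : ι → (Fin N →₀ ℕ)) (hρ : ∀ γ, ρ γ ∈ Gam N n) :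
    w (Matrix.of fun b γ => eval (P b) (dig d f (J + 1) (ρ γ))).det ≤
      ((Fintype.card ι).factorial : ℝ) *
        Real.exp (L * (N * (d - 1) * (J + 1) * Fintype.card ι) + n * ∑ b, g b) := by
  have hB : (1 : ℝ) ≤ Real.exp L := Real.one_le_exp hL
  have h := det_le_fac (w := w) (Matrix.of fun b γ => eval (P b) (dig d f (J + 1) (ρ γ)))
    (fun b => Real.exp (n * g b)) (fun _ => Real.exp (L * (N * (d - 1) * (J + 1))))
    (fun b γ => by
      have h1 := abs_dig_le (w := w) (by omega : 1 ≤ d) hB (J + 1) (ρ γ) (P b) (g b) (hg0 b) (hE b)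
      refine h1.trans ?_
      rw [exp_pow_eq, mul_comm]
      refine mul_le_mul ?_ ?_ (Real.exp_pos _).le (Real.exp_pos _).le
      · refine Real.exp_le_exp.mpr (mul_le_mul_of_nonneg_right ?_ (hg0 b))
        exact_mod_cast mem_Gam.mp (hρ γ)
      · refine Real.exp_le_exp.mpr (le_of_eq ?_)
        have h2 : ((d - 1 : ℕ) : ℝ) = (d : ℝ) - 1 := by
          rw [Nat.cast_sub (by omega : 1 ≤ d), Nat.cast_one]
        push_cast [h2]
        ring)
  refine h.trans (le_of_eq ?_)
  rw [← Real.exp_sum, prod_const, card_univ, ← Real.exp_nat_mul, ← Real.exp_add, ← mul_sum]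
  congr 2
  ring

variable (hf : Mon d f) {q : ℝ} {c : Fin N → F} (hS : Siz w (Real.exp L) q n d f c)
  (hJ : n < d ^ (J + 1))

include hf hS hJ

/-- determinants of the adapted system -/
theorem det_psi_le1 (K : ℕ) (τ : ι → (Fin N →₀ ℕ)) (hτ : ∀ γ, τ γ ∈ Gam N n) :
    w (Matrix.of fun b γ => eval (P b) (psi d (fun i => f i - C (c i)) (τ γ))).det ≤
      2 ^ cc N n * (((Fintype.card ι).factorial : ℝ) ^ 2 * 3 ^ Fintype.card ι *
      Real.exp (L * ((∑ γ, ((dv d (τ γ)).degree : ℝ)) -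
        (K * Fintype.card ι - d ^ N * ((K + N).choose (N + 1) : ℝ)) +
        N * (d - 1) * (J + 1) * Fintype.card ι) + n * ∑ b, g b)) := by
  classical
  have hR1 : (1 : ℝ) ≤ Real.exp L := Real.one_le_exp hL
  choose a ha1 ha2 using fun γ => psi_expand1 hd hf hS hJ (hτ γ)
  let D : Matrix ι (Gam N n) F := Matrix.of fun b δ => eval (P b) (dig d f (J + 1) δ)
  let G : Matrix (Gam N n) ι F := Matrix.of fun δ γ => a γ δ
  have e1 : (Matrix.of fun b γ => eval (P b) (psi d (fun i => f i - C (c i)) (τ γ))) = D * G := by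
    ext b γ
    rw [Matrix.mul_apply]
    show eval (P b) (psi d (fun i => f i - C (c i)) (τ γ)) =
      ∑ δ : Gam N n, eval (P b) (dig d f (J + 1) δ) * a γ δ
    rw [ha1 γ, map_sum, ← sum_coe_sort (Gam N n)]
    refine sum_congr rfl fun δ _ => ?_
    rw [map_mul, eval_C, mul_comm]
  rw [e1]
  have hcT : Fintype.card (Gam N n) = cc N n := by rw [Fintype.card_coe, card_Gam]
  rw [← hcT]
  refine cb1 D G (by positivity) fun ρ hρ => ?_
  have h1 := det_dig_le1 hL hd P g hg0 hE (n := n) (fun γ => ((ρ γ : Gam N n) : Fin N →₀ ℕ))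
    (fun γ => (ρ γ).2)
  have h2 := det_le_fac (w := w) (G.submatrix ρ id)
    (fun γ => Real.exp (L * (-((dv d (ρ γ : Fin N →₀ ℕ)).degree : ℝ))))
    (fun γ => 3 * Real.exp (L * ((dv d (τ γ)).degree : ℝ)))
    (fun γ' γ => by
      have h3 := ha2 γ (ρ γ')
      rw [exp_pow_eq, exp_pow_eq, ← le_div_iff₀ (Real.exp_pos _), mul_div_assoc,
        ← Real.exp_sub] at h3
      show w (a γ (ρ γ')) ≤ _
      refine h3.trans (le_of_eq ?_)
      rw [mul_left_comm, ← Real.exp_add]
      congr 2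
      ring)
  have h3 : w (D.submatrix id ρ).det * w (G.submatrix ρ id).det ≤
      (((Fintype.card ι).factorial : ℝ) *
        Real.exp (L * (N * (d - 1) * (J + 1) * Fintype.card ι) + n * ∑ b, g b)) *
      (((Fintype.card ι).factorial : ℝ) *
      ((∏ γ, Real.exp (L * (-((dv d (ρ γ : Fin N →₀ ℕ)).degree : ℝ)))) *
        ∏ γ, (3 * Real.exp (L * ((dv d (τ γ)).degree : ℝ))))) :=
    mul_le_mul h1 h2 (apply_nonneg w _) (by positivity)
  refine h3.trans ?_
  rw [prod_mul_distrib, prod_const, card_univ, ← Real.exp_sum, ← Real.exp_sum]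
  have e2 : ∀ A x y z m : ℝ, A * Real.exp x * (A * (Real.exp y * (m * Real.exp z))) =
      A ^ 2 * m * Real.exp (x + (y + z)) := by
    intro A x y z m
    rw [Real.exp_add x (y + z), Real.exp_add y z]
    ring
  rw [e2]
  refine mul_le_mul_of_nonneg_left (Real.exp_le_exp.mpr ?_) (by positivity)
  rw [← mul_sum, ← mul_sum, sum_neg_distrib]
  -- the sum of the degrees of the upper digits
  have h4 : (K : ℝ) * Fintype.card ι - d ^ N * ((K + N).choose (N + 1) : ℝ) ≤
      ∑ γ, ((dv d (ρ γ : Fin N →₀ ℕ)).degree : ℝ) := by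
    have h5 := sum_ge (univ : Finset ι) (fun γ => (dv d (ρ γ : Fin N →₀ ℕ)).degree) K
    have h6 : ∑ k ∈ range K, ((univ.filter fun γ =>
        (dv d (ρ γ : Fin N →₀ ℕ)).degree < k + 1).card : ℤ) ≤
        ∑ k ∈ range K, ((d : ℤ) ^ N * cc N k) := by
      refine sum_le_sum fun k _ => ?_
      have h7 : (univ.filter fun γ => (dv d (ρ γ : Fin N →₀ ℕ)).degree < k + 1).card ≤
          ((univ.image fun γ => (ρ γ : Fin N →₀ ℕ)).filter
            fun s => (dv d s).degree < k + 1).card := by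
        refine card_le_card_of_injOn (fun γ => (ρ γ : Fin N →₀ ℕ)) ?_ ?_
        · intro γ hγ
          have hγ : γ ∈ univ.filter fun γ => (dv d (ρ γ : Fin N →₀ ℕ)).degree < k + 1 := hγ
          exact mem_coe.mpr (mem_filter.mpr
            ⟨mem_image_of_mem _ (mem_univ γ), (mem_filter.mp hγ).2⟩)
        · intro γ _ γ' _ he
          exact hρ (Subtype.ext he)
      have h8 := h7.trans (card_dv_le (by omega : 0 < d) _ k)
      exact_mod_cast h8
    rw [← mul_sum] at h6
    have h9 : (∑ k ∈ range K, (cc N k : ℤ)) = ((K + N).choose (N + 1) : ℤ) := by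
      exact_mod_cast sum_cc N K
    rw [h9] at h6
    rw [card_univ] at h5
    have h10 : (K : ℤ) * Fintype.card ι - (d : ℤ) ^ N * ((K + N).choose (N + 1) : ℤ) ≤
        ∑ γ, ((dv d (ρ γ : Fin N →₀ ℕ)).degree : ℤ) := by linarith
    exact_mod_cast h10
  have h5 := mul_le_mul_of_nonneg_left h4 hL
  nlinarith

end

/-- **The determinant at the heavy place.** -/
theorem heavy1 {w : AbsoluteValue F ℝ} {L : ℝ} (hL : 0 ≤ L) {d : ℕ}
    (hd : 2 ≤ d) {f : Fin N → MvPolynomial (Fin N) F} (hf : Mon d f) {z : Fin N → F} {q : ℝ}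
    {K J : ℕ} (hS : Siz w (Real.exp L) q (d * K + K) d f (fun i => eval z (f i))) (i0 : Fin N)
    (hz0 : w (z i0) ≤ (q - 1) * Real.exp L) (hJ : d * K + K < d ^ (J + 1))
    (P : Gam N (d * K) → Fin N → F) (g : Gam N (d * K) → ℝ) (hg0 : ∀ b, 0 ≤ g b)
    (hE : ∀ b, Esc w d f (J + 1) (Real.exp L) (g b) (P b)) {Y : ℝ}
    (hP : ∀ b, Real.exp Y ≤ w (P b i0 - z i0)) :
    Real.exp (Y * (K * cc N (d * K))) *
      w (Matrix.of fun (b : Gam N (d * K)) (γ : Gam N (d * K)) =>
        eval (P b) (dig d f (J + 1) γ)).det ≤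
      4 ^ cc N (d * K + K) * (((cc N (d * K)).factorial : ℝ) ^ 3 * 9 ^ cc N (d * K) *
      Real.exp (L * (EE N d K + K * cc N (d * K) + N * (d - 1) * (J + 1) * cc N (d * K)) +
        ((d * K + K : ℕ) : ℝ) * ∑ b, g b)) := by
  classical
  set n := d * K + K with hn
  set c : Fin N → F := fun i => eval z (f i) with hc
  set h : Fin N → MvPolynomial (Fin N) F := fun i => f i - C (c i) with hh
  have hR1 : (1 : ℝ) ≤ Real.exp L := Real.one_le_exp hL
  have hR0 : (0 : ℝ) < Real.exp L := Real.exp_pos L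
  have hd1 : 1 ≤ d := by omega
  have hhM : Mon d h := hf.sub_C hd1 c
  have hhz : ∀ i, eval z (h i) = 0 := fun i => by
    show eval z (f i - C (c i)) = 0
    rw [map_sub, eval_C, hc, sub_self]
  have hL1 : ∀ γ ∈ Gam N n, LM γ (psi d h γ) := fun γ _ => LM.psi hhM γ
  have hspan : ∀ p : MvPolynomial (Fin N) F, DG n p →
      ∃ c : (Fin N →₀ ℕ) → F, p = ∑ s ∈ Gam N n, C (c s) * psi d h s := by
    intro p hp
    obtain ⟨a, ha, _⟩ := LM.expand hL1 (n + 1) le_rfl p hp.dl
    exact ⟨a, ha⟩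
  have hlt : ∀ γ : Gam N (d * K), ∀ i, (γ : Fin N →₀ ℕ) i < d ^ (J + 1) := by
    intro γ i
    have h1 := (Finsupp.le_degree i (γ : Fin N →₀ ℕ)).trans (mem_Gam.mp γ.2)
    omega
  -- the rows
  set W : Gam N (d * K) → MvPolynomial (Fin N) F :=
    fun γ => UU z i0 K * dig d f (J + 1) γ with hW
  have hUG : N1 w (Real.exp L) (UU z i0 K) ≤ (q * Real.exp L) ^ K := by
    refine N1_pow_le hR0.le _ ?_ K
    refine (N1_sub_le hR0.le _ _).trans ?_
    rw [N1_X, N1_C]
    linarith
  have hUD : DG K (UU z i0 K) := by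
    have h1 : DG 1 (X i0 - C (z i0) : MvPolynomial (Fin N) F) := by
      have h2 := ((mon_X (N := N) (F := F)).sub_C le_rfl z i0).dg
      rwa [Finsupp.degree_single] at h2
    have h3 := h1.pow K
    rwa [mul_one] at h3
  have hWO : ∀ γ, OR K (sh z (W γ)) := by
    intro γ
    rw [hW]
    show OR K (sh z (UU z i0 K * dig d f (J + 1) γ))
    rw [map_mul]
    have h1 := (OR.sh_UU z i0 K).mul (OR.zero_le (sh z (dig d f (J + 1) γ)))
    rwa [add_zero] at h1
  have hex : ∀ γ : Gam N (d * K), ∃ a : (Fin N →₀ ℕ) → F,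
      W γ = ∑ s ∈ Gam N n, C (a s) * psi d h s ∧
      ∀ s ∈ Gam N n, w (a s) * Real.exp L ^ s.degree ≤
        3 * (Real.exp L ^ K * Real.exp L ^ (γ : Fin N →₀ ℕ).degree) := by
    intro γ
    have hγ := mem_Gam.mp γ.2
    have h1 : DG n (W γ) := by
      have h2 := hUD.mul (LM.dig hd1 hf (J + 1) γ (hlt γ)).dg
      refine h2.mono ?_
      omega
    have h2 : N1 w (Real.exp L) (W γ) ≤
        3 / 2 * (Real.exp L ^ K * Real.exp L ^ (γ : Fin N →₀ ℕ).degree) := by
      refine (N1_mul_le hR0.le _ _).trans ?_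
      have h3 := mul_le_mul hUG (N1_dig hd hR1 hS.hq hS.hf (J + 1) γ _ le_rfl)
        (N1_nonneg w hR0.le _) (by have := hS.hq; positivity)
      refine h3.trans ?_
      rw [← pow_add, ← pow_add]
      exact hS.pow_le (by omega)
    obtain ⟨a, ha, _⟩ := LM.expand hL1 (n + 1) le_rfl (W γ) h1.dl
    refine ⟨a, ha, fun s hs => ?_⟩
    have h3 := N1_coef_le (w := w) hR0.le hL1 (fun γ hγ =>
      (N1_psi hd1 hR1 hS.hq hS.hfc γ).trans (hS.pow_le (mem_Gam.mp hγ))) a ha
    have h4 := single_le_sum (f := fun s => w (a s) * Real.exp L ^ s.degree)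
      (fun s _ => mul_nonneg (apply_nonneg w _) (pow_nonneg hR0.le _)) hs
    linarith
  choose a ha1 ha2 using hex
  -- the product of matrices
  let A : Matrix (Gam N (d * K)) (Gam N n) F := Matrix.of fun b s => eval (P b) (psi d h s)
  let B : Matrix (Gam N n) (Gam N (d * K)) F := Matrix.of fun s γ => a γ s
  set Dm : Matrix (Gam N (d * K)) (Gam N (d * K)) F :=
    Matrix.of fun b γ => eval (P b) (dig d f (J + 1) γ) with hDm
  have e1 : A * B = Matrix.diagonal (fun b => (P b i0 - z i0) ^ K) * Dm := by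
    ext b γ
    rw [Matrix.mul_apply, Matrix.diagonal_mul]
    show ∑ s : Gam N n, eval (P b) (psi d h s) * a γ s =
      (P b i0 - z i0) ^ K * eval (P b) (dig d f (J + 1) γ)
    have h1 : eval (P b) (W γ) = (P b i0 - z i0) ^ K * eval (P b) (dig d f (J + 1) γ) := by
      show eval (P b) (UU z i0 K * dig d f (J + 1) γ) = _
      rw [map_mul]
      unfold UU
      simp
    rw [← h1, ha1 γ, map_sum, ← sum_coe_sort (Gam N n)]
    refine sum_congr rfl fun s _ => ?_
    rw [map_mul, eval_C, mul_comm]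
  have e2 : w (A * B).det = (∏ b, w (P b i0 - z i0) ^ K) * w Dm.det := by
    rw [e1, Matrix.det_mul, Matrix.det_diagonal, map_mul, map_prod]
    simp only [map_pow]
  set M : ℕ := cc N (d * K) with hM
  have hcard : Fintype.card (Gam N (d * K)) = M := by
    rw [Fintype.card_coe, card_Gam]
  have hcT : Fintype.card (Gam N n) = cc N n := by
    rw [Fintype.card_coe, card_Gam]
  have h1 : Real.exp (Y * (K * M)) * w Dm.det ≤ w (A * B).det := by
    rw [e2]
    refine mul_le_mul_of_nonneg_right ?_ (apply_nonneg w _)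
    have h2 : ∏ _b : Gam N (d * K), Real.exp (Y * K) ≤ ∏ b, w (P b i0 - z i0) ^ K := by
      refine prod_le_prod (fun _ _ => (Real.exp_pos _).le) fun b _ => ?_
      rw [← exp_pow_eq]
      exact pow_le_pow_left₀ (Real.exp_pos _).le (hP b) K
    refine le_trans (le_of_eq ?_) h2
    rw [prod_const, card_univ, hcard, ← Real.exp_nat_mul]
    congr 1
    ring
  refine h1.trans ?_
  -- the bound for the product
  set T : ℝ := ((K + N).choose (N + 1) : ℝ) with hT
  set S : ℝ := ∑ γ : Gam N (d * K), ((γ : Fin N →₀ ℕ).degree : ℝ) with hSdef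
  have hSe : S = ((d * K : ℕ) : ℝ) * M - ((d * K + N).choose (N + 1) : ℝ) := by
    have h5 := sum_degree N (d * K)
    rw [← sum_coe_sort (Gam N (d * K))] at h5
    rw [hSdef, hM]
    exact_mod_cast h5
  have hEE : EE N d K + K * M = K * M + S - (d - 1) * (K * M - (d ^ N - 1) * T) -
      (K * M - d ^ N * T) := by
    rw [hSe]
    unfold EE
    rw [← hM, ← hT]
    ring
  have e4 : (4 : ℝ) ^ cc N n = 2 ^ cc N n * 2 ^ cc N n := by
    rw [← mul_pow]
    norm_num
  rw [e4, mul_assoc (2 ^ cc N n : ℝ) (2 ^ cc N n)]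
  have hcb := cb1 (w := w) A B (X := 2 ^ cc N n * (((M.factorial : ℝ) ^ 3 * 9 ^ M) *
      Real.exp (L * (EE N d K + K * M + N * (d - 1) * (J + 1) * M) + (n : ℝ) * ∑ b, g b)))
      (by positivity) ?_
  · rwa [hcT] at hcb
  intro τ hτ
  by_cases hdet : (B.submatrix τ id).det = 0
  · rw [hdet, map_zero, mul_zero]
    positivity
  have h3 := det_psi_le1 hL hd P g hg0 hE hf hS hJ K
    (fun γ => ((τ γ : Gam N n) : Fin N →₀ ℕ)) (fun γ => (τ γ).2)
  rw [hcard] at h3
  have h4 := det_le_fac (w := w) (B.submatrix τ id)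
    (fun γ => Real.exp (L * (-((τ γ : Fin N →₀ ℕ).degree : ℝ))))
    (fun γ => 3 * Real.exp (L * (K + ((γ : Fin N →₀ ℕ).degree : ℝ))))
    (fun γ' γ => by
      have h5 := ha2 γ (τ γ') (τ γ').2
      rw [exp_pow_eq, exp_pow_eq, exp_pow_eq, ← Real.exp_add, ← le_div_iff₀ (Real.exp_pos _),
        mul_div_assoc, ← Real.exp_sub] at h5
      show w (a γ (τ γ')) ≤ _
      refine h5.trans (le_of_eq ?_)
      rw [mul_left_comm, ← Real.exp_add]
      congr 2
      ring)
  rw [hcard] at h4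
  have h5 := mul_le_mul h3 h4 (apply_nonneg w _) (by positivity)
  refine h5.trans ?_
  rw [prod_mul_distrib, prod_const, card_univ, hcard, ← Real.exp_sum, ← Real.exp_sum]
  have e5 : ∀ T2 A x y z : ℝ, T2 * (A ^ 2 * 3 ^ M * Real.exp x) *
      (A * (Real.exp y * (3 ^ M * Real.exp z))) =
      T2 * ((A ^ 3 * 9 ^ M) * Real.exp (x + (y + z))) := by
    intro T2 A x y z
    rw [Real.exp_add x (y + z), Real.exp_add y z]
    have e6 : (9 : ℝ) ^ M = 3 ^ M * 3 ^ M := by
      rw [← mul_pow]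
      norm_num
    rw [e6]
    ring
  rw [e5]
  refine mul_le_mul_of_nonneg_left (mul_le_mul_of_nonneg_left (Real.exp_le_exp.mpr ?_)
    (by positivity)) (by positivity)
  rw [← mul_sum, ← mul_sum, sum_neg_distrib, sum_add_distrib, sum_const, card_univ, hcard,
    nsmul_eq_mul, hEE]
  -- the rank constraint
  have h6 : (K : ℝ) * M - ((d : ℝ) ^ N - 1) * T ≤
      ∑ γ, ((dv d (τ γ : Fin N →₀ ℕ)).degree : ℝ) := by
    have h7 := sum_ge (univ : Finset (Gam N (d * K)))
      (fun γ => (dv d (τ γ : Fin N →₀ ℕ)).degree) K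
    have h8 : ∑ k ∈ range K, ((univ.filter fun γ =>
        (dv d (τ γ : Fin N →₀ ℕ)).degree < k + 1).card : ℤ) ≤
        ∑ k ∈ range K, (((d : ℤ) ^ N - 1) * cc N k) := by
      refine sum_le_sum fun k hk => ?_
      have hkK : k < K := mem_range.mp hk
      have h9 := rank_constraint (d := d) (n := n) (K := K) (k := k) (z := z) (h := h) hhz hspan
        hkK (by omega) W hWO a ha1 (fun γ => ((τ γ : Gam N n) : Fin N →₀ ℕ))
        (fun γ => (τ γ).2) hdet
      have h10 := card_dv_le (by omega : 0 < d) (Gam N n) k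
      have h11 : ((univ.filter fun γ : Gam N (d * K) =>
          (dv d (τ γ : Fin N →₀ ℕ)).degree < k + 1).card : ℤ) + cc N k ≤
          (d : ℤ) ^ N * cc N k := by exact_mod_cast h9.trans h10
      linarith
    rw [← mul_sum] at h8
    have h9 : (∑ k ∈ range K, (cc N k : ℤ)) = ((K + N).choose (N + 1) : ℤ) := by
      exact_mod_cast sum_cc N K
    rw [h9] at h8
    rw [card_univ, hcard] at h7
    have h10 : (K : ℤ) * M - ((d : ℤ) ^ N - 1) * ((K + N).choose (N + 1) : ℤ) ≤
        ∑ γ, ((dv d (τ γ : Fin N →₀ ℕ)).degree : ℤ) := by linarith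
    have h12 : ((((K : ℤ) * M - ((d : ℤ) ^ N - 1) * ((K + N).choose (N + 1) : ℤ) : ℤ)) : ℝ) ≤
        ((∑ γ, ((dv d (τ γ : Fin N →₀ ℕ)).degree : ℤ) : ℤ) : ℝ) := Int.cast_le.mpr h10
    push_cast at h12
    rw [hT]
    exact h12
  have h7 : (d : ℝ) * ∑ γ, ((dv d (τ γ : Fin N →₀ ℕ)).degree : ℝ) ≤
      ∑ γ, ((τ γ : Fin N →₀ ℕ).degree : ℝ) := by
    rw [mul_sum]
    refine sum_le_sum fun γ _ => ?_
    exact_mod_cast dv_degree_mul_le d (τ γ : Fin N →₀ ℕ)
  have hd' : (1 : ℝ) ≤ d := by exact_mod_cast hd1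
  have h8 : ((d : ℝ) - 1) * ((K : ℝ) * M - ((d : ℝ) ^ N - 1) * T) ≤
      (d - 1) * ∑ γ, ((dv d (τ γ : Fin N →₀ ℕ)).degree : ℝ) :=
    mul_le_mul_of_nonneg_left h6 (by linarith)
  have h9 : L * ((∑ γ, ((dv d (τ γ : Fin N →₀ ℕ)).degree : ℝ)) -
      ∑ γ, ((τ γ : Fin N →₀ ℕ).degree : ℝ) +
      (d - 1) * ((K : ℝ) * M - ((d : ℝ) ^ N - 1) * T)) ≤ 0 := by
    have h10 : (∑ γ, ((dv d (τ γ : Fin N →₀ ℕ)).degree : ℝ)) -
      ∑ γ, ((τ γ : Fin N →₀ ℕ).degree : ℝ) +
      (d - 1) * ((K : ℝ) * M - ((d : ℝ) ^ N - 1) * T) ≤ 0 := by linarith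
    exact mul_nonpos_of_nonneg_of_nonpos hL h10
  nlinarith [h9]

end Pool.Agent.DLN
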