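import Pool.Agent.Lib_helper31.DLN.Heavy

/-!
# The determinant at the heavy place: the estimate (project DLN)
-/

set_option autoImplicit false

open Finset MvPolynomial

namespace Pool.Agent.DLN

variable {N : ℕ} {F : Type*} [Field F]

theorem exp_pow_eq (L : ℝ) (n : ℕ) : Real.exp L ^ n = Real.exp (L * n) := by
  rw [← Real.exp_nat_mul, mul_comm]

section

variable {w : AbsoluteValue F ℝ} (hw : IsNonarchimedean w) {L : ℝ} (hL : 0 ≤ L) {d : ℕ}
  (hd : 2 ≤ d) {f : Fin N → MvPolynomial (Fin N) F} {ι : Type*} [Fintype ι] [DecidableEq ι]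
  {J n : ℕ} (P : ι → Fin N → F) (g : ι → ℝ) (hg0 : ∀ b, 0 ≤ g b)
  (hE : ∀ b, Esc w d f (J + 1) (Real.exp L) (g b) (P b))

include hw hL hd hg0 hE

/-- determinants of digit functions -/
theorem det_dig_le (ρ : ι → (Fin N →₀ ℕ)) (hρ : ∀ γ, ρ γ ∈ Gam N n) :
    w (Matrix.of fun b γ => eval (P b) (dig d f (J + 1) (ρ γ))).det ≤
      Real.exp (L * (N * (d - 1) * (J + 1) * Fintype.card ι) + n * ∑ b, g b) := by
  have hB : (1 : ℝ) ≤ Real.exp L := Real.one_le_exp hL
  have h := na_det_le hw (Matrix.of fun b γ => eval (P b) (dig d f (J + 1) (ρ γ)))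
    (fun b => Real.exp (n * g b)) (fun _ => Real.exp (L * (N * (d - 1) * (J + 1))))
    (fun _ => (Real.exp_pos _).le) (fun _ => (Real.exp_pos _).le) (fun b γ => by
      have h1 := abs_dig_le (w := w) (by omega : 1 ≤ d) hB (J + 1) (ρ γ) (P b) (g b) (hg0 b) (hE b)
      refine h1.trans ?_
      rw [exp_pow_eq, mul_comm]
      refine mul_le_mul ?_ ?_ (Real.exp_pos _).le (Real.exp_pos _).le
      · refine Real.exp_le_exp.mpr (mul_le_mul_of_nonneg_right ?_ (hg0 b))
        exact_mod_cast mem_Gam.mp (hρ γ)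
      · refine Real.exp_le_exp.mpr (le_of_eq ?_)
        have h2 : ((d - 1 : ℕ) : ℝ) = (d : ℝ) - 1 := by
          rw [Nat.cast_sub (by omega : 1 ≤ d), Nat.cast_one]
        push_cast [h2]
        ring)
  refine h.trans (le_of_eq ?_)
  rw [← Real.exp_sum, prod_const, card_univ, ← Real.exp_nat_mul, ← Real.exp_add, ← mul_sum]
  congr 1
  ring

variable (hf : Mon d f) (hg : ∀ i, GB w (Real.exp L) (Real.exp L ^ d) (f i)) {c : Fin N → F}
  (hc : ∀ i, w (c i) ≤ Real.exp L) (hJ : n < d ^ (J + 1))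

include hf hg hc hJ

/-- determinants of the adapted system -/
theorem det_psi_le (K : ℕ) (τ : ι → (Fin N →₀ ℕ)) (hτ : ∀ γ, τ γ ∈ Gam N n) :
    w (Matrix.of fun b γ => eval (P b) (psi d (fun i => f i - C (c i)) (τ γ))).det ≤
      Real.exp (L * ((∑ γ, ((dv d (τ γ)).degree : ℝ)) -
        (K * Fintype.card ι - d ^ N * ((K + N).choose (N + 1) : ℝ)) +
        N * (d - 1) * (J + 1) * Fintype.card ι) + n * ∑ b, g b) := by
  classical
  have hR1 : (1 : ℝ) ≤ Real.exp L := Real.one_le_exp hL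
  choose a ha1 ha2 using fun γ => psi_expand hw hR1 hd hf hg hc hJ (hτ γ)
  let D : Matrix ι (Gam N n) F := Matrix.of fun b δ => eval (P b) (dig d f (J + 1) δ)
  let G : Matrix (Gam N n) ι F := Matrix.of fun δ γ => a γ δ
  have e1 : (Matrix.of fun b γ => eval (P b) (psi d (fun i => f i - C (c i)) (τ γ))) = D * G := by
    ext b γ
    rw [Matrix.mul_apply]
    show eval (P b) (psi d (fun i => f i - C (c i)) (τ γ)) =
      ∑ δ : Gam N n, eval (P b) (dig d f (J + 1) δ) * a γ δ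
    rw [ha1 γ, map_sum, ← sum_coe_sort (Gam N n)]
    refine sum_congr rfl fun δ _ => ?_
    rw [map_mul, eval_C, mul_comm]
  rw [e1]
  refine na_cb hw D G (Real.exp_pos _).le fun ρ hρ => ?_
  have h1 := det_dig_le hw hL hd P g hg0 hE (n := n) (fun γ => ((ρ γ : Gam N n) : Fin N →₀ ℕ))
    (fun γ => (ρ γ).2)
  have h2 := na_det_le hw (G.submatrix ρ id)
    (fun γ => Real.exp (L * (-((dv d (ρ γ : Fin N →₀ ℕ)).degree : ℝ))))
    (fun γ => Real.exp (L * ((dv d (τ γ)).degree : ℝ)))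
    (fun _ => (Real.exp_pos _).le) (fun _ => (Real.exp_pos _).le) (fun γ' γ => by
      have h3 := ha2 γ (ρ γ')
      rw [exp_pow_eq, exp_pow_eq, ← le_div_iff₀ (Real.exp_pos _), ← Real.exp_sub] at h3
      show w (a γ (ρ γ')) ≤ _
      refine h3.trans (le_of_eq ?_)
      rw [← Real.exp_add]
      congr 1
      ring)
  have h3 : w (D.submatrix id ρ).det * w (G.submatrix ρ id).det ≤
      Real.exp (L * (N * (d - 1) * (J + 1) * Fintype.card ι) + n * ∑ b, g b) *
      ((∏ γ, Real.exp (L * (-((dv d (ρ γ : Fin N →₀ ℕ)).degree : ℝ)))) *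
        ∏ γ, Real.exp (L * ((dv d (τ γ)).degree : ℝ))) :=
    mul_le_mul h1 h2 (apply_nonneg w _) (Real.exp_pos _).le
  refine h3.trans ?_
  rw [← Real.exp_sum, ← Real.exp_sum, ← Real.exp_add, ← Real.exp_add]
  refine Real.exp_le_exp.mpr ?_
  rw [← mul_sum, ← mul_sum, sum_neg_distrib]
  -- the sum of the degrees of the upper digits
  have h4 : (K : ℝ) * Fintype.card ι - d ^ N * ((K + N).choose (N + 1) : ℝ) ≤
      ∑ γ, ((dv d (ρ γ : Fin N →₀ ℕ)).degree : ℝ) := by
    have h5 := sum_ge (univ : Finset ι) (fun γ => (dv d (ρ γ : Fin N →₀ ℕ)).degree) K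
    have h6 : ∑ k ∈ range K, ((univ.filter fun γ =>
        (dv d (ρ γ : Fin N →₀ ℕ)).degree < k + 1).card : ℤ) ≤
        ∑ k ∈ range K, ((d : ℤ) ^ N * cc N k) := by
      refine sum_le_sum fun k _ => ?_
      have h7 : (univ.filter fun γ => (dv d (ρ γ : Fin N →₀ ℕ)).degree < k + 1).card ≤
          ((univ.image fun γ => (ρ γ : Fin N →₀ ℕ)).filter
            fun s => (dv d s).degree < k + 1).card := by
        refine card_le_card_of_injOn (fun γ => (ρ γ : Fin N →₀ ℕ)) ?_ ?_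
        · intro γ hγ
          have hγ : γ ∈ univ.filter fun γ => (dv d (ρ γ : Fin N →₀ ℕ)).degree < k + 1 := hγ
          exact mem_coe.mpr (mem_filter.mpr
            ⟨mem_image_of_mem _ (mem_univ γ), (mem_filter.mp hγ).2⟩)
        · intro γ _ γ' _ he
          exact hρ (Subtype.ext he)
      have h8 := h7.trans (card_dv_le (by omega : 0 < d) _ k)
      exact_mod_cast h8
    rw [← mul_sum] at h6
    have h9 : (∑ k ∈ range K, (cc N k : ℤ)) = ((K + N).choose (N + 1) : ℤ) := by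
      exact_mod_cast sum_cc N K
    rw [h9] at h6
    rw [card_univ] at h5
    have h10 : (K : ℤ) * Fintype.card ι - (d : ℤ) ^ N * ((K + N).choose (N + 1) : ℤ) ≤
        ∑ γ, ((dv d (ρ γ : Fin N →₀ ℕ)).degree : ℤ) := by linarith
    exact_mod_cast h10
  have h5 := mul_le_mul_of_nonneg_left h4 hL
  nlinarith

end

/-- **The determinant at the heavy place.** -/
theorem heavy {w : AbsoluteValue F ℝ} (hw : IsNonarchimedean w) {L : ℝ} (hL : 0 ≤ L) {d : ℕ}
    (hd : 2 ≤ d) {f : Fin N → MvPolynomial (Fin N) F} (hf : Mon d f)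
    (hg : ∀ i, GB w (Real.exp L) (Real.exp L ^ d) (f i)) {z : Fin N → F}
    (hz : ∀ i, w (eval z (f i)) ≤ Real.exp L) (i0 : Fin N) (hz0 : w (z i0) ≤ Real.exp L)
    {K J : ℕ} (hJ : d * K + K < d ^ (J + 1)) (P : Gam N (d * K) → Fin N → F)
    (g : Gam N (d * K) → ℝ) (hg0 : ∀ b, 0 ≤ g b)
    (hE : ∀ b, Esc w d f (J + 1) (Real.exp L) (g b) (P b)) {l : ℝ}
    (hP : ∀ b, Real.exp l ≤ w (P b i0 - z i0)) :
    w (Matrix.of fun (b : Gam N (d * K)) (γ : Gam N (d * K)) =>
        eval (P b) (dig d f (J + 1) γ)).det ≤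
      Real.exp (L * (EE N d K + K * cc N (d * K) + N * (d - 1) * (J + 1) * cc N (d * K)) -
        l * (K * cc N (d * K)) + ((d * K + K : ℕ) : ℝ) * ∑ b, g b) := by
  classical
  set n := d * K + K with hn
  set c : Fin N → F := fun i => eval z (f i) with hc
  set h : Fin N → MvPolynomial (Fin N) F := fun i => f i - C (c i) with hh
  have hR1 : (1 : ℝ) ≤ Real.exp L := Real.one_le_exp hL
  have hR0 : (0 : ℝ) < Real.exp L := Real.exp_pos L
  have hd1 : 1 ≤ d := by omega
  have hhM : Mon d h := hf.sub_C hd1 c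
  have hRd : Real.exp L ≤ Real.exp L ^ d := le_self_pow₀ hR1 (by omega)
  have hhG : ∀ i, GB w (Real.exp L) (Real.exp L ^ d) (h i) := fun i =>
    (hg i).sub hw hR0.le ((GB.C' (c i) hR0.le).mono ((hz i).trans hRd))
  have hhz : ∀ i, eval z (h i) = 0 := fun i => by
    show eval z (f i - C (c i)) = 0
    rw [map_sub, eval_C, hc, sub_self]
  have hL1 : ∀ γ ∈ Gam N n, LM γ (psi d h γ) := fun γ _ => LM.psi hhM γ
  have hG1 : ∀ γ ∈ Gam N n, GB w (Real.exp L) (Real.exp L ^ γ.degree) (psi d h γ) :=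
    fun γ _ => GB.psi hw hR0.le hhG γ
  have hspan : ∀ p : MvPolynomial (Fin N) F, DG n p →
      ∃ c : (Fin N →₀ ℕ) → F, p = ∑ s ∈ Gam N n, C (c s) * psi d h s := by
    intro p hp
    obtain ⟨A, hA, hpA⟩ := exists_GB w hR0.le p
    obtain ⟨a, ha, _, _⟩ := expand hw hR0 hL1 hG1 (n + 1) le_rfl p A hA hp.dl hpA
    exact ⟨a, ha⟩
  have hlt : ∀ γ : Gam N (d * K), ∀ i, (γ : Fin N →₀ ℕ) i < d ^ (J + 1) := by
    intro γ i
    have h1 := (Finsupp.le_degree i (γ : Fin N →₀ ℕ)).trans (mem_Gam.mp γ.2)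
    omega
  -- the rows
  set W : Gam N (d * K) → MvPolynomial (Fin N) F :=
    fun γ => UU z i0 K * dig d f (J + 1) γ with hW
  have hUG : GB w (Real.exp L) (Real.exp L ^ K) (UU z i0 K) := by
    have h1 := GB.monomial' (w := w) (Finsupp.single i0 1) (1 : F) hR0.le
    rw [map_one, one_mul, Finsupp.degree_single, pow_one] at h1
    exact (GB.sub hw hR0.le h1 ((GB.C' (z i0) hR0.le).mono hz0)).pow hw hR0.le hR0.le K
  have hUD : DG K (UU z i0 K) := by
    have h1 : DG 1 (X i0 - C (z i0) : MvPolynomial (Fin N) F) := by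
      have h2 := ((mon_X (N := N) (F := F)).sub_C le_rfl z i0).dg
      rwa [Finsupp.degree_single] at h2
    have h3 := h1.pow K
    rwa [mul_one] at h3
  have hWO : ∀ γ, OR K (sh z (W γ)) := by
    intro γ
    rw [hW]
    show OR K (sh z (UU z i0 K * dig d f (J + 1) γ))
    rw [map_mul]
    have h1 := (OR.sh_UU z i0 K).mul (OR.zero_le (sh z (dig d f (J + 1) γ)))
    rwa [add_zero] at h1
  have hex : ∀ γ : Gam N (d * K), ∃ a : (Fin N →₀ ℕ) → F,
      W γ = ∑ s ∈ Gam N n, C (a s) * psi d h s ∧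
      ∀ s, w (a s) * Real.exp L ^ s.degree ≤
        Real.exp L ^ K * Real.exp L ^ (γ : Fin N →₀ ℕ).degree := by
    intro γ
    have h1 : DG n (W γ) := by
      have h2 := hUD.mul (LM.dig hd1 hf (J + 1) γ (hlt γ)).dg
      refine h2.mono ?_
      have h3 := mem_Gam.mp γ.2
      omega
    have h2 : GB w (Real.exp L) (Real.exp L ^ K * Real.exp L ^ (γ : Fin N →₀ ℕ).degree) (W γ) :=
      hUG.mul hw hR0.le (by positivity) (by positivity)
        (GB.dig hw hR1 hd1 hf hg (J + 1) γ (hlt γ))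
    obtain ⟨a, ha, ha2, _⟩ := expand hw hR0 hL1 hG1 (n + 1) le_rfl (W γ) _ (by positivity) h1.dl h2
    exact ⟨a, ha, ha2⟩
  choose a ha1 ha2 using hex
  -- the product of matrices
  let A : Matrix (Gam N (d * K)) (Gam N n) F := Matrix.of fun b s => eval (P b) (psi d h s)
  let B : Matrix (Gam N n) (Gam N (d * K)) F := Matrix.of fun s γ => a γ s
  set Dm : Matrix (Gam N (d * K)) (Gam N (d * K)) F :=
    Matrix.of fun b γ => eval (P b) (dig d f (J + 1) γ) with hDm
  have e1 : A * B = Matrix.diagonal (fun b => (P b i0 - z i0) ^ K) * Dm := by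
    ext b γ
    rw [Matrix.mul_apply, Matrix.diagonal_mul]
    show ∑ s : Gam N n, eval (P b) (psi d h s) * a γ s =
      (P b i0 - z i0) ^ K * eval (P b) (dig d f (J + 1) γ)
    have h1 : eval (P b) (W γ) = (P b i0 - z i0) ^ K * eval (P b) (dig d f (J + 1) γ) := by
      show eval (P b) (UU z i0 K * dig d f (J + 1) γ) = _
      rw [map_mul]
      unfold UU
      simp
    rw [← h1, ha1 γ, map_sum, ← sum_coe_sort (Gam N n)]
    refine sum_congr rfl fun s _ => ?_
    rw [map_mul, eval_C, mul_comm]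
  have e2 : w (A * B).det = (∏ b, w (P b i0 - z i0) ^ K) * w Dm.det := by
    rw [e1, Matrix.det_mul, Matrix.det_diagonal, map_mul, map_prod]
    simp only [map_pow]
  set M : ℕ := cc N (d * K) with hM
  have hcard : Fintype.card (Gam N (d * K)) = M := by
    rw [Fintype.card_coe, card_Gam]
  have h1 : Real.exp (l * (K * M)) * w Dm.det ≤ w (A * B).det := by
    rw [e2]
    refine mul_le_mul_of_nonneg_right ?_ (apply_nonneg w _)
    have h2 : ∏ _b : Gam N (d * K), Real.exp (l * K) ≤ ∏ b, w (P b i0 - z i0) ^ K := by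
      refine prod_le_prod (fun _ _ => (Real.exp_pos _).le) fun b _ => ?_
      rw [← exp_pow_eq]
      exact pow_le_pow_left₀ (Real.exp_pos _).le (hP b) K
    refine le_trans (le_of_eq ?_) h2
    rw [prod_const, card_univ, hcard, ← Real.exp_nat_mul]
    congr 1
    ring
  -- the bound for the product
  set T : ℝ := ((K + N).choose (N + 1) : ℝ) with hT
  set S : ℝ := ∑ γ : Gam N (d * K), ((γ : Fin N →₀ ℕ).degree : ℝ) with hS
  have h2 : w (A * B).det ≤ Real.exp (L * (K * M + S - (d - 1) * (K * M - (d ^ N - 1) * T) -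
      (K * M - d ^ N * T) + N * (d - 1) * (J + 1) * M) + (n : ℝ) * ∑ b, g b) := by
    refine na_cb hw A B (Real.exp_pos _).le fun τ hτ => ?_
    by_cases hdet : (B.submatrix τ id).det = 0
    · rw [hdet, map_zero, mul_zero]
      exact (Real.exp_pos _).le
    have h3 := det_psi_le hw hL hd P g hg0 hE hf hg hz hJ K
      (fun γ => ((τ γ : Gam N n) : Fin N →₀ ℕ)) (fun γ => (τ γ).2)
    rw [hcard] at h3
    have h4 := na_det_le hw (B.submatrix τ id)
      (fun γ => Real.exp (L * (-((τ γ : Fin N →₀ ℕ).degree : ℝ))))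
      (fun γ => Real.exp (L * (K + ((γ : Fin N →₀ ℕ).degree : ℝ))))
      (fun _ => (Real.exp_pos _).le) (fun _ => (Real.exp_pos _).le) (fun γ' γ => by
        have h5 := ha2 γ (τ γ')
        rw [exp_pow_eq, exp_pow_eq, exp_pow_eq, ← Real.exp_add, ← le_div_iff₀ (Real.exp_pos _),
          ← Real.exp_sub] at h5
        show w (a γ (τ γ')) ≤ _
        refine h5.trans (le_of_eq ?_)
        rw [← Real.exp_add]
        congr 1
        ring)
    have h5 := mul_le_mul h3 h4 (apply_nonneg w _) (Real.exp_pos _).le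
    refine h5.trans ?_
    rw [← Real.exp_sum, ← Real.exp_sum, ← Real.exp_add, ← Real.exp_add]
    refine Real.exp_le_exp.mpr ?_
    rw [← mul_sum, ← mul_sum, sum_neg_distrib, sum_add_distrib, sum_const, card_univ, hcard,
      nsmul_eq_mul]
    -- the rank constraint
    have h6 : (K : ℝ) * M - ((d : ℝ) ^ N - 1) * T ≤
        ∑ γ, ((dv d (τ γ : Fin N →₀ ℕ)).degree : ℝ) := by
      have h7 := sum_ge (univ : Finset (Gam N (d * K)))
        (fun γ => (dv d (τ γ : Fin N →₀ ℕ)).degree) K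
      have h8 : ∑ k ∈ range K, ((univ.filter fun γ =>
          (dv d (τ γ : Fin N →₀ ℕ)).degree < k + 1).card : ℤ) ≤
          ∑ k ∈ range K, (((d : ℤ) ^ N - 1) * cc N k) := by
        refine sum_le_sum fun k hk => ?_
        have hkK : k < K := mem_range.mp hk
        have h9 := rank_constraint (d := d) (n := n) (K := K) (k := k) (z := z) (h := h) hhz hspan
          hkK (by omega) W hWO a ha1 (fun γ => ((τ γ : Gam N n) : Fin N →₀ ℕ))
          (fun γ => (τ γ).2) hdet
        have h10 := card_dv_le (by omega : 0 < d) (Gam N n) k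
        have h11 : ((univ.filter fun γ : Gam N (d * K) =>
            (dv d (τ γ : Fin N →₀ ℕ)).degree < k + 1).card : ℤ) + cc N k ≤
            (d : ℤ) ^ N * cc N k := by exact_mod_cast h9.trans h10
        linarith
      rw [← mul_sum] at h8
      have h9 : (∑ k ∈ range K, (cc N k : ℤ)) = ((K + N).choose (N + 1) : ℤ) := by
        exact_mod_cast sum_cc N K
      rw [h9] at h8
      rw [card_univ, hcard] at h7
      have h10 : (K : ℤ) * M - ((d : ℤ) ^ N - 1) * ((K + N).choose (N + 1) : ℤ) ≤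
          ∑ γ, ((dv d (τ γ : Fin N →₀ ℕ)).degree : ℤ) := by linarith
      have h12 : ((((K : ℤ) * M - ((d : ℤ) ^ N - 1) * ((K + N).choose (N + 1) : ℤ) : ℤ)) : ℝ) ≤
          ((∑ γ, ((dv d (τ γ : Fin N →₀ ℕ)).degree : ℤ) : ℤ) : ℝ) := Int.cast_le.mpr h10
      push_cast at h12
      rw [hT]
      exact h12
    have h7 : (d : ℝ) * ∑ γ, ((dv d (τ γ : Fin N →₀ ℕ)).degree : ℝ) ≤
        ∑ γ, ((τ γ : Fin N →₀ ℕ).degree : ℝ) := by
      rw [mul_sum]
      refine sum_le_sum fun γ _ => ?_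
      exact_mod_cast dv_degree_mul_le d (τ γ : Fin N →₀ ℕ)
    have hd' : (1 : ℝ) ≤ d := by exact_mod_cast hd1
    have h8 : ((d : ℝ) - 1) * ((K : ℝ) * M - ((d : ℝ) ^ N - 1) * T) ≤
        (d - 1) * ∑ γ, ((dv d (τ γ : Fin N →₀ ℕ)).degree : ℝ) :=
      mul_le_mul_of_nonneg_left h6 (by linarith)
    have h9 : L * ((∑ γ, ((dv d (τ γ : Fin N →₀ ℕ)).degree : ℝ)) -
        ∑ γ, ((τ γ : Fin N →₀ ℕ).degree : ℝ) +
        (d - 1) * ((K : ℝ) * M - ((d : ℝ) ^ N - 1) * T)) ≤ 0 := by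
      have h10 : (∑ γ, ((dv d (τ γ : Fin N →₀ ℕ)).degree : ℝ)) -
        ∑ γ, ((τ γ : Fin N →₀ ℕ).degree : ℝ) +
        (d - 1) * ((K : ℝ) * M - ((d : ℝ) ^ N - 1) * T) ≤ 0 := by linarith
      exact mul_nonpos_of_nonneg_of_nonpos hL h10
    nlinarith [h9]
  have h3 := h1.trans h2
  have h4 : w Dm.det ≤ Real.exp (L * (K * M + S - (d - 1) * (K * M - (d ^ N - 1) * T) -
      (K * M - d ^ N * T) + N * (d - 1) * (J + 1) * M) + (n : ℝ) * ∑ b, g b) *
      Real.exp (-(l * (K * M))) := by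
    rw [Real.exp_neg, ← div_eq_mul_inv, le_div_iff₀ (Real.exp_pos _), mul_comm]
    exact h3
  refine h4.trans (le_of_eq ?_)
  rw [← Real.exp_add]
  congr 1
  have hSe : S = ((d * K : ℕ) : ℝ) * M - ((d * K + N).choose (N + 1) : ℝ) := by
    have h5 := sum_degree N (d * K)
    rw [← sum_coe_sort (Gam N (d * K))] at h5
    rw [hS, hM]
    exact_mod_cast h5
  rw [hSe]
  unfold EE
  rw [← hM, ← hT]
  ring

end Pool.Agent.DLN
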