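import Pool.Agent.Lib_helper31.DLN.Num4

/-!
# The hypersurface theorem (project DLN)
-/

set_option autoImplicit false
set_option linter.unusedVariables false

open Finset MvPolynomial NumberField
open Pool.Agent.Lib_helper5.DLH (tot FS)

namespace Pool.Agent.DLN

universe u

section defs

variable {N : ℕ} {K : Type u} [Field K]

/-- two points with small images which are far apart -/
def Split (v : AbsoluteValue K ℝ) (d : ℕ) (f : Fin N → MvPolynomial (Fin N) K) : Prop :=
  ∃ (L : Type u) (_ : Field L) (w : AbsoluteValue L ℝ) (φ : K →+* L) (z z' : Fin N → L)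
    (i : Fin N), (∀ a, w (φ a) = v a) ∧
    (∀ j, w (eval z (fL φ f j)) ≤ Real.exp ((1 + dlt N d / 16) * Real.log (radius v d f))) ∧
    (∀ j, w (eval z' (fL φ f j)) ≤ Real.exp ((1 + dlt N d / 16) * Real.log (radius v d f))) ∧
    Real.exp ((1 - dlt N d / 16) * Real.log (radius v d f)) ≤ w (z i - z' i)

/-- a point with small image which is far from all rational points -/
def Thin (v : AbsoluteValue K ℝ) (d : ℕ) (f : Fin N → MvPolynomial (Fin N) K) : Prop :=
  Far v d f (dlt N d / 16) Set.univ

theorem log_radius_nonneg' (v : AbsoluteValue K ℝ) (d : ℕ) (f : Fin N → MvPolynomial (Fin N) K) :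
    0 ≤ Real.log (radius v d f) := Real.log_nonneg (one_le_radius v d f)

theorem Far.mono_t {v : AbsoluteValue K ℝ} {d : ℕ} {f : Fin N → MvPolynomial (Fin N) K}
    {t t' : ℝ} {X : Set (Fin N → K)} (h : Far v d f t X) (htt : t ≤ t') : Far v d f t' X := by
  obtain ⟨L, hL, w, φ, z, i, h1, h2, h3⟩ := h
  have hl := log_radius_nonneg' v d f
  refine ⟨L, hL, w, φ, z, i, h1, fun j => (h2 j).trans ?_, fun x hx => le_trans ?_ (h3 x hx)⟩
  · exact Real.exp_le_exp.mpr (mul_le_mul_of_nonneg_right (by linarith) hl)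
  · exact Real.exp_le_exp.mpr (mul_le_mul_of_nonneg_right (by linarith) hl)

/-- the notion which is used in the proof -/
def FarP (d k : ℕ) (f : Fin N → MvPolynomial (Fin N) K) (v : AbsoluteValue K ℝ)
    (X : Set (Fin N → K)) : Prop :=
  (¬ IsNonarchimedean v → 16 * lg N d k ≤ dlt N d * Real.log (radius v d f)) →
    Far v d f (dlt N d / 8) X

theorem Split.pieces {v : AbsoluteValue K ℝ} {d k : ℕ} {f : Fin N → MvPolynomial (Fin N) K}
    (hd : 2 ≤ d) (hk : 1 ≤ k) (h : Split v d f) :
    ∃ X1 X2 : Set (Fin N → K), X1 ∪ X2 = Set.univ ∧ FarP d k f v X1 ∧ FarP d k f v X2 := by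
  by_cases hpr : ¬ IsNonarchimedean v → 16 * lg N d k ≤ dlt N d * Real.log (radius v d f)
  swap
  · exact ⟨Set.univ, Set.univ, Set.union_self _, fun h => absurd h hpr, fun h => absurd h hpr⟩
  obtain ⟨L, hL, w, φ, z, z', i, h1, h2, h3, h4⟩ := h
  have hl := log_radius_nonneg' v d f
  have hdl := dlt_pos N hd
  set l := Real.log (radius v d f) with hl'
  set δ := dlt N d with hδ
  have h5 : Real.exp ((1 + δ / 16) * l) ≤ Real.exp ((1 + δ / 8) * l) :=
    Real.exp_le_exp.mpr (mul_le_mul_of_nonneg_right (by linarith) hl)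
  refine ⟨{x | Real.exp ((1 - δ / 8) * l) ≤ w (φ (x i) - z i)},
    {x | Real.exp ((1 - δ / 8) * l) ≤ w (φ (x i) - z' i)}, ?_, fun _ => ?_, fun _ => ?_⟩
  · rw [Set.eq_univ_iff_forall]
    intro x
    by_contra hx
    rw [Set.mem_union, not_or] at hx
    have hx1 : w (φ (x i) - z i) < Real.exp ((1 - δ / 8) * l) := not_le.mp hx.1
    have hx2 : w (φ (x i) - z' i) < Real.exp ((1 - δ / 8) * l) := not_le.mp hx.2
    have e : z i - z' i = (φ (x i) - z' i) - (φ (x i) - z i) := by ring
    have h6 : Real.exp ((1 - δ / 8) * l) ≤ Real.exp ((1 - δ / 16) * l) :=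
      Real.exp_le_exp.mpr (mul_le_mul_of_nonneg_right (by linarith) hl)
    by_cases hna : IsNonarchimedean v
    · have hw := na_ext φ h1 hna
      have h7 : w (z i - z' i) ≤ max (w (φ (x i) - z' i)) (w (φ (x i) - z i)) := by
        rw [e, sub_eq_add_neg (φ (x i) - z' i)]
        refine (hw _ _).trans ?_
        rw [w.map_neg]
      have h8 := max_lt hx2 hx1
      linarith
    · have h7 := hpr hna
      have h8 : 1 ≤ δ * l / 16 := by
        have := one_le_lg (N := N) (d := d) hk
        linarith
      have h9 : w (z i - z' i) ≤ w (φ (x i) - z' i) + w (φ (x i) - z i) := by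
        rw [e, sub_eq_add_neg (φ (x i) - z' i)]
        refine (w.add_le _ _).trans ?_
        rw [w.map_neg]
      have h10 : 2 * Real.exp ((1 - δ / 8) * l) ≤ Real.exp ((1 - δ / 16) * l) := by
        have e2 : (1 - δ / 16) * l = δ * l / 16 + (1 - δ / 8) * l := by ring
        rw [e2, Real.exp_add]
        refine mul_le_mul_of_nonneg_right ?_ (Real.exp_pos _).le
        have h11 := Real.add_one_le_exp (δ * l / 16)
        linarith
      linarith
  · exact ⟨L, hL, w, φ, z, i, h1, fun j => (h2 j).trans h5, fun x hx => hx⟩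
  · exact ⟨L, hL, w, φ, z', i, h1, fun j => (h3 j).trans h5, fun x hx => hx⟩

end defs

open Classical in
/-- the part of the height of `f` which comes from the places in `V` and from the thin places -/
noncomputable def share {N : ℕ} {K : Type u} [Field K] [NumberField K]
    (V : Finset (AbsoluteValue K ℝ)) (d : ℕ) (f : Fin N → MvPolynomial (Fin N) K) : ℝ :=
  tot (fun v : InfinitePlace K => if v.val ∈ V ∨ Thin v.val d f then
      Real.log (radius v.val d f) else 0)
    (fun v : FinitePlace K => if v.val ∈ V ∨ Thin v.val d f then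
      Real.log (radius v.val d f) else 0)

/-- **Hypersurface theorem.** -/
theorem hyper (N d : ℕ) (hN : 1 ≤ N) (hd : 2 ≤ d) : ∃ A c C : ℝ, 0 < A ∧ 0 < c ∧ 0 < C ∧
    ∀ κ : ℝ, 1 ≤ κ → ∃ m : ℕ, (m : ℝ) ≤ A * (κ * Real.log (κ + 1)) ∧
    ∀ (K : Type u) [Field K] [NumberField K] (f : Fin N → MvPolynomial (Fin N) K),
      Mon d f → ∀ V : Finset (AbsoluteValue K ℝ), (∀ v ∈ V, Split v d f) →
      hrad d f ≤ κ * share V d f →
      ∃ H : MvPolynomial (Fin N) K, H ≠ 0 ∧ DG (2 ^ V.card * m) H ∧
        ∀ x, hat f d x < c / κ * hrad d f - Module.finrank ℚ K * (C * Real.log (κ + 1)) →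
          eval x H = 0 := by
  classical
  obtain ⟨A, C, hA, hC, hpar⟩ := par_exists N d hN hd
  have hdl := dlt_pos N hd
  have hd2 : (2 : ℝ) ≤ d := by exact_mod_cast hd
  refine ⟨d * A, dlt N d / (8 * (d + 1)), 2 * C, by positivity, by positivity, by positivity, ?_⟩
  intro κ hκ
  obtain ⟨k, T, hp, hκk, hkA, hlg⟩ := hpar κ hκ
  refine ⟨d * k, ?_, ?_⟩
  · push_cast
    have : (0 : ℝ) ≤ d := by positivity
    calc (d : ℝ) * k ≤ d * (A * (κ * Real.log (κ + 1))) := mul_le_mul_of_nonneg_left hkA this
      _ = _ := by ring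
  intro K _ _ f hf V hV hH
  set X0 : Set (Fin N → K) := {x | hat f d x < dlt N d / (8 * (d + 1)) / κ * hrad d f -
    Module.finrank ℚ K * (2 * C * Real.log (κ + 1))} with hX0
  set S : Set (AbsoluteValue K ℝ) := {v | v ∈ V ∨ Thin v d f} with hS
  have hbase : ∀ X ⊆ X0, (∀ v ∈ S, FarP d k f v X) → ∃ H : MvPolynomial (Fin N) K, H ≠ 0 ∧
      DG (d * k) H ∧ ∀ x ∈ X, eval x H = 0 := by
    intro X hX hfar
    set SI : Finset (InfinitePlace K) := univ.filter fun v => v.val ∈ S with hSI
    set SF : Finset (FinitePlace K) := (fs_radius d f).toFinset.filter fun v => v.val ∈ S with hSF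
    refine hyper_par hp hf (t := dlt N d / 8) (by positivity) le_rfl hκ hκk SI SF ?_ ?_ ?_ ?_
    · intro v hv hlv
      exact hfar v.val (mem_filter.mp hv).2 fun _ => hlv
    · intro v hv
      exact hfar v.val (mem_filter.mp hv).2 fun h => absurd (FinitePlace.add_le v) h
    · refine hH.trans (le_of_eq ?_)
      congr 1
      unfold share tot
      congr 1
      · rw [hSI, sum_filter]
        refine sum_congr rfl fun v _ => ?_
        rw [mul_ite, mul_zero]
        exact if_congr Iff.rfl rfl rfl
      · rw [finsum_eq_sum_of_support_subset (s := (fs_radius d f).toFinset)]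
        · rw [hSF, sum_filter]
          exact sum_congr rfl fun v _ => if_congr Iff.rfl rfl rfl
        · intro v hv
          rw [Function.mem_support] at hv
          rw [Set.Finite.coe_toFinset, Function.mem_support]
          intro h0
          apply hv
          rw [h0, ite_self]
    · intro x hx
      have h1 := hX hx
      have h2 : hat f d x < dlt N d / (8 * (d + 1)) / κ * hrad d f -
        Module.finrank ℚ K * (2 * C * Real.log (κ + 1)) := h1
      have h3 : (Module.finrank ℚ K : ℝ) * (2 * lg N d k) ≤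
          Module.finrank ℚ K * (2 * C * Real.log (κ + 1)) :=
        mul_le_mul_of_nonneg_left (by linarith) (Nat.cast_nonneg _)
      rw [div_div] at h2
      linarith
  obtain ⟨H, h1, h2, h3⟩ := pieces (FarP d k f) (fun v X Y h hYX hpr => (h hpr).mono hYX) S (d * k)
    X0 hbase V (fun v hv => (hV v hv).pieces hd hp.K_one) X0 subset_rfl (fun v hv hn => by
      intro _
      rcases hv with hv | hv
      · exact absurd hv hn
      · exact (Far.mono_t hv (by linarith)).mono (Set.subset_univ _))
  exact ⟨H, h1, h2, fun x hx => h3 x hx⟩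

end Pool.Agent.DLN
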