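import Mathlib

/-!
# Multi-indices: counting (project DLN)
-/

set_option autoImplicit false

open Finset

namespace Pool.Agent.DLN

/-- the multi-indices of degree at most `n` -/
noncomputable def Gam (N n : ℕ) : Finset (Fin N →₀ ℕ) := (Finsupp.finite_of_degree_le n).toFinset

theorem mem_Gam {N n : ℕ} {α : Fin N →₀ ℕ} : α ∈ Gam N n ↔ α.degree ≤ n := by
  unfold Gam
  rw [Set.Finite.mem_toFinset]
  rfl

/-- the number of multi-indices of degree at most `n` -/
def cc (N n : ℕ) : ℕ := (n + N).choose N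

theorem mem_antidiag {N k : ℕ} {α : Fin N →₀ ℕ} :
    α ∈ (univ : Finset (Fin N)).finsuppAntidiag k ↔ α.degree = k := by
  rw [mem_finsuppAntidiag, Finsupp.degree_eq_sum]
  simp

theorem card_Gam_multi (N n : ℕ) : (Gam N n).card = Nat.multichoose (N + 1) n := by
  induction n with
  | zero =>
    rw [Nat.multichoose_zero_right, card_eq_one]
    refine ⟨0, ?_⟩
    ext α
    rw [mem_Gam, mem_singleton, Nat.le_zero, Finsupp.degree_eq_zero_iff]
  | succ n ih =>
    rw [Nat.multichoose_succ_succ, ← ih]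
    have h : Gam N (n + 1) = (univ : Finset (Fin N)).finsuppAntidiag (n + 1) ∪ Gam N n := by
      ext α
      rw [mem_union, mem_antidiag, mem_Gam, mem_Gam]
      omega
    rw [h, card_union_of_disjoint, card_finsuppAntidiag_nat_eq_multichoose, card_univ,
      Fintype.card_fin]
    rw [disjoint_left]
    intro α h1 h2
    rw [mem_antidiag] at h1
    rw [mem_Gam] at h2
    omega

theorem card_Gam (N n : ℕ) : (Gam N n).card = cc N n := by
  rw [card_Gam_multi, Nat.multichoose_eq]
  unfold cc
  have h : N + 1 + n - 1 = n + N := by omega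
  rw [h]
  exact Nat.choose_symm_add

/-- hockey stick -/
theorem sum_cc (N n : ℕ) : ∑ k ∈ range n, cc N k = (n + N).choose (N + 1) := by
  unfold cc
  cases n with
  | zero => simp
  | succ n =>
    rw [Nat.sum_range_add_choose]
    congr 1
    omega

/-- the number of elements of `S` where `g < k` controls the sum of `g` over `S` -/
theorem sum_ge {ι : Type*} (S : Finset ι) (g : ι → ℕ) (K : ℕ) :
    (K : ℤ) * S.card - ∑ k ∈ range K, ((S.filter fun s => g s < k + 1).card : ℤ) ≤
      ∑ s ∈ S, (g s : ℤ) := by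
  have h1 : (∑ s ∈ S, (g s : ℤ)) ≥ ∑ s ∈ S, ∑ k ∈ range K, (if g s < k + 1 then 0 else 1 : ℤ) := by
    refine Finset.sum_le_sum fun s _ => ?_
    have h2 : (∑ k ∈ range K, (if g s < k + 1 then 0 else 1 : ℤ)) =
        (((range K).filter fun k => ¬ g s < k + 1).card : ℤ) := by
      rw [← Finset.sum_filter_add_sum_filter_not (range K) (fun k => g s < k + 1)]
      rw [Finset.sum_congr rfl (g := fun _ => (0 : ℤ)) (fun k hk => if_pos (mem_filter.mp hk).2),
        Finset.sum_congr rfl (g := fun _ => (1 : ℤ)) (fun k hk => if_neg (mem_filter.mp hk).2)]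
      simp
    rw [h2]
    have h3 : ((range K).filter fun k => ¬ g s < k + 1) ⊆ range (g s) := by
      intro k hk
      rw [mem_filter] at hk
      rw [mem_range]
      omega
    have h4 := card_le_card h3
    rw [card_range] at h4
    exact_mod_cast h4
  refine le_trans (le_of_eq ?_) h1
  rw [Finset.sum_comm]
  have h5 : ∀ k ∈ range K, ∑ s ∈ S, (if g s < k + 1 then 0 else 1 : ℤ) =
      (S.card : ℤ) - ((S.filter fun s => g s < k + 1).card : ℤ) := by
    intro k _
    have h6 : (∑ s ∈ S, (if g s < k + 1 then 0 else 1 : ℤ)) =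
        ((S.filter fun s => ¬ g s < k + 1).card : ℤ) := by
      rw [← Finset.sum_filter_add_sum_filter_not S (fun s => g s < k + 1)]
      rw [Finset.sum_congr rfl (g := fun _ => (0 : ℤ)) (fun k hk => if_pos (mem_filter.mp hk).2),
        Finset.sum_congr rfl (g := fun _ => (1 : ℤ)) (fun k hk => if_neg (mem_filter.mp hk).2)]
      simp
    rw [h6]
    have h7 := card_filter_add_card_filter_not (s := S) (fun s => g s < k + 1)
    omega
  rw [Finset.sum_congr rfl h5, Finset.sum_sub_distrib, Finset.sum_const, card_range]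
  simp

/-- the sum of the degrees -/
theorem sum_degree (N m : ℕ) : ∑ γ ∈ Gam N m, (γ.degree : ℤ) =
    m * cc N m - (m + N).choose (N + 1) := by
  induction m with
  | zero =>
    have h : Gam N 0 = {0} := by
      ext α
      rw [mem_Gam, mem_singleton, Nat.le_zero, Finsupp.degree_eq_zero_iff]
    rw [h, sum_singleton]
    simp
  | succ n ih =>
    have h : Gam N (n + 1) = (univ : Finset (Fin N)).finsuppAntidiag (n + 1) ∪ Gam N n := by
      ext α
      rw [mem_union, mem_antidiag, mem_Gam, mem_Gam]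
      omega
    have hd : Disjoint ((univ : Finset (Fin N)).finsuppAntidiag (n + 1)) (Gam N n) := by
      rw [disjoint_left]
      intro α h1 h2
      rw [mem_antidiag] at h1
      rw [mem_Gam] at h2
      omega
    have h1 : (cc N (n + 1) : ℤ) = (((univ : Finset (Fin N)).finsuppAntidiag (n + 1)).card : ℤ) +
        cc N n := by
      rw [← card_Gam, h, card_union_of_disjoint hd, ← card_Gam]
      push_cast
      rfl
    rw [h, sum_union hd, ih]
    have h2 : ∑ α ∈ (univ : Finset (Fin N)).finsuppAntidiag (n + 1), (α.degree : ℤ) =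
        (((univ : Finset (Fin N)).finsuppAntidiag (n + 1)).card : ℤ) * (n + 1) := by
      rw [Finset.sum_congr rfl (g := fun _ => ((n : ℤ) + 1))
        (fun α hα => by rw [mem_antidiag.mp hα]; push_cast; rfl), sum_const]
      simp
    rw [h2]
    have h3 : ((n + 1 + N).choose (N + 1) : ℤ) = cc N n + (n + N).choose (N + 1) := by
      have e : n + 1 + N = (n + N) + 1 := by omega
      rw [e, Nat.choose_succ_succ]
      unfold cc
      push_cast
      ring
    rw [h3, h1]
    push_cast
    ring

/-! ### digits -/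

/-- the last digits in base `d` -/
noncomputable def dm {N : ℕ} (d : ℕ) (s : Fin N →₀ ℕ) : Fin N →₀ ℕ :=
  s.mapRange (fun a => a % d) (Nat.zero_mod d)

/-- the other digits in base `d` -/
noncomputable def dv {N : ℕ} (d : ℕ) (s : Fin N →₀ ℕ) : Fin N →₀ ℕ :=
  s.mapRange (fun a => a / d) (Nat.zero_div d)

@[simp] theorem dm_apply {N : ℕ} (d : ℕ) (s : Fin N →₀ ℕ) (i : Fin N) : dm d s i = s i % d := rfl

@[simp] theorem dv_apply {N : ℕ} (d : ℕ) (s : Fin N →₀ ℕ) (i : Fin N) : dv d s i = s i / d := rfl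

theorem dm_add_dv {N : ℕ} (d : ℕ) (s : Fin N →₀ ℕ) : dm d s + d • dv d s = s := by
  ext i
  simp [Nat.mod_add_div]

theorem degree_split {N : ℕ} (d : ℕ) (s : Fin N →₀ ℕ) :
    s.degree = (dm d s).degree + d * (dv d s).degree := by
  conv_lhs => rw [← dm_add_dv d s]
  rw [map_add, map_nsmul, smul_eq_mul]

theorem dv_zero {N : ℕ} (d : ℕ) : dv d (0 : Fin N →₀ ℕ) = 0 := by
  ext i
  simp

/-- the multi-index with the given digits -/
noncomputable def mk {N : ℕ} (d : ℕ) (ε κ : Fin N →₀ ℕ) : Fin N →₀ ℕ := ε + d • κ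

theorem dm_mk {N : ℕ} {d : ℕ} {ε κ : Fin N →₀ ℕ} (h : ∀ i, ε i < d) : dm d (mk d ε κ) = ε := by
  ext i
  show (ε i + d * κ i) % d = ε i
  rw [Nat.add_mul_mod_self_left]
  exact Nat.mod_eq_of_lt (h i)

theorem dv_mk {N : ℕ} {d : ℕ} {ε κ : Fin N →₀ ℕ} (h : ∀ i, ε i < d) : dv d (mk d ε κ) = κ := by
  ext i
  show (ε i + d * κ i) / d = κ i
  have h1 : 0 < d := (Nat.zero_le _).trans_lt (h i)
  rw [Nat.add_mul_div_left _ _ h1, Nat.div_eq_of_lt (h i), zero_add]

theorem mk_dm_dv {N : ℕ} (d : ℕ) (s : Fin N →₀ ℕ) : mk d (dm d s) (dv d s) = s := dm_add_dv d s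

theorem dm_lt {N : ℕ} {d : ℕ} (hd : 0 < d) (s : Fin N →₀ ℕ) (i : Fin N) : dm d s i < d :=
  Nat.mod_lt _ hd

theorem dv_degree_mul_le {N : ℕ} (d : ℕ) (s : Fin N →₀ ℕ) : d * (dv d s).degree ≤ s.degree := by
  rw [degree_split d s]
  omega

/-- the number of multi-indices whose upper digits have degree at most `k` -/
theorem card_dv_le {N : ℕ} {d : ℕ} (hd : 0 < d) (S : Finset (Fin N →₀ ℕ)) (k : ℕ) :
    (S.filter fun s => (dv d s).degree < k + 1).card ≤ d ^ N * cc N k := by
  have h1 : (S.filter fun s => (dv d s).degree < k + 1).card ≤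
      ((univ : Finset (Fin N → Fin d)) ×ˢ Gam N k).card := by
    refine card_le_card_of_injOn (fun s => (fun i => ⟨s i % d, Nat.mod_lt _ hd⟩, dv d s)) ?_ ?_
    · intro s hs
      have hs : s ∈ S.filter fun s => (dv d s).degree < k + 1 := hs
      rw [mem_filter] at hs
      exact mem_coe.mpr (mem_product.mpr ⟨mem_univ _, mem_Gam.mpr (Nat.lt_succ_iff.mp hs.2)⟩)
    · intro s _ t _ hst
      have h2 := congrArg Prod.fst hst
      have h3 := congrArg Prod.snd hst
      ext i
      have h4 : s i % d = t i % d := by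
        have := congrFun h2 i
        exact congrArg Fin.val this
      have h5 : s i / d = t i / d := DFunLike.congr_fun h3 i
      rw [← Nat.mod_add_div (s i) d, ← Nat.mod_add_div (t i) d, h4, h5]
  refine h1.trans (le_of_eq ?_)
  rw [card_product, card_Gam, card_univ, Fintype.card_fun, Fintype.card_fin, Fintype.card_fin]

end Pool.Agent.DLN
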