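import Pool.Agent.Lib_helper31.DLN.Dig
import Pool.Agent.Lib_helper31.DLN.Det

/-!
# The local theory of the radius (project DLN)
-/

set_option autoImplicit false

open Finset MvPolynomial

namespace Pool.Agent.DLN

variable {N : ℕ} {F : Type*} [Field F]

/-- the maximum of `1` and of the absolute values of the coordinates -/
noncomputable def nrm (v : AbsoluteValue F ℝ) (x : Fin N → F) : ℝ :=
  ⨆ i, v ((Fin.cons 1 x : Fin (N + 1) → F) i)

theorem le_nrm (v : AbsoluteValue F ℝ) (x : Fin N → F) (i : Fin N) : v (x i) ≤ nrm v x := by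
  have h := Finite.le_ciSup (fun i => v ((Fin.cons 1 x : Fin (N + 1) → F) i)) i.succ
  rw [Fin.cons_succ] at h
  exact h

theorem one_le_nrm (v : AbsoluteValue F ℝ) (x : Fin N → F) : 1 ≤ nrm v x := by
  have h := Finite.le_ciSup (fun i => v ((Fin.cons 1 x : Fin (N + 1) → F) i)) 0
  rw [Fin.cons_zero, map_one] at h
  exact h

theorem nrm_le {v : AbsoluteValue F ℝ} {x : Fin N → F} {A : ℝ} (h1 : 1 ≤ A)
    (h : ∀ i, v (x i) ≤ A) : nrm v x ≤ A := by
  refine ciSup_le fun i => ?_
  refine Fin.cases ?_ (fun j => ?_) i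
  · simpa using h1
  · simpa using h j

theorem exists_nrm {v : AbsoluteValue F ℝ} {x : Fin N → F} {A : ℝ} (h1 : 1 ≤ A)
    (h : A < nrm v x) : ∃ i, v (x i) = nrm v x := by
  obtain ⟨i, hi⟩ := exists_eq_ciSup_of_finite
    (f := fun i => v ((Fin.cons 1 x : Fin (N + 1) → F) i))
  change v ((Fin.cons 1 x : Fin (N + 1) → F) i) = nrm v x at hi
  revert hi
  refine Fin.cases ?_ (fun j => ?_) i
  · intro hi
    rw [Fin.cons_zero, map_one] at hi
    linarith
  · intro hi
    rw [Fin.cons_succ] at hi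
    exact ⟨j, hi⟩

/-- the excess -/
noncomputable def exs (v : AbsoluteValue F ℝ) (B : ℝ) (x : Fin N → F) : ℝ :=
  Real.log (max 1 (nrm v x / B))

theorem exs_nonneg (v : AbsoluteValue F ℝ) (B : ℝ) (x : Fin N → F) : 0 ≤ exs v B x :=
  Real.log_nonneg (le_max_left _ _)

theorem le_exs {v : AbsoluteValue F ℝ} {B : ℝ} (hB : 0 < B) (x : Fin N → F) :
    Real.log (nrm v x) - Real.log B ≤ exs v B x := by
  have h0 : 0 < nrm v x := zero_lt_one.trans_le (one_le_nrm v x)
  rw [← Real.log_div h0.ne' hB.ne']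
  exact Real.log_le_log (div_pos h0 hB) (le_max_right _ _)

theorem exs_eq {v : AbsoluteValue F ℝ} {B : ℝ} (hB : 0 < B) {x : Fin N → F} (h : B ≤ nrm v x) :
    exs v B x = Real.log (nrm v x) - Real.log B := by
  have h0 : 0 < nrm v x := zero_lt_one.trans_le (one_le_nrm v x)
  unfold exs
  rw [max_eq_right ((one_le_div hB).mpr h), Real.log_div h0.ne' hB.ne']

theorem exs_eq_zero {v : AbsoluteValue F ℝ} {B : ℝ} (hB : 0 < B) {x : Fin N → F}
    (h : nrm v x ≤ B) : exs v B x = 0 := by
  unfold exs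
  rw [max_eq_left ((div_le_one hB).mpr h), Real.log_one]

theorem nrm_le_exs {v : AbsoluteValue F ℝ} {B : ℝ} (hB : 0 < B) (x : Fin N → F) :
    nrm v x ≤ B * Real.exp (exs v B x) := by
  have h0 : 0 < nrm v x := zero_lt_one.trans_le (one_le_nrm v x)
  have h1 := le_exs (v := v) hB x
  have h2 : Real.log (nrm v x) ≤ Real.log B + exs v B x := by linarith
  calc nrm v x = Real.exp (Real.log (nrm v x)) := (Real.exp_log h0).symm
    _ ≤ Real.exp (Real.log B + exs v B x) := Real.exp_le_exp.mpr h2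
    _ = B * Real.exp (exs v B x) := by rw [Real.exp_add, Real.exp_log hB]

theorem exs_le_log {v : AbsoluteValue F ℝ} {B : ℝ} (hB : 1 ≤ B) (x : Fin N → F) :
    exs v B x ≤ Real.log (nrm v x) := by
  have h1 := one_le_nrm v x
  unfold exs
  refine Real.log_le_log (by positivity) (max_le h1 ?_)
  exact div_le_self (by linarith) hB

/-- the local facts -/
structure Loc (v : AbsoluteValue F ℝ) (d : ℕ) (f : Fin N → MvPolynomial (Fin N) F) (B : ℝ) :
    Prop where
  one_le : 1 ≤ B
  lo : ∀ x, B < nrm v x → nrm v x ^ d ≤ B ^ (d - 1) * nrm v (pm f x)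
  up : ∀ x, nrm v (pm f x) ≤ (B * nrm v x) ^ d

namespace Loc

variable {v : AbsoluteValue F ℝ} {d : ℕ} {f : Fin N → MvPolynomial (Fin N) F} {B : ℝ}

theorem pos (h : Loc v d f B) : 0 < B := zero_lt_one.trans_le h.one_le

theorem logB (h : Loc v d f B) : 0 ≤ Real.log B := Real.log_nonneg h.one_le

theorem log_lo (h : Loc v d f B) {x : Fin N → F} (hx : B < nrm v x) :
    d * Real.log (nrm v x) ≤ ((d - 1 : ℕ) : ℝ) * Real.log B + Real.log (nrm v (pm f x)) := by
  have h0 : 0 < nrm v x := zero_lt_one.trans_le (one_le_nrm v x)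
  have h1 : 0 < nrm v (pm f x) := zero_lt_one.trans_le (one_le_nrm v _)
  have h2 := Real.log_le_log (pow_pos h0 d) (h.lo x hx)
  rw [Real.log_pow, Real.log_mul (pow_pos h.pos _).ne' h1.ne', Real.log_pow] at h2
  exact h2

theorem step (h : Loc v d f B) (hd : 1 ≤ d) (x : Fin N → F) :
    d * exs v B x ≤ exs v B (pm f x) := by
  rcases le_or_gt (nrm v x) B with h1 | h1
  · rw [exs_eq_zero h.pos h1, mul_zero]
    exact exs_nonneg _ _ _
  · rw [exs_eq h.pos h1.le]
    refine le_trans ?_ (le_exs h.pos _)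
    have h2 := h.log_lo h1
    have h3 : ((d - 1 : ℕ) : ℝ) = d - 1 := by rw [Nat.cast_sub hd, Nat.cast_one]
    rw [h3] at h2
    linarith

theorem iter (h : Loc v d f B) (hd : 1 ≤ d) (x : Fin N → F) (n : ℕ) :
    (d : ℝ) ^ n * exs v B x ≤ exs v B ((pm f)^[n] x) := by
  induction n with
  | zero => simp
  | succ n ih =>
    rw [Function.iterate_succ_apply']
    refine le_trans ?_ (h.step hd _)
    rw [pow_succ]
    have h0 : (0 : ℝ) ≤ d := Nat.cast_nonneg _
    calc (d : ℝ) ^ n * d * exs v B x = d * (d ^ n * exs v B x) := by ring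
      _ ≤ d * exs v B ((pm f)^[n] x) := mul_le_mul_of_nonneg_left ih h0

theorem log_up (h : Loc v d f B) (x : Fin N → F) :
    Real.log (nrm v (pm f x)) ≤ d * Real.log (nrm v x) + d * Real.log B := by
  have h0 : 0 < nrm v x := zero_lt_one.trans_le (one_le_nrm v x)
  have h1 : 0 < nrm v (pm f x) := zero_lt_one.trans_le (one_le_nrm v _)
  have h2 := Real.log_le_log h1 (h.up x)
  rw [Real.log_pow, Real.log_mul h.pos.ne' h0.ne'] at h2
  linarith

theorem log_down (h : Loc v d f B) (hd : 1 ≤ d) (x : Fin N → F) :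
    d * Real.log (nrm v x) ≤ Real.log (nrm v (pm f x)) + d * Real.log B := by
  have h0 : 0 < nrm v x := zero_lt_one.trans_le (one_le_nrm v x)
  have h4 : 0 ≤ Real.log (nrm v (pm f x)) := Real.log_nonneg (one_le_nrm v _)
  have hd0 : (0 : ℝ) ≤ d := Nat.cast_nonneg _
  rcases le_or_gt (nrm v x) B with h1 | h1
  · have h2 := mul_le_mul_of_nonneg_left (Real.log_le_log h0 h1) hd0
    linarith
  · have h2 := h.log_lo h1
    have h3 : ((d - 1 : ℕ) : ℝ) = d - 1 := by rw [Nat.cast_sub hd, Nat.cast_one]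
    rw [h3] at h2
    linarith [h.logB]

/-- the iterates are controlled by the excess of the last one -/
theorem esc (h : Loc v d f B) (hd : 1 ≤ d) (x : Fin N → F) (J : ℕ) :
    Esc v d f J B (exs v B ((pm f)^[J] x) / (d : ℝ) ^ J) x := by
  intro j hj i
  have hd0 : (0 : ℝ) < d := by exact_mod_cast hd
  refine (le_nrm v _ i).trans ((nrm_le_exs h.pos _).trans ?_)
  refine mul_le_mul_of_nonneg_left (Real.exp_le_exp.mpr ?_) h.pos.le
  have h1 := h.iter hd ((pm f)^[j] x) (J - j)
  rw [← Function.iterate_add_apply, Nat.sub_add_cancel hj.le] at h1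
  have h2 : (d : ℝ) ^ J = (d : ℝ) ^ j * (d : ℝ) ^ (J - j) := by
    rw [← pow_add]
    congr 1
    omega
  rw [h2]
  have h3 : (0 : ℝ) < (d : ℝ) ^ j := by positivity
  have h4 : (0 : ℝ) < (d : ℝ) ^ (J - j) := by positivity
  rw [show (d : ℝ) ^ j * (exs v B ((pm f)^[J] x) / ((d : ℝ) ^ j * (d : ℝ) ^ (J - j))) =
    exs v B ((pm f)^[J] x) / (d : ℝ) ^ (J - j) by field_simp]
  rw [le_div_iff₀ h4, mul_comm]
  exact h1

end Loc

/-! ### the radius -/

/-- `R` is at least the radius -/
def RadLe (v : AbsoluteValue F ℝ) (d : ℕ) (f : Fin N → MvPolynomial (Fin N) F) (R : ℝ) : Prop :=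
  1 ≤ R ∧ ∀ i, ∀ α : Fin N →₀ ℕ, α.degree < d → v (coeff α (f i)) ≤ R ^ (d - α.degree)

/-- the lower order part -/
noncomputable def low (d : ℕ) (f : Fin N → MvPolynomial (Fin N) F) (i : Fin N) :
    MvPolynomial (Fin N) F := f i - monomial (Finsupp.single i d) 1

theorem Mon.low {d : ℕ} {f : Fin N → MvPolynomial (Fin N) F} (h : Mon d f) (i : Fin N) :
    DL d (DLN.low d f i) := by
  have h1 := h i
  unfold LM at h1
  rwa [Finsupp.degree_single] at h1

theorem eval_low {d : ℕ} (f : Fin N → MvPolynomial (Fin N) F) (x : Fin N → F) (i : Fin N) :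
    eval x (f i) = x i ^ d + eval x (low d f i) := by
  unfold low
  have h : (Finsupp.single i d).prod (fun n e => x n ^ e) = x i ^ d :=
    Finsupp.prod_single_index (pow_zero _)
  rw [map_sub, eval_monomial, one_mul, h]
  ring

theorem coeff_low {d : ℕ} (f : Fin N → MvPolynomial (Fin N) F) (i : Fin N) {α : Fin N →₀ ℕ}
    (h : α.degree < d) : coeff α (low d f i) = coeff α (f i) := by
  classical
  unfold low
  rw [coeff_sub, coeff_monomial, if_neg, sub_zero]
  rintro rfl
  rw [Finsupp.degree_single] at h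
  exact lt_irrefl _ h

theorem term_low {v : AbsoluteValue F ℝ} {d : ℕ} {f : Fin N → MvPolynomial (Fin N) F} {R : ℝ}
    (hf : Mon d f) (hR : RadLe v d f R) {x : Fin N → F} {t : ℝ} (hRt : R ≤ t)
    (hx : ∀ i, v (x i) ≤ t) (i : Fin N) (α : Fin N →₀ ℕ) (hα : α ∈ (low d f i).support) :
    v (coeff α (low d f i) * ∏ j, x j ^ α j) ≤ R * t ^ (d - 1) := by
  have h1 : α.degree < d := hf.low i α (mem_support_iff.mp hα)
  rw [coeff_low f i h1, map_mul, map_prod]
  have hR0 : 0 ≤ R := zero_le_one.trans hR.1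
  have ht0 : 0 ≤ t := hR0.trans hRt
  have h2 : ∏ j, v (x j ^ α j) ≤ t ^ α.degree := by
    rw [Finsupp.degree_eq_sum, ← Finset.prod_pow_eq_pow_sum]
    refine prod_le_prod (fun j _ => apply_nonneg v _) fun j _ => ?_
    rw [map_pow]
    exact pow_le_pow_left₀ (apply_nonneg v _) (hx j) _
  calc v (coeff α (f i)) * ∏ j, v (x j ^ α j) ≤ R ^ (d - α.degree) * t ^ α.degree :=
        mul_le_mul (hR.2 i α h1) h2 (prod_nonneg fun j _ => apply_nonneg v _) (by positivity)
    _ = R * (R ^ (d - α.degree - 1) * t ^ α.degree) := by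
        rw [← mul_assoc, ← pow_succ']
        congr 2
        omega
    _ ≤ R * (t ^ (d - α.degree - 1) * t ^ α.degree) := by
        gcongr
    _ = R * t ^ (d - 1) := by
        rw [← pow_add]
        congr 2
        omega

theorem eval_low_eq {d : ℕ} (f : Fin N → MvPolynomial (Fin N) F) (x : Fin N → F) (i : Fin N) :
    eval x (low d f i) =
      ∑ α ∈ (low d f i).support, coeff α (low d f i) * ∏ j, x j ^ α j := by
  rw [eval_eq']

theorem na_low {v : AbsoluteValue F ℝ} (hv : IsNonarchimedean v) {d : ℕ}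
    {f : Fin N → MvPolynomial (Fin N) F} {R : ℝ} (hf : Mon d f) (hR : RadLe v d f R)
    {x : Fin N → F} {t : ℝ} (hRt : R ≤ t) (hx : ∀ i, v (x i) ≤ t) (i : Fin N) :
    v (eval x (low d f i)) ≤ R * t ^ (d - 1) := by
  rw [eval_low_eq]
  have hR0 : 0 ≤ R := zero_le_one.trans hR.1
  have ht0 : 0 ≤ t := hR0.trans hRt
  exact na_sum_le hv _ _ (by positivity) fun α hα => term_low hf hR hRt hx i α hα

theorem card_low {d : ℕ} (hd : 1 ≤ d) {f : Fin N → MvPolynomial (Fin N) F} (hf : Mon d f)
    (i : Fin N) : (low d f i).support.card ≤ cc N (d - 1) := by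
  rw [← card_Gam]
  refine card_le_card fun α hα => ?_
  rw [mem_Gam]
  have := hf.low i α (mem_support_iff.mp hα)
  omega

theorem ar_low {v : AbsoluteValue F ℝ} {d : ℕ} (hd : 1 ≤ d)
    {f : Fin N → MvPolynomial (Fin N) F} {R : ℝ} (hf : Mon d f) (hR : RadLe v d f R)
    {x : Fin N → F} {t : ℝ} (hRt : R ≤ t) (hx : ∀ i, v (x i) ≤ t) (i : Fin N) :
    v (eval x (low d f i)) ≤ cc N (d - 1) * (R * t ^ (d - 1)) := by
  rw [eval_low_eq]
  have hR0 : 0 ≤ R := zero_le_one.trans hR.1
  have ht0 : 0 ≤ t := hR0.trans hRt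
  refine (v.sum_le _ _).trans ?_
  refine (sum_le_card_nsmul _ _ _ fun α hα => term_low hf hR hRt hx i α hα).trans ?_
  rw [nsmul_eq_mul]
  exact mul_le_mul_of_nonneg_right (by exact_mod_cast card_low hd hf i) (by positivity)

/-- nonarchimedean places -/
theorem Loc.na {v : AbsoluteValue F ℝ} (hv : IsNonarchimedean v) {d : ℕ} (hd : 1 ≤ d)
    {f : Fin N → MvPolynomial (Fin N) F} {R : ℝ} (hf : Mon d f) (hR : RadLe v d f R) :
    Loc v d f R where
  one_le := hR.1
  lo := fun x hx => by
    have hR0 : 0 < R := zero_lt_one.trans_le hR.1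
    have hn0 : 0 < nrm v x := hR0.trans hx
    obtain ⟨i, hi⟩ := exists_nrm hR.1 hx
    have h1 := na_low hv hf hR hx.le (fun j => le_nrm v x j) i
    have h2 : v (eval x (low d f i)) < v (x i ^ d) := by
      refine h1.trans_lt ?_
      rw [map_pow, hi]
      calc R * nrm v x ^ (d - 1) < nrm v x * nrm v x ^ (d - 1) :=
            mul_lt_mul_of_pos_right hx (by positivity)
        _ = nrm v x ^ d := by
            rw [← pow_succ']
            congr 1
            omega
    have h3 : v (eval x (f i)) = nrm v x ^ d := by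
      rw [eval_low f x i, add_comm]
      rw [IsNonarchimedean.add_eq_max_of_ne hv h2.ne, max_eq_right h2.le, map_pow, hi]
    have h4 : nrm v x ^ d ≤ nrm v (pm f x) := by
      rw [← h3]
      exact le_nrm v (pm f x) i
    have h5 : 0 ≤ nrm v (pm f x) := zero_le_one.trans (one_le_nrm v _)
    calc nrm v x ^ d ≤ nrm v (pm f x) := h4
      _ ≤ R ^ (d - 1) * nrm v (pm f x) := le_mul_of_one_le_left h5 (one_le_pow₀ hR.1)
  up := fun x => by
    have hR0 : 0 < R := zero_lt_one.trans_le hR.1
    have hn1 := one_le_nrm v x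
    have hRn : R ≤ R * nrm v x := le_mul_of_one_le_right hR0.le hn1
    have hnR : nrm v x ≤ R * nrm v x := le_mul_of_one_le_left (by linarith) hR.1
    have h1 : 1 ≤ R * nrm v x := hR.1.trans hRn
    refine nrm_le (one_le_pow₀ h1) fun i => ?_
    show v (eval x (f i)) ≤ _
    rw [eval_low f x i]
    refine (hv _ _).trans (max_le ?_ ?_)
    · rw [map_pow]
      exact pow_le_pow_left₀ (apply_nonneg v _) ((le_nrm v x i).trans hnR) _
    · refine (na_low hv hf hR hRn (fun j => (le_nrm v x j).trans hnR) i).trans ?_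
      calc R * (R * nrm v x) ^ (d - 1) ≤ (R * nrm v x) * (R * nrm v x) ^ (d - 1) :=
            mul_le_mul_of_nonneg_right hRn (by positivity)
        _ = (R * nrm v x) ^ d := by
            rw [← pow_succ']
            congr 1
            omega

theorem one_le_cc (N n : ℕ) : 1 ≤ cc N n := by
  unfold cc
  exact Nat.choose_pos (by omega)

/-- arbitrary places, in particular archimedean ones -/
theorem Loc.ar {v : AbsoluteValue F ℝ} {d : ℕ} (hd : 2 ≤ d)
    {f : Fin N → MvPolynomial (Fin N) F} {R : ℝ} (hf : Mon d f) (hR : RadLe v d f R) :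
    Loc v d f (2 * cc N (d - 1) * R) := by
  set G : ℝ := (cc N (d - 1) : ℝ) with hG
  have hG1 : 1 ≤ G := by
    rw [hG]
    exact_mod_cast one_le_cc N (d - 1)
  have hR0 : 0 < R := zero_lt_one.trans_le hR.1
  have hB2 : 2 ≤ 2 * G * R := by nlinarith [hR.1]
  have hRB : R ≤ 2 * G * R := by nlinarith
  have hd1 : 1 ≤ d := by omega
  refine ⟨by linarith, fun x hx => ?_, fun x => ?_⟩
  · have hn0 : 0 < nrm v x := lt_trans (by linarith) hx
    obtain ⟨i, hi⟩ := exists_nrm (by linarith) hx
    have h1 := ar_low hd1 hf hR (hRB.trans hx.le) (fun j => le_nrm v x j) i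
    rw [← hG] at h1
    have e1 : nrm v x ^ d = nrm v x * nrm v x ^ (d - 1) := by
      rw [← pow_succ']
      congr 1
      omega
    have h2 : v (eval x (low d f i)) ≤ nrm v x ^ d / 2 := by
      refine h1.trans ?_
      rw [e1]
      have h3 : 0 ≤ nrm v x ^ (d - 1) := by positivity
      nlinarith [mul_le_mul_of_nonneg_right hx.le h3]
    have h3 : nrm v x ^ d / 2 ≤ v (eval x (f i)) := by
      have h4 : v (x i ^ d) ≤ v (eval x (f i)) + v (eval x (low d f i)) := by
        have e2 : x i ^ d = eval x (f i) - eval x (low d f i) := by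
          rw [eval_low f x i (d := d)]
          ring
        rw [e2]
        exact v.sub_le_add _ _
      rw [map_pow, hi] at h4
      linarith
    have h4 : nrm v x ^ d / 2 ≤ nrm v (pm f x) := h3.trans (le_nrm v (pm f x) i)
    have h5 : 0 ≤ nrm v (pm f x) := zero_le_one.trans (one_le_nrm v _)
    have h6 : 2 ≤ (2 * G * R) ^ (d - 1) := by
      calc (2 : ℝ) ≤ 2 * G * R := hB2
        _ ≤ (2 * G * R) ^ (d - 1) := le_self_pow₀ (by linarith) (by omega)
    nlinarith
  · have hn1 := one_le_nrm v x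
    have hRn : R ≤ R * nrm v x := le_mul_of_one_le_right hR0.le hn1
    have hnR : nrm v x ≤ R * nrm v x := le_mul_of_one_le_left (by linarith) hR.1
    set t := R * nrm v x with ht
    have ht1 : 1 ≤ t := hR.1.trans hRn
    have e0 : 2 * G * R * nrm v x = 2 * G * t := by rw [ht]; ring
    rw [e0]
    have h1 : 1 ≤ 2 * G * t := by nlinarith
    refine nrm_le (one_le_pow₀ h1) fun i => ?_
    show v (eval x (f i)) ≤ _
    rw [eval_low f x i]
    refine (v.add_le _ _).trans ?_
    have h2 : v (x i ^ d) ≤ t ^ d := by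
      rw [map_pow]
      exact pow_le_pow_left₀ (apply_nonneg v _) ((le_nrm v x i).trans hnR) _
    have h3 : v (eval x (low d f i)) ≤ G * t ^ d := by
      refine (ar_low hd1 hf hR hRn (fun j => (le_nrm v x j).trans hnR) i).trans ?_
      refine mul_le_mul_of_nonneg_left ?_ (by linarith)
      calc R * t ^ (d - 1) ≤ t * t ^ (d - 1) :=
            mul_le_mul_of_nonneg_right hRn (by positivity)
        _ = t ^ d := by
            rw [← pow_succ']
            congr 1
            omega
    have h4 : t ^ d + G * t ^ d ≤ (2 * G) * t ^ d := by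
      have h5 : 0 ≤ t ^ d := by positivity
      nlinarith
    have h5 : (2 * G) ≤ (2 * G) ^ d := le_self_pow₀ (by linarith) (by omega)
    calc v (x i ^ d) + v (eval x (low d f i)) ≤ (2 * G) * t ^ d := by linarith
      _ ≤ (2 * G) ^ d * t ^ d := mul_le_mul_of_nonneg_right h5 (by positivity)
      _ = (2 * G * t) ^ d := (mul_pow _ _ _).symm

end Pool.Agent.DLN
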