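import Pool.Agent.Lib_helper31.DLN.Hyp

/-!
# Orbits in a hypersurface: a uniform bound (project DLN)
-/

set_option autoImplicit false
set_option linter.unusedVariables false

open Finset MvPolynomial

namespace Pool.Agent.DLN

universe u

theorem DG.eq_sum {N : ℕ} {F : Type*} [Field F] {n : ℕ} {p : MvPolynomial (Fin N) F}
    (h : DG n p) : p = ∑ α : Gam N n, monomial (α : Fin N →₀ ℕ) (coeff (α : Fin N →₀ ℕ) p) := by
  classical
  have h1 : p = ∑ α ∈ Gam N n, monomial α (coeff α p) := by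
    conv_lhs => rw [← support_sum_monomial_coeff p]
    refine sum_subset (fun α hα => ?_) fun α _ hα => ?_
    · rw [mem_Gam]
      exact h α (mem_support_iff.mp hα)
    · rw [notMem_support_iff.mp hα, monomial_zero]
  conv_lhs => rw [h1]
  rw [← sum_coe_sort (Gam N n)]

/-- the map given by polynomials over a ring -/
noncomputable def pmr {N : ℕ} {R : Type*} [CommRing R] (f : Fin N → MvPolynomial (Fin N) R)
    (x : Fin N → R) : Fin N → R := fun i => eval x (f i)

theorem eval_hom {N : ℕ} {R S : Type*} [CommRing R] [CommRing S] (θ : R →+* S)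
    (p : MvPolynomial (Fin N) R) (x : Fin N → R) :
    θ (eval x p) = eval (fun i => θ (x i)) (MvPolynomial.map θ p) := by
  rw [eval_map]
  exact MvPolynomial.eval₂_comp_left θ (RingHom.id R) x p

theorem pmr_hom {N : ℕ} {R S : Type*} [CommRing R] [CommRing S] (θ : R →+* S)
    (f : Fin N → MvPolynomial (Fin N) R) (j : ℕ) (x : Fin N → R) :
    (fun i => θ ((pmr f)^[j] x i)) =
      (pmr fun i => MvPolynomial.map θ (f i))^[j] (fun i => θ (x i)) := by
  induction j generalizing x with
  | zero => rfl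
  | succ j ih =>
    rw [Function.iterate_succ_apply, Function.iterate_succ_apply, ih]
    congr 1
    funext i
    exact eval_hom θ (f i) x

/-- **Uniform bound.** If the first `k0` points of an orbit lie in a hypersurface of degree at most
`m`, then so do all of them. -/
theorem orbit_noeth (N d m : ℕ) : ∃ k0 : ℕ, ∀ (F : Type u) [Field F]
    (f : Fin N → MvPolynomial (Fin N) F), (∀ i, DG d (f i)) → ∀ H : MvPolynomial (Fin N) F,
    DG m H → ∀ x : Fin N → F, (∀ j ≤ k0, eval ((pm f)^[j] x) H = 0) →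
      ∀ j, eval ((pm f)^[j] x) H = 0 := by
  classical
  let σ : Type := (Fin N × Gam N d) ⊕ (Gam N m ⊕ Fin N)
  let fA : Fin N → MvPolynomial (Fin N) (MvPolynomial σ ℤ) := fun i =>
    ∑ α : Gam N d, monomial (α : Fin N →₀ ℕ) (X (Sum.inl (i, α)))
  let HA : MvPolynomial (Fin N) (MvPolynomial σ ℤ) :=
    ∑ α : Gam N m, monomial (α : Fin N →₀ ℕ) (X (Sum.inr (Sum.inl α)))
  let xA : Fin N → MvPolynomial σ ℤ := fun i => X (Sum.inr (Sum.inr i))
  let Fj : ℕ → MvPolynomial σ ℤ := fun j => eval ((pmr fA)^[j] xA) HA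
  let I : ℕ →o Ideal (MvPolynomial σ ℤ) :=
    ⟨fun j => Ideal.span (Fj '' {i | i ≤ j}), fun a b hab =>
      Ideal.span_mono (Set.image_mono fun i hi => le_trans hi hab)⟩
  have : Finite σ := by
    show Finite ((Fin N × Gam N d) ⊕ (Gam N m ⊕ Fin N))
    infer_instance
  obtain ⟨k0, hk0⟩ := monotone_stabilizes_iff_noetherian.mpr
    (inferInstance : IsNoetherian (MvPolynomial σ ℤ) (MvPolynomial σ ℤ)) I
  refine ⟨k0, ?_⟩
  intro F _ f hf H hH x h0 j
  let θ : MvPolynomial σ ℤ →+* F := eval₂Hom (Int.castRingHom F)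
    (Sum.elim (fun p => coeff (p.2 : Fin N →₀ ℕ) (f p.1))
      (Sum.elim (fun α => coeff (α : Fin N →₀ ℕ) H) x))
  have hθf : ∀ i, MvPolynomial.map θ (fA i) = f i := by
    intro i
    rw [(hf i).eq_sum]
    show MvPolynomial.map θ (∑ α : Gam N d, monomial (α : Fin N →₀ ℕ) (X (Sum.inl (i, α)))) = _
    rw [map_sum]
    refine sum_congr rfl fun α _ => ?_
    rw [map_monomial]
    congr 1
    show eval₂ _ _ _ = _
    rw [eval₂_X]
    rfl
  have hθH : MvPolynomial.map θ HA = H := by
    rw [hH.eq_sum]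
    show MvPolynomial.map θ (∑ α : Gam N m, monomial (α : Fin N →₀ ℕ)
      (X (Sum.inr (Sum.inl α)))) = _
    rw [map_sum]
    refine sum_congr rfl fun α _ => ?_
    rw [map_monomial]
    congr 1
    show eval₂ _ _ _ = _
    rw [eval₂_X]
    rfl
  have hθx : (fun i => θ (xA i)) = x := by
    funext i
    show eval₂ _ _ (X _) = _
    rw [eval₂_X]
    rfl
  have hθF : ∀ j, θ (Fj j) = eval ((pm f)^[j] x) H := by
    intro j
    show θ (eval ((pmr fA)^[j] xA) HA) = _
    rw [eval_hom, hθH, pmr_hom, hθx]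
    have e : (fun i => MvPolynomial.map θ (fA i)) = f := funext hθf
    rw [e]
    rfl
  have hker : I k0 ≤ RingHom.ker θ := by
    show Ideal.span (Fj '' {i | i ≤ k0}) ≤ _
    rw [Ideal.span_le]
    rintro _ ⟨i, hi, rfl⟩
    show Fj i ∈ RingHom.ker θ
    rw [RingHom.mem_ker, hθF]
    exact h0 i hi
  rw [← hθF]
  have h1 : Fj j ∈ I (max j k0) := by
    show Fj j ∈ Ideal.span (Fj '' {i | i ≤ max j k0})
    refine Ideal.subset_span ⟨j, ?_, rfl⟩
    show j ≤ max j k0
    exact le_max_left _ _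
  rw [← hk0 (max j k0) (le_max_right _ _)] at h1
  exact hker h1

/-- the orbit is Zariski dense in affine space -/
def Dense {N : ℕ} {K : Type*} [Field K] (f : Fin N → MvPolynomial (Fin N) K) (x : Fin N → K) :
    Prop :=
  ∀ H : MvPolynomial (Fin N) K, (∀ j, eval ((pm f)^[j] x) H = 0) → H = 0

end Pool.Agent.DLN
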