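import Pool.Agent.Lib_helper31.DLN.Glob
import Pool.Agent.Lib_helper31.DLN.Heavy1

/-!
# The determinant at the heavy place: logarithmic form (project DLN)
-/

set_option autoImplicit false

open Finset MvPolynomial

namespace Pool.Agent.DLN

theorem cc_mono (N : ℕ) {m n : ℕ} (h : m ≤ n) : cc N m ≤ cc N n :=
  Nat.choose_le_choose N (Nat.add_le_add_right h N)

theorem cc_le_pow (N n : ℕ) : cc N n ≤ (n + 1) ^ N := by
  induction N generalizing n with
  | zero => simp [cc]
  | succ N ih =>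
    have h1 := sum_cc N (n + 1)
    have h2 : cc (N + 1) n = (n + 1 + N).choose (N + 1) := by
      unfold cc
      congr 1
      omega
    rw [h2, ← h1]
    calc ∑ k ∈ range (n + 1), cc N k ≤ ∑ _k ∈ range (n + 1), (n + 1) ^ N := by
          refine sum_le_sum fun k hk => (cc_mono N ?_).trans (ih n)
          have := mem_range.mp hk
          omega
      _ = (n + 1) ^ (N + 1) := by
          rw [sum_const, card_range, smul_eq_mul, pow_succ]
          ring

theorem cc_two_mul (N m : ℕ) : cc N (2 * m) ≤ 2 ^ N * cc N m := by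
  have h1 : ∀ k, (2 * m + 1).ascFactorial k ≤ 2 ^ k * (m + 1).ascFactorial k := by
    intro k
    induction k with
    | zero => simp
    | succ k ih =>
      rw [Nat.ascFactorial_succ, Nat.ascFactorial_succ]
      calc (2 * m + 1 + k) * (2 * m + 1).ascFactorial k ≤
            (2 * (m + 1 + k)) * (2 ^ k * (m + 1).ascFactorial k) :=
            Nat.mul_le_mul (by omega) ih
        _ = 2 ^ (k + 1) * ((m + 1 + k) * (m + 1).ascFactorial k) := by
            rw [pow_succ]
            ring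
  have h2 := h1 N
  rw [Nat.ascFactorial_eq_factorial_mul_choose, Nat.ascFactorial_eq_factorial_mul_choose] at h2
  unfold cc
  have h3 : N.factorial * (2 * m + N).choose N ≤ N.factorial * (2 ^ N * (m + N).choose N) := by
    calc _ ≤ _ := h2
      _ = _ := by ring
  exact Nat.le_of_mul_le_mul_left h3 (Nat.factorial_pos N)

theorem cc_ratio (N : ℕ) {d : ℕ} (hd : 1 ≤ d) (K : ℕ) :
    cc N (d * K + K) ≤ 2 ^ N * cc N (d * K) := by
  refine (cc_mono N ?_).trans (cc_two_mul N (d * K))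
  have h : 1 * K ≤ d * K := Nat.mul_le_mul_right K hd
  omega

/-- the gain per row -/
noncomputable def dlt (N d : ℕ) : ℝ := ((d : ℝ) - 1) / ((N + 1) * (d : ℝ) ^ N)

theorem dlt_pos (N : ℕ) {d : ℕ} (hd : 2 ≤ d) : 0 < dlt N d := by
  have h : (2 : ℝ) ≤ d := by exact_mod_cast hd
  unfold dlt
  have h1 : (0 : ℝ) < d - 1 := by linarith
  positivity

theorem dlt_le_one (N : ℕ) {d : ℕ} (hN : 1 ≤ N) (hd : 2 ≤ d) : dlt N d ≤ 1 := by
  have h : (2 : ℝ) ≤ d := by exact_mod_cast hd
  unfold dlt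
  rw [div_le_one (by positivity)]
  have h1 : (d : ℝ) ≤ (d : ℝ) ^ N := le_self_pow₀ (by linarith) (by omega)
  have h2 : (0 : ℝ) ≤ N := Nat.cast_nonneg N
  nlinarith [pow_nonneg (by linarith : (0 : ℝ) ≤ d) N]

theorem exp_third : Real.exp (1 / 3) ≤ 3 / 2 := by
  have h1 : Real.exp (1 / 3) ^ 3 = Real.exp 1 := by
    rw [← Real.exp_nat_mul]
    norm_num
  have h2 := Real.exp_one_lt_d9
  by_contra hc
  rw [not_le] at hc
  have h3 : (3 / 2 : ℝ) ^ 3 < Real.exp (1 / 3) ^ 3 := pow_lt_pow_left₀ hc (by norm_num) (by norm_num)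
  rw [h1] at h3
  norm_num at h3 h2
  linarith

theorem q_pow {n : ℕ} (hn : 1 ≤ n) : (1 + 1 / (3 * (n : ℝ))) ^ n ≤ 3 / 2 := by
  have hn0 : (0 : ℝ) < n := by exact_mod_cast hn
  refine le_trans ?_ exp_third
  have h1 : 1 + 1 / (3 * (n : ℝ)) ≤ Real.exp (1 / (3 * n)) := by
    have := Real.add_one_le_exp (1 / (3 * (n : ℝ)))
    linarith
  refine (pow_le_pow_left₀ (by positivity) h1 n).trans (le_of_eq ?_)
  rw [← Real.exp_nat_mul]
  congr 1
  field_simp

variable {N : ℕ} {F : Type*} [Field F]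

/-- the size conditions hold at a large radius -/
theorem siz_of_rad {w : AbsoluteValue F ℝ} {d : ℕ} (hd : 2 ≤ d)
    {f : Fin N → MvPolynomial (Fin N) F} (hf : Mon d f) {R S : ℝ} (hR : RadLe w d f R)
    (hRS : R ≤ S) {n : ℕ} (hn : 1 ≤ n) {c : Fin N → F} (hc : ∀ i, w (c i) ≤ S) :
    Siz w (3 * n * GG N d * S) (1 + 1 / (3 * (n : ℝ))) n d f c := by
  have hn1 : (1 : ℝ) ≤ n := by exact_mod_cast hn
  have hR1 := hR.1
  have hS1 : 1 ≤ S := hR1.trans hRS
  set G : ℝ := (cc N (d - 1) : ℝ) with hG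
  have hG1 : 1 ≤ G := by
    rw [hG]
    exact_mod_cast one_le_cc N (d - 1)
  have hGG : GG N d = 2 * G := rfl
  set r : ℝ := 3 * n * GG N d * S with hr
  have hr2 : r = 6 * n * G * S := by rw [hr, hGG]; ring
  have hnG : 1 ≤ (n : ℝ) * G := by nlinarith
  have hnGS : S ≤ n * G * S := by nlinarith
  have hr1 : 1 ≤ r := by
    rw [hr2]
    nlinarith
  have hGR : G * R ≤ r / (6 * n) := by
    rw [le_div_iff₀ (by positivity), hr2]
    have : G * R ≤ G * S := mul_le_mul_of_nonneg_left hRS (by linarith)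
    nlinarith
  have hSr : S ≤ r / (6 * n) := by
    rw [le_div_iff₀ (by positivity), hr2]
    have : S ≤ G * S := le_mul_of_one_le_left (by linarith) hG1
    nlinarith
  have hRr : R ≤ r := by
    have h1 : R ≤ G * R := le_mul_of_one_le_left (by linarith) hG1
    have h2 : r / (6 * n) ≤ r := div_le_self (by linarith) (by linarith)
    linarith
  have hkey : ∀ r', r ≤ r' → ∀ i, N1 w r' (f i) ≤ (1 + 1 / (6 * (n : ℝ))) * r' ^ d := by
    intro r' hr' i
    have hr'0 : 0 ≤ r' := by linarith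
    refine (N1_le_of_rad (by omega) hf hR (hRr.trans hr') i).trans ?_
    have h1 : (cc N (d - 1) : ℝ) * (R * r' ^ (d - 1)) ≤ 1 / (6 * (n : ℝ)) * r' ^ d := by
      have h2 : G * R ≤ r' / (6 * n) := hGR.trans (div_le_div_of_nonneg_right hr' (by positivity))
      have e1 : r' ^ d = r' * r' ^ (d - 1) := by
        rw [← pow_succ']
        congr 1
        omega
      rw [e1, ← hG]
      calc G * (R * r' ^ (d - 1)) = G * R * r' ^ (d - 1) := by ring
        _ ≤ r' / (6 * n) * r' ^ (d - 1) := mul_le_mul_of_nonneg_right h2 (by positivity)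
        _ = _ := by ring
    linarith
  have hq6 : 1 / (6 * (n : ℝ)) + 1 / (6 * n) = 1 / (3 * n) := by
    field_simp
    norm_num
  have hpos : 0 < 1 / (6 * (n : ℝ)) := by positivity
  refine ⟨hr1, by linarith, q_pow hn, fun r' hr' i => ?_, fun i => ?_, fun i => ?_⟩
  · refine (hkey r' hr' i).trans (mul_le_mul_of_nonneg_right ?_ ?_)
    · linarith
    · exact pow_nonneg (by linarith) _
  · refine (N1_sub_le (by linarith) _ _).trans ?_
    rw [N1_C]
    have h1 := hkey r le_rfl i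
    have h2 : w (c i) ≤ 1 / (6 * (n : ℝ)) * r ^ d := by
      refine (hc i).trans (hSr.trans ?_)
      have h3 : r ≤ r ^ d := le_self_pow₀ hr1 (by omega)
      calc r / (6 * n) = 1 / (6 * (n : ℝ)) * r := by ring
        _ ≤ 1 / (6 * (n : ℝ)) * r ^ d := mul_le_mul_of_nonneg_left h3 hpos.le
    have h3 : (1 + 1 / (3 * (n : ℝ))) * r ^ d =
        (1 + 1 / (6 * (n : ℝ))) * r ^ d + 1 / (6 * (n : ℝ)) * r ^ d := by
      rw [← hq6]
      ring
    linarith
  · refine (hc i).trans (hSr.trans ?_)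
    have h1 : (1 + 1 / (3 * (n : ℝ)) - 1) * r = 2 * (r / (6 * n)) := by
      field_simp
      norm_num
    rw [h1]
    have : 0 ≤ r / (6 * n) := by positivity
    linarith

/-- a point whose image is small is small -/
theorem small_of_image {w : AbsoluteValue F ℝ} {d : ℕ} (hd : 2 ≤ d)
    {f : Fin N → MvPolynomial (Fin N) F} (hf : Mon d f) {R S : ℝ} (hR : RadLe w d f R)
    (hRS : R ≤ S) {z : Fin N → F} (hz : ∀ i, w (eval z (f i)) ≤ S) (i : Fin N) :
    w (z i) ≤ GG N d * S := by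
  have hR1 := hR.1
  have hS1 : 1 ≤ S := hR1.trans hRS
  have hG1 := one_le_GG N d
  refine (le_nrm w z i).trans ?_
  by_contra hc
  rw [not_le] at hc
  have hL := Loc.ar hd hf hR
  have hB : 2 * (cc N (d - 1) : ℝ) * R = GG N d * R := rfl
  rw [hB] at hL
  have h1 : GG N d * R ≤ GG N d * S := mul_le_mul_of_nonneg_left hRS (by linarith)
  have h2 := hL.lo z (h1.trans_lt hc)
  have h3 : nrm w (pm f z) ≤ S := nrm_le hS1 hz
  have h4 : (GG N d * R) ^ (d - 1) * nrm w (pm f z) ≤ (GG N d * S) ^ (d - 1) * (GG N d * S) := by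
    refine mul_le_mul (pow_le_pow_left₀ (by positivity) h1 _) (h3.trans ?_)
      (zero_le_one.trans (one_le_nrm _ _)) (by positivity)
    exact le_mul_of_one_le_left (by linarith) hG1
  have e1 : (GG N d * S) ^ (d - 1) * (GG N d * S) = (GG N d * S) ^ d := by
    rw [← pow_succ]
    congr 1
    omega
  rw [e1] at h4
  have h5 : (GG N d * S) ^ d < nrm w z ^ d :=
    pow_lt_pow_left₀ hc (by positivity) (by omega)
  linarith

theorem Esc.mono {w : AbsoluteValue F ℝ} {d : ℕ} {f : Fin N → MvPolynomial (Fin N) F} {J : ℕ}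
    {B B' g : ℝ} {x : Fin N → F} (h : Esc w d f J B g x) (hB : B ≤ B') : Esc w d f J B' g x :=
  fun j hj i => (h j hj i).trans (mul_le_mul_of_nonneg_right hB (Real.exp_pos _).le)

theorem log_factorial_le (M : ℕ) : Real.log (M.factorial : ℝ) ≤ M * Real.log M := by
  rcases Nat.eq_zero_or_pos M with rfl | hM
  · simp
  · have h1 : (M.factorial : ℝ) ≤ (M : ℝ) ^ M := by exact_mod_cast Nat.factorial_le_pow M
    have h2 := Real.log_le_log (by exact_mod_cast M.factorial_pos) h1
    rwa [Real.log_pow] at h2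

/-- **The determinant at the heavy place**, logarithmic form. -/
theorem heavy_log {w : AbsoluteValue F ℝ} {d : ℕ} (hd : 2 ≤ d)
    {f : Fin N → MvPolynomial (Fin N) F} (hf : Mon d f) {L t : ℝ} (hL : 0 ≤ L) (ht : 0 ≤ t)
    (hR : RadLe w d f (Real.exp L)) {z : Fin N → F}
    (hz : ∀ i, w (eval z (f i)) ≤ Real.exp ((1 + t) * L)) (i0 : Fin N)
    {K J : ℕ} (hK : 1 ≤ K) (hJ : d * K + K < d ^ (J + 1))
    (P : Gam N (d * K) → Fin N → F) (g : Gam N (d * K) → ℝ) (hg0 : ∀ b, 0 ≤ g b)
    (hE : ∀ b, Esc w d f (J + 1) (GG N d * Real.exp L) (g b) (P b))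
    (hP : ∀ b, Real.exp ((1 - t) * L) ≤ w (P b i0 - z i0))
    (hdet : (Matrix.of fun (b : Gam N (d * K)) (γ : Gam N (d * K)) =>
        eval (P b) (dig d f (J + 1) γ)).det ≠ 0) :
    Real.log (w (Matrix.of fun (b : Gam N (d * K)) (γ : Gam N (d * K)) =>
        eval (P b) (dig d f (J + 1) γ)).det) ≤
      ((1 + t) * L + Real.log (3 * ((d * K + K : ℕ) : ℝ) * GG N d)) *
        (EE N d K + K * cc N (d * K) + N * (d - 1) * (J + 1) * cc N (d * K)) -
        (1 - t) * L * (K * cc N (d * K)) +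
        (2 ^ (N + 1) + 3 * Real.log (cc N (d * K)) + 3) * cc N (d * K) * 2 +
        ((d * K + K : ℕ) : ℝ) * ∑ b, g b := by
  set n := d * K + K with hn
  set M := cc N (d * K) with hM
  set D := (Matrix.of fun (b : Gam N (d * K)) (γ : Gam N (d * K)) =>
        eval (P b) (dig d f (J + 1) γ)).det with hD
  have hn1 : 1 ≤ n := by omega
  have hn1' : (1 : ℝ) ≤ n := by exact_mod_cast hn1
  have hG1 := one_le_GG N d
  have hRS : Real.exp L ≤ Real.exp ((1 + t) * L) := Real.exp_le_exp.mpr (by nlinarith)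
  have hS := siz_of_rad hd hf hR hRS hn1 hz
  set S : ℝ := Real.exp ((1 + t) * L) with hSdef
  have hS0 : 0 < S := Real.exp_pos _
  have hpos : 0 < 3 * (n : ℝ) * GG N d := by positivity
  set L' : ℝ := (1 + t) * L + Real.log (3 * (n : ℝ) * GG N d) with hL'
  have e0 : Real.exp L' = 3 * n * GG N d * S := by
    rw [hL', Real.exp_add, Real.exp_log hpos, hSdef]
    ring
  rw [← e0] at hS
  have hL'0 : 0 ≤ L' := by
    exact Real.one_le_exp_iff.mp hS.hr
  have hz0 : w (z i0) ≤ (1 + 1 / (3 * (n : ℝ)) - 1) * Real.exp L' := by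
    rw [e0]
    refine (small_of_image hd hf hR hRS hz i0).trans (le_of_eq ?_)
    field_simp
    ring
  have hB : GG N d * Real.exp L ≤ Real.exp L' := by
    rw [e0]
    have h1 : GG N d * Real.exp L ≤ GG N d * S := mul_le_mul_of_nonneg_left hRS (by linarith)
    have h2 : 0 ≤ GG N d * S := by positivity
    nlinarith
  have h1 := heavy1 hL'0 hd hf hS i0 hz0 hJ P g hg0 (fun b => (hE b).mono hB) hP
  rw [← hM, ← hD] at h1
  have hw0 : 0 < w D := w.pos hdet
  have h2 := Real.log_le_log (by positivity) h1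
  have hM0 : (0 : ℝ) < (M.factorial : ℝ) := by exact_mod_cast M.factorial_pos
  rw [Real.log_mul (Real.exp_pos _).ne' hw0.ne', Real.log_exp,
    Real.log_mul (by positivity) (by positivity), Real.log_mul (by positivity) (Real.exp_pos _).ne',
    Real.log_mul (by positivity) (by positivity), Real.log_exp, Real.log_pow, Real.log_pow,
    Real.log_pow] at h2
  have h3 := log_factorial_le M
  have h4 : Real.log 4 ≤ 2 := by
    have : Real.log 4 = 2 * Real.log 2 := by
      rw [← Real.log_rpow (by norm_num)]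
      norm_num
    rw [this]
    linarith [Real.log_two_lt_d9]
  have h9 : Real.log 9 ≤ 6 := by
    have h10 : Real.log 9 ≤ Real.log 64 := Real.log_le_log (by norm_num) (by norm_num)
    have : Real.log 64 = 6 * Real.log 2 := by
      rw [← Real.log_rpow (by norm_num)]
      norm_num
    linarith [Real.log_two_lt_d9]
  have h5 : (cc N n : ℝ) ≤ 2 ^ N * M := by exact_mod_cast cc_ratio N (by omega) K
  have hM1 : (1 : ℝ) ≤ M := by exact_mod_cast one_le_cc N (d * K)
  have hlogM : 0 ≤ Real.log M := Real.log_nonneg hM1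
  have h6 : (cc N n : ℝ) * Real.log 4 ≤ 2 ^ N * M * 2 :=
    mul_le_mul h5 h4 (Real.log_nonneg (by norm_num)) (by positivity)
  have h7 : (M : ℝ) * Real.log 9 ≤ M * 6 := mul_le_mul_of_nonneg_left h9 (by linarith)
  have h8 : (2 : ℝ) ^ (N + 1) = 2 * 2 ^ N := by rw [pow_succ]; ring
  have hMl : 0 ≤ (M : ℝ) * Real.log M := by positivity
  have h2N : 0 ≤ (2 : ℝ) ^ N * M := by positivity
  have e3 : ((3 : ℕ) : ℝ) = 3 := by norm_num
  rw [← hn, e3] at h2
  rw [h8]
  nlinarith

end Pool.Agent.DLN
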