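import Pool.Agent.Lib_helper31.DLN.Core

/-!
# The gain at a heavy place (project DLN)
-/

set_option autoImplicit false
set_option linter.unusedVariables false

open Finset MvPolynomial NumberField

namespace Pool.Agent.DLN

variable {N : ℕ} {F : Type*} [Field F]

theorem GB.of_rad {w : AbsoluteValue F ℝ} {d : ℕ} {f : Fin N → MvPolynomial (Fin N) F}
    (hf : Mon d f) {R R' : ℝ} (hR : RadLe w d f R) (hRR : R ≤ R') (i : Fin N) :
    GB w R' (R' ^ d) (f i) := by
  intro α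
  have hR1 := hR.1
  have hR'0 : 0 ≤ R' := by linarith
  rcases lt_or_ge α.degree d with h | h
  · calc w (coeff α (f i)) * R' ^ α.degree ≤ R ^ (d - α.degree) * R' ^ α.degree :=
          mul_le_mul_of_nonneg_right (hR.2 i α h) (by positivity)
      _ ≤ R' ^ (d - α.degree) * R' ^ α.degree := by gcongr
      _ = R' ^ d := by rw [← pow_add, Nat.sub_add_cancel h.le]
  · by_cases hα : α = Finsupp.single i d
    · have h1 : coeff α (low d f i) = 0 := by
        by_contra hne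
        have := hf.low i α hne
        omega
      have h2 : coeff α (f i) = 1 := by
        unfold low at h1
        rw [coeff_sub, hα, coeff_monomial, if_pos rfl, sub_eq_zero] at h1
        rw [hα, h1]
      rw [h2, map_one, one_mul, hα, Finsupp.degree_single]
    · have h1 : coeff α (f i) = 0 := by
        by_contra hne
        have h2 : coeff α (low d f i) ≠ 0 := by
          classical
          unfold low
          rw [coeff_sub, coeff_monomial, if_neg (Ne.symm hα), sub_zero]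
          exact hne
        have := hf.low i α h2
        omega
      rw [h1, map_zero, zero_mul]
      positivity

theorem na_small {w : AbsoluteValue F ℝ} (hw : IsNonarchimedean w) {d : ℕ} (hd : 1 ≤ d)
    {f : Fin N → MvPolynomial (Fin N) F} (hf : Mon d f) {R S : ℝ} (hR : RadLe w d f R)
    (hRS : R ≤ S) {z : Fin N → F} (hz : ∀ i, w (eval z (f i)) ≤ S) (i : Fin N) :
    w (z i) ≤ S := by
  have hR1 := hR.1
  refine (le_nrm w z i).trans ?_
  by_contra hc
  rw [not_le] at hc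
  have h2 := (Loc.na hw hd hf hR).lo z (hRS.trans_lt hc)
  have h3 : nrm w (pm f z) ≤ S := nrm_le (hR1.trans hRS) hz
  have h4 : R ^ (d - 1) * nrm w (pm f z) ≤ S ^ (d - 1) * S :=
    mul_le_mul (pow_le_pow_left₀ (by linarith) hRS _) h3
      (zero_le_one.trans (one_le_nrm _ _)) (pow_nonneg (by linarith) _)
  have e1 : S ^ (d - 1) * S = S ^ d := by
    rw [← pow_succ]
    congr 1
    omega
  rw [e1] at h4
  have h5 : S ^ d < nrm w z ^ d := pow_lt_pow_left₀ hc (by linarith) (by omega)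
  linarith

theorem gain_real {L t δ M K a b E : ℝ} (hL : 0 ≤ L) (ht : 0 ≤ t) (htδ : t ≤ δ / 8) (hδ : δ ≤ 1)
    (hM : 0 ≤ M) (hK : 0 ≤ K) (ha : 0 ≤ a) (hb : 0 ≤ b) (hE : E ≤ a * M - δ * (K * M))
    (hab : 16 * (a + b) ≤ δ * K) :
    (1 + t) * L * (E + K * M + b * M) - (1 - t) * L * (K * M) ≤ -(5 / 8 * δ * (L * K * M)) := by
  have h1 : (1 + t) * L * (E + K * M + b * M) ≤
      (1 + t) * L * ((a + b) * M + (1 - δ) * (K * M)) := by
    refine mul_le_mul_of_nonneg_left ?_ (by positivity)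
    nlinarith
  have hLM : 0 ≤ L * M := by positivity
  have h2 : (1 + t) * (a + b) ≤ δ * K / 8 := by
    have h3 : t ≤ 1 := by linarith
    nlinarith [mul_nonneg (sub_nonneg.mpr h3) (add_nonneg ha hb)]
  have h3 : (1 + t) * (1 - δ) * K - (1 - t) * K ≤ -(3 / 4 * δ * K) := by
    have hδ0 : 0 ≤ δ := by linarith
    have : 0 ≤ t * δ * K := by positivity
    nlinarith [mul_le_mul_of_nonneg_right htδ hK]
  have h4 : (1 + t) * L * ((a + b) * M + (1 - δ) * (K * M)) - (1 - t) * L * (K * M) =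
      L * M * ((1 + t) * (a + b) + ((1 + t) * (1 - δ) * K - (1 - t) * K)) := by ring
  have h5 : L * M * ((1 + t) * (a + b) + ((1 + t) * (1 - δ) * K - (1 - t) * K)) ≤
      L * M * (-(5 / 8 * (δ * K))) := mul_le_mul_of_nonneg_left (by linarith) hLM
  have h6 : L * M * (-(5 / 8 * (δ * K))) = -(5 / 8 * δ * (L * K * M)) := by ring
  linarith

/-- the condition on the parameters -/
structure Par (N d K T : ℕ) : Prop where
  hN : 1 ≤ N
  hd : 2 ≤ d
  hT : d * K + K < d ^ T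
  hT1 : 1 ≤ T
  hK : 16 * ((2 : ℝ) ^ (N + 1) * d + N * (d - 1) * T) ≤ dlt N d * K

namespace Par

variable {d K T : ℕ} (hp : Par N d K T)

include hp

theorem K_ge : 16 * (2 : ℝ) ^ (N + 1) * 2 ≤ K := by
  have h1 : (2 : ℝ) ≤ d := by exact_mod_cast hp.hd
  have h2 := dlt_le_one N hp.hN hp.hd
  have h3 := hp.hK
  have h4 : (0 : ℝ) ≤ N * (d - 1) * T := by
    have : (0 : ℝ) ≤ (d : ℝ) - 1 := by linarith
    positivity
  have h5 : dlt N d * (K : ℝ) ≤ K := mul_le_of_le_one_left (Nat.cast_nonneg _) h2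
  have h6 : (0 : ℝ) < 2 ^ (N + 1) := by positivity
  nlinarith

theorem K_ge' : (2 : ℝ) ^ (N + 1) + 3 + 3 * N ≤ K := by
  have h1 := hp.K_ge
  have h2 : ((N : ℕ) : ℝ) ≤ 2 ^ N := by exact_mod_cast (Nat.lt_two_pow_self).le
  have h3 : (1 : ℝ) ≤ 2 ^ N := one_le_pow₀ (by norm_num)
  rw [pow_succ] at h1 ⊢
  linarith

theorem N_le : N ≤ K := by
  have h1 := hp.K_ge'
  have h3 : (0 : ℝ) ≤ 2 ^ (N + 1) := by positivity
  have h4 : (0 : ℝ) ≤ N := Nat.cast_nonneg _
  have h2 : (N : ℝ) ≤ K := by linarith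
  exact_mod_cast h2

theorem K_one : 1 ≤ K := hp.hN.trans hp.N_le

theorem EE_le' : EE N d K ≤ 2 ^ (N + 1) * d * cc N (d * K) - dlt N d * (K * cc N (d * K)) :=
  EE_le hp.hd hp.K_one hp.N_le

end Par

/-- the gain at a nonarchimedean place -/
theorem gain_na {w : AbsoluteValue F ℝ} (hw : IsNonarchimedean w) {d K T : ℕ}
    (hp : Par N d K T) {f : Fin N → MvPolynomial (Fin N) F} (hf : Mon d f) {L t : ℝ} (hL : 0 ≤ L)
    (ht : 0 ≤ t) (htδ : t ≤ dlt N d / 8) (hR : RadLe w d f (Real.exp L)) {z : Fin N → F}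
    (hz : ∀ i, w (eval z (f i)) ≤ Real.exp ((1 + t) * L)) (i0 : Fin N)
    (P : Gam N (d * K) → Fin N → F) (g : Gam N (d * K) → ℝ) (hg0 : ∀ b, 0 ≤ g b)
    (hE : ∀ b, Esc w d f T (Real.exp L) (g b) (P b))
    (hP : ∀ b, Real.exp ((1 - t) * L) ≤ w (P b i0 - z i0))
    (hdet : (dmat d f T (d * K) P).det ≠ 0) :
    Real.log (w (dmat d f T (d * K) P).det) ≤
      -(dlt N d / 4 * (L * K * cc N (d * K))) + ((d * K + K : ℕ) : ℝ) * ∑ b, g b := by
  obtain ⟨J, rfl⟩ : ∃ J, T = J + 1 := ⟨T - 1, by have := hp.hT1; omega⟩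
  have hd := hp.hd
  have hL' : 0 ≤ (1 + t) * L := by positivity
  have hLL : L ≤ (1 + t) * L := by nlinarith
  have hRS : Real.exp L ≤ Real.exp ((1 + t) * L) := Real.exp_le_exp.mpr hLL
  have h1 := heavy hw hL' hd hf (fun i => GB.of_rad hf hR hRS i) hz i0
    (na_small hw (by omega) hf hR hRS hz i0) hp.hT P g hg0 (fun b => (hE b).mono hRS) hP
  have hw0 : 0 < w (dmat d f (J + 1) (d * K) P).det := w.pos hdet
  have h2 := Real.log_le_log hw0 h1
  rw [Real.log_exp] at h2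
  refine h2.trans ?_
  have hdl := dlt_pos N hd
  have h3 := gain_real (L := L) (t := t) (δ := dlt N d) (M := cc N (d * K)) (K := K)
    (a := 2 ^ (N + 1) * d) (b := N * (d - 1) * ((J + 1 : ℕ) : ℝ)) (E := EE N d K) hL ht htδ
    (dlt_le_one N hp.hN hd) (Nat.cast_nonneg _) (Nat.cast_nonneg _) (by positivity)
    (by
      have : (0 : ℝ) ≤ (d : ℝ) - 1 := by
        have : (2 : ℝ) ≤ d := by exact_mod_cast hd
        linarith
      positivity) hp.EE_le' hp.hK
  push_cast at h3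
  have h4 : 0 ≤ dlt N d * (L * K * cc N (d * K)) := by positivity
  linarith

/-- the logarithm which appears in the error terms -/
noncomputable def lg (N d K : ℕ) : ℝ := Real.log (3 * ((d * K + K : ℕ) : ℝ) * GG N d)

theorem one_le_lg {d K : ℕ} (hK : 1 ≤ K) : 1 ≤ lg N d K := by
  unfold lg
  have h1 := one_le_GG N d
  have h2 : (1 : ℝ) ≤ ((d * K + K : ℕ) : ℝ) := by
    have : 1 ≤ d * K + K := by omega
    exact_mod_cast this
  have h3 : Real.exp 1 ≤ 3 * ((d * K + K : ℕ) : ℝ) * GG N d := by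
    have h4 := Real.exp_one_lt_d9
    have h5 : (1 : ℝ) ≤ ((d * K + K : ℕ) : ℝ) * GG N d := one_le_mul_of_one_le_of_one_le h2 h1
    have h6 : Real.exp 1 ≤ 3 := by
      norm_num at h4 ⊢
      linarith
    nlinarith
  rw [Real.le_log_iff_exp_le (by positivity)]
  exact h3

theorem log_cc_le {d K : ℕ} (hK : 1 ≤ K) : Real.log (cc N (d * K)) ≤ N * lg N d K := by
  have h1 : ((cc N (d * K) : ℕ) : ℝ) ≤ ((d * K + 1 : ℕ) : ℝ) ^ N := by
    exact_mod_cast cc_le_pow N (d * K)
  have h2 : (0 : ℝ) < cc N (d * K) := by exact_mod_cast one_le_cc N (d * K)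
  have h3 := Real.log_le_log h2 h1
  rw [Real.log_pow] at h3
  refine h3.trans (mul_le_mul_of_nonneg_left ?_ (Nat.cast_nonneg _))
  unfold lg
  have h4 : (0 : ℝ) < ((d * K + 1 : ℕ) : ℝ) := by positivity
  refine Real.log_le_log h4 ?_
  have h5 := one_le_GG N d
  have h6 : ((d * K + 1 : ℕ) : ℝ) ≤ ((d * K + K : ℕ) : ℝ) := by
    have : d * K + 1 ≤ d * K + K := by omega
    exact_mod_cast this
  nlinarith

/-- the gain at an archimedean place -/
theorem gain_ar {w : AbsoluteValue F ℝ} {d K T : ℕ}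
    (hp : Par N d K T) {f : Fin N → MvPolynomial (Fin N) F} (hf : Mon d f) {L t : ℝ} (hL : 0 ≤ L)
    (ht : 0 ≤ t) (htδ : t ≤ dlt N d / 8) (hLg : 16 * lg N d K ≤ dlt N d * L)
    (hR : RadLe w d f (Real.exp L)) {z : Fin N → F}
    (hz : ∀ i, w (eval z (f i)) ≤ Real.exp ((1 + t) * L)) (i0 : Fin N)
    (P : Gam N (d * K) → Fin N → F) (g : Gam N (d * K) → ℝ) (hg0 : ∀ b, 0 ≤ g b)
    (hE : ∀ b, Esc w d f T (GG N d * Real.exp L) (g b) (P b))
    (hP : ∀ b, Real.exp ((1 - t) * L) ≤ w (P b i0 - z i0))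
    (hdet : (dmat d f T (d * K) P).det ≠ 0) :
    Real.log (w (dmat d f T (d * K) P).det) ≤
      -(dlt N d / 4 * (L * K * cc N (d * K))) + ((d * K + K : ℕ) : ℝ) * ∑ b, g b := by
  obtain ⟨J, rfl⟩ : ∃ J, T = J + 1 := ⟨T - 1, by have := hp.hT1; omega⟩
  have hd := hp.hd
  have hK1 := hp.K_one
  have hdl := dlt_pos N hd
  have hdl1 := dlt_le_one N hp.hN hd
  have h1 := heavy_log hd hf hL ht hR hz i0 hK1 hp.hT P g hg0 hE hP hdet
  refine h1.trans ?_
  have hdm : (0 : ℝ) ≤ (d : ℝ) - 1 := by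
    have : (2 : ℝ) ≤ d := by exact_mod_cast hd
    linarith
  set M : ℝ := (cc N (d * K) : ℝ) with hM
  have hM1 : (1 : ℝ) ≤ M := by
    rw [hM]
    exact_mod_cast one_le_cc N (d * K)
  set l : ℝ := lg N d K with hl
  have hl1 : 1 ≤ l := one_le_lg hK1
  have hll : Real.log (3 * ((d * K + K : ℕ) : ℝ) * GG N d) = l := rfl
  rw [hll]
  have hT' : (((J + 1 : ℕ) : ℕ) : ℝ) = (J : ℝ) + 1 := by push_cast; ring
  set b : ℝ := N * (d - 1) * ((J + 1 : ℕ) : ℝ) with hb
  have hb0 : 0 ≤ b := by positivity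
  have hK0 : (0 : ℝ) ≤ K := Nat.cast_nonneg _
  have h3 := gain_real (L := L) (t := t) (δ := dlt N d) (M := M) (K := K)
    (a := 2 ^ (N + 1) * d) (b := b) (E := EE N d K) hL ht htδ hdl1 (by linarith) hK0
    (by positivity) hb0 hp.EE_le' hp.hK
  have h4 : EE N d K + K * M + b * M ≤ K * M := by
    have h5 := hp.EE_le'
    have h6 := hp.hK
    rw [← hM] at h5
    rw [← hb] at h6
    have h7 : (2 ^ (N + 1) * d + b) * M ≤ dlt N d * K * M :=
      mul_le_mul_of_nonneg_right (by nlinarith [mul_nonneg hdl.le hK0]) (by linarith)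
    nlinarith
  have h5 : l * (EE N d K + K * M + b * M) ≤ l * (K * M) :=
    mul_le_mul_of_nonneg_left h4 (by linarith)
  have h6 : (2 ^ (N + 1) + 3 * Real.log M + 3) ≤ l * K := by
    have h7 : Real.log M ≤ N * l := log_cc_le hK1
    have h8 := hp.K_ge'
    have h9 : (0 : ℝ) < 2 ^ (N + 1) := by positivity
    have h10 : (2 : ℝ) ^ (N + 1) + 3 ≤ l * (2 ^ (N + 1) + 3) :=
      le_mul_of_one_le_left (by positivity) hl1
    have h11 : l * ((2 : ℝ) ^ (N + 1) + 3 + 3 * N) ≤ l * K :=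
      mul_le_mul_of_nonneg_left h8 (by linarith)
    nlinarith
  have h7 : (2 ^ (N + 1) + 3 * Real.log M + 3) * M * 2 ≤ l * K * M * 2 := by
    have := mul_le_mul_of_nonneg_right h6 (by linarith : 0 ≤ M)
    linarith
  have h8 : 3 * (l * K * M) ≤ 3 / 16 * (dlt N d * (L * K * M)) := by
    have h9 : l * (K * M) ≤ dlt N d * L / 16 * (K * M) :=
      mul_le_mul_of_nonneg_right (by linarith) (by positivity)
    nlinarith
  have h9 : 0 ≤ dlt N d * (L * K * M) := by positivity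
  have e1 : ((1 + t) * L + l) * (EE N d K + K * M + N * (d - 1) * (J + 1) * M) =
      (1 + t) * L * (EE N d K + K * M + b * M) + l * (EE N d K + K * M + b * M) := by
    rw [hb]
    push_cast
    ring
  rw [e1]
  nlinarith

end Pool.Agent.DLN
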