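import Pool.Agent.Lib_helper31.DLN.Core2

/-!
# The choice of the parameters (project DLN)
-/

set_option autoImplicit false
set_option linter.unusedVariables false

open Finset MvPolynomial NumberField

namespace Pool.Agent.DLN

theorem half_le_log_two : (1 : ℝ) / 2 ≤ Real.log 2 := by
  have := Real.log_two_gt_d9
  linarith

theorem half_le_log {κ : ℝ} (hκ : 1 ≤ κ) : (1 : ℝ) / 2 ≤ Real.log (κ + 1) :=
  half_le_log_two.trans (Real.log_le_log (by norm_num) (by linarith))

theorem choose_A {a b : ℝ} (ha : 0 ≤ a) (hb : 0 < b) : ∃ A : ℝ, 1 ≤ A ∧ ∀ κ k : ℝ, 1 ≤ κ →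
    A * (κ * Real.log (κ + 1)) ≤ k → a * κ + b * κ * Real.log k ≤ k := by
  refine ⟨4 * a + 4 * b * (1 + 2 * |Real.log (4 * b)|) + 1, ?_, ?_⟩
  · have := abs_nonneg (Real.log (4 * b))
    have : 0 ≤ 4 * b * (1 + 2 * |Real.log (4 * b)|) := by positivity
    linarith
  intro κ k hκ hk
  have hκ0 : 0 < κ := by linarith
  have hl := half_le_log hκ
  set l : ℝ := Real.log (κ + 1) with hl'
  have hq : 0 ≤ |Real.log (4 * b)| := abs_nonneg _
  have hκl : 0 < κ * l := by positivity
  have h1 : 4 * a * (κ * l) + 4 * b * (1 + 2 * |Real.log (4 * b)|) * (κ * l) + κ * l ≤ k := by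
    linarith
  have hk0 : 0 < k := by
    have : 0 ≤ 4 * a * (κ * l) := by positivity
    have : 0 ≤ 4 * b * (1 + 2 * |Real.log (4 * b)|) * (κ * l) := by positivity
    linarith
  have h2 : a * κ ≤ 2 * a * (κ * l) := by
    have : 0 ≤ a * κ * (2 * l - 1) := mul_nonneg (by positivity) (by linarith)
    linarith
  have h3 : Real.log k ≤ k / (4 * b * κ) + Real.log (4 * b * κ) := by
    have e : k = k / (4 * b * κ) * (4 * b * κ) := by field_simp
    have h4 := Real.log_le_sub_one_of_pos (show 0 < k / (4 * b * κ) by positivity)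
    conv_lhs => rw [e]
    rw [Real.log_mul (by positivity) (by positivity)]
    linarith
  have h4 : Real.log (4 * b * κ) ≤ (1 + 2 * |Real.log (4 * b)|) * l := by
    rw [Real.log_mul (by positivity) (by positivity)]
    have h5 : Real.log κ ≤ l := Real.log_le_log hκ0 (by linarith)
    have h6 : Real.log (4 * b) ≤ |Real.log (4 * b)| := le_abs_self _
    have h7 : |Real.log (4 * b)| ≤ 2 * |Real.log (4 * b)| * l := by
      have : 0 ≤ |Real.log (4 * b)| * (2 * l - 1) := mul_nonneg hq (by linarith)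
      linarith
    linarith
  have h5 : b * κ * Real.log k ≤ k / 4 + b * κ * ((1 + 2 * |Real.log (4 * b)|) * l) := by
    calc b * κ * Real.log k ≤ b * κ * (k / (4 * b * κ) + (1 + 2 * |Real.log (4 * b)|) * l) :=
          mul_le_mul_of_nonneg_left (by linarith) (by positivity)
      _ = _ := by field_simp
  have h6 : b * κ * ((1 + 2 * |Real.log (4 * b)|) * l) =
      1 / 4 * (4 * b * (1 + 2 * |Real.log (4 * b)|) * (κ * l)) := by ring
  have h7 : 0 ≤ 4 * b * (1 + 2 * |Real.log (4 * b)|) * (κ * l) := by positivity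
  have h8 : 0 ≤ a * (κ * l) := by positivity
  linarith

theorem natLog_le {d n : ℕ} (hd : 2 ≤ d) (hn : 1 ≤ n) : (Nat.log d n : ℝ) ≤ 2 * Real.log n := by
  have h1 : ((d : ℝ)) ^ Nat.log d n ≤ n := by exact_mod_cast Nat.pow_log_le_self d (by omega)
  have hd2 : (2 : ℝ) ≤ d := by exact_mod_cast hd
  have h2 := Real.log_le_log (by positivity) h1
  rw [Real.log_pow] at h2
  have h3 : (1 : ℝ) / 2 ≤ Real.log d := half_le_log_two.trans (Real.log_le_log (by norm_num) hd2)
  have h4 : (0 : ℝ) ≤ (Nat.log d n : ℝ) := Nat.cast_nonneg _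
  nlinarith

theorem par_exists (N d : ℕ) (hN : 1 ≤ N) (hd : 2 ≤ d) : ∃ A C : ℝ, 1 ≤ A ∧ 1 ≤ C ∧
    ∀ κ : ℝ, 1 ≤ κ → ∃ k T : ℕ, Par N d k T ∧ 8 * κ * (N * (d - 1) * T) ≤ dlt N d * k ∧
      (k : ℝ) ≤ A * (κ * Real.log (κ + 1)) ∧ lg N d k ≤ C * Real.log (κ + 1) := by
  have hdl := dlt_pos N hd
  have hd2 : (2 : ℝ) ≤ d := by exact_mod_cast hd
  have hN1 : (1 : ℝ) ≤ N := by exact_mod_cast hN
  have hld : 0 ≤ Real.log ((d : ℝ) + 1) := Real.log_nonneg (by linarith)
  have hG1 := one_le_GG N d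
  set a : ℝ := 16 / dlt N d * (2 ^ (N + 1) * d + N * d * (1 + 2 * Real.log (d + 1))) with ha
  set b : ℝ := 16 / dlt N d * (2 * (N * d)) with hb
  have ha0 : 0 ≤ a := by positivity
  have hb0 : 0 < b := by positivity
  obtain ⟨A, hA1, hA⟩ := choose_A ha0 hb0
  have hlG : 0 ≤ Real.log (3 * (d + 1) * GG N d) := Real.log_nonneg (by nlinarith)
  have hlA : 0 ≤ Real.log (A + 2) := Real.log_nonneg (by linarith)
  refine ⟨A + 2, 2 * (Real.log (3 * (d + 1) * GG N d) + Real.log (A + 2)) + 2, by linarith,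
    by linarith, ?_⟩
  intro κ hκ
  have hκ0 : 0 < κ := by linarith
  have hl := half_le_log hκ
  set l : ℝ := Real.log (κ + 1) with hl'
  have hκl : 1 / 2 ≤ κ * l := by nlinarith
  set k : ℕ := ⌈A * (κ * l)⌉₊ with hk
  have hk1 : A * (κ * l) ≤ k := Nat.le_ceil _
  have hk2 : (k : ℝ) ≤ (A + 2) * (κ * l) := by
    have := Nat.ceil_lt_add_one (show 0 ≤ A * (κ * l) by positivity)
    rw [← hk] at this
    linarith
  have hk0 : (0 : ℝ) < k := by
    have : 0 < A * (κ * l) := by positivity
    linarith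
  have hkn : 1 ≤ k := by exact_mod_cast hk0
  set T : ℕ := Nat.log d (d * k + k) + 1 with hT
  have hn1 : 1 ≤ d * k + k := by omega
  have hTle : (T : ℝ) ≤ 1 + 2 * Real.log (d + 1) + 2 * Real.log k := by
    have h1 := natLog_le hd hn1
    have h2 : Real.log ((d * k + k : ℕ) : ℝ) = Real.log (d + 1) + Real.log k := by
      rw [← Real.log_mul (by positivity) (by positivity)]
      congr 1
      push_cast
      ring
    rw [h2] at h1
    rw [hT]
    push_cast
    linarith
  have hmain := hA κ k hκ hk1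
  have hT0 : (0 : ℝ) ≤ T := Nat.cast_nonneg _
  have hkey : 16 * κ * (2 ^ (N + 1) * d + N * d * T) ≤ dlt N d * k := by
    have h1 : 16 * κ * (2 ^ (N + 1) * d + N * d * T) ≤
        16 * κ * (2 ^ (N + 1) * d + N * d * (1 + 2 * Real.log (d + 1) + 2 * Real.log k)) := by
      gcongr
    have h2 : 16 * κ * (2 ^ (N + 1) * d + N * d * (1 + 2 * Real.log (d + 1) + 2 * Real.log k)) =
        dlt N d * (a * κ + b * κ * Real.log k) := by
      rw [ha, hb]
      field_simp
      ring
    rw [h2] at h1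
    exact h1.trans (mul_le_mul_of_nonneg_left hmain hdl.le)
  have hdm : (0 : ℝ) ≤ (d : ℝ) - 1 := by linarith
  have hNd : (N : ℝ) * (d - 1) * T ≤ N * d * T := by
    have : (N : ℝ) * (d - 1) ≤ N * d := by nlinarith
    exact mul_le_mul_of_nonneg_right this hT0
  have h2N : (0 : ℝ) < 2 ^ (N + 1) * d := by positivity
  have hNdT : (0 : ℝ) ≤ N * d * T := by positivity
  refine ⟨k, T, ⟨hN, hd, Nat.lt_pow_succ_log_self (by omega) _, by omega, ?_⟩, ?_, hk2, ?_⟩
  · refine le_trans ?_ hkey
    have h1 : 16 * ((2 : ℝ) ^ (N + 1) * d + N * (d - 1) * T) ≤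
        16 * (2 ^ (N + 1) * d + N * d * T) := by linarith
    have h2 : 0 ≤ (κ - 1) * (2 ^ (N + 1) * d + N * d * T) := by
      have : 0 ≤ κ - 1 := by linarith
      positivity
    nlinarith
  · refine le_trans ?_ hkey
    have h1 : κ * ((N : ℝ) * (d - 1) * T) ≤ κ * (N * d * T) :=
      mul_le_mul_of_nonneg_left hNd hκ0.le
    have h2 : 0 ≤ κ * (2 ^ (N + 1) * d) := by positivity
    have h3 : 0 ≤ κ * (N * d * T) := by positivity
    nlinarith
  · have e1 : lg N d k = Real.log (3 * (d + 1) * GG N d) + Real.log k := by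
      unfold lg
      rw [← Real.log_mul (by positivity) (by positivity)]
      congr 1
      push_cast
      ring
    have h1 : Real.log k ≤ Real.log (A + 2) + 2 * l := by
      have h2 := Real.log_le_log hk0 hk2
      rw [Real.log_mul (by positivity) (by positivity), Real.log_mul (by positivity)
        (by positivity)] at h2
      have h3 : Real.log κ ≤ l := Real.log_le_log hκ0 (by linarith)
      have h4 : Real.log l ≤ l := by
        have := Real.log_le_sub_one_of_pos (show 0 < l by linarith)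
        linarith
      linarith
    rw [e1]
    have h2 : Real.log (3 * (d + 1) * GG N d) + Real.log (A + 2) ≤
        2 * (Real.log (3 * (d + 1) * GG N d) + Real.log (A + 2)) * l := by
      have : 0 ≤ (Real.log (3 * (d + 1) * GG N d) + Real.log (A + 2)) * (2 * l - 1) :=
        mul_nonneg (by linarith) (by linarith)
      linarith
    linarith

end Pool.Agent.DLN
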