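import Pool.Agent.Lib_helper31.DLN.Noeth
import Pool.Agent.Lib_helper5.DLH.North

/-!
# Zariski dense orbits (project DLN)
-/

set_option autoImplicit false
set_option linter.unusedVariables false

open Finset MvPolynomial NumberField
open Pool.Agent.Lib_helper5.DLH (tot FS tot_le fs_posLog logHeight_eq_tot northcott_card)

namespace Pool.Agent.DLN

universe u

theorem Mon.dgi {N : ℕ} {F : Type*} [Field F] {d : ℕ} {f : Fin N → MvPolynomial (Fin N) F}
    (hf : Mon d f) (i : Fin N) : DG d (f i) := by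
  have h := (hf i).dg
  rwa [Finsupp.degree_single] at h

theorem iter_repeat {α : Type*} (g : α → α) (x : α) {i j : ℕ} (hij : i < j)
    (h : g^[i] x = g^[j] x) (n : ℕ) : ∃ l < j, g^[n] x = g^[l] x := by
  rcases lt_or_ge n i with h1 | h1
  · exact ⟨n, h1.trans hij, rfl⟩
  · have hp : Function.IsPeriodicPt g (j - i) (g^[i] x) := by
      show g^[j - i] (g^[i] x) = g^[i] x
      rw [← Function.iterate_add_apply, Nat.sub_add_cancel hij.le, ← h]
    refine ⟨(n - i) % (j - i) + i, ?_, ?_⟩
    · have := Nat.mod_lt (n - i) (show 0 < j - i by omega)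
      omega
    · have h2 := hp.iterate_mod_apply (n - i)
      rw [← Function.iterate_add_apply, ← Function.iterate_add_apply, Nat.sub_add_cancel h1] at h2
      exact h2.symm

theorem not_dense {N : ℕ} {K : Type*} [Field K] {f : Fin N → MvPolynomial (Fin N) K}
    {x : Fin N → K} (i0 : Fin N) {i j : ℕ} (hij : i < j) (h : (pm f)^[i] x = (pm f)^[j] x) :
    ¬ Dense f x := by
  intro hD
  have h1 := hD (∏ l ∈ range j, (X i0 - C ((pm f)^[l] x i0))) (fun n => by
    obtain ⟨l, hl, he⟩ := iter_repeat (pm f) x hij h n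
    rw [map_prod]
    refine prod_eq_zero (mem_range.mpr hl) ?_
    rw [map_sub, eval_X, eval_C, he, sub_self])
  rw [prod_eq_zero_iff] at h1
  obtain ⟨l, -, hl⟩ := h1
  have h2 : (X i0 : MvPolynomial (Fin N) K) = C ((pm f)^[l] x i0) := sub_eq_zero.mp hl
  have h3 := congrArg totalDegree h2
  rw [totalDegree_X, totalDegree_C] at h3
  exact one_ne_zero h3

variable {N : ℕ} {K : Type u} [Field K] [NumberField K]

theorem logHeight_le_ht (x : Fin N → K) (i : Fin N) : Height.logHeight₁ (x i) ≤ ht x := by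
  have key : ∀ v : AbsoluteValue K ℝ, Real.posLog (v (x i)) ≤ Real.log (nrm v x) := by
    intro v
    rw [Real.posLog_eq_log_max_one (v.nonneg _)]
    exact Real.log_le_log (by positivity) (max_le (one_le_nrm v x) (le_nrm v x i))
  rw [logHeight_eq_tot, ht_eq_tot]
  exact tot_le (fs_posLog _) (fs_nrm x) (fun w => key w.val) fun w => key w.val

/-- Points with infinite orbit have large canonical height, for maps of bounded height. -/
theorem north (N d D : ℕ) (hN : 1 ≤ N) (hd : 2 ≤ d) (B : ℝ) : ∃ q : ℕ, ∀ (K : Type u) [Field K]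
    [NumberField K] (f : Fin N → MvPolynomial (Fin N) K), Mon d f → Module.finrank ℚ K ≤ D →
    hrad d f ≤ B → ∀ x : Fin N → K, Dense f x → (1 : ℝ) / (d : ℝ) ^ q ≤ hat f d x := by
  classical
  obtain ⟨M, hM⟩ := northcott_card.{u} D (1 + 2 * (B + D * Real.log (GG N d)))
  refine ⟨M ^ N, ?_⟩
  intro K _ _ f hf hD hB x hx
  by_contra hcon
  rw [not_le] at hcon
  set q := M ^ N with hq
  set G := glob hd hf with hG
  have hd1 : 1 ≤ d := by omega
  have hdR : (1 : ℝ) ≤ d := by exact_mod_cast hd1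
  have hGG := one_le_GG N d
  have hbd : ∀ j ≤ q, ht ((pm f)^[j] x) ≤ 1 + 2 * (B + D * Real.log (GG N d)) := by
    intro j hj
    have h1 := G.height_le_hat ((pm f)^[j] x)
    rw [G.hat_iter, hG, hB_glob] at h1
    have h2 : (d : ℝ) ^ j * hat f d x ≤ 1 := by
      calc (d : ℝ) ^ j * hat f d x ≤ (d : ℝ) ^ q * (1 / (d : ℝ) ^ q) := by
            refine mul_le_mul (pow_le_pow_right₀ hdR hj) hcon.le (G.hat_nonneg x) (by positivity)
        _ = 1 := by field_simp
    have h3 : (Module.finrank ℚ K : ℝ) * Real.log (GG N d) ≤ D * Real.log (GG N d) :=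
      mul_le_mul_of_nonneg_right (by exact_mod_cast hD) (Real.log_nonneg hGG)
    linarith
  set Z : Finset K := (range (q + 1)).biUnion fun j => univ.image ((pm f)^[j] x) with hZ
  have hZM : Z.card ≤ M := by
    refine hM K hD Z fun y hy => ?_
    rw [hZ, mem_biUnion] at hy
    obtain ⟨j, hj, hy⟩ := hy
    rw [mem_image] at hy
    obtain ⟨i, -, rfl⟩ := hy
    exact (logHeight_le_ht _ i).trans (hbd j (by have := mem_range.mp hj; omega))
  have hmaps : ∀ j ∈ range (q + 1), (pm f)^[j] x ∈ Fintype.piFinset fun _ : Fin N => Z := by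
    intro j hj
    rw [Fintype.mem_piFinset]
    intro i
    rw [hZ, mem_biUnion]
    exact ⟨j, hj, mem_image_of_mem _ (mem_univ i)⟩
  have hcard : (Fintype.piFinset fun _ : Fin N => Z).card < (range (q + 1)).card := by
    rw [Fintype.card_piFinset, prod_const, card_univ, Fintype.card_fin, card_range]
    have := Nat.pow_le_pow_left hZM N
    omega
  obtain ⟨i, hi, j, hj, hne, he⟩ := exists_ne_map_eq_of_card_lt_of_maps_to hcard hmaps
  rcases lt_or_gt_of_ne hne with h | h
  · exact not_dense ⟨0, hN⟩ h he hx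
  · exact not_dense ⟨0, hN⟩ h he.symm hx

/-- **Zariski dense orbits**, all number fields. -/
theorem dense_all (N d s : ℕ) (hN : 1 ≤ N) (hd : 2 ≤ d) (κ : ℝ) (hκ : 1 ≤ κ) :
    ∃ c C : ℝ, 0 < c ∧ 0 < C ∧
    ∀ (K : Type u) [Field K] [NumberField K] (f : Fin N → MvPolynomial (Fin N) K),
      Mon d f → ∀ V : Finset (AbsoluteValue K ℝ), V.card ≤ s → (∀ v ∈ V, Split v d f) →
      hrad d f ≤ κ * share V d f → ∀ x : Fin N → K, Dense f x →
        c * hrad d f - Module.finrank ℚ K * C ≤ hat f d x := by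
  classical
  obtain ⟨A, c, C, hA, hc, hC, hyp⟩ := hyper.{u} N d hN hd
  obtain ⟨m, -, hm⟩ := hyp κ hκ
  obtain ⟨k0, hk0⟩ := orbit_noeth.{u} N d (2 ^ s * m)
  have hd1 : 1 ≤ d := by omega
  have hdR : (1 : ℝ) ≤ d := by exact_mod_cast hd1
  have hl := half_le_log hκ
  have hκ0 : 0 < κ := by linarith
  have hdk : (0 : ℝ) < (d : ℝ) ^ k0 := by positivity
  refine ⟨1 / (d : ℝ) ^ k0 * (c / κ), 1 / (d : ℝ) ^ k0 * (C * Real.log (κ + 1)), by positivity,
    by positivity, ?_⟩
  intro K _ _ f hf V hVs hV hH x hx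
  obtain ⟨H, h1, h2, h3⟩ := hm K f hf V hV hH
  by_contra hcon
  rw [not_le] at hcon
  set G := glob hd hf with hG
  have hthr : (d : ℝ) ^ k0 * hat f d x <
      c / κ * hrad d f - Module.finrank ℚ K * (C * Real.log (κ + 1)) := by
    have h4 := mul_lt_mul_of_pos_left hcon hdk
    refine h4.trans_le (le_of_eq ?_)
    field_simp
  apply h1
  refine hx H fun j => ?_
  refine hk0 K f (fun i => hf.dgi i) H (h2.mono ?_) x (fun j hj => h3 _ ?_) j
  · exact Nat.mul_le_mul_right m (Nat.pow_le_pow_right (by omega) hVs)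
  · rw [G.hat_iter]
    refine lt_of_le_of_lt ?_ hthr
    exact mul_le_mul_of_nonneg_right (pow_le_pow_right₀ hdR hj) (G.hat_nonneg x)

/-- **Zariski dense orbits**, number fields of bounded degree. -/
theorem dense_deg (N d s D : ℕ) (hN : 1 ≤ N) (hd : 2 ≤ d) (κ : ℝ) (hκ : 1 ≤ κ) :
    ∃ c : ℝ, 0 < c ∧
    ∀ (K : Type u) [Field K] [NumberField K] (f : Fin N → MvPolynomial (Fin N) K),
      Module.finrank ℚ K ≤ D →
      Mon d f → ∀ V : Finset (AbsoluteValue K ℝ), V.card ≤ s → (∀ v ∈ V, Split v d f) →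
      hrad d f ≤ κ * share V d f → ∀ x : Fin N → K, Dense f x →
        c * (hrad d f + Module.finrank ℚ K) ≤ hat f d x := by
  obtain ⟨c, C, hc, hC, hall⟩ := dense_all.{u} N d s hN hd κ hκ
  set B : ℝ := 2 * C / c + 1 with hB
  have hB0 : 0 < B := by positivity
  obtain ⟨q, hq⟩ := north.{u} N d D hN hd (D * B)
  have hdR : (0 : ℝ) < d := by exact_mod_cast (by omega : 0 < d)
  have hq0 : (0 : ℝ) < 1 / (d : ℝ) ^ q := by positivity
  refine ⟨min (c / 2) (1 / (d : ℝ) ^ q / (D * B + D + 1)), by positivity, ?_⟩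
  intro K _ _ f hD hf V hVs hV hH x hx
  have hn : (1 : ℝ) ≤ Module.finrank ℚ K := by exact_mod_cast Module.finrank_pos
  have hnD : (Module.finrank ℚ K : ℝ) ≤ D := by exact_mod_cast hD
  have hr := hrad_nonneg d f
  set n : ℝ := (Module.finrank ℚ K : ℝ) with hn'
  rcases le_or_gt (n * B) (hrad d f) with h | h
  · have h1 := hall K f hf V hVs hV hH x hx
    rw [← hn'] at h1
    have h2 : min (c / 2) (1 / (d : ℝ) ^ q / (D * B + D + 1)) * (hrad d f + n) ≤
        c / 2 * (hrad d f + n) := mul_le_mul_of_nonneg_right (min_le_left _ _) (by linarith)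
    have h3 : c / 2 * (n * B) ≤ c / 2 * hrad d f := mul_le_mul_of_nonneg_left h (by linarith)
    have h4 : c / 2 * (n * B) = n * C + c / 2 * n := by
      rw [hB]
      field_simp
    linarith
  · have h1 := hq K f hf hD (by
      have : n * B ≤ D * B := mul_le_mul_of_nonneg_right hnD hB0.le
      linarith) x hx
    refine le_trans ?_ h1
    have hDB : (0 : ℝ) ≤ D * B := by positivity
    have hDn : (0 : ℝ) ≤ D := Nat.cast_nonneg D
    have h2 : hrad d f + n ≤ D * B + D + 1 := by
      have : n * B ≤ D * B := mul_le_mul_of_nonneg_right hnD hB0.le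
      linarith
    calc min (c / 2) (1 / (d : ℝ) ^ q / (D * B + D + 1)) * (hrad d f + n) ≤
          1 / (d : ℝ) ^ q / (D * B + D + 1) * (D * B + D + 1) := by
          refine mul_le_mul (min_le_right _ _) h2 (by linarith) (by positivity)
      _ = 1 / (d : ℝ) ^ q := by
          rw [div_mul_cancel₀]
          positivity

end Pool.Agent.DLN
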