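import Pool.Agent.Lib_helper31.DLN.Det
import Pool.Agent.Lib_helper31.DLN.Idx

/-!
# Degrees, leading monomials and Gauss norms (project DLN)
-/

set_option autoImplicit false

open Finset MvPolynomial

namespace Pool.Agent.DLN

variable {N : ℕ} {F : Type*} [Field F]

/-- all monomials have degree less than `n` -/
def DL (n : ℕ) (p : MvPolynomial (Fin N) F) : Prop := ∀ α, coeff α p ≠ 0 → α.degree < n

/-- all monomials have degree at most `n` -/
def DG (n : ℕ) (p : MvPolynomial (Fin N) F) : Prop := ∀ α, coeff α p ≠ 0 → α.degree ≤ n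

/-- the Gauss norm of radius `R` is at most `A` -/
def GB (w : AbsoluteValue F ℝ) (R A : ℝ) (p : MvPolynomial (Fin N) F) : Prop :=
  ∀ α, w (coeff α p) * R ^ α.degree ≤ A

/-- `x ^ γ` is the only monomial of degree at least `|γ|`, with coefficient one -/
def LM (γ : Fin N →₀ ℕ) (p : MvPolynomial (Fin N) F) : Prop := DL γ.degree (p - monomial γ 1)

/-! ### degrees -/

theorem DG.mono {n m : ℕ} {p : MvPolynomial (Fin N) F} (h : DG n p) (hnm : n ≤ m) : DG m p :=
  fun α hα => (h α hα).trans hnm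

theorem DL.mono {n m : ℕ} {p : MvPolynomial (Fin N) F} (h : DL n p) (hnm : n ≤ m) : DL m p :=
  fun α hα => (h α hα).trans_le hnm

theorem DL.dg {n : ℕ} {p : MvPolynomial (Fin N) F} (h : DL n p) : DG n p :=
  fun α hα => (h α hα).le

theorem DG.dl {n : ℕ} {p : MvPolynomial (Fin N) F} (h : DG n p) : DL (n + 1) p :=
  fun α hα => Nat.lt_succ_of_le (h α hα)

theorem DL.zero_eq {p : MvPolynomial (Fin N) F} (h : DL 0 p) : p = 0 := by
  ext α
  rw [coeff_zero]
  by_contra hc
  exact absurd (h α hc) (Nat.not_lt_zero _)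

theorem DL.zero' {n : ℕ} : DL n (0 : MvPolynomial (Fin N) F) := fun α hα => by
  rw [coeff_zero] at hα
  exact absurd rfl hα

theorem DL.add {n : ℕ} {p q : MvPolynomial (Fin N) F} (hp : DL n p) (hq : DL n q) :
    DL n (p + q) := by
  intro α hα
  rw [coeff_add] at hα
  by_cases h : coeff α p = 0
  · rw [h, zero_add] at hα
    exact hq α hα
  · exact hp α h

theorem DG.add {n : ℕ} {p q : MvPolynomial (Fin N) F} (hp : DG n p) (hq : DG n q) :
    DG n (p + q) := by
  intro α hα
  rw [coeff_add] at hα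
  by_cases h : coeff α p = 0
  · rw [h, zero_add] at hα
    exact hq α hα
  · exact hp α h

theorem DL.sum {n : ℕ} {ι : Type*} (s : Finset ι) (p : ι → MvPolynomial (Fin N) F)
    (h : ∀ i ∈ s, DL n (p i)) : DL n (∑ i ∈ s, p i) := by
  classical
  induction s using Finset.induction_on with
  | empty => rw [sum_empty]; exact DL.zero'
  | insert i s hi ih =>
    rw [sum_insert hi]
    exact (h i (mem_insert_self i s)).add (ih fun j hj => h j (mem_insert_of_mem hj))

theorem DG.sum {n : ℕ} {ι : Type*} (s : Finset ι) (p : ι → MvPolynomial (Fin N) F)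
    (h : ∀ i ∈ s, DG n (p i)) : DG n (∑ i ∈ s, p i) := by
  intro α hα
  have h1 := DL.sum s p fun i hi => (h i hi).dl
  exact Nat.lt_succ_iff.mp (h1 α hα)

theorem coeff_mul_ne {p q : MvPolynomial (Fin N) F} {α : Fin N →₀ ℕ} (h : coeff α (p * q) ≠ 0) :
    ∃ β γ, β + γ = α ∧ coeff β p ≠ 0 ∧ coeff γ q ≠ 0 := by
  rw [coeff_mul] at h
  obtain ⟨x, hx, hne⟩ := exists_ne_zero_of_sum_ne_zero h
  exact ⟨x.1, x.2, mem_antidiagonal.mp hx, left_ne_zero_of_mul hne, right_ne_zero_of_mul hne⟩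

theorem DG.mul {n m : ℕ} {p q : MvPolynomial (Fin N) F} (hp : DG n p) (hq : DG m q) :
    DG (n + m) (p * q) := by
  intro α hα
  obtain ⟨β, γ, rfl, h1, h2⟩ := coeff_mul_ne hα
  rw [map_add]
  exact add_le_add (hp β h1) (hq γ h2)

theorem DL.mul {n m : ℕ} {p q : MvPolynomial (Fin N) F} (hp : DL n p) (hq : DG m q) :
    DL (n + m) (p * q) := by
  intro α hα
  obtain ⟨β, γ, rfl, h1, h2⟩ := coeff_mul_ne hα
  rw [map_add]
  exact add_lt_add_of_lt_of_le (hp β h1) (hq γ h2)

theorem DG.mul_dl {n m : ℕ} {p q : MvPolynomial (Fin N) F} (hp : DG n p) (hq : DL m q) :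
    DL (n + m) (p * q) := by
  rw [mul_comm, add_comm]
  exact hq.mul hp

theorem DG.monomial' (γ : Fin N →₀ ℕ) (c : F) : DG γ.degree (monomial γ c) := by
  intro α hα
  classical
  rw [coeff_monomial] at hα
  split_ifs at hα with h
  · rw [h]
  · exact absurd rfl hα

theorem DG.C' (c : F) : DG 0 (C c : MvPolynomial (Fin N) F) := by
  have h := DG.monomial' (0 : Fin N →₀ ℕ) c
  rwa [map_zero] at h

theorem DG.one' : DG 0 (1 : MvPolynomial (Fin N) F) := by
  have h := DG.C' (N := N) (1 : F)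
  rwa [C_1] at h

theorem DG.C_mul {n : ℕ} {p : MvPolynomial (Fin N) F} (hp : DG n p) (c : F) : DG n (C c * p) := by
  have h := (DG.C' c).mul hp
  rwa [zero_add] at h

theorem DL.C_mul {n : ℕ} {p : MvPolynomial (Fin N) F} (hp : DL n p) (c : F) : DL n (C c * p) := by
  have h := (DG.C' c).mul_dl hp
  rwa [zero_add] at h

theorem DG.pow {n : ℕ} {p : MvPolynomial (Fin N) F} (hp : DG n p) (k : ℕ) : DG (k * n) (p ^ k) := by
  induction k with
  | zero => rw [pow_zero, zero_mul]; exact DG.one'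
  | succ k ih =>
    rw [pow_succ, Nat.succ_mul]
    exact ih.mul hp

/-! ### leading monomials -/

theorem LM.dg {γ : Fin N →₀ ℕ} {p : MvPolynomial (Fin N) F} (h : LM γ p) : DG γ.degree p := by
  have e : p = (p - monomial γ 1) + monomial γ 1 := by ring
  rw [e]
  exact (DL.dg h).add (DG.monomial' γ 1)

theorem LM.coeff_eq {γ : Fin N →₀ ℕ} {p : MvPolynomial (Fin N) F} (h : LM γ p) {α : Fin N →₀ ℕ}
    (hα : γ.degree ≤ α.degree) : coeff α p = if α = γ then 1 else 0 := by
  classical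
  have h1 : coeff α (p - monomial γ 1) = 0 := by
    by_contra hc
    exact absurd (h α hc) (not_lt.mpr hα)
  rw [coeff_sub, coeff_monomial, sub_eq_zero] at h1
  rw [h1]
  by_cases h2 : α = γ
  · rw [if_pos h2, if_pos h2.symm]
  · rw [if_neg h2, if_neg (Ne.symm h2)]

theorem LM.self (γ : Fin N →₀ ℕ) : LM γ (monomial γ (1 : F)) := by
  unfold LM
  rw [sub_self]
  exact DL.zero'

theorem LM.one' : LM (0 : Fin N →₀ ℕ) (1 : MvPolynomial (Fin N) F) := LM.self 0

theorem LM.mul {γ δ : Fin N →₀ ℕ} {p q : MvPolynomial (Fin N) F} (hp : LM γ p) (hq : LM δ q) :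
    LM (γ + δ) (p * q) := by
  unfold LM
  have e : p * q - monomial (γ + δ) 1 =
      (p - monomial γ 1) * q + monomial γ 1 * (q - monomial δ 1) := by
    have h : (monomial (γ + δ) 1 : MvPolynomial (Fin N) F) = monomial γ 1 * monomial δ 1 := by
      rw [monomial_mul, one_mul]
    rw [h]
    ring
  rw [e, map_add]
  exact (DL.mul hp hq.dg).add ((DG.monomial' γ 1).mul_dl hq)

theorem LM.pow {γ : Fin N →₀ ℕ} {p : MvPolynomial (Fin N) F} (hp : LM γ p) (k : ℕ) :
    LM (k • γ) (p ^ k) := by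
  induction k with
  | zero => rw [pow_zero, zero_smul]; exact LM.one'
  | succ k ih =>
    rw [pow_succ, succ_nsmul]
    exact ih.mul hp

theorem LM.prod {ι : Type*} (s : Finset ι) (γ : ι → Fin N →₀ ℕ) (p : ι → MvPolynomial (Fin N) F)
    (h : ∀ i ∈ s, LM (γ i) (p i)) : LM (∑ i ∈ s, γ i) (∏ i ∈ s, p i) := by
  classical
  induction s using Finset.induction_on with
  | empty => rw [sum_empty, prod_empty]; exact LM.one'
  | insert i s hi ih =>
    rw [sum_insert hi, prod_insert hi]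
    exact (h i (mem_insert_self i s)).mul (ih fun j hj => h j (mem_insert_of_mem hj))

/-! ### powers of a map -/

/-- the monomial `κ` in the polynomials `f i` -/
noncomputable def fp (f : Fin N → MvPolynomial (Fin N) F) (κ : Fin N →₀ ℕ) :
    MvPolynomial (Fin N) F := ∏ i, f i ^ κ i

theorem sum_single (κ : Fin N →₀ ℕ) (d : ℕ) : ∑ i, κ i • Finsupp.single i d = d • κ := by
  ext j
  rw [Finsupp.finsetSum_apply, Finsupp.smul_apply, smul_eq_mul, Finset.sum_eq_single j]
  · simp [mul_comm]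
  · intro i _ hij
    simp [hij]
  · intro h
    exact absurd (mem_univ j) h

/-- the map `f` is given by `x_i ^ d` plus terms of lower degree -/
def Mon (d : ℕ) (f : Fin N → MvPolynomial (Fin N) F) : Prop :=
  ∀ i, LM (Finsupp.single i d) (f i)

theorem Mon.fpow {d : ℕ} {f : Fin N → MvPolynomial (Fin N) F} (h : Mon d f) (κ : Fin N →₀ ℕ) :
    LM (d • κ) (fp f κ) := by
  rw [← sum_single κ d]
  exact LM.prod univ _ _ fun i _ => (h i).pow (κ i)

theorem bind_eq (f : Fin N → MvPolynomial (Fin N) F) (p : MvPolynomial (Fin N) F) :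
    bind₁ f p = ∑ α ∈ p.support, C (coeff α p) * fp f α := by
  have h := MvPolynomial.eval₂_eq' (C : F →+* MvPolynomial (Fin N) F) f p
  exact h

theorem Mon.bind {d : ℕ} {f : Fin N → MvPolynomial (Fin N) F} (hd : 1 ≤ d) (h : Mon d f)
    {κ : Fin N →₀ ℕ} {p : MvPolynomial (Fin N) F} (hp : LM κ p) : LM (d • κ) (bind₁ f p) := by
  have e : bind₁ f p = bind₁ f (p - monomial κ 1) + bind₁ f (monomial κ 1) := by
    rw [← map_add, sub_add_cancel]
  have e2 : bind₁ f (monomial κ (1 : F)) = fp f κ := by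
    rw [bind₁_monomial, C_1, one_mul]
    rw [Finset.prod_subset (Finset.subset_univ _)]
    · rfl
    · intro i _ hi
      rw [Finsupp.notMem_support_iff.mp hi, pow_zero]
  unfold LM
  rw [e, e2, add_sub_assoc]
  have hf : LM (d • κ) (fp f κ) := h.fpow κ
  refine DL.add ?_ hf
  rw [bind_eq]
  refine DL.sum _ _ fun α hα => ?_
  have h1 : α.degree < κ.degree := hp α (mem_support_iff.mp hα)
  have h2 : DG (d • α).degree (fp f α) := (h.fpow α).dg
  refine (DG.dl (h2.C_mul _)).mono ?_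
  rw [map_nsmul, map_nsmul, smul_eq_mul, smul_eq_mul]
  have h3 : d * α.degree < d * κ.degree := Nat.mul_lt_mul_of_pos_left h1 (by omega)
  omega

/-! ### Gauss norms -/

variable {w : AbsoluteValue F ℝ} {R : ℝ}

theorem GB.mono {A B : ℝ} {p : MvPolynomial (Fin N) F} (h : GB w R A p) (hAB : A ≤ B) :
    GB w R B p := fun α => (h α).trans hAB

theorem GB.zero' {A : ℝ} (hA : 0 ≤ A) : GB w R A (0 : MvPolynomial (Fin N) F) := fun α => by
  rw [coeff_zero, map_zero, zero_mul]
  exact hA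

theorem GB.add (hw : IsNonarchimedean w) (hR : 0 ≤ R) {A : ℝ} {p q : MvPolynomial (Fin N) F}
    (hp : GB w R A p) (hq : GB w R A q) : GB w R A (p + q) := fun α => by
  rw [coeff_add]
  have h1 := hw (coeff α p) (coeff α q)
  have h2 : 0 ≤ R ^ α.degree := pow_nonneg hR _
  calc w (coeff α p + coeff α q) * R ^ α.degree
      ≤ max (w (coeff α p)) (w (coeff α q)) * R ^ α.degree := mul_le_mul_of_nonneg_right h1 h2
    _ = max (w (coeff α p) * R ^ α.degree) (w (coeff α q) * R ^ α.degree) :=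
        max_mul_of_nonneg _ _ h2
    _ ≤ A := max_le (hp α) (hq α)

theorem GB.neg {A : ℝ} {p : MvPolynomial (Fin N) F} (hp : GB w R A p) : GB w R A (-p) :=
  fun α => by
    rw [coeff_neg, w.map_neg]
    exact hp α

theorem GB.sub (hw : IsNonarchimedean w) (hR : 0 ≤ R) {A : ℝ} {p q : MvPolynomial (Fin N) F}
    (hp : GB w R A p) (hq : GB w R A q) : GB w R A (p - q) := by
  rw [sub_eq_add_neg]
  exact hp.add hw hR hq.neg

theorem GB.sum (hw : IsNonarchimedean w) (hR : 0 ≤ R) {A : ℝ} (hA : 0 ≤ A) {ι : Type*}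
    (s : Finset ι) (p : ι → MvPolynomial (Fin N) F) (h : ∀ i ∈ s, GB w R A (p i)) :
    GB w R A (∑ i ∈ s, p i) := by
  classical
  induction s using Finset.induction_on with
  | empty => rw [sum_empty]; exact GB.zero' hA
  | insert i s hi ih =>
    rw [sum_insert hi]
    exact (h i (mem_insert_self i s)).add hw hR (ih fun j hj => h j (mem_insert_of_mem hj))

theorem GB.mul (hw : IsNonarchimedean w) (hR : 0 ≤ R) {A B : ℝ} (hA : 0 ≤ A) (hB : 0 ≤ B)
    {p q : MvPolynomial (Fin N) F} (hp : GB w R A p) (hq : GB w R B q) :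
    GB w R (A * B) (p * q) := fun α => by
  rw [coeff_mul]
  have h2 : 0 ≤ R ^ α.degree := pow_nonneg hR _
  rcases h2.eq_or_lt with h0 | h0
  · rw [← h0, mul_zero]
    positivity
  rw [← le_div_iff₀ h0]
  refine na_sum_le hw _ _ (by positivity) fun x hx => ?_
  rw [le_div_iff₀ h0, map_mul, ← mem_antidiagonal.mp hx, map_add, pow_add]
  calc w (coeff x.1 p) * w (coeff x.2 q) * (R ^ x.1.degree * R ^ x.2.degree)
      = (w (coeff x.1 p) * R ^ x.1.degree) * (w (coeff x.2 q) * R ^ x.2.degree) := by ring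
    _ ≤ A * B := mul_le_mul (hp _) (hq _) (mul_nonneg (apply_nonneg w _) (pow_nonneg hR _)) hA

theorem GB.monomial' (γ : Fin N →₀ ℕ) (c : F) (hR : 0 ≤ R) :
    GB w R (w c * R ^ γ.degree) (monomial γ c) := fun α => by
  classical
  rw [coeff_monomial]
  split_ifs with h
  · rw [h]
  · rw [map_zero, zero_mul]
    exact mul_nonneg (apply_nonneg w _) (pow_nonneg hR _)

theorem GB.C' (c : F) (hR : 0 ≤ R) : GB w R (w c) (C c : MvPolynomial (Fin N) F) := by
  have h := GB.monomial' (w := w) (0 : Fin N →₀ ℕ) c hR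
  rwa [map_zero, pow_zero, mul_one] at h

theorem GB.one' (hR : 0 ≤ R) : GB w R 1 (1 : MvPolynomial (Fin N) F) := by
  have h := GB.C' (w := w) (N := N) (1 : F) hR
  rwa [C_1, map_one] at h

theorem GB.pow (hw : IsNonarchimedean w) (hR : 0 ≤ R) {A : ℝ} (hA : 0 ≤ A)
    {p : MvPolynomial (Fin N) F} (hp : GB w R A p) (k : ℕ) : GB w R (A ^ k) (p ^ k) := by
  induction k with
  | zero => rw [pow_zero, pow_zero]; exact GB.one' hR
  | succ k ih =>
    rw [pow_succ, pow_succ]
    exact ih.mul hw hR (pow_nonneg hA k) hA hp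

theorem GB.prod (hw : IsNonarchimedean w) (hR : 0 ≤ R) {ι : Type*} (s : Finset ι) (A : ι → ℝ)
    (p : ι → MvPolynomial (Fin N) F) (hA : ∀ i ∈ s, 0 ≤ A i) (h : ∀ i ∈ s, GB w R (A i) (p i)) :
    GB w R (∏ i ∈ s, A i) (∏ i ∈ s, p i) := by
  classical
  induction s using Finset.induction_on with
  | empty => rw [prod_empty, prod_empty]; exact GB.one' hR
  | insert i s hi ih =>
    rw [prod_insert hi, prod_insert hi]
    refine (h i (mem_insert_self i s)).mul hw hR (hA i (mem_insert_self i s)) ?_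
      (ih (fun j hj => hA j (mem_insert_of_mem hj)) fun j hj => h j (mem_insert_of_mem hj))
    exact prod_nonneg fun j hj => hA j (mem_insert_of_mem hj)

theorem GB.fpow (hw : IsNonarchimedean w) (hR : 0 ≤ R) {d : ℕ} {f : Fin N → MvPolynomial (Fin N) F}
    (h : ∀ i, GB w R (R ^ d) (f i)) (κ : Fin N →₀ ℕ) : GB w R (R ^ (d * κ.degree)) (fp f κ) := by
  have h1 := GB.prod hw hR univ (fun i => (R ^ d) ^ κ i) (fun i => f i ^ κ i)
    (fun i _ => by positivity) fun i _ => (h i).pow hw hR (by positivity) (κ i)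
  have e : ∏ i, (R ^ d) ^ κ i = R ^ (d * κ.degree) := by
    rw [Finset.prod_pow_eq_pow_sum, ← pow_mul, Finsupp.degree_eq_sum]
  rw [e] at h1
  exact h1

theorem GB.bind (hw : IsNonarchimedean w) (hR : 1 ≤ R) {d : ℕ} (hd : 1 ≤ d)
    {f : Fin N → MvPolynomial (Fin N) F} (h : ∀ i, GB w R (R ^ d) (f i)) {e : ℕ}
    {p : MvPolynomial (Fin N) F} (hp : GB w R (R ^ e) p) (hpe : DG e p) :
    GB w R (R ^ (d * e)) (bind₁ f p) := by
  have hR0 : 0 ≤ R := by linarith
  rw [bind_eq]
  refine GB.sum hw hR0 (by positivity) _ _ fun α hα => ?_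
  have h1 := (GB.C' (w := w) (N := N) (coeff α p) hR0).mul hw hR0 (apply_nonneg w _)
    (by positivity) (GB.fpow hw hR0 h α)
  refine h1.mono ?_
  have h2 : α.degree ≤ e := hpe α (mem_support_iff.mp hα)
  obtain ⟨c, rfl⟩ : ∃ c, d = c + 1 := ⟨d - 1, by omega⟩
  calc w (coeff α p) * R ^ ((c + 1) * α.degree)
      = (w (coeff α p) * R ^ α.degree) * R ^ (c * α.degree) := by
        rw [Nat.succ_mul, pow_add]; ring
    _ ≤ R ^ e * R ^ (c * e) := by
        refine mul_le_mul (hp α) (pow_le_pow_right₀ hR (Nat.mul_le_mul_left c h2))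
          (by positivity) (by positivity)
    _ = R ^ ((c + 1) * e) := by rw [← pow_add]; congr 1; ring

end Pool.Agent.DLN
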