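import Pool.Agent.Lib_helper31.DLN.Orb

/-!
# The fibres of a centred map: two far points (project DLN)
-/

set_option autoImplicit false
set_option linter.unusedVariables false

open Finset MvPolynomial

namespace Pool.Agent.DLN

variable {N : ℕ} {F : Type*} [Field F] {d : ℕ} {h : Fin N → MvPolynomial (Fin N) F}

theorem exists_DL (p : MvPolynomial (Fin N) F) : ∃ m, DL (m + 1) p := by
  refine ⟨p.support.sup fun γ => γ.degree, fun α hα => ?_⟩
  exact Nat.lt_succ_of_le (Finset.le_sup (f := fun γ : Fin N →₀ ℕ => γ.degree)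
    (mem_support_iff.mpr hα))

theorem psi_li (hh : Mon d h) : LinearIndependent F (psi d h) := by
  classical
  rw [linearIndependent_iff']
  intro s g hg i hi
  set m := s.sup fun γ => γ.degree with hm
  have hsub : s ⊆ Gam N m := fun γ hγ => mem_Gam.mpr (Finset.le_sup
    (f := fun γ : Fin N →₀ ℕ => γ.degree) hγ)
  have h1 := LM.indep (m := m) (ψ := psi d h) (fun γ _ => LM.psi hh γ)
    (fun γ => if γ ∈ s then g γ else 0) (by
      rw [← hg, ← sum_subset hsub]
      · refine sum_congr rfl fun γ hγ => ?_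
        simp only [if_pos hγ]
        rw [MvPolynomial.smul_eq_C_mul]
      · intro γ _ hγ
        simp only [if_neg hγ]
        rw [C_0, zero_mul]) i (hsub hi)
  simpa only [if_pos hi] using h1

theorem psi_span (hh : Mon d h) : ⊤ ≤ Submodule.span F (Set.range (psi d h)) := by
  intro p _
  obtain ⟨m, hm⟩ := exists_DL p
  obtain ⟨c, hc, -⟩ := LM.expand (m := m) (ψ := psi d h) (fun γ _ => LM.psi hh γ) (m + 1) le_rfl
    p hm
  rw [hc]
  refine Submodule.sum_mem _ fun γ _ => ?_
  rw [← MvPolynomial.smul_eq_C_mul]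
  exact Submodule.smul_mem _ _ (Submodule.subset_span ⟨γ, rfl⟩)

/-- the basis of the polynomial ring which is adapted to `h` -/
noncomputable def PB (hh : Mon d h) : Module.Basis (Fin N →₀ ℕ) F (MvPolynomial (Fin N) F) :=
  Module.Basis.mk (psi_li hh) (psi_span hh)

theorem PB_apply (hh : Mon d h) (γ : Fin N →₀ ℕ) : PB hh γ = psi d h γ :=
  Module.Basis.mk_apply _ _ _

theorem repr_psi (hh : Mon d h) (γ : Fin N →₀ ℕ) :
    (PB hh).repr (psi d h γ) = Finsupp.single γ 1 := by
  rw [← PB_apply hh]
  exact (PB hh).repr_self γ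

theorem repr_top (hh : Mon d h) {γ : Fin N →₀ ℕ} {p : MvPolynomial (Fin N) F}
    (hp : DG γ.degree p) : (PB hh).repr p γ = coeff γ p := by
  classical
  obtain ⟨c, hc, -⟩ := LM.expand (m := γ.degree) (ψ := psi d h) (fun γ _ => LM.psi hh γ)
    (γ.degree + 1) le_rfl p hp.dl
  have hγ : γ ∈ Gam N γ.degree := mem_Gam.mpr le_rfl
  have h1 : coeff γ p = c γ := by
    rw [hc, coeff_sum, sum_eq_single_of_mem γ hγ]
    · rw [coeff_C_mul, (LM.psi hh γ).coeff_eq le_rfl, if_pos rfl, mul_one]
    · intro δ hδ hne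
      rw [coeff_C_mul, (LM.psi hh δ).coeff_eq (mem_Gam.mp hδ), if_neg (Ne.symm hne), mul_zero]
  have h2 : (PB hh).repr p γ = c γ := by
    rw [hc, map_sum, Finsupp.finsetSum_apply, sum_eq_single_of_mem γ hγ]
    · rw [← MvPolynomial.smul_eq_C_mul, map_smul, repr_psi, Finsupp.smul_apply,
        Finsupp.single_eq_same, smul_eq_mul, mul_one]
    · intro δ hδ hne
      rw [← MvPolynomial.smul_eq_C_mul, map_smul, repr_psi, Finsupp.smul_apply,
        Finsupp.single_eq_of_ne (Ne.symm hne), smul_zero]
  rw [h1, h2]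

theorem psi_mul_h (hd : 1 ≤ d) (γ : Fin N →₀ ℕ) (j : Fin N) :
    psi d h γ * h j = psi d h (γ + Finsupp.single j d) := by
  classical
  have e1 : dm d (γ + Finsupp.single j d) = dm d γ := by
    ext i
    rw [dm_apply, dm_apply, Finsupp.add_apply]
    by_cases hij : j = i
    · rw [hij, Finsupp.single_eq_same, Nat.add_mod_right]
    · rw [Finsupp.single_eq_of_ne (Ne.symm hij), add_zero]
  have e2 : dv d (γ + Finsupp.single j d) = dv d γ + Finsupp.single j 1 := by
    ext i
    rw [dv_apply, Finsupp.add_apply, Finsupp.add_apply, dv_apply]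
    by_cases hij : j = i
    · rw [hij, Finsupp.single_eq_same, Finsupp.single_eq_same, Nat.add_div_right _ hd]
    · rw [Finsupp.single_eq_of_ne (Ne.symm hij), Finsupp.single_eq_of_ne (Ne.symm hij), add_zero,
        add_zero]
  unfold psi
  rw [e1, e2, mul_assoc]
  congr 1
  unfold fp
  have e3 : ∀ i, h i ^ ((dv d γ + Finsupp.single j 1 : Fin N →₀ ℕ) i) =
      h i ^ (dv d γ) i * (if i = j then h j else 1) := by
    intro i
    rw [Finsupp.add_apply, pow_add]
    by_cases hij : i = j
    · rw [if_pos hij, hij, Finsupp.single_eq_same, pow_one]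
    · rw [if_neg hij, Finsupp.single_eq_of_ne hij, pow_zero]
  rw [prod_congr rfl fun i _ => e3 i, prod_mul_distrib, prod_ite_eq' univ j, if_pos (mem_univ j)]

theorem repr_ideal (hh : Mon d h) (hd : 1 ≤ d) {p : MvPolynomial (Fin N) F}
    (hp : p ∈ Ideal.span (Set.range h)) {b : Fin N →₀ ℕ} (hb : dv d b = 0) :
    (PB hh).repr p b = 0 := by
  classical
  rw [Ideal.mem_span_range_iff_exists_fun] at hp
  obtain ⟨c, rfl⟩ := hp
  rw [map_sum, Finsupp.finsetSum_apply]
  refine sum_eq_zero fun j _ => ?_
  let l : MvPolynomial (Fin N) F →ₗ[F] F :=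
    (Finsupp.lapply b) ∘ₗ (PB hh).repr.toLinearMap ∘ₗ (LinearMap.mulRight F (h j))
  have hl : l = 0 := by
    refine (PB hh).ext fun γ => ?_
    rw [PB_apply]
    show (PB hh).repr (psi d h γ * h j) b = 0
    rw [psi_mul_h hd, repr_psi]
    apply Finsupp.single_eq_of_ne
    intro he
    have h1 := congrFun (congrArg DFunLike.coe hb) j
    rw [he, dv_apply, Finsupp.add_apply, Finsupp.single_eq_same, Nat.add_div_right _ hd] at h1
    exact Nat.succ_ne_zero _ h1
  exact LinearMap.congr_fun hl (c j)

/-- the multi-index of a tuple of digits -/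
noncomputable def ei (b : Fin N → Fin d) : Fin N →₀ ℕ :=
  Finsupp.equivFunOnFinite.symm fun i => (b i : ℕ)

theorem ei_apply (b : Fin N → Fin d) (i : Fin N) : ei b i = (b i : ℕ) := rfl

theorem ei_inj : Function.Injective (ei : (Fin N → Fin d) → (Fin N →₀ ℕ)) := by
  intro b b' h
  funext i
  have h1 := congrFun (congrArg DFunLike.coe h) i
  exact Fin.ext h1

theorem dv_ei (b : Fin N → Fin d) : dv d (ei b) = 0 := by
  ext i
  rw [dv_apply, ei_apply]
  exact Nat.div_eq_of_lt (b i).2

theorem psi_of_dv {γ : Fin N →₀ ℕ} (hγ : dv d γ = 0) : psi d h γ = monomial γ 1 := by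
  have h1 : dm d γ = γ := by
    have := dm_add_dv d γ
    rw [hγ, smul_zero, add_zero] at this
    exact this
  unfold psi fp
  rw [h1, hγ]
  simp

theorem psi_ei (b : Fin N → Fin d) : psi d h (ei b) = monomial (ei b) 1 := psi_of_dv (dv_ei b)

theorem exists_ei (hd : 1 ≤ d) {γ : Fin N →₀ ℕ} (hγ : dv d γ = 0) : ∃ b : Fin N → Fin d,
    ei b = γ := by
  refine ⟨fun i => ⟨γ i, ?_⟩, ?_⟩
  · have h1 := congrFun (congrArg DFunLike.coe hγ) i
    rw [dv_apply] at h1
    exact (Nat.div_eq_zero_iff_lt hd).mp h1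
  · ext i
    rfl

theorem psi_mem (γ : Fin N →₀ ℕ) (hγ : dv d γ ≠ 0) : psi d h γ ∈ Ideal.span (Set.range h) := by
  obtain ⟨i, hi⟩ : ∃ i, dv d γ i ≠ 0 := by
    by_contra hc
    push Not at hc
    exact hγ (Finsupp.ext hc)
  unfold psi fp
  refine Ideal.mul_mem_left _ _ ?_
  rw [← mul_prod_erase univ _ (mem_univ i)]
  refine Ideal.mul_mem_right _ _ ?_
  have h1 : h i ∈ Ideal.span (Set.range h) := Ideal.subset_span ⟨i, rfl⟩
  exact Ideal.pow_mem_of_mem _ h1 _ (Nat.pos_of_ne_zero hi)

/-- the remainder -/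
noncomputable def rem (hh : Mon d h) (p : MvPolynomial (Fin N) F) : MvPolynomial (Fin N) F :=
  ∑ b : Fin N → Fin d, (PB hh).repr p (ei b) • monomial (ei b) 1

theorem sub_rem (hh : Mon d h) (hd : 1 ≤ d) (p : MvPolynomial (Fin N) F) :
    p - rem hh p ∈ Ideal.span (Set.range h) := by
  classical
  set I := Ideal.span (Set.range h) with hI
  let l : MvPolynomial (Fin N) F →ₗ[F] (MvPolynomial (Fin N) F ⧸ I.restrictScalars F) :=
    (Submodule.mkQ (I.restrictScalars F)) ∘ₗ
      (LinearMap.id - ∑ b : Fin N → Fin d, LinearMap.smulRight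
        ((Finsupp.lapply (ei b)) ∘ₗ (PB hh).repr.toLinearMap) (monomial (ei b) 1))
  have hl : l = 0 := by
    refine (PB hh).ext fun γ => ?_
    rw [PB_apply]
    show (Submodule.mkQ (I.restrictScalars F)) (psi d h γ - (∑ b : Fin N → Fin d,
      LinearMap.smulRight ((Finsupp.lapply (ei b)) ∘ₗ (PB hh).repr.toLinearMap)
        (monomial (ei b) 1)) (psi d h γ)) = 0
    rw [LinearMap.sum_apply, Submodule.mkQ_apply, Submodule.Quotient.mk_eq_zero]
    have e1 : ∀ b : Fin N → Fin d, (LinearMap.smulRight
        ((Finsupp.lapply (ei b)) ∘ₗ (PB hh).repr.toLinearMap)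
        (monomial (ei b) (1 : F))) (psi d h γ) =
        (Finsupp.single γ (1 : F) (ei b)) • monomial (ei b) 1 := by
      intro b
      show (PB hh).repr (psi d h γ) (ei b) • monomial (ei b) (1 : F) = _
      rw [repr_psi]
    rw [sum_congr rfl fun b _ => e1 b]
    by_cases hγ : dv d γ = 0
    · obtain ⟨b0, hb0⟩ := exists_ei hd hγ
      rw [sum_eq_single_of_mem b0 (mem_univ b0), ← hb0, Finsupp.single_eq_same, one_smul, psi_ei,
        sub_self]
      · exact Submodule.zero_mem _
      · intro b _ hne
        rw [Finsupp.single_eq_of_ne, zero_smul]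
        intro he
        rw [← hb0] at he
        exact hne (ei_inj he)
    · rw [sum_eq_zero, sub_zero]
      · exact psi_mem γ hγ
      · intro b _
        rw [Finsupp.single_eq_of_ne, zero_smul]
        intro he
        rw [← he] at hγ
        exact hγ (dv_ei b)
  have h1 := LinearMap.congr_fun hl p
  have h2 : (Submodule.mkQ (I.restrictScalars F)) (p - (∑ b : Fin N → Fin d,
      LinearMap.smulRight ((Finsupp.lapply (ei b)) ∘ₗ (PB hh).repr.toLinearMap)
        (monomial (ei b) 1)) p) = 0 := h1
  rw [Submodule.mkQ_apply, Submodule.Quotient.mk_eq_zero, LinearMap.sum_apply] at h2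
  exact h2

theorem eval_ideal {p : MvPolynomial (Fin N) F} (hp : p ∈ Ideal.span (Set.range h))
    {z : Fin N → F} (hz : ∀ j, eval z (h j) = 0) : eval z p = 0 := by
  rw [Ideal.mem_span_range_iff_exists_fun] at hp
  obtain ⟨c, rfl⟩ := hp
  rw [map_sum]
  refine sum_eq_zero fun j _ => ?_
  rw [map_mul, hz j, mul_zero]

/-- multiplication by the variable `i` -/
noncomputable def Mx (hh : Mon d h) (i : Fin N) : Matrix (Fin N → Fin d) (Fin N → Fin d) F :=
  Matrix.of fun b' b => (PB hh).repr (X i * monomial (ei b) 1) (ei b')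

theorem eval_rem (hh : Mon d h) (hd : 1 ≤ d) {z : Fin N → F} (hz : ∀ j, eval z (h j) = 0)
    (p : MvPolynomial (Fin N) F) :
    ∑ b : Fin N → Fin d, (PB hh).repr p (ei b) * eval z (monomial (ei b) (1 : F)) = eval z p := by
  have h1 := eval_ideal (sub_rem hh hd p) hz
  rw [map_sub, sub_eq_zero] at h1
  rw [h1]
  unfold rem
  rw [map_sum]
  refine sum_congr rfl fun b _ => ?_
  rw [MvPolynomial.smul_eq_C_mul, map_mul, eval_C]

/-- the coordinates of the points of the fibre are eigenvalues -/
theorem root_of_zero (hh : Mon d h) (hd : 1 ≤ d) {z : Fin N → F} (hz : ∀ j, eval z (h j) = 0)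
    (i : Fin N) : (Mx hh i).charpoly.eval (z i) = 0 := by
  classical
  rw [Matrix.eval_charpoly]
  refine Matrix.exists_vecMul_eq_zero_iff.mp
    ⟨fun b => eval z (monomial (ei b) (1 : F)), ?_, ?_⟩
  · intro h0
    have h1 := congrFun h0 fun _ => ⟨0, hd⟩
    have h2 : (ei fun _ : Fin N => (⟨0, hd⟩ : Fin d)) = 0 := by
      ext i
      rfl
    simp only [h2, Pi.zero_apply] at h1
    have h3 : (monomial (0 : Fin N →₀ ℕ) (1 : F)) = 1 := rfl
    rw [h3, map_one] at h1
    exact one_ne_zero h1
  · rw [Matrix.vecMul_sub]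
    funext b
    rw [Pi.sub_apply, Pi.zero_apply, sub_eq_zero]
    have h1 : (Matrix.vecMul (fun b => eval z (monomial (ei b) (1 : F))) (Mx hh i)) b =
        z i * eval z (monomial (ei b) (1 : F)) := by
      show ∑ b', eval z (monomial (ei b') (1 : F)) *
        (PB hh).repr (X i * monomial (ei b) 1) (ei b') = _
      rw [← eval_X (f := z) i, ← map_mul, ← eval_rem hh hd hz]
      exact sum_congr rfl fun b' _ => mul_comm _ _
    rw [h1]
    show ∑ b', eval z (monomial (ei b') (1 : F)) * (Matrix.scalar _ (z i)) b' b = _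
    rw [Matrix.scalar_apply, sum_eq_single_of_mem b (mem_univ b), Matrix.diagonal_apply_eq,
      mul_comm]
    intro b' _ hne
    rw [Matrix.diagonal_apply_ne _ hne, mul_zero]

/-- the eigenvalues are coordinates of points of the fibre -/
theorem zero_of_root [IsAlgClosed F] (hh : Mon d h) (hd : 1 ≤ d) (i : Fin N) {l : F}
    (hl : (Mx hh i).charpoly.eval l = 0) : ∃ z : Fin N → F, (∀ j, eval z (h j) = 0) ∧ z i = l := by
  classical
  set I := Ideal.span (Set.range h) with hI
  set J : Ideal (MvPolynomial (Fin N) F) := I ⊔ Ideal.span {X i - C l} with hJ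
  by_contra hcon
  push Not at hcon
  have hempty : zeroLocus F J = ∅ := by
    rw [Set.eq_empty_iff_forall_notMem]
    intro z hz
    refine hcon z (fun j => ?_) ?_
    · have h1 := hz (h j) (Ideal.mem_sup_left (Ideal.subset_span ⟨j, rfl⟩))
      rwa [aeval_eq_eval] at h1
    · have h1 := hz (X i - C l) (Ideal.mem_sup_right (Ideal.subset_span rfl))
      rw [aeval_eq_eval, map_sub, eval_X, eval_C, sub_eq_zero] at h1
      exact h1
  have htop : J = ⊤ := by
    have h1 := vanishingIdeal_zeroLocus_eq_radical (K := F) J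
    rw [hempty, vanishingIdeal_empty] at h1
    exact (Ideal.radical_eq_top).mp h1.symm
  have h1 : (1 : MvPolynomial (Fin N) F) ∈ J := by
    rw [htop]
    trivial
  rw [hJ, Submodule.mem_sup] at h1
  obtain ⟨a, ha, y, hy, hay⟩ := h1
  rw [Ideal.mem_span_singleton'] at hy
  obtain ⟨q, rfl⟩ := hy
  -- a right inverse of `Mx - l`
  let R : Matrix (Fin N → Fin d) (Fin N → Fin d) F :=
    Matrix.of fun b c => (PB hh).repr (monomial (ei c) 1 * q) (ei b)
  have hR : (Mx hh i - Matrix.scalar _ l) * R = 1 := by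
    ext b' c
    have e1 : monomial (ei c) (1 : F) - (monomial (ei c) 1 * q) * (X i - C l) ∈ I := by
      have e2 : monomial (ei c) (1 : F) - (monomial (ei c) 1 * q) * (X i - C l) =
          monomial (ei c) 1 * a := by
        have e3 : a = 1 - q * (X i - C l) := by rw [← hay]; ring
        rw [e3]
        ring
      rw [e2]
      exact Ideal.mul_mem_left _ _ ha
    set p : MvPolynomial (Fin N) F := monomial (ei c) 1 * q with hp
    have e4 : (p - rem hh p) * (X i - C l) ∈ I := Ideal.mul_mem_right _ _ (sub_rem hh hd p)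
    have e5 : monomial (ei c) (1 : F) - rem hh p * (X i - C l) ∈ I := by
      have := I.add_mem e1 e4
      refine (congrArg (· ∈ I) ?_).mp this
      ring
    have e6 := repr_ideal hh hd e5 (dv_ei b')
    rw [map_sub, Finsupp.sub_apply, sub_eq_zero, ← psi_ei (h := h), repr_psi] at e6
    have e7 : (PB hh).repr (rem hh p * (X i - C l)) (ei b') =
        ∑ b : Fin N → Fin d, (Mx hh i b' b - (Matrix.scalar (Fin N → Fin d) l) b' b) *
          (PB hh).repr p (ei b) := by
      unfold rem
      rw [sum_mul, map_sum, Finsupp.finsetSum_apply]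
      refine sum_congr rfl fun b _ => ?_
      have e8 : (PB hh).repr p (ei b) • monomial (ei b) (1 : F) * (X i - C l) =
          (PB hh).repr p (ei b) • (X i * monomial (ei b) 1 - l • psi d h (ei b)) := by
        rw [psi_ei, MvPolynomial.smul_eq_C_mul, MvPolynomial.smul_eq_C_mul,
          MvPolynomial.smul_eq_C_mul]
        ring
      rw [e8, map_smul, Finsupp.smul_apply, map_sub, Finsupp.sub_apply, map_smul,
        Finsupp.smul_apply, repr_psi, smul_eq_mul, smul_eq_mul, mul_comm]
      congr 2
      rw [Matrix.scalar_apply]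
      by_cases hb : b' = b
      · rw [hb, Matrix.diagonal_apply_eq, Finsupp.single_eq_same, mul_one]
      · rw [Matrix.diagonal_apply_ne _ hb, Finsupp.single_eq_of_ne fun he => hb (ei_inj he),
          mul_zero]
    rw [Matrix.mul_apply]
    show ∑ b, (Mx hh i b' b - (Matrix.scalar (Fin N → Fin d) l) b' b) *
      (PB hh).repr (monomial (ei c) 1 * q) (ei b) = _
    rw [← hp, ← e7, ← e6, Matrix.one_apply]
    by_cases hb : b' = c
    · rw [if_pos hb, hb, Finsupp.single_eq_same]
    · rw [if_neg hb, Finsupp.single_eq_of_ne fun he => hb (ei_inj he)]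
  have h2 := congrArg Matrix.det hR
  rw [Matrix.det_mul, Matrix.det_one] at h2
  have h3 : (Mx hh i - Matrix.scalar _ l).det = 0 := by
    rw [Matrix.eval_charpoly] at hl
    have e1 : Mx hh i - Matrix.scalar _ l = -(Matrix.scalar _ l - Mx hh i) := by
      rw [neg_sub]
    rw [e1, Matrix.det_neg, hl, mul_zero]
  rw [h3, zero_mul] at h2
  exact zero_ne_one h2

/-- the trace of the multiplication by a variable -/
theorem trace_Mx (hh : Mon d h) (hd : 2 ≤ d) (i : Fin N)
    (hcen : coeff (Finsupp.single i (d - 1)) (h i) = 0) : (Mx hh i).trace = 0 := by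
  classical
  unfold Matrix.trace
  refine sum_eq_zero fun b _ => ?_
  show (PB hh).repr (X i * monomial (ei b) 1) (ei b) = 0
  have hbi := (b i).2
  by_cases hb : (b i : ℕ) + 1 < d
  · have e1 : (X i * monomial (ei b) 1 : MvPolynomial (Fin N) F) =
        psi d h (Finsupp.single i 1 + ei b) := by
      have h1 : dv d (Finsupp.single i 1 + ei b) = 0 := by
        ext j
        rw [dv_apply, Finsupp.add_apply, ei_apply]
        refine Nat.div_eq_of_lt ?_
        by_cases hj : i = j
        · rw [← hj, Finsupp.single_eq_same]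
          omega
        · rw [Finsupp.single_eq_of_ne (Ne.symm hj), zero_add]
          exact (b j).2
      rw [psi_of_dv h1, X, monomial_mul, one_mul]
    rw [e1, repr_psi, Finsupp.single_eq_of_ne]
    intro he
    have h1 := congrFun (congrArg DFunLike.coe he) i
    rw [Finsupp.add_apply, Finsupp.single_eq_same] at h1
    omega
  · have hb1 : (b i : ℕ) = d - 1 := by omega
    set β : Fin N →₀ ℕ := (ei b).erase i with hβ
    have e1 : ei b = β + Finsupp.single i (d - 1) := by
      have h1 := Finsupp.erase_add_single i (ei b)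
      rw [ei_apply, hb1] at h1
      exact h1.symm
    have e2 : (X i * monomial (ei b) 1 : MvPolynomial (Fin N) F) =
        monomial β 1 * h i - monomial β 1 * low d h i := by
      have h1 : Finsupp.single i 1 + (β + Finsupp.single i (d - 1)) = β + Finsupp.single i d := by
        rw [add_left_comm, ← Finsupp.single_add]
        congr 2
        omega
      unfold low
      rw [mul_sub, sub_sub_cancel, monomial_mul, one_mul, X, monomial_mul, one_mul, e1, h1]
    have e3 : (PB hh).repr (monomial β 1 * h i) (ei b) = 0 :=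
      repr_ideal hh (by omega) (Ideal.mul_mem_left _ _ (Ideal.subset_span ⟨i, rfl⟩)) (dv_ei b)
    have e4 : DG (ei b).degree (monomial β 1 * low d h i) := by
      have h1 : DG (d - 1) (low d h i) := by
        intro α hα
        have := hh.low i α hα
        omega
      have h2 := (DG.monomial' β (1 : F)).mul h1
      rw [e1, map_add, Finsupp.degree_single]
      exact h2
    rw [e2, map_sub, Finsupp.sub_apply, e3, zero_sub, neg_eq_zero, repr_top hh e4]
    rw [e1, coeff_monomial_mul, one_mul, coeff_low h i (by rw [Finsupp.degree_single]; omega)]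
    exact hcen

/-- **Two far points in the fibre of a centred map.** -/
theorem far_fibre [IsAlgClosed F] (hh : Mon d h) (hd : 2 ≤ d) (i : Fin N)
    (hcen : coeff (Finsupp.single i (d - 1)) (h i) = 0) (w : AbsoluteValue F ℝ) {z : Fin N → F}
    (hz : ∀ j, eval z (h j) = 0) : ∃ z' : Fin N → F, (∀ j, eval z' (h j) = 0) ∧
      (w d / d) ^ N * w (z i) ≤ w (z i - z' i) := by
  classical
  have hd0 : (0 : ℝ) < d := by exact_mod_cast (by omega : 0 < d)
  set S := (Mx hh i).charpoly.roots with hS
  have hsum : S.sum = 0 := by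
    rw [hS, ← Matrix.trace_eq_sum_roots_charpoly, trace_Mx hh hd i hcen]
  have hne : (Mx hh i).charpoly ≠ 0 := (Matrix.charpoly_monic _).ne_zero
  have hcard : S.card = d ^ N := by
    rw [hS, (IsAlgClosed.splits _).natDegree_eq_card_roots.symm, Matrix.charpoly_natDegree_eq_dim,
      Fintype.card_fun, Fintype.card_fin, Fintype.card_fin]
  by_contra hcon
  push Not at hcon
  have hall : ∀ l ∈ S, w (z i - l) < (w d / d) ^ N * w (z i) := by
    intro l hl
    rw [hS, Polynomial.mem_roots hne, Polynomial.IsRoot.def] at hl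
    obtain ⟨z', h1, h2⟩ := zero_of_root hh (by omega) i hl
    rw [← h2]
    exact hcon z' h1
  have hmem : z i ∈ S := by
    rw [hS, Polynomial.mem_roots hne, Polynomial.IsRoot.def]
    exact root_of_zero hh (by omega) hz i
  have h1 : (S.map fun l => z i - l).sum = (d : F) ^ N * z i := by
    rw [Multiset.sum_map_sub, Multiset.map_id', hsum, sub_zero, Multiset.map_const',
      Multiset.sum_replicate, hcard, nsmul_eq_mul, Nat.cast_pow]
  have h2 : w ((S.map fun l => z i - l).sum) ≤ (S.map fun l => w (z i - l)).sum := by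
    have h3 := Multiset.le_sum_of_subadditive w (map_zero w).le w.add_le (S.map fun l => z i - l)
    rwa [Multiset.map_map] at h3
  have h3 : (S.map fun l => w (z i - l)).sum < (S.map fun _ => (w d / d) ^ N * w (z i)).sum := by
    refine Multiset.sum_lt_sum_of_nonempty ?_ hall
    intro h0
    rw [h0] at hmem
    exact Multiset.notMem_zero _ hmem
  rw [Multiset.map_const', Multiset.sum_replicate, hcard, nsmul_eq_mul] at h3
  rw [h1, map_mul, map_pow] at h2
  have h4 : ((d ^ N : ℕ) : ℝ) * ((w d / d) ^ N * w (z i)) = w d ^ N * w (z i) := by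
    push_cast
    rw [div_pow]
    field_simp
  rw [h4] at h3
  linarith

end Pool.Agent.DLN
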